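import Pool.Agent.FBH.Defs

/-!
LPMul. Elementary facts on Laurent polynomials (span induction; `zpow_add₀` on `x.2 ≠ 0`).
`lpoly_form`: each monomial `z^i w^K` is `P/w^m` with `P = z^i w^(K+m)`, `m ≥ 1` large; sums: common `m`.
-/

set_option autoImplicit false

open Metric Set Filter Topology

namespace FBH

theorem LPMul_mono (i : ℕ) (K : ℤ) : (fun x : V2 => x.1 ^ i * x.2 ^ K) ∈ LPoly :=
  Submodule.subset_span ⟨i, K, rfl⟩

theorem lpoly_const (c : ℂ) : (fun _ : V2 => c) ∈ LPoly := by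
  have h := LPoly.smul_mem c (LPMul_mono 0 0)
  convert h using 1
  funext x
  simp

theorem lpoly_fst : (fun x : V2 => x.1) ∈ LPoly := by
  have h := LPMul_mono 1 0
  convert h using 1
  funext x
  simp

theorem lpoly_snd : (fun x : V2 => x.2) ∈ LPoly := by
  have h := LPMul_mono 0 1
  convert h using 1
  funext x
  simp

theorem lpoly_inv : (fun x : V2 => (x.2)⁻¹) ∈ LPoly := by
  have h := LPMul_mono 0 (-1)
  convert h using 1
  funext x
  simp

theorem lpoly_mul {f g : V2 → ℂ} (hf : f ∈ LPoly) (hg : g ∈ LPoly) :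
    ∃ k ∈ LPoly, ∀ x : V2, x.2 ≠ 0 → k x = f x * g x := by
  unfold LPoly at hf
  induction hf using Submodule.span_induction with
  | mem f hf =>
    obtain ⟨i, K, rfl⟩ := hf
    unfold LPoly at hg
    induction hg using Submodule.span_induction with
    | mem g hg =>
      obtain ⟨j, L, rfl⟩ := hg
      refine ⟨_, LPMul_mono (i + j) (K + L), ?_⟩
      intro x hx
      simp only
      rw [pow_add, zpow_add₀ hx]
      ring
    | zero => exact ⟨0, LPoly.zero_mem, fun x _ => by simp⟩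
    | add g₁ g₂ _ _ h1 h2 =>
      obtain ⟨k1, hk1, h1⟩ := h1
      obtain ⟨k2, hk2, h2⟩ := h2
      refine ⟨k1 + k2, LPoly.add_mem hk1 hk2, fun x hx => ?_⟩
      simp only [Pi.add_apply]
      rw [h1 x hx, h2 x hx]
      ring
    | smul c g _ h =>
      obtain ⟨k, hk, h⟩ := h
      refine ⟨c • k, LPoly.smul_mem c hk, fun x hx => ?_⟩
      simp only [Pi.smul_apply, smul_eq_mul]
      rw [h x hx]
      ring
  | zero => exact ⟨0, LPoly.zero_mem, fun x _ => by simp⟩
  | add g₁ g₂ _ _ h1 h2 =>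
    obtain ⟨k1, hk1, h1⟩ := h1
    obtain ⟨k2, hk2, h2⟩ := h2
    refine ⟨k1 + k2, LPoly.add_mem hk1 hk2, fun x hx => ?_⟩
    simp only [Pi.add_apply]
    rw [h1 x hx, h2 x hx]
    ring
  | smul c g _ h =>
    obtain ⟨k, hk, h⟩ := h
    refine ⟨c • k, LPoly.smul_mem c hk, fun x hx => ?_⟩
    simp only [Pi.smul_apply, smul_eq_mul]
    rw [h x hx]
    ring

theorem lpoly_diff {f : V2 → ℂ} (hf : f ∈ LPoly) : DifferentiableOn ℂ f XS := by
  unfold LPoly at hf
  induction hf using Submodule.span_induction with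
  | mem f hf =>
    obtain ⟨i, K, rfl⟩ := hf
    intro x hx
    have hx2 : x.2 ≠ 0 := hx
    have h1 : DifferentiableAt ℂ (fun x : V2 => x.2 ^ K) x :=
      DifferentiableAt.zpow differentiableAt_snd (Or.inl hx2)
    have h2 : DifferentiableAt ℂ (fun x : V2 => x.1 ^ i) x := by fun_prop
    exact (h2.fun_mul h1).differentiableWithinAt
  | zero => exact differentiableOn_const 0
  | add g₁ g₂ _ _ h1 h2 => exact h1.add h2
  | smul c g _ h => exact h.const_smul c

theorem lpoly_form {L : V2 → ℂ} (hL : L ∈ LPoly) :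
    ∃ (m : ℕ) (P : V2 → ℂ), 1 ≤ m ∧ Differentiable ℂ P ∧ ∀ x : V2, x.2 ≠ 0 → L x = P x / x.2 ^ m := by
  unfold LPoly at hL
  induction hL using Submodule.span_induction with
  | mem f hf =>
    obtain ⟨i, K, rfl⟩ := hf
    refine ⟨K.natAbs + 1, fun x => x.1 ^ i * x.2 ^ (K + (K.natAbs + 1 : ℕ)).toNat, by omega,
      by fun_prop, ?_⟩
    intro x hx
    simp only
    rw [eq_div_iff (pow_ne_zero _ hx), mul_assoc]
    congr 1
    rw [← zpow_natCast x.2 (K.natAbs + 1), ← zpow_add₀ hx, ← zpow_natCast x.2,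
      Int.toNat_of_nonneg (by omega)]
  | zero => exact ⟨1, fun _ => 0, le_rfl, differentiable_const 0, fun x _ => by simp⟩
  | add g₁ g₂ _ _ h1 h2 =>
    obtain ⟨m1, P1, _, d1, h1⟩ := h1
    obtain ⟨m2, P2, hm2, d2, h2⟩ := h2
    refine ⟨m1 + m2, fun x => P1 x * x.2 ^ m2 + P2 x * x.2 ^ m1, by omega, by fun_prop, ?_⟩
    intro x hx
    simp only [Pi.add_apply]
    rw [h1 x hx, h2 x hx, pow_add]
    field_simp
  | smul c g _ h =>
    obtain ⟨m, P, hm, d, h⟩ := h
    refine ⟨m, fun x => c * P x, hm, by fun_prop, ?_⟩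
    intro x hx
    simp only [Pi.smul_apply, smul_eq_mul]
    rw [h x hx]
    ring

end FBH
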