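import Pool.Agent.FBH.Defs
import Pool.Agent.FBH.LPMul

/-!
LPBasic. The functions `LAp`-approximable along `g` form an algebra (on sets where they are bounded and `g` takes
values in `X`), closed under uniform limits. `lap_mul`: `‖h₁h₂ - L₁L₂‖ ≤ ‖h₁‖‖h₂-L₂‖ + ‖L₂‖‖h₁-L₁‖`, `L₁ L₂` is a Laurent
polynomial on `X` by lpoly_mul. `lap_pow` by induction.
-/

set_option autoImplicit false

open Metric Set Filter Topology

namespace FBH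

theorem lap_of_lpoly {α : Type*} (S : Set α) (g : α → V2) {L : V2 → ℂ} (hL : L ∈ LPoly) :
    LAp S g (fun x => L (g x)) := by
  intro ε hε
  exact ⟨L, hL, fun x _ => by simpa using hε⟩

theorem lap_const {α : Type*} (S : Set α) (g : α → V2) (c : ℂ) : LAp S g (fun _ => c) := by
  exact lap_of_lpoly S g (lpoly_const c)

theorem lap_congr {α : Type*} {S : Set α} {g : α → V2} {h h' : α → ℂ} (hh : LAp S g h)
    (he : ∀ x ∈ S, h' x = h x) : LAp S g h' := by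
  intro ε hε
  obtain ⟨L, hL, h1⟩ := hh ε hε
  exact ⟨L, hL, fun x hx => by rw [he x hx]; exact h1 x hx⟩

theorem lap_mono {α : Type*} {S S' : Set α} {g : α → V2} {h : α → ℂ} (hh : LAp S g h)
    (hs : S' ⊆ S) : LAp S' g h := by
  intro ε hε
  obtain ⟨L, hL, h1⟩ := hh ε hε
  exact ⟨L, hL, fun x hx => h1 x (hs hx)⟩

theorem lap_add {α : Type*} {S : Set α} {g : α → V2} {h₁ h₂ : α → ℂ} (h1 : LAp S g h₁)
    (h2 : LAp S g h₂) : LAp S g (fun x => h₁ x + h₂ x) := by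
  intro ε hε
  obtain ⟨L₁, hL₁, k1⟩ := h1 (ε / 2) (half_pos hε)
  obtain ⟨L₂, hL₂, k2⟩ := h2 (ε / 2) (half_pos hε)
  refine ⟨L₁ + L₂, LPoly.add_mem hL₁ hL₂, fun x hx => ?_⟩
  have e : h₁ x + h₂ x - (L₁ + L₂) (g x) = (h₁ x - L₁ (g x)) + (h₂ x - L₂ (g x)) := by
    rw [Pi.add_apply]; ring
  rw [e]
  calc _ ≤ ‖h₁ x - L₁ (g x)‖ + ‖h₂ x - L₂ (g x)‖ := norm_add_le _ _
    _ < ε / 2 + ε / 2 := add_lt_add (k1 x hx) (k2 x hx)
    _ = ε := by ring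

theorem lap_sub {α : Type*} {S : Set α} {g : α → V2} {h₁ h₂ : α → ℂ} (h1 : LAp S g h₁)
    (h2 : LAp S g h₂) : LAp S g (fun x => h₁ x - h₂ x) := by
  intro ε hε
  obtain ⟨L₁, hL₁, k1⟩ := h1 (ε / 2) (half_pos hε)
  obtain ⟨L₂, hL₂, k2⟩ := h2 (ε / 2) (half_pos hε)
  refine ⟨L₁ - L₂, LPoly.sub_mem hL₁ hL₂, fun x hx => ?_⟩
  have e : h₁ x - h₂ x - (L₁ - L₂) (g x) = (h₁ x - L₁ (g x)) - (h₂ x - L₂ (g x)) := by
    rw [Pi.sub_apply]; ring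
  rw [e]
  calc _ ≤ ‖h₁ x - L₁ (g x)‖ + ‖h₂ x - L₂ (g x)‖ := norm_sub_le _ _
    _ < ε / 2 + ε / 2 := add_lt_add (k1 x hx) (k2 x hx)
    _ = ε := by ring

theorem lap_smul {α : Type*} {S : Set α} {g : α → V2} {h : α → ℂ} (c : ℂ) (h1 : LAp S g h) :
    LAp S g (fun x => c * h x) := by
  intro ε hε
  have hc : 0 < ‖c‖ + 1 := by positivity
  obtain ⟨L, hL, k⟩ := h1 (ε / (‖c‖ + 1)) (div_pos hε hc)
  refine ⟨c • L, LPoly.smul_mem c hL, fun x hx => ?_⟩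
  have e : c * h x - (c • L) (g x) = c * (h x - L (g x)) := by
    rw [Pi.smul_apply, smul_eq_mul]; ring
  rw [e, norm_mul]
  calc ‖c‖ * ‖h x - L (g x)‖ ≤ ‖c‖ * (ε / (‖c‖ + 1)) :=
        mul_le_mul_of_nonneg_left (k x hx).le (norm_nonneg _)
    _ < (‖c‖ + 1) * (ε / (‖c‖ + 1)) := mul_lt_mul_of_pos_right (by linarith) (div_pos hε hc)
    _ = ε := by field_simp

theorem lap_limit {α : Type*} {S : Set α} {g : α → V2} {h : α → ℂ}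
    (hl : ∀ ε : ℝ, 0 < ε → ∃ h' : α → ℂ, LAp S g h' ∧ ∀ x ∈ S, ‖h x - h' x‖ ≤ ε) : LAp S g h := by
  intro ε hε
  obtain ⟨h', k1, k2⟩ := hl (ε / 2) (half_pos hε)
  obtain ⟨L, hL, k⟩ := k1 (ε / 2) (half_pos hε)
  refine ⟨L, hL, fun x hx => ?_⟩
  have e : h x - L (g x) = (h x - h' x) + (h' x - L (g x)) := by ring
  rw [e]
  calc _ ≤ ‖h x - h' x‖ + ‖h' x - L (g x)‖ := norm_add_le _ _
    _ < ε / 2 + ε / 2 := add_lt_add_of_le_of_lt (k2 x hx) (k x hx)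
    _ = ε := by ring

theorem lap_mul {α : Type*} {S : Set α} {g : α → V2} (hg : ∀ x ∈ S, (g x).2 ≠ 0) {h₁ h₂ : α → ℂ}
    (M : ℝ) (hM₁ : ∀ x ∈ S, ‖h₁ x‖ ≤ M) (hM₂ : ∀ x ∈ S, ‖h₂ x‖ ≤ M) (h1 : LAp S g h₁)
    (h2 : LAp S g h₂) : LAp S g (fun x => h₁ x * h₂ x) := by
  intro ε hε
  have hM : 0 < |M| + 1 := by positivity
  have hδ : 0 < min 1 (ε / (2 * (|M| + 1))) := lt_min one_pos (div_pos hε (by positivity))
  obtain ⟨L₁, hL₁, k1⟩ := h1 _ hδ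
  obtain ⟨L₂, hL₂, k2⟩ := h2 _ hδ
  obtain ⟨k, hk, hkm⟩ := lpoly_mul hL₁ hL₂
  refine ⟨k, hk, fun x hx => ?_⟩
  rw [hkm _ (hg x hx)]
  have a1 := k1 x hx
  have a2 := k2 x hx
  have d1 : min 1 (ε / (2 * (|M| + 1))) ≤ 1 := min_le_left _ _
  have d2 : min 1 (ε / (2 * (|M| + 1))) ≤ ε / (2 * (|M| + 1)) := min_le_right _ _
  set δ := min 1 (ε / (2 * (|M| + 1))) with hδd
  have b1 : ‖h₁ x‖ ≤ |M| := (hM₁ x hx).trans (le_abs_self M)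
  have b2 : ‖h₂ x‖ ≤ |M| := (hM₂ x hx).trans (le_abs_self M)
  have b3 : ‖L₂ (g x)‖ ≤ |M| + 1 := by
    have e : L₂ (g x) = h₂ x - (h₂ x - L₂ (g x)) := by ring
    rw [e]
    calc _ ≤ ‖h₂ x‖ + ‖h₂ x - L₂ (g x)‖ := norm_sub_le _ _
      _ ≤ |M| + 1 := by linarith
  have e : h₁ x * h₂ x - L₁ (g x) * L₂ (g x) =
      h₁ x * (h₂ x - L₂ (g x)) + L₂ (g x) * (h₁ x - L₁ (g x)) := by ring
  rw [e]
  have c1 : ‖h₁ x * (h₂ x - L₂ (g x))‖ ≤ |M| * δ := by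
    rw [norm_mul]
    exact mul_le_mul b1 a2.le (norm_nonneg _) (abs_nonneg _)
  have c2 : ‖L₂ (g x) * (h₁ x - L₁ (g x))‖ ≤ (|M| + 1) * δ := by
    rw [norm_mul]
    exact mul_le_mul b3 a1.le (norm_nonneg _) hM.le
  have c3 : (2 * (|M| + 1)) * δ ≤ ε := by
    calc (2 * (|M| + 1)) * δ ≤ (2 * (|M| + 1)) * (ε / (2 * (|M| + 1))) :=
          mul_le_mul_of_nonneg_left d2 (by positivity)
      _ = ε := by field_simp
  calc _ ≤ ‖h₁ x * (h₂ x - L₂ (g x))‖ + ‖L₂ (g x) * (h₁ x - L₁ (g x))‖ := norm_add_le _ _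
    _ ≤ |M| * δ + (|M| + 1) * δ := add_le_add c1 c2
    _ < (2 * (|M| + 1)) * δ := by nlinarith
    _ ≤ ε := c3

theorem lap_pow {α : Type*} {S : Set α} {g : α → V2} (hg : ∀ x ∈ S, (g x).2 ≠ 0) {h : α → ℂ}
    (M : ℝ) (hM : ∀ x ∈ S, ‖h x‖ ≤ M) (h1 : LAp S g h) (n : ℕ) : LAp S g (fun x => h x ^ n) := by
  induction n with
  | zero =>
    simp only [pow_zero]
    exact lap_const S g 1
  | succ n ih =>
    have e : (fun x => h x ^ (n + 1)) = fun x => h x ^ n * h x := by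
      funext x
      rw [pow_succ]
    rw [e]
    have m1 : (1:ℝ) ≤ max M 1 := le_max_right _ _
    refine lap_mul hg ((max M 1) ^ (n + 1)) (fun x hx => ?_) (fun x hx => ?_) ih h1
    · rw [norm_pow]
      calc ‖h x‖ ^ n ≤ (max M 1) ^ n :=
            pow_le_pow_left₀ (norm_nonneg _) ((hM x hx).trans (le_max_left _ _)) n
        _ ≤ (max M 1) ^ (n + 1) := pow_le_pow_right₀ m1 (Nat.le_succ n)
    · calc ‖h x‖ ≤ max M 1 := (hM x hx).trans (le_max_left _ _)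
        _ = (max M 1) ^ 1 := (pow_one _).symm
        _ ≤ (max M 1) ^ (n + 1) := pow_le_pow_right₀ m1 (by omega)

end FBH
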