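import Pool.Agent.FBH.Defs
import Pool.Agent.FBH.LPBasic

/-!
LPComp. Substitution rules.
`lap_comp`: given `ε`, take a Laurent polynomial `L` with `‖h - L‖ < ε` on `K`. Then `L (ν x)` is a finite combination of
`(ν x).1^i * (ν x).2^K`, a product of powers of the three functions `(ν x).1`, `(ν x).2`, `((ν x).2)⁻¹`, all bounded on `S`
(`K` compact in `X`), so LAp by lap_mul, lap_pow, lap_add (span induction over `LPoly`). Conclude with lap_limit.
`lap_poly`: for a polynomial `p`, `x ↦ p.eval (h x)` is LAp (induction on `p`); then lap_limit.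
`lap_bpoly`: span induction over `BPoly`.
-/

set_option autoImplicit false

open Metric Set Filter Topology

namespace FBH

theorem lpcomp_powmul {α : Type*} {S : Set α} {g : α → V2} (hg : ∀ x ∈ S, (g x).2 ≠ 0) {h₁ h₂ : α → ℂ}
    (M : ℝ) (hM₁ : ∀ x ∈ S, ‖h₁ x‖ ≤ M) (hM₂ : ∀ x ∈ S, ‖h₂ x‖ ≤ M) (h1 : LAp S g h₁)
    (h2 : LAp S g h₂) (i j : ℕ) : LAp S g (fun x => h₁ x ^ i * h₂ x ^ j) := by
  have b : ∀ (f : α → ℂ), (∀ x ∈ S, ‖f x‖ ≤ M) → ∀ n : ℕ, ∀ x ∈ S, ‖f x ^ n‖ ≤ M ^ n := by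
    intro f hf n x hx
    rw [norm_pow]
    exact pow_le_pow_left₀ (norm_nonneg _) (hf x hx) n
  refine lap_mul hg (max (M ^ i) (M ^ j)) ?_ ?_ (lap_pow hg M hM₁ h1 i) (lap_pow hg M hM₂ h2 j)
  · intro x hx
    exact (b h₁ hM₁ i x hx).trans (le_max_left _ _)
  · intro x hx
    exact (b h₂ hM₂ j x hx).trans (le_max_right _ _)

theorem lap_comp {α : Type*} {S : Set α} {g ν : α → V2} (hg : ∀ x ∈ S, (g x).2 ≠ 0) (K : Set V2)
    (hK : IsCompact K) (hKX : K ⊆ XS) (hν : ∀ x ∈ S, ν x ∈ K) (h1 : LAp S g (fun x => (ν x).1))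
    (h2 : LAp S g (fun x => (ν x).2)) (h3 : LAp S g (fun x => ((ν x).2)⁻¹)) (h : V2 → ℂ)
    (hh : LAp K (fun x : V2 => x) h) : LAp S g (fun x => h (ν x)) := by
  obtain ⟨M1, hM1⟩ := hK.exists_bound_of_continuousOn (f := fun y : V2 => y.1) continuous_fst.continuousOn
  obtain ⟨M2, hM2⟩ := hK.exists_bound_of_continuousOn (f := fun y : V2 => y.2) continuous_snd.continuousOn
  obtain ⟨M3, hM3⟩ := hK.exists_bound_of_continuousOn (f := fun y : V2 => (y.2)⁻¹)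
    (continuous_snd.continuousOn.inv₀ (fun y hy => hKX hy))
  have m1 : M1 ≤ max M1 (max M2 M3) := le_max_left _ _
  have m2 : M2 ≤ max M1 (max M2 M3) := (le_max_left _ _).trans (le_max_right _ _)
  have m3 : M3 ≤ max M1 (max M2 M3) := (le_max_right _ _).trans (le_max_right _ _)
  have b1 : ∀ x ∈ S, ‖(ν x).1‖ ≤ max M1 (max M2 M3) := fun x hx => (hM1 _ (hν x hx)).trans m1
  have b2 : ∀ x ∈ S, ‖(ν x).2‖ ≤ max M1 (max M2 M3) := fun x hx => (hM2 _ (hν x hx)).trans m2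
  have b3 : ∀ x ∈ S, ‖((ν x).2)⁻¹‖ ≤ max M1 (max M2 M3) := fun x hx => (hM3 _ (hν x hx)).trans m3
  have key : ∀ L ∈ LPoly, LAp S g (fun x => L (ν x)) := by
    intro L hL
    unfold LPoly at hL
    induction hL using Submodule.span_induction with
    | mem f hf =>
      obtain ⟨i, k, rfl⟩ := hf
      obtain ⟨n, rfl | rfl⟩ := k.eq_nat_or_neg
      · simp only [zpow_natCast]
        exact lpcomp_powmul hg _ b1 b2 h1 h2 i n
      · simp only [zpow_neg, zpow_natCast, ← inv_pow]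
        exact lpcomp_powmul hg _ b1 b3 h1 h3 i n
    | zero => exact lap_const S g 0
    | add f f' _ _ hf hf' => exact lap_add hf hf'
    | smul c f _ hf => exact lap_smul c hf
  refine lap_limit fun ε hε => ?_
  obtain ⟨L, hL, hL2⟩ := hh ε hε
  exact ⟨fun x => L (ν x), key L hL, fun x hx => (hL2 _ (hν x hx)).le⟩

theorem lap_poly {α : Type*} {S : Set α} {g : α → V2} (hg : ∀ x ∈ S, (g x).2 ≠ 0) {h : α → ℂ}
    (M : ℝ) (hM : ∀ x ∈ S, ‖h x‖ ≤ M) (h1 : LAp S g h) (K : Set ℂ) (hK : ∀ x ∈ S, h x ∈ K)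
    (F : ℂ → ℂ) (hF : ∀ ε : ℝ, 0 < ε → ∃ p : Polynomial ℂ, ∀ u ∈ K, ‖F u - p.eval u‖ < ε) :
    LAp S g (fun x => F (h x)) := by
  have key : ∀ p : Polynomial ℂ, LAp S g (fun x => p.eval (h x)) := by
    intro p
    induction p using Polynomial.induction_on' with
    | add p q hp hq =>
      simp only [Polynomial.eval_add]
      exact lap_add hp hq
    | monomial n a =>
      simp only [Polynomial.eval_monomial]
      exact lap_smul a (lap_pow hg M hM h1 n)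
  refine lap_limit fun ε hε => ?_
  obtain ⟨p, hp⟩ := hF ε hε
  exact ⟨fun x => p.eval (h x), key p, fun x hx => (hp _ (hK x hx)).le⟩

theorem lap_bpoly {α : Type*} {S : Set α} {g : α → V2} (hg : ∀ x ∈ S, (g x).2 ≠ 0) {h₁ h₂ : α → ℂ}
    (M : ℝ) (hM₁ : ∀ x ∈ S, ‖h₁ x‖ ≤ M) (hM₂ : ∀ x ∈ S, ‖h₂ x‖ ≤ M) (h1 : LAp S g h₁)
    (h2 : LAp S g h₂) {B : V2 → ℂ} (hB : B ∈ BPoly) : LAp S g (fun x => B (h₁ x, h₂ x)) := by
  unfold BPoly at hB
  induction hB using Submodule.span_induction with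
  | mem f hf =>
    obtain ⟨i, j, rfl⟩ := hf
    exact lpcomp_powmul hg M hM₁ hM₂ h1 h2 i j
  | zero => exact lap_const S g 0
  | add f f' _ _ hf hf' => exact lap_add hf hf'
  | smul c f _ hf => exact lap_smul c hf

end FBH
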