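import Pool.Agent.FBH.Defs
import Pool.Agent.FBH.LPBasic
import Pool.Agent.FBH.LPComp

/-!
LAComp. `LAut` is closed under composition and iteration. For `app1`-`app3` of a composition use lap_comp with
`ν = Θ₂`, `g = id`, compact set `Θ₂ '' K ⊆ X`, and `app1`-`app3` of `Θ₁` on `Θ₂ '' K`.
-/

set_option autoImplicit false

open Metric Set Filter Topology

namespace FBH

theorem laut_id : LAut (fun x : V2 => x) (fun x : V2 => x) := by
  refine ⟨fun x h => h, fun x h => h, fun x _ => rfl, fun x _ => rfl, differentiableOn_id,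
    differentiableOn_id, ?_, ?_, ?_⟩
  · intro K hK hKX
    exact lap_of_lpoly K (fun x : V2 => x) lpoly_fst
  · intro K hK hKX
    exact lap_of_lpoly K (fun x : V2 => x) lpoly_snd
  · intro K hK hKX
    exact lap_of_lpoly K (fun x : V2 => x) lpoly_inv

theorem laut_comp {Θ₁ Θ₁' Θ₂ Θ₂' : V2 → V2} (h₁ : LAut Θ₁ Θ₁') (h₂ : LAut Θ₂ Θ₂') :
    LAut (fun x => Θ₁ (Θ₂ x)) (fun x => Θ₂' (Θ₁' x)) := by
  have hmap : MapsTo Θ₂ XS XS := fun x hx => h₂.mapsX x hx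
  have hmap' : MapsTo Θ₁' XS XS := fun x hx => h₁.mapsX' x hx
  have himg : ∀ K : Set V2, IsCompact K → K ⊆ XS → IsCompact (Θ₂ '' K) ∧ Θ₂ '' K ⊆ XS := by
    intro K hK hKX
    refine ⟨hK.image_of_continuousOn (h₂.diff.continuousOn.mono hKX), ?_⟩
    rintro _ ⟨x, hx, rfl⟩
    exact hmap (hKX hx)
  refine ⟨fun x hx => h₁.mapsX _ (h₂.mapsX x hx), fun x hx => h₂.mapsX' _ (h₁.mapsX' x hx),
    ?_, ?_, ?_, ?_, ?_, ?_, ?_⟩
  · intro x hx
    show Θ₂' (Θ₁' (Θ₁ (Θ₂ x))) = x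
    rw [h₁.left _ (h₂.mapsX x hx), h₂.left x hx]
  · intro x hx
    show Θ₁ (Θ₂ (Θ₂' (Θ₁' x))) = x
    rw [h₂.right _ (h₁.mapsX' x hx), h₁.right x hx]
  · exact h₁.diff.comp h₂.diff hmap
  · exact h₂.diff'.comp h₁.diff' hmap'
  · intro K hK hKX
    exact lap_comp (fun x hx => hKX hx) (Θ₂ '' K) (himg K hK hKX).1 (himg K hK hKX).2
      (fun x hx => mem_image_of_mem _ hx) (h₂.app1 K hK hKX) (h₂.app2 K hK hKX)
      (h₂.app3 K hK hKX) (fun x => (Θ₁ x).1) (h₁.app1 _ (himg K hK hKX).1 (himg K hK hKX).2)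
  · intro K hK hKX
    exact lap_comp (fun x hx => hKX hx) (Θ₂ '' K) (himg K hK hKX).1 (himg K hK hKX).2
      (fun x hx => mem_image_of_mem _ hx) (h₂.app1 K hK hKX) (h₂.app2 K hK hKX)
      (h₂.app3 K hK hKX) (fun x => (Θ₁ x).2) (h₁.app2 _ (himg K hK hKX).1 (himg K hK hKX).2)
  · intro K hK hKX
    exact lap_comp (fun x hx => hKX hx) (Θ₂ '' K) (himg K hK hKX).1 (himg K hK hKX).2
      (fun x hx => mem_image_of_mem _ hx) (h₂.app1 K hK hKX) (h₂.app2 K hK hKX)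
      (h₂.app3 K hK hKX) (fun x => ((Θ₁ x).2)⁻¹) (h₁.app3 _ (himg K hK hKX).1 (himg K hK hKX).2)

theorem laut_iter {ψ ψ' : V2 → V2} (h : LAut ψ ψ') (n : ℕ) : LAut (ψ^[n]) (ψ'^[n]) := by
  induction n with
  | zero => exact laut_id
  | succ n ih =>
    have h1 := laut_comp h ih
    have e1 : (fun x => ψ (ψ^[n] x)) = ψ^[n + 1] := by
      funext x
      rw [Function.iterate_succ_apply']
    have e2 : (fun x => ψ'^[n] (ψ' x)) = ψ'^[n + 1] := by
      funext x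
      rw [Function.iterate_succ_apply]
    rw [e1, e2] at h1
    exact h1

end FBH
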