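import Pool.Agent.FBH.Defs
import Pool.Agent.FBH.LAComp

/-!
InfAdd. `InfA` is closed under sums, uniform limits on compact sets and change of values off `X`.
`infA_add`: let `K ⊆ X` compact and `ε > 0`. Choose `r > 0` such that `K' = cthickening r K` is compact and contained in
`X` (finite dimension; `K` compact, `X` open). Let `M` bound `‖W‖` on `K`. Let `φ_h` be given by `InfA W` on `K` with `ε/4`
(or `min ε 1 / 4`) and `ψ_h` by `InfA V` on `K'`. For small `h`, `‖φ_h x - x‖ ≤ h (M+1) ≤ r`, so `φ_h x ∈ K'` and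
`‖V (φ_h x) - V x‖ ≤ ε/4` by uniform continuity of `V` on `K'`. Then `ψ_h ∘ φ_h` (laut_comp) satisfies
`‖ψ(φ x) - x - h (V+W) x‖ ≤ ‖ψ(φ x) - φ x - h V(φ x)‖ + ‖φ x - x - h W x‖ + h ‖V(φ x) - V x‖ ≤ ε h`.
-/

set_option autoImplicit false

open Metric Set Filter Topology

namespace FBH

private theorem infAdd_smul (h : ℝ) (hh : 0 < h) (v : V2) : ‖(h:ℂ) • v‖ = h * ‖v‖ := by
  rw [norm_smul, Complex.norm_real, Real.norm_eq_abs, abs_of_pos hh]

theorem infA_add {V W : V2 → V2} (hV : InfA V) (hW : InfA W) (cV : ContinuousOn V XS)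
    (cW : ContinuousOn W XS) : InfA (fun x => V x + W x) := by
  intro K hK hKX ε hε
  have hopen : IsOpen XS := isOpen_ne.preimage continuous_snd
  obtain ⟨r, hr, hrX⟩ := hK.exists_cthickening_subset_open hopen hKX
  have hK'c : IsCompact (cthickening r K) := hK.cthickening
  have hKK' : K ⊆ cthickening r K := self_subset_cthickening K
  obtain ⟨M, hM⟩ := hK.exists_bound_of_continuousOn (cW.mono hKX)
  have hU := hK'c.uniformContinuousOn_of_continuous (cV.mono hrX)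
  rw [Metric.uniformContinuousOn_iff] at hU
  obtain ⟨δ, hδ, hU⟩ := hU (ε / 4) (by positivity)
  obtain ⟨a, ha, hφ⟩ := hW K hK hKX (ε / 4) (by positivity)
  obtain ⟨b, hb, hψ⟩ := hV _ hK'c hrX (ε / 4) (by positivity)
  set B : ℝ := max M 0 + ε / 4 with hB
  have hBpos : 0 < B := by
    have := le_max_right M 0
    positivity
  refine ⟨min (min a b) (min r δ / B), ?_, ?_⟩
  · exact lt_min (lt_min ha hb) (div_pos (lt_min hr hδ) hBpos)
  intro h hh hlt
  have ha' : h < a := lt_of_lt_of_le hlt ((min_le_left _ _).trans (min_le_left _ _))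
  have hb' : h < b := lt_of_lt_of_le hlt ((min_le_left _ _).trans (min_le_right _ _))
  have hB' : h * B < min r δ := by
    have := lt_of_lt_of_le hlt (min_le_right _ _)
    rwa [lt_div_iff₀ hBpos] at this
  obtain ⟨φ, φ', lφ, eφ⟩ := hφ h hh ha'
  obtain ⟨ψ, ψ', lψ, eψ⟩ := hψ h hh hb'
  refine ⟨fun x => ψ (φ x), fun x => φ' (ψ' x), laut_comp lψ lφ, ?_⟩
  intro x hx
  have h1 := eφ x hx
  have h2 : ‖φ x - x‖ ≤ h * B := by
    have h3 : φ x - x = (φ x - x - (h:ℂ) • W x) + (h:ℂ) • W x := by abel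
    have h4 : ‖W x‖ ≤ max M 0 := (hM x hx).trans (le_max_left _ _)
    calc ‖φ x - x‖ ≤ ‖φ x - x - (h:ℂ) • W x‖ + ‖(h:ℂ) • W x‖ := by
          conv_lhs => rw [h3]
          exact norm_add_le _ _
      _ ≤ ε / 4 * h + h * max M 0 := by
          rw [infAdd_smul h hh]
          exact add_le_add h1 (mul_le_mul_of_nonneg_left h4 hh.le)
      _ = h * B := by rw [hB]; ring
  have h5 : ‖φ x - x‖ < min r δ := lt_of_le_of_lt h2 hB'
  have h6 : φ x ∈ cthickening r K := by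
    apply mem_cthickening_of_dist_le (φ x) x r K hx
    rw [dist_eq_norm]
    exact (h5.trans_le (min_le_left _ _)).le
  have h7 : ‖V (φ x) - V x‖ < ε / 4 := by
    rw [← dist_eq_norm]
    apply hU _ h6 _ (hKK' hx)
    rw [dist_eq_norm]
    exact h5.trans_le (min_le_right _ _)
  have h8 := eψ _ h6
  have h9 : ψ (φ x) - x - (h:ℂ) • (V x + W x) =
      (ψ (φ x) - φ x - (h:ℂ) • V (φ x)) + (φ x - x - (h:ℂ) • W x) +
        (h:ℂ) • (V (φ x) - V x) := by
    rw [smul_add, smul_sub]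
    abel
  show ‖ψ (φ x) - x - (h:ℂ) • (V x + W x)‖ ≤ ε * h
  rw [h9]
  calc _ ≤ ‖ψ (φ x) - φ x - (h:ℂ) • V (φ x)‖ + ‖φ x - x - (h:ℂ) • W x‖ +
        ‖(h:ℂ) • (V (φ x) - V x)‖ := norm_add₃_le
    _ ≤ ε / 4 * h + ε / 4 * h + h * (ε / 4) := by
        rw [infAdd_smul h hh]
        exact add_le_add (add_le_add h8 h1) (mul_le_mul_of_nonneg_left h7.le hh.le)
    _ ≤ ε * h := by nlinarith

theorem infA_lim {V : V2 → V2} (h : ∀ K : Set V2, IsCompact K → K ⊆ XS → ∀ ε : ℝ, 0 < ε →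
    ∃ V' : V2 → V2, InfA V' ∧ ∀ x ∈ K, ‖V x - V' x‖ ≤ ε) : InfA V := by
  intro K hK hKX ε hε
  obtain ⟨V', hV', hc⟩ := h K hK hKX (ε / 2) (by positivity)
  obtain ⟨h0, hh0, hψ⟩ := hV' K hK hKX (ε / 2) (by positivity)
  refine ⟨h0, hh0, fun t ht htl => ?_⟩
  obtain ⟨ψ, ψ', lψ, eψ⟩ := hψ t ht htl
  refine ⟨ψ, ψ', lψ, fun x hx => ?_⟩
  have h1 : ψ x - x - (t:ℂ) • V x = (ψ x - x - (t:ℂ) • V' x) - (t:ℂ) • (V x - V' x) := by
    rw [smul_sub]
    abel
  rw [h1]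
  calc _ ≤ ‖ψ x - x - (t:ℂ) • V' x‖ + ‖(t:ℂ) • (V x - V' x)‖ := norm_sub_le _ _
    _ ≤ ε / 2 * t + t * (ε / 2) := by
        rw [infAdd_smul t ht]
        exact add_le_add (eψ x hx) (mul_le_mul_of_nonneg_left (hc x hx) ht.le)
    _ = ε * t := by ring

theorem infA_congr {V V' : V2 → V2} (hV : InfA V) (h : ∀ x : V2, x.2 ≠ 0 → V' x = V x) : InfA V' := by
  intro K hK hKX ε hε
  obtain ⟨h0, hh0, hψ⟩ := hV K hK hKX ε hε
  refine ⟨h0, hh0, fun t ht htl => ?_⟩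
  obtain ⟨ψ, ψ', lψ, eψ⟩ := hψ t ht htl
  refine ⟨ψ, ψ', lψ, fun x hx => ?_⟩
  rw [h x (hKX hx)]
  exact eψ x hx

theorem infA_zero : InfA (fun _ => 0) := by
  intro K hK hKX ε hε
  refine ⟨1, one_pos, fun t ht _ => ⟨fun x => x, fun x => x, laut_id, fun x _ => ?_⟩⟩
  rw [smul_zero, sub_self, sub_zero, norm_zero]
  positivity

end FBH
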