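import Pool.Agent.FBH.Defs

/-!
Poly1. A function holomorphic on `ball c r'` is a uniform limit of polynomials on `closedBall c r`, `r < r'`
(Taylor series at `c`: DifferentiableOn.hasFPowerSeriesOnBall or hasFPowerSeriesOnBall.tendstoUniformlyOn; the Taylor
polynomials in `u - c` are polynomials in `u`).
-/

set_option autoImplicit false

open Metric Set Filter Topology

namespace FBH

theorem poly1 (f : ℂ → ℂ) (c : ℂ) (r r' : ℝ) (hrr : r < r') (hf : DifferentiableOn ℂ f (ball c r')) :
    ∀ ε : ℝ, 0 < ε → ∃ p : Polynomial ℂ, ∀ u ∈ closedBall c r, ‖f u - p.eval u‖ < ε := by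
  intro ε hε
  rcases lt_or_ge r 0 with hr | hr
  · refine ⟨0, fun u hu => ?_⟩
    rw [closedBall_eq_empty.2 hr] at hu
    exact absurd hu (Set.notMem_empty u)
  obtain ⟨R, hrR, hRr⟩ := exists_between hrr
  obtain ⟨R₁, hrR₁, hR₁R⟩ := exists_between hrR
  have hR0 : 0 < R := lt_of_le_of_lt hr hrR
  have hR₁0 : 0 ≤ R₁ := le_of_lt (lt_of_le_of_lt hr hrR₁)
  lift R to NNReal using hR0.le
  lift R₁ to NNReal using hR₁0
  have hdc : DifferentiableOn ℂ f (closedBall c R) :=
    hf.mono (closedBall_subset_ball hRr)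
  have hps := hdc.hasFPowerSeriesOnBall (by exact_mod_cast hR0)
  have hlt : (R₁ : ENNReal) < (R : ENNReal) := by
    rw [ENNReal.coe_lt_coe]
    exact_mod_cast hR₁R
  have htu := hps.tendstoUniformlyOn' hlt
  rw [Metric.tendstoUniformlyOn_iff] at htu
  obtain ⟨n, hn⟩ := (htu ε hε).exists
  refine ⟨∑ k ∈ Finset.range n, Polynomial.C ((cauchyPowerSeries f c R).coeff k) *
    (Polynomial.X - Polynomial.C c) ^ k, fun u hu => ?_⟩
  have h1 := hn u (by
    have : dist u c ≤ r := hu
    exact mem_ball.2 (lt_of_le_of_lt this hrR₁))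
  rw [dist_eq_norm] at h1
  have h2 : Polynomial.eval u (∑ k ∈ Finset.range n, Polynomial.C ((cauchyPowerSeries f c R).coeff k) *
    (Polynomial.X - Polynomial.C c) ^ k) = (cauchyPowerSeries f c R).partialSum n (u - c) := by
    rw [Polynomial.eval_finset_sum, FormalMultilinearSeries.partialSum]
    apply Finset.sum_congr rfl
    intro k _
    rw [FormalMultilinearSeries.apply_eq_pow_smul_coeff]
    simp only [Polynomial.eval_mul, Polynomial.eval_C, Polynomial.eval_pow, Polynomial.eval_sub,
      Polynomial.eval_X, smul_eq_mul]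
    ring
  rw [h2]
  exact h1

end FBH
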