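import Pool.Agent.FBH.Defs
import Pool.Agent.FBH.LPBasic
import Pool.Agent.FBH.LPComp
import Pool.Agent.FBH.Poly1

/-!
GenE. The generators are in the class `LAut`.
`laut_E1`: the shear `(z + c w^K, w)`; `laut_E2`: `(z, w e^{g z})` with `g` entire (`exp ∘ g` and `exp ∘ (-g)` are uniform
limits of polynomials on discs by poly1, so LAp on compact sets; multiply by `w`, `w⁻¹`); `laut_M`, `laut_Mi`:
`(z w, w)`, `(z/w, w)`; `laut_S`: `(l z, w)`; `laut_S2`: `(z, l w)`.
-/

set_option autoImplicit false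

open Metric Set Filter Topology

namespace FBH

theorem gene_mon (S : Set V2) (i : ℕ) (k : ℤ) : LAp S (fun x : V2 => x) (fun x => x.1 ^ i * x.2 ^ k) :=
  lap_of_lpoly S (fun x => x) (Submodule.subset_span ⟨i, k, rfl⟩)

theorem gene_fst (S : Set V2) : LAp S (fun x : V2 => x) (fun x => x.1) :=
  lap_congr (gene_mon S 1 0) (fun x _ => by simp)

theorem gene_snd (S : Set V2) : LAp S (fun x : V2 => x) (fun x => x.2) :=
  lap_congr (gene_mon S 0 1) (fun x _ => by simp)

theorem gene_inv (S : Set V2) : LAp S (fun x : V2 => x) (fun x => (x.2)⁻¹) :=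
  lap_congr (gene_mon S 0 (-1)) (fun x _ => by simp)

theorem gene_zpow (K : ℤ) : DifferentiableOn ℂ (fun x : V2 => x.2 ^ K) XS := by
  intro x hx
  have h1 : DifferentiableAt ℂ (fun w : ℂ => w ^ K) x.2 := differentiableAt_zpow.2 (Or.inl hx)
  have h2 : DifferentiableAt ℂ (fun x : V2 => x.2) x := differentiableAt_snd
  exact (DifferentiableAt.comp x h1 h2).differentiableWithinAt

theorem gene_fstd : DifferentiableOn ℂ (fun x : V2 => x.1) XS := differentiable_fst.differentiableOn

theorem gene_sndd : DifferentiableOn ℂ (fun x : V2 => x.2) XS := differentiable_snd.differentiableOn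

theorem gene_exp (g : ℂ → ℂ) (hg : Differentiable ℂ g) (K : Set V2) (hK : IsCompact K) (hKX : K ⊆ XS) :
    LAp K (fun x : V2 => x) (fun x => Complex.exp (g x.1)) := by
  obtain ⟨M1, hM1⟩ := hK.exists_bound_of_continuousOn (f := fun y : V2 => y.1) continuous_fst.continuousOn
  refine lap_poly (g := fun x : V2 => x) (fun x hx => hKX hx) M1 hM1 (gene_fst K) (closedBall 0 M1)
    (fun x hx => by rw [mem_closedBall_zero_iff]; exact hM1 x hx) (fun u => Complex.exp (g u)) ?_
  exact poly1 (fun u => Complex.exp (g u)) 0 M1 (M1 + 1) (by linarith) (hg.cexp.differentiableOn)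

theorem gene_bd (K : Set V2) (hK : IsCompact K) (f : V2 → ℂ) (hf : ContinuousOn f K) :
    ∃ M : ℝ, ∀ x ∈ K, ‖f x‖ ≤ M := hK.exists_bound_of_continuousOn hf

theorem laut_E1 (c : ℂ) (K : ℤ) :
    LAut (fun x : V2 => (x.1 + c * x.2 ^ K, x.2)) (fun x : V2 => (x.1 - c * x.2 ^ K, x.2)) := by
  have d : ∀ e : ℂ, DifferentiableOn ℂ (fun x : V2 => (x.1 + e * x.2 ^ K, x.2)) XS := fun e =>
    (gene_fstd.add ((gene_zpow K).const_mul e)).prodMk gene_sndd
  refine ⟨fun x hx => hx, fun x hx => hx, fun x hx => ?_, fun x hx => ?_, d c, ?_, ?_, ?_, ?_⟩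
  · exact Prod.ext (by simp) rfl
  · exact Prod.ext (by simp) rfl
  · refine (d (-c)).congr fun x hx => ?_
    exact Prod.ext (by ring) rfl
  · intro S _ _
    exact lap_congr (lap_add (gene_fst S) (lap_smul c (gene_mon S 0 K))) (fun x _ => by simp)
  · intro S _ _
    exact gene_snd S
  · intro S _ _
    exact gene_inv S

theorem laut_E2 (g : ℂ → ℂ) (hg : Differentiable ℂ g) :
    LAut (fun x : V2 => (x.1, x.2 * Complex.exp (g x.1)))
      (fun x : V2 => (x.1, x.2 * Complex.exp (-g x.1))) := by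
  have hg' : Differentiable ℂ (fun z => -g z) := hg.neg
  have d : ∀ f : ℂ → ℂ, Differentiable ℂ f →
      DifferentiableOn ℂ (fun x : V2 => (x.1, x.2 * Complex.exp (f x.1))) XS := by
    intro f hf
    have h1 : Differentiable ℂ (fun x : V2 => f x.1) := hf.comp differentiable_fst
    exact (differentiable_fst.prodMk (differentiable_snd.mul h1.cexp)).differentiableOn
  have e : ∀ z : ℂ, Complex.exp (g z) * Complex.exp (-g z) = 1 := by
    intro z
    rw [← Complex.exp_add, add_neg_cancel, Complex.exp_zero]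
  refine ⟨fun x hx => mul_ne_zero hx (Complex.exp_ne_zero _), fun x hx => mul_ne_zero hx (Complex.exp_ne_zero _),
    fun x hx => ?_, fun x hx => ?_, d g hg, d (fun z => -g z) hg', ?_, ?_, ?_⟩
  · refine Prod.ext rfl ?_
    show x.2 * Complex.exp (g x.1) * Complex.exp (-g x.1) = x.2
    rw [mul_assoc, e, mul_one]
  · refine Prod.ext rfl ?_
    show x.2 * Complex.exp (-g x.1) * Complex.exp (g x.1) = x.2
    rw [mul_assoc, mul_comm (Complex.exp (-g x.1)), e, mul_one]
  · intro S _ _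
    exact gene_fst S
  · intro S hS hSX
    obtain ⟨M1, hM1⟩ := gene_bd S hS (fun x => x.2) continuous_snd.continuousOn
    obtain ⟨M2, hM2⟩ := gene_bd S hS (fun x => Complex.exp (g x.1))
      ((hg.continuous.comp continuous_fst).cexp.continuousOn)
    exact lap_mul (fun x hx => hSX hx) (max M1 M2) (fun x hx => (hM1 x hx).trans (le_max_left _ _))
      (fun x hx => (hM2 x hx).trans (le_max_right _ _)) (gene_snd S) (gene_exp g hg S hS hSX)
  · intro S hS hSX
    obtain ⟨M1, hM1⟩ := gene_bd S hS (fun x => (x.2)⁻¹) (continuous_snd.continuousOn.inv₀ (fun y hy => hSX hy))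
    obtain ⟨M2, hM2⟩ := gene_bd S hS (fun x => Complex.exp (-g x.1))
      ((hg'.continuous.comp continuous_fst).cexp.continuousOn)
    refine lap_congr (lap_mul (fun x hx => hSX hx) (max M1 M2) (fun x hx => (hM1 x hx).trans (le_max_left _ _))
      (fun x hx => (hM2 x hx).trans (le_max_right _ _)) (gene_inv S) (gene_exp (fun z => -g z) hg' S hS hSX)) ?_
    intro x _
    show (x.2 * Complex.exp (g x.1))⁻¹ = (x.2)⁻¹ * Complex.exp (-g x.1)
    rw [mul_inv, Complex.exp_neg]

theorem laut_M : LAut (fun x : V2 => (x.1 * x.2, x.2)) (fun x : V2 => (x.1 / x.2, x.2)) := by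
  have d1 : DifferentiableOn ℂ (fun x : V2 => (x.1 * x.2, x.2)) XS :=
    (gene_fstd.mul gene_sndd).prodMk gene_sndd
  have d2 : DifferentiableOn ℂ (fun x : V2 => (x.1 / x.2, x.2)) XS :=
    ((gene_fstd.mul (gene_zpow (-1))).congr (fun x _ => by simp [div_eq_mul_inv])).prodMk gene_sndd
  refine ⟨fun x hx => hx, fun x hx => hx, fun x hx => ?_, fun x hx => ?_, d1, d2, ?_, ?_, ?_⟩
  · exact Prod.ext (mul_div_cancel_right₀ x.1 hx) rfl
  · exact Prod.ext (div_mul_cancel₀ x.1 hx) rfl
  · intro S _ _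
    exact lap_congr (gene_mon S 1 1) (fun x _ => by simp)
  · intro S _ _
    exact gene_snd S
  · intro S _ _
    exact gene_inv S

theorem laut_Mi : LAut (fun x : V2 => (x.1 / x.2, x.2)) (fun x : V2 => (x.1 * x.2, x.2)) := by
  have d1 : DifferentiableOn ℂ (fun x : V2 => (x.1 * x.2, x.2)) XS :=
    (gene_fstd.mul gene_sndd).prodMk gene_sndd
  have d2 : DifferentiableOn ℂ (fun x : V2 => (x.1 / x.2, x.2)) XS :=
    ((gene_fstd.mul (gene_zpow (-1))).congr (fun x _ => by simp [div_eq_mul_inv])).prodMk gene_sndd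
  refine ⟨fun x hx => hx, fun x hx => hx, fun x hx => ?_, fun x hx => ?_, d2, d1, ?_, ?_, ?_⟩
  · exact Prod.ext (div_mul_cancel₀ x.1 hx) rfl
  · exact Prod.ext (mul_div_cancel_right₀ x.1 hx) rfl
  · intro S _ _
    exact lap_congr (gene_mon S 1 (-1)) (fun x _ => by simp [div_eq_mul_inv])
  · intro S _ _
    exact gene_snd S
  · intro S _ _
    exact gene_inv S

theorem laut_S (l : ℂ) (hl : l ≠ 0) :
    LAut (fun x : V2 => (l * x.1, x.2)) (fun x : V2 => (l⁻¹ * x.1, x.2)) := by
  have d : ∀ e : ℂ, DifferentiableOn ℂ (fun x : V2 => (e * x.1, x.2)) XS := fun e =>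
    (gene_fstd.const_mul e).prodMk gene_sndd
  refine ⟨fun x hx => hx, fun x hx => hx, fun x hx => ?_, fun x hx => ?_, d l, d l⁻¹, ?_, ?_, ?_⟩
  · exact Prod.ext (inv_mul_cancel_left₀ hl x.1) rfl
  · exact Prod.ext (mul_inv_cancel_left₀ hl x.1) rfl
  · intro S _ _
    exact lap_smul l (gene_fst S)
  · intro S _ _
    exact gene_snd S
  · intro S _ _
    exact gene_inv S

theorem laut_S2 (l : ℂ) (hl : l ≠ 0) :
    LAut (fun x : V2 => (x.1, l * x.2)) (fun x : V2 => (x.1, l⁻¹ * x.2)) := by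
  have d : ∀ e : ℂ, DifferentiableOn ℂ (fun x : V2 => (x.1, e * x.2)) XS := fun e =>
    gene_fstd.prodMk (gene_sndd.const_mul e)
  refine ⟨fun x hx => mul_ne_zero hl hx, fun x hx => mul_ne_zero (inv_ne_zero hl) hx, fun x hx => ?_, fun x hx => ?_,
    d l, d l⁻¹, ?_, ?_, ?_⟩
  · exact Prod.ext rfl (inv_mul_cancel_left₀ hl x.2)
  · exact Prod.ext rfl (mul_inv_cancel_left₀ hl x.2)
  · intro S _ _
    exact gene_fst S
  · intro S _ _
    exact lap_smul l (gene_snd S)
  · intro S _ _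
    exact lap_congr (lap_smul l⁻¹ (gene_inv S)) (fun x _ => by
      show (l * x.2)⁻¹ = l⁻¹ * (x.2)⁻¹
      rw [mul_inv])

end FBH
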