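import Pool.Agent.FBH.Defs

/-!
UDQ. Uniform difference quotients on a compact set.
Proof. `f'` is continuous on the compact set `closedBall 0 (r/2) ×ˢ K`, hence there is `δ ≤ r/2` with
`‖f' c x - f' 0 x‖ ≤ ε` for `‖c‖ < δ`, `x ∈ K` (uniform continuity, or the tube lemma for the continuous function
`(c,x) ↦ ‖f' c x - f' 0 x‖` vanishing on `{0} × K`). Apply the mean value inequality to
`c ↦ f c x - c • f' 0 x` on the convex set `ball 0 δ`.
-/

set_option autoImplicit false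

open Metric Set Filter Topology

namespace FBH

theorem udq {α V : Type*} [TopologicalSpace α] [NormedAddCommGroup V] [NormedSpace ℂ V] (K : Set α)
    (hK : IsCompact K) (r : ℝ) (hr : 0 < r) (f f' : ℂ → α → V)
    (hf : ∀ c ∈ ball (0:ℂ) r, ∀ x ∈ K, HasDerivAt (fun c => f c x) (f' c x) c)
    (hc : ContinuousOn (fun p : ℂ × α => f' p.1 p.2) (ball (0:ℂ) r ×ˢ K)) :
    ∀ ε : ℝ, 0 < ε → ∃ δ : ℝ, 0 < δ ∧ ∀ c : ℂ, ‖c‖ < δ → ∀ x ∈ K,
      ‖f c x - f 0 x - c • f' 0 x‖ ≤ ε * ‖c‖ := by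
  intro ε hε
  have key : ∃ δ : ℝ, 0 < δ ∧ δ ≤ r ∧ ∀ c ∈ ball (0:ℂ) δ, ∀ x ∈ K, ‖f' c x - f' 0 x‖ ≤ ε := by
    refine hK.induction_on (p := fun S => ∃ δ : ℝ, 0 < δ ∧ δ ≤ r ∧ ∀ c ∈ ball (0:ℂ) δ, ∀ x ∈ S,
      ‖f' c x - f' 0 x‖ ≤ ε) ?_ ?_ ?_ ?_
    · exact ⟨r, hr, le_refl r, fun c _ x hx => absurd hx (Set.notMem_empty x)⟩
    · rintro S T hST ⟨δ, hδ, hδr, h⟩
      exact ⟨δ, hδ, hδr, fun c hc' x hx => h c hc' x (hST hx)⟩
    · rintro S T ⟨δ, hδ, hδr, h⟩ ⟨δ', hδ', hδr', h'⟩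
      refine ⟨min δ δ', lt_min hδ hδ', (min_le_left _ _).trans hδr, ?_⟩
      rintro c hc' x (hx | hx)
      · exact h c (ball_subset_ball (min_le_left _ _) hc') x hx
      · exact h' c (ball_subset_ball (min_le_right _ _) hc') x hx
    · intro x₀ hx₀
      have h0 : (0:ℂ) ∈ ball (0:ℂ) r := mem_ball_self hr
      have h1 : ContinuousWithinAt (fun p : ℂ × α => f' p.1 p.2) (ball (0:ℂ) r ×ˢ K) (0, x₀) :=
        hc (0, x₀) ⟨h0, hx₀⟩
      have h2 : ∀ᶠ p in 𝓝[ball (0:ℂ) r] 0 ×ˢ 𝓝[K] x₀, dist (f' p.1 p.2) (f' 0 x₀) < ε / 2 := by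
        rw [ContinuousWithinAt, nhdsWithin_prod_eq] at h1
        exact h1 (ball_mem_nhds _ (by positivity))
      obtain ⟨s, hs, t, ht, hst⟩ := Filter.mem_prod_iff.1 h2
      rw [isOpen_ball.nhdsWithin_eq h0] at hs
      obtain ⟨δ, hδ, hδs⟩ := Metric.mem_nhds_iff.1 hs
      refine ⟨t, ht, min δ r, lt_min hδ hr, min_le_right _ _, ?_⟩
      intro c hc' x hx
      have hcs : c ∈ s := hδs (ball_subset_ball (min_le_left _ _) hc')
      have h0s : (0:ℂ) ∈ s := hδs (mem_ball_self hδ)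
      have a1 : dist (f' c x) (f' 0 x₀) < ε / 2 := hst (Set.mk_mem_prod hcs hx)
      have a2 : dist (f' 0 x) (f' 0 x₀) < ε / 2 := hst (Set.mk_mem_prod h0s hx)
      rw [← dist_eq_norm]
      have := dist_triangle_right (f' c x) (f' 0 x) (f' 0 x₀)
      linarith
  obtain ⟨δ, hδ, hδr, h⟩ := key
  refine ⟨δ, hδ, ?_⟩
  intro c hcδ x hx
  have hc0 : c ∈ ball (0:ℂ) δ := by
    rw [mem_ball_zero_iff]
    exact hcδ
  have hder : ∀ y ∈ ball (0:ℂ) δ, HasDerivWithinAt (fun c : ℂ => f c x - c • f' 0 x) (f' y x - f' 0 x)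
      (ball (0:ℂ) δ) y := by
    intro y hy
    have e1 := hf y (ball_subset_ball hδr hy) x hx
    have e2 : HasDerivAt (fun c : ℂ => c • f' 0 x) ((1:ℂ) • f' 0 x) y := (hasDerivAt_id y).smul_const (f' 0 x)
    rw [one_smul] at e2
    exact (e1.sub e2).hasDerivWithinAt
  have hmv := (convex_ball (0:ℂ) δ).norm_image_sub_le_of_norm_hasDerivWithin_le hder
    (fun y hy => h y hy x hx) (mem_ball_self hδ) hc0
  have e3 : (fun c : ℂ => f c x - c • f' 0 x) c - (fun c : ℂ => f c x - c • f' 0 x) 0 =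
      f c x - f 0 x - c • f' 0 x := by
    simp only [zero_smul, sub_zero]
    abel
  rw [e3, sub_zero] at hmv
  exact hmv

end FBH
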