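import Pool.Agent.FBH.Defs
import Pool.Agent.FBH.GenE
import Pool.Agent.FBH.UDQ
import Pool.Agent.FBH.InfAdd

/-!
InfBase. Base fields. `infA_base`: flow `(z, w e^{h l z^n})` (laut_E2), `‖w (e^{h l z^n} - 1 - h l z^n)‖ ≤ ε h` on compact
sets for small `h` (`‖e^v - 1 - v‖ ≤ ‖v‖²` for `‖v‖ ≤ 1`). `infA_shear`: flow `(z + h l w^K, w)` (laut_E1), exact.
-/

set_option autoImplicit false

open Metric Set Filter Topology

namespace FBH

theorem infA_base (l : ℂ) (n : ℕ) : InfA (fun x : V2 => (0, l * x.1 ^ n * x.2)) := by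
  intro K hK _ ε hε
  obtain ⟨C, hC⟩ := hK.isBounded.exists_norm_le
  obtain ⟨M, hM⟩ : ∃ M : ℝ, M = max C 1 := ⟨_, rfl⟩
  have hM1 : 1 ≤ M := by rw [hM]; exact le_max_right _ _
  have hM0 : 0 < M := by linarith
  have hMK : ∀ x ∈ K, ‖x‖ ≤ M := fun x hx => (hC x hx).trans (by rw [hM]; exact le_max_left _ _)
  obtain ⟨B, hB⟩ : ∃ B : ℝ, B = ‖l‖ * M ^ n + 1 := ⟨_, rfl⟩
  have hB0 : 0 < B := by rw [hB]; positivity
  refine ⟨min (1 / B) (ε / (M * B ^ 2)), by positivity, ?_⟩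
  intro h hh0 hh1
  have hh2 : h < 1 / B := lt_of_lt_of_le hh1 (min_le_left _ _)
  have hh3 : h < ε / (M * B ^ 2) := lt_of_lt_of_le hh1 (min_le_right _ _)
  have hhB : h * B < 1 := by
    rwa [lt_div_iff₀ hB0] at hh2
  have hhM : h * (M * B ^ 2) < ε := by
    rwa [lt_div_iff₀ (by positivity)] at hh3
  have hg : Differentiable ℂ (fun z : ℂ => (h:ℂ) * (l * z ^ n)) := by fun_prop
  refine ⟨_, _, laut_E2 _ hg, ?_⟩
  intro x hx
  obtain ⟨z, w⟩ := x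
  have hxM : ‖((z, w) : V2)‖ ≤ M := hMK _ hx
  have hz : ‖z‖ ≤ M := (norm_fst_le ((z, w) : V2)).trans hxM
  have hw : ‖w‖ ≤ M := (norm_snd_le ((z, w) : V2)).trans hxM
  obtain ⟨v, hv⟩ : ∃ v : ℂ, v = (h:ℂ) * (l * z ^ n) := ⟨_, rfl⟩
  have hvn : ‖v‖ ≤ h * B := by
    rw [hv, norm_mul, norm_mul, norm_pow, Complex.norm_real, Real.norm_eq_abs, abs_of_pos hh0]
    have h1 : ‖z‖ ^ n ≤ M ^ n := pow_le_pow_left₀ (norm_nonneg _) hz n
    have h2 : ‖l‖ * ‖z‖ ^ n ≤ ‖l‖ * M ^ n := mul_le_mul_of_nonneg_left h1 (norm_nonneg _)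
    have h3 : ‖l‖ * ‖z‖ ^ n ≤ B := by rw [hB]; linarith
    exact mul_le_mul_of_nonneg_left h3 hh0.le
  have hv1 : ‖v‖ ≤ 1 := hvn.trans hhB.le
  have he := Complex.norm_exp_sub_one_sub_id_le hv1
  have hdiff : (fun x : V2 => (x.1, x.2 * Complex.exp ((fun z : ℂ => (h:ℂ) * (l * z ^ n)) x.1)))
      (z, w) - (z, w) - (h:ℂ) • (((fun x : V2 => (0, l * x.1 ^ n * x.2)) (z, w)) : V2) =
      (0, w * (Complex.exp v - 1 - v)) := by
    apply Prod.ext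
    · simp
    · simp only [hv, Prod.snd_sub, Prod.smul_snd, smul_eq_mul]
      ring
  rw [hdiff, Prod.norm_def]
  simp only [norm_zero, norm_mul]
  refine max_le (by positivity) ?_
  have hB2 : ‖v‖ ^ 2 ≤ (h * B) ^ 2 := pow_le_pow_left₀ (norm_nonneg _) hvn 2
  calc ‖w‖ * ‖Complex.exp v - 1 - v‖ ≤ M * (h * B) ^ 2 :=
        mul_le_mul hw (he.trans hB2) (norm_nonneg _) hM0.le
    _ = (h * (M * B ^ 2)) * h := by ring
    _ ≤ ε * h := mul_le_mul_of_nonneg_right hhM.le hh0.le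

theorem infA_shear (l : ℂ) (K : ℤ) : InfA (fun x : V2 => (l * x.2 ^ K, 0)) := by
  intro K' _ _ ε hε
  refine ⟨1, one_pos, ?_⟩
  intro h hh0 _
  refine ⟨_, _, laut_E1 ((h:ℂ) * l) K, ?_⟩
  intro x _
  have hdiff : (fun x : V2 => (x.1 + ((h:ℂ) * l) * x.2 ^ K, x.2)) x - x -
      (h:ℂ) • (((fun x : V2 => (l * x.2 ^ K, 0)) x) : V2) = 0 := by
    apply Prod.ext
    · simp only [Prod.fst_sub, Prod.smul_fst, smul_eq_mul, Prod.fst_zero]
      ring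
    · simp
  rw [hdiff, norm_zero]
  positivity

end FBH
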