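import Pool.Agent.FBH.Defs

/-!
ScBound. Cauchy estimates in several variables, by restriction to complex lines.
`sc_bound`: for `‖v‖ ≤ 1` the one-variable function `t ↦ f (p + t • v)` is differentiable on `ball 0 r`, bounded by
`M`, with derivative `fderiv ℂ f p v` at `0`; by the Cauchy estimate on circles of radius `r' < r`
(Complex.norm_deriv_le_of_forall_mem_sphere_norm_le) `‖fderiv ℂ f p v‖ ≤ M/r'`; let `r' → r`.
`sc_lip`: on a convex set `K` all of whose points have `ball x r ⊆ U` the derivative is bounded by `M/r`; mean value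
inequality (Convex.norm_image_sub_le_of_norm_hasFDerivWithin_le).
-/

set_option autoImplicit false

open Metric Set Filter Topology

namespace FBH

theorem sc_bound {E F : Type*} [NormedAddCommGroup E] [NormedSpace ℂ E] [NormedAddCommGroup F]
    [NormedSpace ℂ F] [CompleteSpace F] (f : E → F) (p : E) (r M : ℝ) (hr : 0 < r)
    (hf : DifferentiableOn ℂ f (ball p r)) (hM : ∀ x ∈ ball p r, ‖f x‖ ≤ M) :
    ‖fderiv ℂ f p‖ ≤ M / r := by
  have hM0 : 0 ≤ M := (norm_nonneg _).trans (hM p (mem_ball_self hr))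
  refine ContinuousLinearMap.opNorm_le_bound _ (by positivity) ?_
  intro v
  rcases eq_or_ne v 0 with rfl | hv
  · simp
  have hv0 : 0 < ‖v‖ := norm_pos_iff.mpr hv
  set g : ℂ → F := fun t => f (p + t • v) with hg
  have hline : ∀ t : ℂ, HasDerivAt (fun t : ℂ => p + t • v) v t := by
    intro t
    have h1 : HasDerivAt (fun t : ℂ => t • v) ((1:ℂ) • v) t := (hasDerivAt_id t).smul_const v
    simpa using h1.const_add p
  have hgd : DifferentiableOn ℂ g (ball 0 (r / ‖v‖)) := by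
    intro t ht
    have hmem : p + t • v ∈ ball p r := by
      rw [mem_ball, dist_eq_norm, add_sub_cancel_left, norm_smul]
      rw [mem_ball, dist_zero_right] at ht
      rwa [lt_div_iff₀ hv0] at ht
    have h1 : DifferentiableAt ℂ f (p + t • v) := (hf _ hmem).differentiableAt (isOpen_ball.mem_nhds hmem)
    exact (h1.comp t (hline t).differentiableAt).differentiableWithinAt
  have hderiv : deriv g 0 = fderiv ℂ f p v := by
    have h1 : DifferentiableAt ℂ f (p + (0:ℂ) • v) := by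
      have hmem : p + (0:ℂ) • v ∈ ball p r := by simpa using hr
      exact (hf _ hmem).differentiableAt (isOpen_ball.mem_nhds hmem)
    have h2 := h1.hasFDerivAt.comp_hasDerivAt (0:ℂ) (hline 0)
    have h3 := h2.deriv
    simpa [hg, Function.comp_def] using h3
  have key : ∀ s ∈ Ioo (0:ℝ) 1, ‖fderiv ℂ f p v‖ * (s * (r / ‖v‖)) ≤ M := by
    intro s hs
    have hpos : 0 < r / ‖v‖ := div_pos hr hv0
    have hR : 0 < s * (r / ‖v‖) := mul_pos hs.1 hpos
    have hlt : s * (r / ‖v‖) < r / ‖v‖ := by nlinarith [hs.2]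
    have hsub : closedBall (0:ℂ) (s * (r / ‖v‖)) ⊆ ball 0 (r / ‖v‖) := closedBall_subset_ball hlt
    have hdc : DiffContOnCl ℂ g (ball 0 (s * (r / ‖v‖))) := by
      apply DifferentiableOn.diffContOnCl
      rw [closure_ball _ hR.ne']
      exact hgd.mono hsub
    have hC : ∀ z ∈ sphere (0:ℂ) (s * (r / ‖v‖)), ‖g z‖ ≤ M := by
      intro z hz
      apply hM
      have hz' := hsub (sphere_subset_closedBall hz)
      rw [mem_ball, dist_zero_right] at hz'
      rw [mem_ball, dist_eq_norm, add_sub_cancel_left, norm_smul]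
      rwa [lt_div_iff₀ hv0] at hz'
    have h := Complex.norm_deriv_le_of_forall_mem_sphere_norm_le hR hdc hC
    rw [hderiv] at h
    rwa [le_div_iff₀ hR] at h
  have hlim : Tendsto (fun s : ℝ => ‖fderiv ℂ f p v‖ * (s * (r / ‖v‖))) (𝓝[<] 1)
      (𝓝 (‖fderiv ℂ f p v‖ * (1 * (r / ‖v‖)))) := by
    apply Tendsto.mono_left _ nhdsWithin_le_nhds
    exact (Continuous.tendsto (by fun_prop) 1)
  have hev : ∀ᶠ s in 𝓝[<] (1:ℝ), ‖fderiv ℂ f p v‖ * (s * (r / ‖v‖)) ≤ M := by
    filter_upwards [Ioo_mem_nhdsLT (show (0:ℝ) < 1 by norm_num)] with s hs using key s hs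
  have hfin := le_of_tendsto hlim hev
  rw [one_mul] at hfin
  have : ‖fderiv ℂ f p v‖ * r ≤ M * ‖v‖ := by
    have h4 : ‖fderiv ℂ f p v‖ * (r / ‖v‖) * ‖v‖ ≤ M * ‖v‖ :=
      mul_le_mul_of_nonneg_right hfin hv0.le
    have h5 : ‖fderiv ℂ f p v‖ * (r / ‖v‖) * ‖v‖ = ‖fderiv ℂ f p v‖ * r := by
      field_simp
    linarith
  rw [div_mul_eq_mul_div, le_div_iff₀ hr]
  exact this

theorem sc_lip {E F : Type*} [NormedAddCommGroup E] [NormedSpace ℂ E] [NormedAddCommGroup F]
    [NormedSpace ℂ F] [CompleteSpace F] (f : E → F) (U K : Set E) (hU : IsOpen U) (r M : ℝ)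
    (hr : 0 < r) (hK : Convex ℝ K) (hKU : ∀ x ∈ K, ball x r ⊆ U) (hf : DifferentiableOn ℂ f U)
    (hM : ∀ x ∈ U, ‖f x‖ ≤ M) : ∀ x ∈ K, ∀ y ∈ K, ‖f x - f y‖ ≤ M / r * ‖x - y‖ := by
  intro x hx y hy
  have hd : ∀ z ∈ K, HasFDerivWithinAt f (fderiv ℂ f z) K z := by
    intro z hz
    have hzU : z ∈ U := hKU z hz (mem_ball_self hr)
    exact ((hf z hzU).differentiableAt (hU.mem_nhds hzU)).hasFDerivAt.hasFDerivWithinAt
  have hb : ∀ z ∈ K, ‖fderiv ℂ f z‖ ≤ M / r := by
    intro z hz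
    exact sc_bound f z r M hr (hf.mono (hKU z hz)) (fun w hw => hM w (hKU z hz hw))
  exact hK.norm_image_sub_le_of_norm_hasFDerivWithin_le hd hb hy hx

end FBH
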