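import Pool.Agent.FBH.Defs
import Pool.Agent.FBH.ScBound

/-!
ScLimit. A locally uniform limit of holomorphic maps is holomorphic (several variables).
Proof. Near `x` take `r` from the hypothesis. On `ball x (r/2)` the derivatives `fderiv ℂ (f n)` are uniformly Cauchy:
by sc_bound applied to `f n - f m` on `ball y (r/2) ⊆ ball x r`. Use
`hasFDerivAt_of_tendstoUniformlyOn` (or the version with `UniformCauchySeqOn` of derivatives; the limit of the
derivatives exists because `E →L[ℂ] F` is complete).
-/

set_option autoImplicit false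

open Metric Set Filter Topology

namespace FBH

theorem sc_limit {E F : Type*} [NormedAddCommGroup E] [NormedSpace ℂ E] [NormedAddCommGroup F]
    [NormedSpace ℂ F] [CompleteSpace F] (f : ℕ → E → F) (g : E → F) (x : E) (r : ℝ) (hr : 0 < r)
    (hf : ∀ᶠ n in atTop, DifferentiableOn ℂ (f n) (ball x r))
    (hlim : TendstoUniformlyOn f g atTop (ball x r)) : DifferentiableAt ℂ g x := by
  obtain ⟨N, hN⟩ := eventually_atTop.mp hf
  set G : ℕ → E → F := fun n => f (n + N) with hG
  have hGd : ∀ n, DifferentiableOn ℂ (G n) (ball x r) := fun n => hN _ (Nat.le_add_left N n)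
  have hGlim : TendstoUniformlyOn G g atTop (ball x r) := by
    intro u hu
    exact (tendsto_add_atTop_nat N).eventually (hlim u hu)
  have hr2 : 0 < r / 2 := by positivity
  have hsub : ∀ y ∈ ball x (r / 2), ball y (r / 2) ⊆ ball x r := by
    intro y hy z hz
    have h1 : dist z x ≤ dist z y + dist y x := dist_triangle _ _ _
    rw [mem_ball] at hy hz ⊢
    linarith
  have hcau : UniformCauchySeqOn (fun n y => fderiv ℂ (G n) y) atTop (ball x (r / 2)) := by
    rw [Metric.uniformCauchySeqOn_iff]
    intro ε hε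
    have hc := Metric.uniformCauchySeqOn_iff.mp hGlim.uniformCauchySeqOn (ε / 2 * (r / 2)) (by positivity)
    obtain ⟨M, hM⟩ := hc
    refine ⟨M, fun m hm n hn y hy => ?_⟩
    have hyx : y ∈ ball x r := by
      rw [mem_ball] at hy ⊢
      linarith
    have hdm : ∀ k, DifferentiableAt ℂ (G k) y := fun k =>
      (hGd k y hyx).differentiableAt (isOpen_ball.mem_nhds hyx)
    have hb := sc_bound (fun z => G m z - G n z) y (r / 2) (ε / 2 * (r / 2)) hr2
      ((hGd m).sub (hGd n) |>.mono (hsub y hy)) (by
        intro z hz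
        have := hM m hm n hn z (hsub y hy hz)
        rw [dist_eq_norm] at this
        exact this.le)
    have he : fderiv ℂ (fun z => G m z - G n z) y = fderiv ℂ (G m) y - fderiv ℂ (G n) y :=
      fderiv_fun_sub (hdm m) (hdm n)
    rw [he] at hb
    rw [dist_eq_norm]
    have h2 : ε / 2 * (r / 2) / (r / 2) = ε / 2 := by field_simp
    rw [h2] at hb
    linarith
  have hpt : ∀ y ∈ ball x (r / 2), ∃ L : E →L[ℂ] F,
      Tendsto (fun n => fderiv ℂ (G n) y) atTop (𝓝 L) := by
    intro y hy
    have hcy : CauchySeq (fun n => fderiv ℂ (G n) y) := by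
      rw [Metric.cauchySeq_iff]
      intro ε hε
      obtain ⟨M, hM⟩ := Metric.uniformCauchySeqOn_iff.mp hcau ε hε
      exact ⟨M, fun m hm n hn => hM m hm n hn y hy⟩
    exact cauchySeq_tendsto_of_complete hcy
  classical
  choose! g' hg' using hpt
  have hunif : TendstoUniformlyOn (fun n y => fderiv ℂ (G n) y) g' atTop (ball x (r / 2)) :=
    hcau.tendstoUniformlyOn_of_tendsto hg'
  have hxm : x ∈ ball x (r / 2) := mem_ball_self hr2
  have hmem : ∀ y ∈ ball x (r / 2), y ∈ ball x r := by
    intro y hy
    rw [mem_ball] at hy ⊢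
    linarith
  have := hasFDerivAt_of_tendstoUniformlyOn (𝕜 := ℂ) (f := G) (g := g)
    (f' := fun n y => fderiv ℂ (G n) y) (g' := g') (x := x) isOpen_ball hunif
    (fun n y hy => ((hGd n y (hmem y hy)).differentiableAt
      (isOpen_ball.mem_nhds (hmem y hy))).hasFDerivAt)
    (fun y hy => hGlim.tendsto_at (hmem y hy)) hxm
  exact this.differentiableAt

end FBH
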