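import Pool.Agent.FBH.Defs
import Pool.Agent.FBH.ScBound
import Pool.Agent.FBH.ScLimit

/-!
ScSmooth. Holomorphic maps on open subsets of finite dimensional complex spaces are smooth.
`sc_fderiv_diff`: for fixed `v` the map `x ↦ fderiv ℂ f x v` is near each `x₀ ∈ U` the uniform limit of
`n • (f (x + (1/n) • v) - f x)`: indeed with `ball x₀ (3r) ⊆ U` and `‖f‖ ≤ M` there (after shrinking `r`: `f` is
continuous at `x₀`, so bounded near it), for `x ∈ ball x₀ r` the function `h(t) = f (x + t • v)` is holomorphic on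
`|t| ‖v‖ < r`, and the second order Cauchy estimate gives
`‖(h t - h 0)/t - h' 0‖ ≤ C |t|` with `C` independent of `x`. By sc_limit the limit is differentiable at `x₀`. With a
basis `e_i` of `E` (finite dimension), `fderiv ℂ f x = Σ_i (coord_i) • fderiv ℂ f x e_i` is differentiable.
`sc_contDiffOn`: induction with contDiffOn_succ_iff_fderiv_of_isOpen.
`sc_strict`: continuity of the derivative gives strict differentiability
(hasStrictFDerivAt_of_hasFDerivAt_of_continuousAt, or ContDiffAt.hasStrictFDerivAt).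
-/

set_option autoImplicit false

open Metric Set Filter Topology

namespace FBH

private theorem scsmooth_one {F : Type*} [NormedAddCommGroup F] [NormedSpace ℂ F] [CompleteSpace F]
    (h : ℂ → F) (R M : ℝ) (hR : 0 < R) (hd : DifferentiableOn ℂ h (ball 0 R))
    (hM : ∀ t ∈ ball (0:ℂ) R, ‖h t‖ ≤ M) (t : ℂ) (ht : ‖t‖ < R / 4) :
    ‖h t - h 0 - t • deriv h 0‖ ≤ (M / (R / 2)) / (R / 4) * ‖t‖ * ‖t‖ := by
  have hM0 : 0 ≤ M := le_trans (norm_nonneg _) (hM 0 (mem_ball_self hR))
  have h1 : ∀ u ∈ ball (0:ℂ) (R / 2), ‖deriv h u‖ ≤ M / (R / 2) := by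
    intro u hu
    have hsub : ball u (R / 2) ⊆ ball (0:ℂ) R := by
      intro y hy
      rw [mem_ball, dist_zero_right] at hu ⊢
      rw [mem_ball, dist_eq_norm] at hy
      have := norm_add_le (y - u) u
      rw [sub_add_cancel] at this
      linarith
    rw [norm_deriv_eq_norm_fderiv]
    exact sc_bound h u (R / 2) M (by linarith) (hd.mono hsub) (fun x hx => hM x (hsub hx))
  have hd' : DifferentiableOn ℂ (deriv h) (ball 0 R) := hd.deriv isOpen_ball
  have h2 : ∀ u ∈ ball (0:ℂ) (R / 4), ‖deriv (deriv h) u‖ ≤ (M / (R / 2)) / (R / 4) := by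
    intro u hu
    have hsub : ball u (R / 4) ⊆ ball (0:ℂ) (R / 2) := by
      intro y hy
      rw [mem_ball, dist_zero_right] at hu ⊢
      rw [mem_ball, dist_eq_norm] at hy
      have := norm_add_le (y - u) u
      rw [sub_add_cancel] at this
      linarith
    have hsub2 : ball (0:ℂ) (R / 2) ⊆ ball (0:ℂ) R := ball_subset_ball (by linarith)
    rw [norm_deriv_eq_norm_fderiv]
    exact sc_bound (deriv h) u (R / 4) _ (by linarith) (hd'.mono (hsub.trans hsub2))
      (fun x hx => h1 x (hsub hx))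
  have hC0 : 0 ≤ (M / (R / 2)) / (R / 4) := by positivity
  have h3 : ∀ u ∈ ball (0:ℂ) (R / 4), ‖deriv h u - deriv h 0‖ ≤ (M / (R / 2)) / (R / 4) * ‖u‖ := by
    intro u hu
    have := (convex_ball (0:ℂ) (R / 4)).norm_image_sub_le_of_norm_deriv_le (f := deriv h)
      (fun x hx => hd'.differentiableAt (isOpen_ball.mem_nhds
        (ball_subset_ball (by linarith : R / 4 ≤ R) hx))) h2
      (mem_ball_self (by linarith)) hu
    simpa using this
  have h4 := (convex_closedBall (0:ℂ) ‖t‖).norm_image_sub_le_of_norm_hasDerivWithin_le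
    (f := fun u => h u - u • deriv h 0) (f' := fun u => deriv h u - (1:ℂ) • deriv h 0)
    (C := (M / (R / 2)) / (R / 4) * ‖t‖) (x := 0) (y := t)
    (by
      intro u hu
      have hu' : u ∈ ball (0:ℂ) R := by
        rw [mem_ball, dist_zero_right]
        rw [mem_closedBall, dist_zero_right] at hu
        linarith
      have hdu : HasDerivAt h (deriv h u) u :=
        (hd.differentiableAt (isOpen_ball.mem_nhds hu')).hasDerivAt
      have hs : HasDerivAt (fun u : ℂ => u • deriv h 0) ((1:ℂ) • deriv h 0) u :=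
        (hasDerivAt_id u).smul_const (deriv h 0)
      exact (hdu.sub hs).hasDerivWithinAt)
    (by
      intro u hu
      rw [mem_closedBall, dist_zero_right] at hu
      rw [one_smul]
      refine (h3 u ?_).trans ?_
      · rw [mem_ball, dist_zero_right]; linarith
      · exact mul_le_mul_of_nonneg_left hu hC0)
    (mem_closedBall_self (norm_nonneg _))
    (by rw [mem_closedBall, dist_zero_right])
  have h5 : h t - t • deriv h 0 - (h 0 - (0:ℂ) • deriv h 0) = h t - h 0 - t • deriv h 0 := by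
    rw [zero_smul, sub_zero]; abel
  simp only [sub_zero] at h4
  rw [← h5]
  simpa using h4

private theorem scsmooth_dir {E F : Type*} [NormedAddCommGroup E] [NormedSpace ℂ E]
    [NormedAddCommGroup F] [NormedSpace ℂ F] [CompleteSpace F] (f : E → F) (U : Set E)
    (hU : IsOpen U) (hf : DifferentiableOn ℂ f U) (v : E) :
    DifferentiableOn ℂ (fun x => fderiv ℂ f x v) U := by
  intro x₀ hx₀
  apply DifferentiableAt.differentiableWithinAt
  -- a ball with a bound
  obtain ⟨r, hr, hrU, hrM⟩ : ∃ r : ℝ, 0 < r ∧ ball x₀ (3 * r) ⊆ U ∧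
      ∀ y ∈ ball x₀ (3 * r), ‖f y‖ ≤ ‖f x₀‖ + 1 := by
    have hc : ContinuousAt f x₀ := (hf.differentiableAt (hU.mem_nhds hx₀)).continuousAt
    have h1 : ∀ᶠ y in 𝓝 x₀, ‖f y‖ ≤ ‖f x₀‖ + 1 := by
      filter_upwards [hc.norm.eventually (gt_mem_nhds (lt_add_one ‖f x₀‖))] with y hy
      exact hy.le
    obtain ⟨δ, hδ, hδs⟩ := Metric.mem_nhds_iff.1 ((hU.mem_nhds hx₀ : U ∈ 𝓝 x₀) |> Filter.inter_mem h1)
    refine ⟨δ / 3, by positivity, ?_, ?_⟩
    · intro y hy
      exact (hδs (by rwa [mul_div_cancel₀ _ (by norm_num : (3:ℝ) ≠ 0)] at hy)).2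
    · intro y hy
      exact (hδs (by rwa [mul_div_cancel₀ _ (by norm_num : (3:ℝ) ≠ 0)] at hy)).1
  set M : ℝ := ‖f x₀‖ + 1 with hMdef
  have hv1 : 0 < ‖v‖ + 1 := by positivity
  set R : ℝ := 2 * r / (‖v‖ + 1) with hRdef
  have hR : 0 < R := by positivity
  have hball : ∀ x ∈ ball x₀ r, ∀ t ∈ ball (0:ℂ) R, x + t • v ∈ ball x₀ (3 * r) := by
    intro x hx t ht
    rw [mem_ball, dist_zero_right] at ht
    rw [mem_ball, dist_eq_norm] at hx ⊢
    have h1 : ‖t • v‖ ≤ 2 * r := by
      rw [norm_smul]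
      calc ‖t‖ * ‖v‖ ≤ R * (‖v‖ + 1) :=
            mul_le_mul ht.le (by linarith) (norm_nonneg _) hR.le
        _ = 2 * r := by rw [hRdef]; field_simp
    have h2 : x + t • v - x₀ = (x - x₀) + t • v := by abel
    rw [h2]
    have := norm_add_le (x - x₀) (t • v)
    linarith
  have hline : ∀ x ∈ ball x₀ r, ∀ t ∈ ball (0:ℂ) R,
      HasDerivAt (fun t : ℂ => f (x + t • v)) (fderiv ℂ f (x + t • v) v) t := by
    intro x hx t ht
    have h1 : HasFDerivAt f (fderiv ℂ f (x + t • v)) (x + t • v) :=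
      (hf.differentiableAt (hU.mem_nhds (hrU (hball x hx t ht)))).hasFDerivAt
    have h2 : HasDerivAt (fun t : ℂ => x + t • v) v t := by
      have := ((hasDerivAt_id t).smul_const v).const_add x
      simpa using this
    exact h1.comp_hasDerivAt t h2
  set C : ℝ := (M / (R / 2)) / (R / 4) with hC
  have hM0 : 0 ≤ M := by positivity
  have hC0 : 0 ≤ C := by positivity
  have hest : ∀ x ∈ ball x₀ r, ∀ t : ℂ, ‖t‖ < R / 4 →
      ‖f (x + t • v) - f x - t • fderiv ℂ f x v‖ ≤ C * ‖t‖ * ‖t‖ := by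
    intro x hx t ht
    have h1 := scsmooth_one (fun t : ℂ => f (x + t • v)) R M hR
      (fun s hs => (hline x hx s hs).differentiableAt.differentiableWithinAt)
      (fun s hs => hrM _ (hball x hx s hs)) t ht
    have h2 : deriv (fun t : ℂ => f (x + t • v)) 0 = fderiv ℂ f x v := by
      have := (hline x hx 0 (mem_ball_self hR)).deriv
      simpa using this
    rw [h2] at h1
    simpa using h1
  -- the difference quotients
  let g : ℕ → E → F := fun n x => ((n:ℂ) + 1) • (f (x + ((n:ℂ) + 1)⁻¹ • v) - f x)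
  have hn0 : ∀ n : ℕ, ((n:ℂ) + 1) ≠ 0 := fun n => Nat.cast_add_one_ne_zero n
  have hnn : ∀ n : ℕ, ‖((n:ℂ) + 1)‖ = (n:ℝ) + 1 := by
    intro n
    have : ((n:ℂ) + 1) = ((n + 1 : ℕ) : ℂ) := by push_cast; ring
    rw [this, Complex.norm_natCast]; push_cast; ring
  have hsmall : ∀ᶠ n : ℕ in atTop, 1 / ((n:ℝ) + 1) < R / 4 :=
    tendsto_one_div_add_atTop_nhds_zero_nat.eventually (gt_mem_nhds (by positivity))
  have hti : ∀ n : ℕ, ‖((n:ℂ) + 1)⁻¹‖ = 1 / ((n:ℝ) + 1) := by
    intro n; rw [norm_inv, hnn, one_div]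
  refine sc_limit g (fun x => fderiv ℂ f x v) x₀ r hr ?_ ?_
  · filter_upwards [hsmall] with n hn
    intro x hx
    have htn : ((n:ℂ) + 1)⁻¹ ∈ ball (0:ℂ) R := by
      rw [mem_ball, dist_zero_right, hti]; linarith
    have hx0 : x + (0:ℂ) • v ∈ ball x₀ (3 * r) := hball x hx 0 (mem_ball_self hR)
    rw [zero_smul, add_zero] at hx0
    have d1 : DifferentiableAt ℂ f x := hf.differentiableAt (hU.mem_nhds (hrU hx0))
    have d2 : DifferentiableAt ℂ f (x + ((n:ℂ) + 1)⁻¹ • v) :=
      hf.differentiableAt (hU.mem_nhds (hrU (hball x hx _ htn)))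
    have d3 : DifferentiableAt ℂ (fun x => f (x + ((n:ℂ) + 1)⁻¹ • v)) x :=
      d2.comp x ((differentiableAt_id).add_const _)
    exact ((d3.sub d1).const_smul _).differentiableWithinAt
  · rw [Metric.tendstoUniformlyOn_iff]
    intro ε hε
    have hlimC : Tendsto (fun n : ℕ => C * (1 / ((n:ℝ) + 1))) atTop (𝓝 0) := by
      have := tendsto_one_div_add_atTop_nhds_zero_nat (𝕜 := ℝ) |>.const_mul C
      simpa using this
    filter_upwards [hsmall, hlimC.eventually (gt_mem_nhds hε)] with n hn hn2 x hx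
    have h1 := hest x hx (((n:ℂ) + 1)⁻¹) (by rw [hti]; exact hn)
    rw [dist_eq_norm, norm_sub_rev]
    have h2 : g n x - fderiv ℂ f x v = ((n:ℂ) + 1) •
        (f (x + ((n:ℂ) + 1)⁻¹ • v) - f x - ((n:ℂ) + 1)⁻¹ • fderiv ℂ f x v) := by
      show ((n:ℂ) + 1) • (f (x + ((n:ℂ) + 1)⁻¹ • v) - f x) - fderiv ℂ f x v = _
      rw [smul_sub ((n:ℂ) + 1) (f (x + ((n:ℂ) + 1)⁻¹ • v) - f x), smul_smul,
        mul_inv_cancel₀ (hn0 n), one_smul]
    rw [h2, norm_smul, hnn]
    rw [hti] at h1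
    have hpos : (0:ℝ) < (n:ℝ) + 1 := by positivity
    calc ((n:ℝ) + 1) * ‖f (x + ((n:ℂ) + 1)⁻¹ • v) - f x - ((n:ℂ) + 1)⁻¹ • fderiv ℂ f x v‖
        ≤ ((n:ℝ) + 1) * (C * (1 / ((n:ℝ) + 1)) * (1 / ((n:ℝ) + 1))) :=
          mul_le_mul_of_nonneg_left h1 hpos.le
      _ = C * (1 / ((n:ℝ) + 1)) := by field_simp
      _ < ε := hn2

private theorem scsmooth_clm {E F : Type*} [NormedAddCommGroup E] [NormedSpace ℂ E]
    [FiniteDimensional ℂ E] [NormedAddCommGroup F] [NormedSpace ℂ F] {D : Type*}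
    [NormedAddCommGroup D] [NormedSpace ℂ D] (f : D → E →L[ℂ] F) (s : Set D)
    (h : ∀ y, DifferentiableOn ℂ (fun x => f x y) s) : DifferentiableOn ℂ f s := by
  let d := Module.finrank ℂ E
  have hd : d = Module.finrank ℂ (Fin d → ℂ) := (Module.finrank_fin_fun ℂ).symm
  let e₁ := ContinuousLinearEquiv.ofFinrankEq hd
  let e₂ := (e₁.arrowCongr (1 : F ≃L[ℂ] F)).trans (ContinuousLinearEquiv.piRing (Fin d))
  rw [← Function.id_comp f, ← e₂.symm_comp_self]
  exact e₂.symm.differentiable.comp_differentiableOn (differentiableOn_pi.mpr fun i => h _)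

theorem sc_fderiv_diff {E F : Type*} [NormedAddCommGroup E] [NormedSpace ℂ E] [FiniteDimensional ℂ E]
    [NormedAddCommGroup F] [NormedSpace ℂ F] [CompleteSpace F] (f : E → F) (U : Set E)
    (hU : IsOpen U) (hf : DifferentiableOn ℂ f U) : DifferentiableOn ℂ (fun x => fderiv ℂ f x) U :=
  scsmooth_clm _ U (fun v => scsmooth_dir f U hU hf v)

theorem sc_contDiffOn {E F : Type*} [NormedAddCommGroup E] [NormedSpace ℂ E] [FiniteDimensional ℂ E]
    [NormedAddCommGroup F] [NormedSpace ℂ F] [CompleteSpace F] (f : E → F) (U : Set E)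
    (hU : IsOpen U) (hf : DifferentiableOn ℂ f U) (n : ℕ) : ContDiffOn ℂ n f U := by
  induction n generalizing f with
  | zero => exact contDiffOn_zero.2 hf.continuousOn
  | succ n ih =>
    have hcast : ((n + 1 : ℕ) : WithTop ℕ∞) = (n : WithTop ℕ∞) + 1 := by push_cast; rfl
    rw [hcast, contDiffOn_succ_iff_fderiv_of_isOpen hU]
    refine ⟨hf, ?_, ?_⟩
    · intro h
      exact absurd h (by simp)
    · rw [contDiffOn_clm_apply]
      intro v
      exact ih _ (scsmooth_dir f U hU hf v)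

theorem sc_strict {E F : Type*} [NormedAddCommGroup E] [NormedSpace ℂ E] [FiniteDimensional ℂ E]
    [NormedAddCommGroup F] [NormedSpace ℂ F] [CompleteSpace F] (f : E → F) (U : Set E)
    (hU : IsOpen U) (hf : DifferentiableOn ℂ f U) (x : E) (hx : x ∈ U) :
    HasStrictFDerivAt f (fderiv ℂ f x) x := by
  have h1 : ContDiffAt ℂ (1:ℕ) f x := (sc_contDiffOn f U hU hf 1).contDiffAt (hU.mem_nhds hx)
  exact h1.hasStrictFDerivAt (by norm_num)

end FBH
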