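import Pool.Agent.FBH.Defs
import Pool.Agent.FBH.LAComp
import Pool.Agent.FBH.ScSmooth

/-!
InfPull. `InfA` is invariant under pull-back by automorphisms.
Proof. Let `K ⊆ X` be compact, `ε > 0`. `Θ '' K ⊆ X` compact; choose `r > 0` with `K' = cthickening r (Θ '' K) ⊆ X`
compact. `Θ'` is continuously differentiable on `X` (sc_contDiffOn), so there is a constant `C` bounding
`‖fderiv ℂ Θ' y‖` on `K'` and by uniform continuity of the derivative on `K'` (segments `[y, y+v]`, `y ∈ Θ '' K`,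
`‖v‖ ≤ r`, stay in `K'`): `‖Θ'(y+v) - Θ' y - fderiv ℂ Θ' y v‖ ≤ ε' ‖v‖` for `‖v‖ ≤ r'`. Let `φ_h` be from `InfA V` on
`Θ '' K`, `v = φ_h y - y`, `‖v‖ ≤ h (M+1)`, `‖v - h V y‖ ≤ ε'' h`. With `y = Θ x`, `ψ_h = Θ' ∘ φ_h ∘ Θ` (laut_comp twice):
`‖ψ_h x - x - h fderiv ℂ Θ' (Θ x) (V (Θ x))‖ ≤ ε' h (M+1) + C ε'' h ≤ ε h`.
-/

set_option autoImplicit false

open Metric Set Filter Topology

namespace FBH

theorem infPull_unif {f : V2 → V2} (hf : DifferentiableOn ℂ f XS) {L : Set V2} (hL : IsCompact L)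
    (hLX : L ⊆ XS) (ε : ℝ) (hε : 0 < ε) : ∃ r : ℝ, 0 < r ∧ ∀ y ∈ L, ∀ v : V2, ‖v‖ < r →
      ‖f (y + v) - f y - fderiv ℂ f y v‖ ≤ ε * ‖v‖ := by
  have hXo : IsOpen XS := by
    have : XS = (fun x : V2 => x.2) ⁻¹' {0}ᶜ := rfl
    rw [this]
    exact isOpen_compl_singleton.preimage continuous_snd
  have hD : ContinuousOn (fun x => fderiv ℂ f x) XS := (sc_fderiv_diff f XS hXo hf).continuousOn
  obtain ⟨r, hr, hrX⟩ := hL.exists_cthickening_subset_open hXo hLX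
  have hKc : IsCompact (cthickening r L) := hL.cthickening
  have hu := hKc.uniformContinuousOn_of_continuous (hD.mono hrX)
  rw [Metric.uniformContinuousOn_iff] at hu
  obtain ⟨δ, hδ, hu⟩ := hu ε hε
  refine ⟨min r δ, lt_min hr hδ, ?_⟩
  intro y hy v hv
  have hv1 : ‖v‖ < r := lt_of_lt_of_le hv (min_le_left _ _)
  have hv2 : ‖v‖ < δ := lt_of_lt_of_le hv (min_le_right _ _)
  have hsub : closedBall y ‖v‖ ⊆ cthickening r L := by
    intro z hz
    exact closedBall_subset_cthickening hy r (closedBall_subset_closedBall hv1.le hz)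
  have hyK : y ∈ cthickening r L := hsub (mem_closedBall_self (norm_nonneg v))
  have key := Convex.norm_image_sub_le_of_norm_fderiv_le' (𝕜 := ℂ) (f := f) (φ := fderiv ℂ f y)
    (s := closedBall y ‖v‖) (C := ε) (x := y) (y := y + v)
    (fun z hz => (hf z (hrX (hsub hz))).differentiableAt (hXo.mem_nhds (hrX (hsub hz))))
    (fun z hz => by
      have h1 := hu z (hsub hz) y hyK (lt_of_le_of_lt (mem_closedBall.1 hz) hv2)
      rw [dist_eq_norm] at h1
      exact h1.le)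
    (convex_closedBall y ‖v‖) (mem_closedBall_self (norm_nonneg v))
    (by rw [mem_closedBall, dist_eq_norm, add_sub_cancel_left])
  rw [add_sub_cancel_left] at key
  exact key

theorem infA_pull {V : V2 → V2} (hV : InfA V) (cV : ContinuousOn V XS) {Θ Θ' : V2 → V2}
    (h1 : LAut Θ Θ') (h2 : LAut Θ' Θ) : InfA (fun x => fderiv ℂ Θ' (Θ x) (V (Θ x))) := by
  intro K hK hKX ε hε
  have hXo : IsOpen XS := by
    have : XS = (fun x : V2 => x.2) ⁻¹' {0}ᶜ := rfl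
    rw [this]
    exact isOpen_compl_singleton.preimage continuous_snd
  have hL : IsCompact (Θ '' K) := hK.image_of_continuousOn (h1.diff.continuousOn.mono hKX)
  have hLX : Θ '' K ⊆ XS := by
    rintro _ ⟨x, hx, rfl⟩
    exact h1.mapsX x (hKX hx)
  have hD : ContinuousOn (fun x => fderiv ℂ Θ' x) XS := (sc_fderiv_diff Θ' XS hXo h1.diff').continuousOn
  obtain ⟨M0, hM0⟩ := hL.exists_bound_of_continuousOn (cV.mono hLX)
  obtain ⟨C0, hC0⟩ := hL.exists_bound_of_continuousOn (hD.mono hLX)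
  set M := max M0 0 with hM
  set C := max C0 0 with hC
  have M_nn : 0 ≤ M := le_max_right _ _
  have C_nn : 0 ≤ C := le_max_right _ _
  obtain ⟨r, hr, hrU⟩ := infPull_unif h1.diff' hL hLX (ε / (2 * (M + 1))) (by positivity)
  obtain ⟨h0, hh0, hφ⟩ := hV (Θ '' K) hL hLX (min 1 (ε / (2 * (C + 1)))) (by positivity)
  refine ⟨min h0 (r / (M + 1)), lt_min hh0 (by positivity), ?_⟩
  intro h hpos hlt
  obtain ⟨φ, φ', hLφ, hest⟩ := hφ h hpos (lt_of_lt_of_le hlt (min_le_left _ _))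
  have hl1 := laut_comp hLφ h1
  have hl2 := laut_comp h2 hl1
  refine ⟨fun x => Θ' (φ (Θ x)), fun x => Θ' (φ' (Θ x)), hl2, ?_⟩
  intro x hx
  have hyL : Θ x ∈ Θ '' K := ⟨x, hx, rfl⟩
  have e1 := hest (Θ x) hyL
  set y := Θ x with hy
  set v := φ y - y with hv
  have e2 : ‖v - (h : ℂ) • V y‖ ≤ 1 * h := e1.trans (mul_le_mul_of_nonneg_right (min_le_left _ _) hpos.le)
  have e3 : ‖v - (h : ℂ) • V y‖ ≤ ε / (2 * (C + 1)) * h :=
    e1.trans (mul_le_mul_of_nonneg_right (min_le_right _ _) hpos.le)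
  have hVy : ‖V y‖ ≤ M := (hM0 y hyL).trans (le_max_left _ _)
  have hDy : ‖fderiv ℂ Θ' y‖ ≤ C := (hC0 y hyL).trans (le_max_left _ _)
  have e4 : ‖v‖ ≤ h * (M + 1) := by
    have h5 : ‖v‖ ≤ ‖v - (h : ℂ) • V y‖ + ‖(h : ℂ) • V y‖ := by
      have := norm_add_le (v - (h : ℂ) • V y) ((h : ℂ) • V y)
      rwa [sub_add_cancel] at this
    have h6 : ‖(h : ℂ) • V y‖ ≤ h * M := by
      rw [norm_smul, Complex.norm_real, Real.norm_of_nonneg hpos.le]
      exact mul_le_mul_of_nonneg_left hVy hpos.le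
    linarith
  have e5 : ‖v‖ < r := by
    have h7 : h < r / (M + 1) := lt_of_lt_of_le hlt (min_le_right _ _)
    rw [lt_div_iff₀ (by positivity)] at h7
    exact lt_of_le_of_lt e4 h7
  have e6 := hrU y hyL v e5
  have e7 : y + v = φ y := by rw [hv]; abel
  have e8 : Θ' y = x := h1.left x (hKX hx)
  rw [e7, e8] at e6
  have e9 : ‖fderiv ℂ Θ' y (v - (h : ℂ) • V y)‖ ≤ C * (ε / (2 * (C + 1)) * h) :=
    ((fderiv ℂ Θ' y).le_opNorm _).trans (mul_le_mul hDy e3 (norm_nonneg _) C_nn)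
  have e10 : Θ' (φ y) - x - (h : ℂ) • fderiv ℂ Θ' y (V y) =
      (Θ' (φ y) - x - fderiv ℂ Θ' y v) + fderiv ℂ Θ' y (v - (h : ℂ) • V y) := by
    rw [(fderiv ℂ Θ' y).map_sub v ((h : ℂ) • V y), (fderiv ℂ Θ' y).map_smul (h : ℂ) (V y)]
    abel
  have e11 : ε / (2 * (M + 1)) * ‖v‖ ≤ ε / 2 * h := by
    have h8 : ε / (2 * (M + 1)) * ‖v‖ ≤ ε / (2 * (M + 1)) * (h * (M + 1)) :=
      mul_le_mul_of_nonneg_left e4 (by positivity)
    have h9 : ε / (2 * (M + 1)) * (h * (M + 1)) = ε / 2 * h := by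
      field_simp
    linarith
  have e12 : C * (ε / (2 * (C + 1)) * h) ≤ ε / 2 * h := by
    have h8 : C * (ε / (2 * (C + 1)) * h) = (C / (C + 1)) * (ε / 2 * h) := by
      field_simp
    rw [h8]
    have h9 : C / (C + 1) ≤ 1 := by
      rw [div_le_one (by positivity)]
      linarith
    have h10 : 0 ≤ ε / 2 * h := by positivity
    nlinarith
  show ‖Θ' (φ y) - x - (h : ℂ) • fderiv ℂ Θ' y (V y)‖ ≤ ε * h
  rw [e10]
  calc ‖(Θ' (φ y) - x - fderiv ℂ Θ' y v) + fderiv ℂ Θ' y (v - (h : ℂ) • V y)‖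
      ≤ ‖Θ' (φ y) - x - fderiv ℂ Θ' y v‖ + ‖fderiv ℂ Θ' y (v - (h : ℂ) • V y)‖ := norm_add_le _ _
    _ ≤ ε / 2 * h + ε / 2 * h := by
        refine add_le_add (e6.trans e11) (e9.trans e12)
    _ = ε * h := by ring

end FBH
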