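import Pool.Agent.FBH.Defs
import Pool.Agent.FBH.GenE
import Pool.Agent.FBH.InfAdd
import Pool.Agent.FBH.InfPull
import Pool.Agent.FBH.InfBase

/-!
InfK. Two families of complete fields.
`infA_k0`: pull back the field `(0, l q^n w)` (infA_base) by `Θ = (z + c w^j, w)`, `Θ' = (z - c w^j, w)` (laut_E1, both
directions: the inverse is the shear with `-c`). At `y = Θ x = (q, w)`, `q = z + c w^j`, the derivative of `Θ'` applied to
`(0, v₂)` is `(-c j w^(j-1) v₂, v₂)`, with `v₂ = l q^n w`. Use infA_pull and infA_congr.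
`infA_k1`: pull back `(0, l q^n w)` by `Θ = ((z + c w^j) w, w)` with inverse `Θ' = (z/w - c w^j, w)`
(laut_comp of laut_E1 and laut_M / laut_Mi). At `y = (q, w)`, `q = (z + c w^j) w`, the derivative of
`Θ'` applied to `(0, v₂)` is `((-q/w² - c j w^(j-1)) v₂, v₂)`, and `q/w² · w = z + c w^j`.
-/

set_option autoImplicit false

open Metric Set Filter Topology

namespace FBH

private theorem infK_E1r (c : ℂ) (j : ℤ) :
    LAut (fun x : V2 => (x.1 - c * x.2 ^ j, x.2)) (fun x : V2 => (x.1 + c * x.2 ^ j, x.2)) := by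
  have h := laut_E1 (-c) j
  have e1 : (fun x : V2 => (x.1 + -c * x.2 ^ j, x.2)) = (fun x : V2 => (x.1 - c * x.2 ^ j, x.2)) := by
    funext x
    rw [neg_mul, ← sub_eq_add_neg]
  have e2 : (fun x : V2 => (x.1 - -c * x.2 ^ j, x.2)) = (fun x : V2 => (x.1 + c * x.2 ^ j, x.2)) := by
    funext x
    rw [neg_mul, sub_neg_eq_add]
  rwa [e1, e2] at h

private theorem infK_cont (l : ℂ) (n : ℕ) :
    ContinuousOn (fun x : V2 => ((0, l * x.1 ^ n * x.2) : V2)) XS := by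
  apply Continuous.continuousOn
  fun_prop

private theorem infK_zpow (j : ℤ) (y : V2) (hy : y.2 ≠ 0) :
    HasFDerivAt (fun y : V2 => y.2 ^ j) (((j:ℂ) * y.2 ^ (j - 1)) • ContinuousLinearMap.snd ℂ ℂ ℂ) y :=
  (hasDerivAt_zpow j y.2 (Or.inl hy)).comp_hasFDerivAt y hasFDerivAt_snd

private theorem infK_inv (y : V2) (hy : y.2 ≠ 0) :
    HasFDerivAt (fun y : V2 => (y.2)⁻¹) ((-(y.2 ^ 2)⁻¹) • ContinuousLinearMap.snd ℂ ℂ ℂ) y :=
  (hasDerivAt_inv hy).comp_hasFDerivAt y hasFDerivAt_snd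

private theorem infK_zz (w : ℂ) (hw : w ≠ 0) (j : ℤ) : w ^ (j - 1) * w = w ^ j := by
  rw [zpow_sub_one₀ hw, mul_assoc, inv_mul_cancel₀ hw, mul_one]

theorem infA_k0 (l c : ℂ) (n : ℕ) (j : ℤ) :
    InfA (fun x : V2 => (-(c * (j:ℂ) * x.2 ^ j) * (l * (x.1 + c * x.2 ^ j) ^ n),
      l * (x.1 + c * x.2 ^ j) ^ n * x.2)) := by
  refine infA_congr (infA_pull (infA_base l n) (infK_cont l n) (laut_E1 c j) (infK_E1r c j)) ?_
  intro x hx
  have hd : HasFDerivAt (fun x : V2 => ((x.1 - c * x.2 ^ j, x.2) : V2))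
      ((ContinuousLinearMap.fst ℂ ℂ ℂ -
        c • (((j:ℂ) * x.2 ^ (j - 1)) • ContinuousLinearMap.snd ℂ ℂ ℂ)).prod
        (ContinuousLinearMap.snd ℂ ℂ ℂ)) ((x.1 + c * x.2 ^ j, x.2) : V2) := by
    have h1 := infK_zpow j ((x.1 + c * x.2 ^ j, x.2) : V2) hx
    exact (hasFDerivAt_fst.sub (h1.const_mul c)).prodMk hasFDerivAt_snd
  have h2 := hd.fderiv
  show _ = fderiv ℂ (fun x : V2 => ((x.1 - c * x.2 ^ j, x.2) : V2)) ((x.1 + c * x.2 ^ j, x.2) : V2)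
    ((0, l * (x.1 + c * x.2 ^ j) ^ n * x.2) : V2)
  rw [h2]
  have h3 := infK_zz x.2 hx j
  ext
  · simp only [ContinuousLinearMap.prod_apply, sub_apply,
      smul_apply, ContinuousLinearMap.coe_fst', ContinuousLinearMap.coe_snd',
      smul_eq_mul, zero_sub]
    rw [← h3]
    ring
  · simp only [ContinuousLinearMap.prod_apply, ContinuousLinearMap.coe_snd']

theorem infA_k1 (l c : ℂ) (n : ℕ) (j : ℤ) :
    InfA (fun x : V2 => (-((x.1 + c * x.2 ^ j) + c * (j:ℂ) * x.2 ^ j) *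
        (l * ((x.1 + c * x.2 ^ j) * x.2) ^ n),
      l * ((x.1 + c * x.2 ^ j) * x.2) ^ n * x.2)) := by
  refine infA_congr (infA_pull (infA_base l n) (infK_cont l n)
    (laut_comp laut_M (laut_E1 c j)) (laut_comp (infK_E1r c j) laut_Mi)) ?_
  intro x hx
  have hd : HasFDerivAt (fun x : V2 => ((x.1 / x.2 - c * x.2 ^ j, x.2) : V2))
      ((((x.1 + c * x.2 ^ j) * x.2) • ((-(x.2 ^ 2)⁻¹) • ContinuousLinearMap.snd ℂ ℂ ℂ) +
        (x.2)⁻¹ • ContinuousLinearMap.fst ℂ ℂ ℂ -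
        c • (((j:ℂ) * x.2 ^ (j - 1)) • ContinuousLinearMap.snd ℂ ℂ ℂ)).prod
        (ContinuousLinearMap.snd ℂ ℂ ℂ)) (((x.1 + c * x.2 ^ j) * x.2, x.2) : V2) := by
    have h1 := infK_zpow j (((x.1 + c * x.2 ^ j) * x.2, x.2) : V2) hx
    have h2 := infK_inv (((x.1 + c * x.2 ^ j) * x.2, x.2) : V2) hx
    have h4 : HasFDerivAt (fun y : V2 => y.1 * (y.2)⁻¹) _ (((x.1 + c * x.2 ^ j) * x.2, x.2) : V2) :=
      (hasFDerivAt_fst (𝕜 := ℂ) (E := ℂ) (F := ℂ)).mul h2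
    simp only [div_eq_mul_inv]
    exact (h4.sub (h1.const_mul c)).prodMk hasFDerivAt_snd
  have h2 := hd.fderiv
  show _ = fderiv ℂ (fun x : V2 => ((x.1 / x.2 - c * x.2 ^ j, x.2) : V2))
    (((x.1 + c * x.2 ^ j) * x.2, x.2) : V2)
    ((0, l * ((x.1 + c * x.2 ^ j) * x.2) ^ n * x.2) : V2)
  rw [h2]
  have h3 := infK_zz x.2 hx j
  ext
  · simp only [ContinuousLinearMap.prod_apply, sub_apply,
      add_apply,
      smul_apply, ContinuousLinearMap.coe_fst', ContinuousLinearMap.coe_snd',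
      smul_eq_mul, mul_zero, add_zero]
    have h5 : (x.2 ^ 2)⁻¹ * (x.2 * x.2) = 1 := by
      rw [← pow_two]
      exact inv_mul_cancel₀ (pow_ne_zero 2 hx)
    generalize (l * ((x.1 + c * x.2 ^ j) * x.2) ^ n) = A at *
    have h6 : (x.1 + c * x.2 ^ j) * x.2 * (-(x.2 ^ 2)⁻¹ * (A * x.2)) =
        -((x.1 + c * x.2 ^ j) * A * ((x.2 ^ 2)⁻¹ * (x.2 * x.2))) := by ring
    rw [h6, h5]
    have h7 : c * ((j:ℂ) * x.2 ^ (j - 1) * (A * x.2)) = c * (j:ℂ) * (x.2 ^ (j - 1) * x.2) * A := by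
      ring
    rw [h7, h3]
    ring
  · simp only [ContinuousLinearMap.prod_apply, ContinuousLinearMap.coe_snd']

end FBH
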