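import Pool.Agent.FBH.Defs
import Pool.Agent.FBH.UDQ
import Pool.Agent.FBH.InfAdd
import Pool.Agent.FBH.InfK

/-!
InfC. The coefficient of `c` in the two families is `InfA` (limit of difference quotients).
For `V_c` = the field of infA_k0 with parameters `(1 · l, c, n, j)`, the field `(1/c) V_c - (1/c) V_0` is the sum of
infA_k0 with `l` replaced by `l/c` and infA_k0 with `(-(l/c), 0)`; as `c → 0` it tends, uniformly on compact
subsets of `X` (udq applied to `c ↦ V_c x`), to the derivative at `c = 0`: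
`infA_k0`: `(-j w^j l z^n, l n z^(n-1) w^j w)`; with `n = i+1`, `j = K` this is `infA_A`.
`infA_k1`: derivative at `c = 0` of `(-(z + c(1+j) w^j) l ((z+c w^j) w)^n, l ((z+cw^j)w)^n w)` is
`(-((1+j) w^j) l z^n w^n - z l n z^(n-1) w^(j+n), l n z^(n-1) w^(j+n) w)`
`= (-(n+j+1) l z^n w^(n+j), l n z^(n-1) w^(n+j+1))`; with `n = i+1`, `j = K - n` this is `infA_B`.
Use infA_lim, infA_add (continuity on `X` is clear).
-/

set_option autoImplicit false

open Metric Set Filter Topology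

namespace FBH

theorem InfC_key (f f' : ℂ → V2 → V2)
    (h1 : ∀ c : ℂ, c ≠ 0 → InfA (fun x => c⁻¹ • (f c x - f 0 x)))
    (h2 : ∀ x : V2, x.2 ≠ 0 → ∀ c : ℂ, HasDerivAt (fun c => f c x) (f' c x) c)
    (h3 : ContinuousOn (fun p : ℂ × V2 => f' p.1 p.2) (univ ×ˢ XS)) : InfA (f' 0) := by
  refine infA_lim ?_
  intro K hK hKX ε hε
  obtain ⟨δ, hδ, hd⟩ := udq K hK 1 one_pos f f' (fun c _ x hx => h2 x (hKX hx) c)
    (h3.mono (prod_mono (subset_univ _) hKX)) ε hε
  have hc0 : ((δ / 2 : ℝ) : ℂ) ≠ 0 := by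
    rw [Ne, Complex.ofReal_eq_zero]
    exact (half_pos hδ).ne'
  have hcn : ‖((δ / 2 : ℝ) : ℂ)‖ = δ / 2 := by
    rw [Complex.norm_real, Real.norm_eq_abs, abs_of_pos (half_pos hδ)]
  generalize hcc : ((δ / 2 : ℝ) : ℂ) = c at hc0 hcn
  refine ⟨_, h1 c hc0, fun x hx => ?_⟩
  have h := hd c (by rw [hcn]; linarith) x hx
  have e : f' 0 x - c⁻¹ • (f c x - f 0 x) = -(c⁻¹ • (f c x - f 0 x - c • f' 0 x)) := by
    rw [smul_sub c⁻¹ (f c x - f 0 x), smul_smul, inv_mul_cancel₀ hc0, one_smul]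
    abel
  rw [e, norm_neg, norm_smul, norm_inv]
  have hcp : 0 < ‖c‖ := norm_pos_iff.mpr hc0
  calc ‖c‖⁻¹ * ‖f c x - f 0 x - c • f' 0 x‖ ≤ ‖c‖⁻¹ * (ε * ‖c‖) :=
        mul_le_mul_of_nonneg_left h (inv_nonneg.mpr hcp.le)
    _ = ε := by field_simp

theorem InfC_zc (j : ℤ) : ContinuousOn (fun x : V2 => x.2 ^ j) XS :=
  continuousOn_snd.zpow₀ j (fun _ hx => Or.inl hx)

theorem InfC_zc2 (j : ℤ) : ContinuousOn (fun p : ℂ × V2 => p.2.2 ^ j) (univ ×ˢ XS) :=
  (continuous_snd.snd.continuousOn).zpow₀ j (fun _ hx => Or.inl hx.2)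

theorem InfC_k0c (l c : ℂ) (n : ℕ) (j : ℤ) :
    ContinuousOn (fun x : V2 => ((-(c * (j:ℂ) * x.2 ^ j) * (l * (x.1 + c * x.2 ^ j) ^ n),
      l * (x.1 + c * x.2 ^ j) ^ n * x.2) : V2)) XS := by
  have hz := InfC_zc j
  have h1 : ContinuousOn (fun x : V2 => (x.1 + c * x.2 ^ j) ^ n) XS :=
    (continuousOn_fst.add (continuousOn_const.mul hz)).pow n
  exact ((continuousOn_const.mul hz).neg.mul (continuousOn_const.mul h1)).prodMk
    ((continuousOn_const.mul h1).mul continuousOn_snd)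

theorem InfC_k1c (l c : ℂ) (n : ℕ) (j : ℤ) :
    ContinuousOn (fun x : V2 => ((-((x.1 + c * x.2 ^ j) + c * (j:ℂ) * x.2 ^ j) *
        (l * ((x.1 + c * x.2 ^ j) * x.2) ^ n),
      l * ((x.1 + c * x.2 ^ j) * x.2) ^ n * x.2) : V2)) XS := by
  have hz := InfC_zc j
  have h0 : ContinuousOn (fun x : V2 => x.1 + c * x.2 ^ j) XS :=
    continuousOn_fst.add (continuousOn_const.mul hz)
  have h1 : ContinuousOn (fun x : V2 => ((x.1 + c * x.2 ^ j) * x.2) ^ n) XS :=
    (h0.mul continuousOn_snd).pow n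
  exact ((h0.add (continuousOn_const.mul hz)).neg.mul (continuousOn_const.mul h1)).prodMk
    ((continuousOn_const.mul h1).mul continuousOn_snd)

theorem InfC_da (z wj c : ℂ) : HasDerivAt (fun c : ℂ => z + c * wj) wj c := by
  have := ((hasDerivAt_id c).mul_const wj).const_add z
  simpa using this

theorem InfC_dA (l z w wj jj : ℂ) (n : ℕ) (c : ℂ) :
    HasDerivAt (fun c : ℂ => ((-(c * jj * wj) * (l * (z + c * wj) ^ n),
      l * (z + c * wj) ^ n * w) : V2))
      (-(jj * wj) * (l * (z + c * wj) ^ n) + -(c * jj * wj) * (l * ((n : ℂ) * (z + c * wj) ^ (n - 1) * wj)),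
        l * ((n : ℂ) * (z + c * wj) ^ (n - 1) * wj) * w) c := by
  have h1 : HasDerivAt (fun c : ℂ => l * (z + c * wj) ^ n) (l * ((n : ℂ) * (z + c * wj) ^ (n - 1) * wj)) c :=
    ((InfC_da z wj c).fun_pow n).const_mul l
  have h2 : HasDerivAt (fun c : ℂ => -(c * jj * wj)) (-(jj * wj)) c := by
    have h3 : HasDerivAt (fun c : ℂ => c * jj * wj) (jj * wj) c := by
      have := ((hasDerivAt_id c).mul_const jj).mul_const wj
      simpa using this
    exact h3.neg
  exact (h2.mul h1).prodMk (h1.mul_const w)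

theorem InfC_dB (l z w wj jj : ℂ) (n : ℕ) (c : ℂ) :
    HasDerivAt (fun c : ℂ => ((-((z + c * wj) + c * jj * wj) * (l * ((z + c * wj) * w) ^ n),
      l * ((z + c * wj) * w) ^ n * w) : V2))
      (-(wj + jj * wj) * (l * ((z + c * wj) * w) ^ n) +
          -((z + c * wj) + c * jj * wj) * (l * ((n : ℂ) * ((z + c * wj) * w) ^ (n - 1) * (wj * w))),
        l * ((n : ℂ) * ((z + c * wj) * w) ^ (n - 1) * (wj * w)) * w) c := by
  have h1 : HasDerivAt (fun c : ℂ => l * ((z + c * wj) * w) ^ n)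
      (l * ((n : ℂ) * ((z + c * wj) * w) ^ (n - 1) * (wj * w))) c :=
    (((InfC_da z wj c).mul_const w).fun_pow n).const_mul l
  have h2 : HasDerivAt (fun c : ℂ => -((z + c * wj) + c * jj * wj)) (-(wj + jj * wj)) c := by
    have h3 : HasDerivAt (fun c : ℂ => c * jj * wj) (jj * wj) c := by
      have := ((hasDerivAt_id c).mul_const jj).mul_const wj
      simpa using this
    exact ((InfC_da z wj c).add h3).neg
  exact (h2.mul h1).prodMk (h1.mul_const w)

theorem infA_A (l : ℂ) (i : ℕ) (K : ℤ) :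
    InfA (fun x : V2 => (-((K:ℂ) * l * x.1 ^ (i + 1) * x.2 ^ K),
      ((i:ℂ) + 1) * l * x.1 ^ i * x.2 ^ (K + 1))) := by
  have key := InfC_key
    (fun c x => (-(c * (K:ℂ) * x.2 ^ K) * (l * (x.1 + c * x.2 ^ K) ^ (i + 1)),
      l * (x.1 + c * x.2 ^ K) ^ (i + 1) * x.2))
    (fun c x => (-((K:ℂ) * x.2 ^ K) * (l * (x.1 + c * x.2 ^ K) ^ (i + 1)) +
      -(c * (K:ℂ) * x.2 ^ K) * (l * (((i + 1 : ℕ) : ℂ) * (x.1 + c * x.2 ^ K) ^ (i + 1 - 1) * x.2 ^ K)),
        l * (((i + 1 : ℕ) : ℂ) * (x.1 + c * x.2 ^ K) ^ (i + 1 - 1) * x.2 ^ K) * x.2))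
    ?_ ?_ ?_
  · refine infA_congr key (fun x hx => ?_)
    have hw : x.2 ^ (K + 1) = x.2 ^ K * x.2 := zpow_add_one₀ hx K
    rw [hw]
    refine Prod.ext ?_ ?_
    · simp only [Nat.add_sub_cancel, zero_mul, neg_zero, add_zero]
      ring
    · simp only [Nat.add_sub_cancel, zero_mul, add_zero]
      push_cast
      ring
  · intro c hc
    refine infA_congr (infA_add (infA_k0 (l / c) c (i + 1) K) (infA_k0 (-(l / c)) 0 (i + 1) K)
      (InfC_k0c _ _ _ _) (InfC_k0c _ _ _ _)) (fun x hx => ?_)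
    refine Prod.ext ?_ ?_
    · simp only [Prod.smul_fst, Prod.fst_sub, Prod.fst_add, smul_eq_mul]
      field_simp
      ring
    · simp only [Prod.smul_snd, Prod.snd_sub, Prod.snd_add, smul_eq_mul]
      field_simp
      ring
  · intro x hx c
    exact InfC_dA l x.1 x.2 (x.2 ^ K) (K:ℂ) (i + 1) c
  · have hz := InfC_zc2 K
    have hc : ContinuousOn (fun p : ℂ × V2 => p.1) (univ ×ˢ XS) := continuous_fst.continuousOn
    have hx1 : ContinuousOn (fun p : ℂ × V2 => p.2.1) (univ ×ˢ XS) := continuous_snd.fst.continuousOn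
    have hx2 : ContinuousOn (fun p : ℂ × V2 => p.2.2) (univ ×ˢ XS) := continuous_snd.snd.continuousOn
    have h0 := hx1.add (hc.mul hz)
    have h1 := (continuousOn_const (c := l)).mul (h0.pow (i + 1))
    have h2 := (continuousOn_const (c := l)).mul (((continuousOn_const (c := ((i + 1 : ℕ) : ℂ))).mul
      (h0.pow (i + 1 - 1))).mul hz)
    have h3 := ((continuousOn_const (c := (K:ℂ))).mul hz).neg
    have h4 := ((hc.mul (continuousOn_const (c := (K:ℂ)))).mul hz).neg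
    exact ((h3.mul h1).add (h4.mul h2)).prodMk (h2.mul hx2)

theorem infA_B (l : ℂ) (i : ℕ) (K : ℤ) :
    InfA (fun x : V2 => (-(((K:ℂ) + 1) * l * x.1 ^ (i + 1) * x.2 ^ K),
      ((i:ℂ) + 1) * l * x.1 ^ i * x.2 ^ (K + 1))) := by
  have key := InfC_key
    (fun c x => (-((x.1 + c * x.2 ^ (K - (i + 1))) + c * ((K - (i + 1) : ℤ):ℂ) * x.2 ^ (K - (i + 1))) *
        (l * ((x.1 + c * x.2 ^ (K - (i + 1))) * x.2) ^ (i + 1)),
      l * ((x.1 + c * x.2 ^ (K - (i + 1))) * x.2) ^ (i + 1) * x.2))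
    (fun c x => (-(x.2 ^ (K - (i + 1)) + ((K - (i + 1) : ℤ):ℂ) * x.2 ^ (K - (i + 1))) *
          (l * ((x.1 + c * x.2 ^ (K - (i + 1))) * x.2) ^ (i + 1)) +
          -((x.1 + c * x.2 ^ (K - (i + 1))) + c * ((K - (i + 1) : ℤ):ℂ) * x.2 ^ (K - (i + 1))) *
            (l * (((i + 1 : ℕ) : ℂ) * ((x.1 + c * x.2 ^ (K - (i + 1))) * x.2) ^ (i + 1 - 1) *
              (x.2 ^ (K - (i + 1)) * x.2))),
        l * (((i + 1 : ℕ) : ℂ) * ((x.1 + c * x.2 ^ (K - (i + 1))) * x.2) ^ (i + 1 - 1) *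
              (x.2 ^ (K - (i + 1)) * x.2)) * x.2))
    ?_ ?_ ?_
  · refine infA_congr key (fun x hx => ?_)
    have hx : x.2 ≠ 0 := hx
    have hw : x.2 ^ (K + 1) = x.2 ^ K * x.2 := zpow_add_one₀ hx K
    have hk : x.2 ^ K = x.2 ^ (K - (i + 1)) * (x.2 ^ i * x.2) := by
      rw [← pow_succ, ← zpow_natCast, ← zpow_add₀ hx]
      congr 1
      push_cast
      ring
    rw [hw, hk]
    generalize x.2 ^ (K - (i + 1)) = y
    refine Prod.ext ?_ ?_
    · simp only [Nat.add_sub_cancel, zero_mul, add_zero, mul_pow, pow_succ]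
      push_cast
      ring
    · simp only [Nat.add_sub_cancel, zero_mul, add_zero, mul_pow]
      push_cast
      ring
  · intro c hc
    refine infA_congr (infA_add (infA_k1 (l / c) c (i + 1) (K - (i + 1))) (infA_k1 (-(l / c)) 0 (i + 1) (K - (i + 1)))
      (InfC_k1c _ _ _ _) (InfC_k1c _ _ _ _)) (fun x hx => ?_)
    refine Prod.ext ?_ ?_
    · simp only [Prod.smul_fst, Prod.fst_sub, Prod.fst_add, smul_eq_mul]
      field_simp
      ring
    · simp only [Prod.smul_snd, Prod.snd_sub, Prod.snd_add, smul_eq_mul]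
      field_simp
      ring
  · intro x hx c
    exact InfC_dB l x.1 x.2 (x.2 ^ (K - (i + 1))) ((K - (i + 1) : ℤ):ℂ) (i + 1) c
  · have hz := InfC_zc2 (K - (i + 1))
    have hc : ContinuousOn (fun p : ℂ × V2 => p.1) (univ ×ˢ XS) := continuous_fst.continuousOn
    have hx1 : ContinuousOn (fun p : ℂ × V2 => p.2.1) (univ ×ˢ XS) := continuous_snd.fst.continuousOn
    have hx2 : ContinuousOn (fun p : ℂ × V2 => p.2.2) (univ ×ˢ XS) := continuous_snd.snd.continuousOn
    have h0 := hx1.add (hc.mul hz)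
    have h1 := (continuousOn_const (c := l)).mul ((h0.mul hx2).pow (i + 1))
    have h2 := (continuousOn_const (c := l)).mul (((continuousOn_const (c := ((i + 1 : ℕ) : ℂ))).mul
      ((h0.mul hx2).pow (i + 1 - 1))).mul (hz.mul hx2))
    have h3 := (hz.add ((continuousOn_const (c := ((K - (i + 1) : ℤ):ℂ))).mul hz)).neg
    have h4 := (h0.add ((hc.mul (continuousOn_const (c := ((K - (i + 1) : ℤ):ℂ)))).mul hz)).neg
    exact ((h3.mul h1).add (h4.mul h2)).prodMk (h2.mul hx2)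

end FBH
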