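import Pool.Agent.FBH.Defs
import Pool.Agent.FBH.LPMul
import Pool.Agent.FBH.InfAdd
import Pool.Agent.FBH.InfBase
import Pool.Agent.FBH.InfC

/-!
InfAll. Every Laurent polynomial vector field is `InfA`.
Proof. `infA_A l i K + infA_B (-l) i K` is `(l z^(i+1) w^K, 0)`. Together with infA_shear all
`(l z^i w^K, 0)` are InfA (`i ≥ 0`). Then `infA_A (l/(i+1)) i (K-1)` plus `((K-1) (l/(i+1)) z^(i+1) w^(K-1), 0)` is
`(0, l z^i w^K)`. Sums by span induction over `LPoly` in both components (keep the continuity on `X` of all fields,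
lpoly_diff).
-/

set_option autoImplicit false

open Metric Set Filter Topology

namespace FBH

theorem InfAll_mono_mem (l : ℂ) (i : ℕ) (K : ℤ) : (fun x : V2 => l * x.1 ^ i * x.2 ^ K) ∈ LPoly := by
  have h : (fun x : V2 => x.1 ^ i * x.2 ^ K) ∈ LPoly := Submodule.subset_span ⟨i, K, rfl⟩
  have := LPoly.smul_mem l h
  convert this using 1
  funext x
  simp [mul_assoc]

theorem InfAll_cont {L₁ L₂ : V2 → ℂ} (h₁ : L₁ ∈ LPoly) (h₂ : L₂ ∈ LPoly) :
    ContinuousOn (fun x : V2 => ((L₁ x, L₂ x) : V2)) XS :=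
  (lpoly_diff h₁).continuousOn.prodMk (lpoly_diff h₂).continuousOn

theorem InfAll_fst (l : ℂ) (i : ℕ) (K : ℤ) : InfA (fun x : V2 => (l * x.1 ^ i * x.2 ^ K, 0)) := by
  cases i with
  | zero =>
    refine infA_congr (infA_shear l K) (fun x _ => ?_)
    simp
  | succ i =>
    have hA := infA_A l i K
    have hB := infA_B (-l) i K
    have cA : ContinuousOn (fun x : V2 => ((-((K:ℂ) * l * x.1 ^ (i + 1) * x.2 ^ K),
      ((i:ℂ) + 1) * l * x.1 ^ i * x.2 ^ (K + 1)) : V2)) XS := by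
      have m1 := LPoly.neg_mem (InfAll_mono_mem ((K:ℂ) * l) (i + 1) K)
      have m2 := InfAll_mono_mem (((i:ℂ) + 1) * l) i (K + 1)
      exact InfAll_cont m1 m2
    have cB : ContinuousOn (fun x : V2 => ((-(((K:ℂ) + 1) * (-l) * x.1 ^ (i + 1) * x.2 ^ K),
      ((i:ℂ) + 1) * (-l) * x.1 ^ i * x.2 ^ (K + 1)) : V2)) XS := by
      have m1 := LPoly.neg_mem (InfAll_mono_mem (((K:ℂ) + 1) * (-l)) (i + 1) K)
      have m2 := InfAll_mono_mem (((i:ℂ) + 1) * (-l)) i (K + 1)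
      exact InfAll_cont m1 m2
    refine infA_congr (infA_add hA hB cA cB) (fun x _ => ?_)
    simp only [Prod.mk_add_mk, Prod.mk.injEq]
    constructor <;> ring

theorem InfAll_snd (l : ℂ) (i : ℕ) (K : ℤ) : InfA (fun x : V2 => (0, l * x.1 ^ i * x.2 ^ K)) := by
  have hi : ((i:ℂ) + 1) ≠ 0 := by exact_mod_cast Nat.succ_ne_zero i
  have hA := infA_A (l / ((i:ℂ) + 1)) i (K - 1)
  have hB := InfAll_fst (((K - 1 : ℤ) : ℂ) * (l / ((i:ℂ) + 1))) (i + 1) (K - 1)
  have cA : ContinuousOn (fun x : V2 => ((-(((K - 1 : ℤ) : ℂ) * (l / ((i:ℂ) + 1)) * x.1 ^ (i + 1) * x.2 ^ (K - 1)),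
      ((i:ℂ) + 1) * (l / ((i:ℂ) + 1)) * x.1 ^ i * x.2 ^ (K - 1 + 1)) : V2)) XS := by
    have m1 := LPoly.neg_mem (InfAll_mono_mem (((K - 1 : ℤ) : ℂ) * (l / ((i:ℂ) + 1))) (i + 1) (K - 1))
    have m2 := InfAll_mono_mem (((i:ℂ) + 1) * (l / ((i:ℂ) + 1))) i (K - 1 + 1)
    exact InfAll_cont m1 m2
  have cB : ContinuousOn (fun x : V2 => ((((K - 1 : ℤ) : ℂ) * (l / ((i:ℂ) + 1)) * x.1 ^ (i + 1) * x.2 ^ (K - 1), 0) : V2)) XS := by
    have m1 := InfAll_mono_mem (((K - 1 : ℤ) : ℂ) * (l / ((i:ℂ) + 1))) (i + 1) (K - 1)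
    exact InfAll_cont m1 LPoly.zero_mem
  refine infA_congr (infA_add hA hB cA cB) (fun x _ => ?_)
  simp only [Prod.mk_add_mk, Prod.mk.injEq, add_zero]
  constructor
  · ring
  · rw [sub_add_cancel, mul_div_cancel₀ _ hi]

theorem InfAll_left {L : V2 → ℂ} (h : L ∈ LPoly) : InfA (fun x : V2 => (L x, 0)) := by
  have hs : ∀ l : ℂ, InfA (fun x : V2 => (l * L x, 0)) := by
    refine Submodule.span_induction (p := fun L _ => ∀ l : ℂ, InfA (fun x : V2 => (l * L x, 0)))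
      ?_ ?_ ?_ ?_ h
    · rintro f ⟨i, K, rfl⟩ l
      refine infA_congr (InfAll_fst l i K) (fun x _ => ?_)
      simp [mul_assoc]
    · intro l
      refine infA_congr infA_zero (fun x _ => ?_)
      simp
    · intro f g hf hg h1 h2 l
      have c1 : ContinuousOn (fun x : V2 => ((l * f x, 0) : V2)) XS :=
        InfAll_cont (L₁ := fun x => l * f x) (L₂ := fun _ => 0) (LPoly.smul_mem l hf) LPoly.zero_mem
      have c2 : ContinuousOn (fun x : V2 => ((l * g x, 0) : V2)) XS :=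
        InfAll_cont (L₁ := fun x => l * g x) (L₂ := fun _ => 0) (LPoly.smul_mem l hg) LPoly.zero_mem
      refine infA_congr (infA_add (h1 l) (h2 l) c1 c2) (fun x _ => ?_)
      simp [mul_add]
    · intro a f hf h1 l
      refine infA_congr (h1 (l * a)) (fun x _ => ?_)
      simp [mul_assoc]
  refine infA_congr (hs 1) (fun x _ => ?_)
  simp

theorem InfAll_right {L : V2 → ℂ} (h : L ∈ LPoly) : InfA (fun x : V2 => (0, L x)) := by
  have hs : ∀ l : ℂ, InfA (fun x : V2 => (0, l * L x)) := by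
    refine Submodule.span_induction (p := fun L _ => ∀ l : ℂ, InfA (fun x : V2 => (0, l * L x)))
      ?_ ?_ ?_ ?_ h
    · rintro f ⟨i, K, rfl⟩ l
      refine infA_congr (InfAll_snd l i K) (fun x _ => ?_)
      simp [mul_assoc]
    · intro l
      refine infA_congr infA_zero (fun x _ => ?_)
      simp
    · intro f g hf hg h1 h2 l
      have c1 : ContinuousOn (fun x : V2 => ((0, l * f x) : V2)) XS :=
        InfAll_cont (L₂ := fun x => l * f x) (L₁ := fun _ => 0) LPoly.zero_mem (LPoly.smul_mem l hf)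
      have c2 : ContinuousOn (fun x : V2 => ((0, l * g x) : V2)) XS :=
        InfAll_cont (L₂ := fun x => l * g x) (L₁ := fun _ => 0) LPoly.zero_mem (LPoly.smul_mem l hg)
      refine infA_congr (infA_add (h1 l) (h2 l) c1 c2) (fun x _ => ?_)
      simp [mul_add]
    · intro a f hf h1 l
      refine infA_congr (h1 (l * a)) (fun x _ => ?_)
      simp [mul_assoc]
  refine infA_congr (hs 1) (fun x _ => ?_)
  simp

theorem infA_all {L₁ L₂ : V2 → ℂ} (h₁ : L₁ ∈ LPoly) (h₂ : L₂ ∈ LPoly) :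
    InfA (fun x : V2 => (L₁ x, L₂ x)) := by
  have c1 : ContinuousOn (fun x : V2 => ((L₁ x, 0) : V2)) XS :=
    InfAll_cont (L₂ := fun _ => 0) h₁ LPoly.zero_mem
  have c2 : ContinuousOn (fun x : V2 => ((0, L₂ x) : V2)) XS :=
    InfAll_cont (L₁ := fun _ => 0) LPoly.zero_mem h₂
  refine infA_congr (infA_add (InfAll_left h₁) (InfAll_right h₂) c1 c2) (fun x _ => ?_)
  simp

end FBH
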