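import Pool.Agent.FBH.Defs
import Pool.Agent.FBH.ScSmooth

/-!
UnifOpen. Uniform openness near a compact set of points with invertible derivative.
Proof. For each `p₀ ∈ P` the strict derivative (sc_strict) is an equivalence, so `g` has a local inverse `k` near
`g p₀`, Lipschitz near `g p₀` with a constant `C₀` (strict differentiability of the local inverse,
HasStrictFDerivAt.to_localInverse and exists_lipschitzOnWith). Let `r₀ > 0` such that for `y, y'` in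
`ball (g p₀) (2 r₀)`: `k y ∈ U`, `g (k y) = y`, `‖k y - k y'‖ ≤ C₀ ‖y - y'‖`, and for `p` near `p₀`: `k (g p) = p`,
`g p ∈ ball (g p₀) r₀`. Then for such `p` and `‖y - g p‖ ≤ δ₀ := r₀/2`: `p' = k y` works. Cover `P` by finitely many
such neighbourhoods; `δ` = min, `C` = max (handle `P = ∅` separately).
-/

set_option autoImplicit false

open Metric Set Filter Topology

namespace FBH

theorem unifOpen_local {E : Type*} [NormedAddCommGroup E] [NormedSpace ℂ E] [FiniteDimensional ℂ E]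
    (g : E → E) (U : Set E) (hU : IsOpen U) (hg : DifferentiableOn ℂ g U) (p₀ : E) (hp : p₀ ∈ U)
    (himm : Function.Injective (fderiv ℂ g p₀)) :
    ∃ δ : ℝ, 0 < δ ∧ ∃ C : ℝ, 0 < C ∧ ∀ᶠ p in 𝓝 p₀, ∀ y : E, ‖y - g p‖ ≤ δ →
      ∃ p' ∈ U, g p' = y ∧ ‖p' - p‖ ≤ C * ‖y - g p‖ := by
  haveI : CompleteSpace E := FiniteDimensional.complete ℂ E
  have hstr : HasStrictFDerivAt g (fderiv ℂ g p₀) p₀ := sc_strict g U hU hg p₀ hp
  let e : E ≃L[ℂ] E := (LinearEquiv.ofInjectiveEndo (fderiv ℂ g p₀ : E →ₗ[ℂ] E) himm).toContinuousLinearEquiv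
  have he : (e : E →L[ℂ] E) = fderiv ℂ g p₀ := by
    ext x
    rfl
  rw [← he] at hstr
  have hL := hstr.eventually_left_inverse
  have hR := hstr.eventually_right_inverse
  have hk := hstr.to_localInverse
  have hk0 := hstr.localInverse_apply_image
  set k := hstr.localInverse g e p₀ with hkdef
  obtain ⟨K, s, hs, hLip⟩ := hk.exists_lipschitzOnWith
  have hkU : ∀ᶠ y in 𝓝 (g p₀), k y ∈ U := by
    have hc : ContinuousAt k (g p₀) := hk.continuousAt
    apply hc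
    rw [hk0]
    exact hU.mem_nhds hp
  have hall : ∀ᶠ y in 𝓝 (g p₀), y ∈ s ∧ g (k y) = y ∧ k y ∈ U := (Filter.eventually_mem_set.2 hs).and (hR.and hkU)
  obtain ⟨r, hr, hball⟩ := Metric.eventually_nhds_iff.1 hall
  refine ⟨r / 4, by positivity, (K : ℝ) + 1, by positivity, ?_⟩
  have hgc : ∀ᶠ p in 𝓝 p₀, dist (g p) (g p₀) < r / 2 := by
    have hc : ContinuousAt g p₀ := hstr.continuousAt
    exact hc (Metric.ball_mem_nhds _ (by positivity))
  filter_upwards [hL, hgc] with p hpL hpg y hy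
  have hy' : dist y (g p) ≤ r / 4 := by
    rw [dist_eq_norm]
    exact hy
  have hyr : dist y (g p₀) < r := by
    have := dist_triangle y (g p) (g p₀)
    linarith
  have hgr : dist (g p) (g p₀) < r := by linarith
  obtain ⟨hys, hyk, hyU⟩ := hball hyr
  obtain ⟨hgs, _, _⟩ := hball hgr
  refine ⟨k y, hyU, hyk, ?_⟩
  have h1 := hLip.dist_le_mul y hys (g p) hgs
  rw [hpL, dist_eq_norm, dist_eq_norm] at h1
  refine h1.trans ?_
  have := norm_nonneg (y - g p)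
  nlinarith

theorem unif_open {E : Type*} [NormedAddCommGroup E] [NormedSpace ℂ E] [FiniteDimensional ℂ E]
    (g : E → E) (U P : Set E) (hU : IsOpen U) (hg : DifferentiableOn ℂ g U) (hP : IsCompact P)
    (hPU : P ⊆ U) (himm : ∀ p ∈ P, Function.Injective (fderiv ℂ g p)) :
    ∃ δ : ℝ, 0 < δ ∧ ∃ C : ℝ, 0 < C ∧ ∀ p ∈ P, ∀ y : E, ‖y - g p‖ ≤ δ →
      ∃ p' ∈ U, g p' = y ∧ ‖p' - p‖ ≤ C * ‖y - g p‖ := by
  have key : ∃ δ : ℝ, 0 < δ ∧ ∃ C : ℝ, 0 < C ∧ ∀ p ∈ P, ∀ y : E, ‖y - g p‖ ≤ δ →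
      ∃ p' ∈ U, g p' = y ∧ ‖p' - p‖ ≤ C * ‖y - g p‖ := by
    refine hP.induction_on (p := fun S => ∃ δ : ℝ, 0 < δ ∧ ∃ C : ℝ, 0 < C ∧ ∀ p ∈ S, ∀ y : E, ‖y - g p‖ ≤ δ →
      ∃ p' ∈ U, g p' = y ∧ ‖p' - p‖ ≤ C * ‖y - g p‖) ?_ ?_ ?_ ?_
    · exact ⟨1, one_pos, 1, one_pos, fun p hp => absurd hp (Set.notMem_empty p)⟩
    · rintro S T hST ⟨δ, hδ, C, hC, h⟩
      exact ⟨δ, hδ, C, hC, fun p hp => h p (hST hp)⟩
    · rintro S T ⟨δ, hδ, C, hC, h⟩ ⟨δ', hδ', C', hC', h'⟩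
      refine ⟨min δ δ', lt_min hδ hδ', max C C', lt_max_of_lt_left hC, ?_⟩
      rintro p (hp | hp) y hy
      · obtain ⟨p', h1, h2, h3⟩ := h p hp y (hy.trans (min_le_left _ _))
        exact ⟨p', h1, h2, h3.trans (mul_le_mul_of_nonneg_right (le_max_left _ _) (norm_nonneg _))⟩
      · obtain ⟨p', h1, h2, h3⟩ := h' p hp y (hy.trans (min_le_right _ _))
        exact ⟨p', h1, h2, h3.trans (mul_le_mul_of_nonneg_right (le_max_right _ _) (norm_nonneg _))⟩
    · intro p hp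
      obtain ⟨δ, hδ, C, hC, h⟩ := unifOpen_local g U hU hg p (hPU hp) (himm p hp)
      exact ⟨_, mem_nhdsWithin_of_mem_nhds h, δ, hδ, C, hC, fun q hq => hq⟩
  exact key

end FBH
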