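import Pool.Agent.FBH.Defs
import Pool.Agent.FBH.ScSmooth
import Pool.Agent.FBH.UnifOpen
import Pool.Agent.FBH.UDQ
import Pool.Agent.FBH.LPMul
import Pool.Agent.FBH.InfAll

/-!
ALStep. One step of the contraction `p ↦ (1-h) p` is realised, up to `ε h`, by an automorphism in the coordinates
given by `g`.
Proof. Let `P = PD R₂ ρ₂` (compact, convex, balanced), `D p = fderiv ℂ g p p`, holomorphic on `OD R₃ ρ₃` (sc_fderiv_diff).
By `hR` applied to minus the two components of `D` there are Laurent polynomials `L₁, L₂` with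
`‖-D p - (L₁ (g p), L₂ (g p))‖ < ε₁` on `P`. By infA_all on the compact set `g '' P ⊆ X`, for small `h` there is `ψ` with
`‖ψ (g p) - g p - h (L₁ (g p), L₂ (g p))‖ ≤ ε₁ h`, so `‖ψ (g p) - g p + h D p‖ ≤ 2 ε₁ h` on `P`. By udq for
`f c p = g (p - c • p)` (derivative in `c`: `-fderiv ℂ g (p - c p) p`, continuous on `ball 0 r × P` for small `r`,
where `p - c p ∈ OD R₃ ρ₃`): `‖g ((1-h) p) - g p + h D p‖ ≤ ε₁ h`. Hence `‖ψ (g p) - g ((1-h) p)‖ ≤ 3 ε₁ h`.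
Apply unif_open (`U = OD R₃ ρ₃`, `P`) at the point `(1-h) p ∈ P`: there is `p' ∈ OD R₃ ρ₃`, `g p' = ψ (g p)`,
`‖p' - (1-h) p‖ ≤ 3 C ε₁ h ≤ ε h` with `ε₁ = ε/(3C)`, for `3 ε₁ h ≤ δ`.
-/

set_option autoImplicit false

open Metric Set Filter Topology

namespace FBH

theorem al_step (g : V2 → V2) (R₂ ρ₂ R₃ ρ₃ : ℝ) (hR₂ : 0 < R₂) (hρ₂ : 0 < ρ₂) (hR₃ : R₂ < R₃)
    (hρ₃ : ρ₂ < ρ₃) (hg : DifferentiableOn ℂ g (OD R₃ ρ₃)) (hX : ∀ p ∈ OD R₃ ρ₃, (g p).2 ≠ 0)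
    (himm : ∀ p ∈ OD R₃ ρ₃, Function.Injective (fderiv ℂ g p))
    (hR : ∀ h : V2 → ℂ, DifferentiableOn ℂ h (OD R₃ ρ₃) → LAp (PD R₂ ρ₂) g h) :
    ∀ ε : ℝ, 0 < ε → ∃ h0 : ℝ, 0 < h0 ∧ ∀ h : ℝ, 0 < h → h < h0 → ∃ ψ ψ' : V2 → V2, LAut ψ ψ' ∧
      ∀ p ∈ PD R₂ ρ₂, ∃ p' ∈ OD R₃ ρ₃, ψ (g p) = g p' ∧ ‖p' - (1 - (h:ℂ)) • p‖ ≤ ε * h := by
  intro ε hε
  have hUo : IsOpen (OD R₃ ρ₃) := isOpen_ball.prod isOpen_ball
  have hPc : IsCompact (PD R₂ ρ₂) := (isCompact_closedBall _ _).prod (isCompact_closedBall _ _)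
  have hPU : PD R₂ ρ₂ ⊆ OD R₃ ρ₃ := by
    intro x hx
    exact ⟨closedBall_subset_ball hR₃ hx.1, closedBall_subset_ball hρ₃ hx.2⟩
  obtain ⟨δ, hδ, C, hC, huo⟩ := unif_open g (OD R₃ ρ₃) (PD R₂ ρ₂) hUo hg hPc hPU
    (fun p hp => himm p (hPU hp))
  have hε₁ : 0 < ε / (3 * C) := by positivity
  set ε₁ : ℝ := ε / (3 * C) with hε₁def
  have hfd : DifferentiableOn ℂ (fun x => fderiv ℂ g x) (OD R₃ ρ₃) := sc_fderiv_diff g _ hUo hg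
  have hD : DifferentiableOn ℂ (fun p => fderiv ℂ g p p) (OD R₃ ρ₃) :=
    hfd.clm_apply differentiableOn_id
  obtain ⟨L₁, hL₁, hL₁e⟩ := hR (fun p => -(fderiv ℂ g p p).1) (hD.fst.neg) ε₁ hε₁
  obtain ⟨L₂, hL₂, hL₂e⟩ := hR (fun p => -(fderiv ℂ g p p).2) (hD.snd.neg) ε₁ hε₁
  have hK : IsCompact (g '' PD R₂ ρ₂) := hPc.image_of_continuousOn (hg.continuousOn.mono hPU)
  have hKX : g '' PD R₂ ρ₂ ⊆ XS := by
    rintro _ ⟨p, hp, rfl⟩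
    exact hX p (hPU hp)
  obtain ⟨h₁, hh₁, hψ⟩ := infA_all hL₁ hL₂ (g '' PD R₂ ρ₂) hK hKX ε₁ hε₁
  -- the difference quotient
  have hr : 0 < min ((R₃ - R₂) / R₂) ((ρ₃ - ρ₂) / ρ₂) := by
    apply lt_min
    · exact div_pos (by linarith) hR₂
    · exact div_pos (by linarith) hρ₂
  set r : ℝ := min ((R₃ - R₂) / R₂) ((ρ₃ - ρ₂) / ρ₂) with hrdef
  have hin : ∀ c ∈ ball (0:ℂ) r, ∀ x ∈ PD R₂ ρ₂, x - c • x ∈ OD R₃ ρ₃ := by
    intro c hc x hx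
    rw [mem_ball, dist_zero_right] at hc
    have hx1 : ‖x.1‖ ≤ R₂ := by simpa [PD] using hx.1
    have hx2 : ‖x.2‖ ≤ ρ₂ := by simpa [PD] using hx.2
    have hc1 : ‖c‖ < (R₃ - R₂) / R₂ := lt_of_lt_of_le hc (min_le_left _ _)
    have hc2 : ‖c‖ < (ρ₃ - ρ₂) / ρ₂ := lt_of_lt_of_le hc (min_le_right _ _)
    rw [lt_div_iff₀ hR₂] at hc1
    rw [lt_div_iff₀ hρ₂] at hc2
    refine ⟨?_, ?_⟩
    · rw [mem_ball, dist_zero_right]
      calc ‖(x - c • x).1‖ = ‖x.1 - c * x.1‖ := by simp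
        _ ≤ ‖x.1‖ + ‖c * x.1‖ := norm_sub_le _ _
        _ = ‖x.1‖ + ‖c‖ * ‖x.1‖ := by rw [norm_mul]
        _ ≤ R₂ + ‖c‖ * R₂ := add_le_add hx1 (mul_le_mul_of_nonneg_left hx1 (norm_nonneg _))
        _ < R₃ := by linarith
    · rw [mem_ball, dist_zero_right]
      calc ‖(x - c • x).2‖ = ‖x.2 - c * x.2‖ := by simp
        _ ≤ ‖x.2‖ + ‖c * x.2‖ := norm_sub_le _ _
        _ = ‖x.2‖ + ‖c‖ * ‖x.2‖ := by rw [norm_mul]
        _ ≤ ρ₂ + ‖c‖ * ρ₂ := add_le_add hx2 (mul_le_mul_of_nonneg_left hx2 (norm_nonneg _))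
        _ < ρ₃ := by linarith
  obtain ⟨δ₁, hδ₁, hq⟩ := udq (PD R₂ ρ₂) hPc r hr (fun c x => g (x - c • x))
    (fun c x => fderiv ℂ g (x - c • x) (-x))
    (by
      intro c hc x hx
      have e1 : HasFDerivAt g (fderiv ℂ g (x - c • x)) (x - c • x) :=
        (hg.differentiableAt (hUo.mem_nhds (hin c hc x hx))).hasFDerivAt
      have e2 : HasDerivAt (fun c : ℂ => x - c • x) (-x) c := by
        have := ((hasDerivAt_id c).smul_const x).const_sub x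
        simpa using this
      exact e1.comp_hasDerivAt c e2)
    (by
      have e1 : ContinuousOn (fun p : ℂ × V2 => fderiv ℂ g (p.2 - p.1 • p.2))
          (ball (0:ℂ) r ×ˢ PD R₂ ρ₂) := by
        refine hfd.continuousOn.comp (f := fun p : ℂ × V2 => p.2 - p.1 • p.2) ?_ ?_
        · exact (continuous_snd.sub (continuous_fst.smul continuous_snd)).continuousOn
        · intro p hp
          exact hin p.1 hp.1 p.2 hp.2
      exact e1.clm_apply continuous_snd.neg.continuousOn) ε₁ hε₁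
  refine ⟨min (min h₁ δ₁) (min 1 (δ / (3 * ε₁))), ?_, ?_⟩
  · refine lt_min (lt_min hh₁ hδ₁) (lt_min one_pos (by positivity))
  intro h h0 hlt
  have l1 : h < h₁ := lt_of_lt_of_le hlt ((min_le_left _ _).trans (min_le_left _ _))
  have l2 : h < δ₁ := lt_of_lt_of_le hlt ((min_le_left _ _).trans (min_le_right _ _))
  have l3 : h < 1 := lt_of_lt_of_le hlt ((min_le_right _ _).trans (min_le_left _ _))
  have l4 : h < δ / (3 * ε₁) := lt_of_lt_of_le hlt ((min_le_right _ _).trans (min_le_right _ _))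
  obtain ⟨ψ, ψ', hL, hψe⟩ := hψ h h0 l1
  refine ⟨ψ, ψ', hL, ?_⟩
  intro p hp
  have hnh : ‖(h:ℂ)‖ = h := by rw [Complex.norm_real, Real.norm_of_nonneg h0.le]
  have hph : (1 - (h:ℂ)) • p ∈ PD R₂ ρ₂ := by
    have hn1 : ‖(1 - (h:ℂ))‖ ≤ 1 := by
      have : (1 - (h:ℂ)) = ((1 - h : ℝ) : ℂ) := by push_cast; ring
      rw [this, Complex.norm_real, Real.norm_of_nonneg (by linarith)]
      linarith
    have hx1 : ‖p.1‖ ≤ R₂ := by simpa [PD] using hp.1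
    have hx2 : ‖p.2‖ ≤ ρ₂ := by simpa [PD] using hp.2
    refine ⟨?_, ?_⟩
    · rw [mem_closedBall, dist_zero_right]
      calc ‖((1 - (h:ℂ)) • p).1‖ = ‖(1 - (h:ℂ))‖ * ‖p.1‖ := by
            rw [Prod.smul_fst, smul_eq_mul, norm_mul]
        _ ≤ 1 * R₂ := mul_le_mul hn1 hx1 (norm_nonneg _) zero_le_one
        _ = R₂ := one_mul _
    · rw [mem_closedBall, dist_zero_right]
      calc ‖((1 - (h:ℂ)) • p).2‖ = ‖(1 - (h:ℂ))‖ * ‖p.2‖ := by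
            rw [Prod.smul_snd, smul_eq_mul, norm_mul]
        _ ≤ 1 * ρ₂ := mul_le_mul hn1 hx2 (norm_nonneg _) zero_le_one
        _ = ρ₂ := one_mul _
  have b1 : ‖ψ (g p) - g p - (h:ℂ) • (L₁ (g p), L₂ (g p))‖ ≤ ε₁ * h :=
    hψe (g p) ⟨p, hp, rfl⟩
  have b2 : ‖(h:ℂ) • ((L₁ (g p), L₂ (g p)) + fderiv ℂ g p p)‖ ≤ ε₁ * h := by
    rw [norm_smul, hnh, mul_comm]
    refine mul_le_mul_of_nonneg_right ?_ h0.le
    have c1 := (hL₁e p hp).le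
    have c2 := (hL₂e p hp).le
    rw [Prod.norm_def]
    refine max_le ?_ ?_
    · calc ‖((L₁ (g p), L₂ (g p)) + fderiv ℂ g p p).1‖ = ‖-(fderiv ℂ g p p).1 - L₁ (g p)‖ := by
            rw [← norm_neg]; congr 1; simp; ring
        _ ≤ ε₁ := c1
    · calc ‖((L₁ (g p), L₂ (g p)) + fderiv ℂ g p p).2‖ = ‖-(fderiv ℂ g p p).2 - L₂ (g p)‖ := by
            rw [← norm_neg]; congr 1; simp; ring
        _ ≤ ε₁ := c2
  have b3 : ‖g ((1 - (h:ℂ)) • p) - g p + (h:ℂ) • fderiv ℂ g p p‖ ≤ ε₁ * h := by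
    have c1 := hq (h:ℂ) (by rw [hnh]; exact l2) p hp
    simp only [zero_smul, sub_zero, map_neg, smul_neg, sub_neg_eq_add] at c1
    have c2 : p - (h:ℂ) • p = (1 - (h:ℂ)) • p := by rw [sub_smul, one_smul]
    rw [c2, hnh] at c1
    exact c1
  have b4 : ‖ψ (g p) - g ((1 - (h:ℂ)) • p)‖ ≤ 3 * ε₁ * h := by
    have e : ψ (g p) - g ((1 - (h:ℂ)) • p) = (ψ (g p) - g p - (h:ℂ) • (L₁ (g p), L₂ (g p))) +
        (h:ℂ) • ((L₁ (g p), L₂ (g p)) + fderiv ℂ g p p) -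
        (g ((1 - (h:ℂ)) • p) - g p + (h:ℂ) • fderiv ℂ g p p) := by
      rw [smul_add]; abel
    rw [e]
    have n1 := norm_sub_le ((ψ (g p) - g p - (h:ℂ) • (L₁ (g p), L₂ (g p))) +
        (h:ℂ) • ((L₁ (g p), L₂ (g p)) + fderiv ℂ g p p))
        (g ((1 - (h:ℂ)) • p) - g p + (h:ℂ) • fderiv ℂ g p p)
    have n2 := norm_add_le (ψ (g p) - g p - (h:ℂ) • (L₁ (g p), L₂ (g p)))
        ((h:ℂ) • ((L₁ (g p), L₂ (g p)) + fderiv ℂ g p p))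
    linarith
  have b5 : ‖ψ (g p) - g ((1 - (h:ℂ)) • p)‖ ≤ δ := by
    refine b4.trans ?_
    rw [lt_div_iff₀ (by positivity)] at l4
    linarith
  obtain ⟨p', hp', hgp', hpp⟩ := huo _ hph (ψ (g p)) b5
  refine ⟨p', hp', hgp'.symm, hpp.trans ?_⟩
  calc C * ‖ψ (g p) - g ((1 - (h:ℂ)) • p)‖ ≤ C * (3 * ε₁ * h) := mul_le_mul_of_nonneg_left b4 hC.le
    _ = ε * h := by rw [hε₁def]; field_simp

end FBH
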