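import Pool.Agent.FBH.Defs
import Pool.Agent.FBH.LAComp
import Pool.Agent.FBH.ALStep

/-!
AL. Contraction of the embedded polydisc `g` by automorphisms.
Proof. Let `T = -log τ > 0`, `d = min (R₂-R₁) (ρ₂-ρ₁)`. By uniform continuity of `g` on `PD R₂ ρ₂` choose `δ' > 0` such that
`p, p' ∈ PD R₂ ρ₂`, `‖p - p'‖ ≤ δ'` imply `‖g p - g p'‖ < ε`. Let `ε' > 0` with `T ε' ≤ min d δ'`, take
`h0` from al_step (for `ε'`) and `n` large with `h = 1 - τ^(1/n) ∈ (0, h0)`, `h < 1`; `(1-h)^n = τ` and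
`n h ≤ T` (since `1 - e^(-x) ≤ x`). Let `ψ` be the automorphism for this `h`, `Θ = ψ^[n]` (laut_iter). Claim: for
`p₀ ∈ PD R₁ ρ₁` and `j ≤ n` there is `p_j ∈ PD R₂ ρ₂` with `ψ^[j] (g p₀) = g p_j` and
`‖p_j - (1-h)^j p₀‖ ≤ j h ε'`. Induction: al_step gives `p_{j+1} ∈ OD R₃ ρ₃` with `g p_{j+1} = ψ (g p_j)`,
`‖p_{j+1} - (1-h) p_j‖ ≤ ε' h`, so `‖p_{j+1} - (1-h)^(j+1) p₀‖ ≤ (j+1) h ε' ≤ d`, hence `p_{j+1} ∈ PD R₂ ρ₂` because
`(1-h)^(j+1) p₀ ∈ PD R₁ ρ₁`. At `j = n`: `‖p_n - τ p₀‖ ≤ T ε' ≤ δ'`.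
-/

set_option autoImplicit false

open Metric Set Filter Topology

namespace FBH

private theorem al_mem_PD {R ρ : ℝ} {x : V2} : x ∈ PD R ρ ↔ ‖x.1‖ ≤ R ∧ ‖x.2‖ ≤ ρ := by
  simp [PD, Set.mem_prod, mem_closedBall_zero_iff]

private theorem al_PD_sub_OD {R ρ R' ρ' : ℝ} (h : R < R') (h' : ρ < ρ') : PD R ρ ⊆ OD R' ρ' := by
  intro x hx
  rw [al_mem_PD] at hx
  simp only [OD, Set.mem_prod, mem_ball_zero_iff]
  exact ⟨lt_of_le_of_lt hx.1 h, lt_of_le_of_lt hx.2 h'⟩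

theorem al (g : V2 → V2) (R₁ ρ₁ R₂ ρ₂ R₃ ρ₃ : ℝ) (hR₁ : 0 < R₁) (hρ₁ : 0 < ρ₁) (hR₂ : R₁ < R₂)
    (hρ₂ : ρ₁ < ρ₂) (hR₃ : R₂ < R₃) (hρ₃ : ρ₂ < ρ₃) (hg : DifferentiableOn ℂ g (OD R₃ ρ₃))
    (hX : ∀ p ∈ OD R₃ ρ₃, (g p).2 ≠ 0) (himm : ∀ p ∈ OD R₃ ρ₃, Function.Injective (fderiv ℂ g p))
    (hR : ∀ h : V2 → ℂ, DifferentiableOn ℂ h (OD R₃ ρ₃) → LAp (PD R₂ ρ₂) g h) (τ : ℝ) (hτ : 0 < τ)
    (hτ1 : τ < 1) (ε : ℝ) (hε : 0 < ε) :
    ∃ Θ Θ' : V2 → V2, LAut Θ Θ' ∧ ∀ p ∈ PD R₁ ρ₁, ‖Θ (g p) - g ((τ:ℂ) • p)‖ < ε := by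
  set T : ℝ := -Real.log τ with hTdef
  have hT : 0 < T := by
    have := Real.log_neg hτ hτ1
    linarith
  set d : ℝ := min (R₂ - R₁) (ρ₂ - ρ₁) with hd
  have hdpos : 0 < d := lt_min (by linarith) (by linarith)
  have hcpt : IsCompact (PD R₂ ρ₂) := (isCompact_closedBall _ _).prod (isCompact_closedBall _ _)
  have hcont : ContinuousOn g (PD R₂ ρ₂) := hg.continuousOn.mono (al_PD_sub_OD hR₃ hρ₃)
  have huc := hcpt.uniformContinuousOn_of_continuous hcont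
  rw [Metric.uniformContinuousOn_iff] at huc
  obtain ⟨δ', hδ', hδ⟩ := huc ε hε
  set ε' : ℝ := min d δ' / (2 * T) with hε'
  have hmin : 0 < min d δ' := lt_min hdpos hδ'
  have hε'pos : 0 < ε' := by positivity
  have hTε : T * ε' = min d δ' / 2 := by
    rw [hε']
    field_simp
  have hTd : T * ε' ≤ d := by
    rw [hTε]
    have := min_le_left d δ'
    linarith
  have hTδ : T * ε' < δ' := by
    rw [hTε]
    have := min_le_right d δ'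
    linarith
  obtain ⟨h0, hh0, hstep⟩ := al_step g R₂ ρ₂ R₃ ρ₃ (by linarith) (by linarith) hR₃ hρ₃ hg hX himm hR
    ε' hε'pos
  obtain ⟨n, hn⟩ := exists_nat_gt (T / h0)
  have hTh0 : 0 < T / h0 := div_pos hT hh0
  have hnpos : (0:ℝ) < n := lt_trans hTh0 hn
  have hnT : T / n < h0 := by
    rw [div_lt_iff₀ hnpos]
    rw [div_lt_iff₀ hh0] at hn
    linarith
  have hTn : 0 < T / n := div_pos hT hnpos
  set h : ℝ := 1 - Real.exp (-(T / n)) with hhdef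
  have hh1 : h ≤ T / n := by
    have := Real.add_one_le_exp (-(T / n))
    linarith
  have hhpos : 0 < h := by
    have : Real.exp (-(T / n)) < 1 := by
      rw [Real.exp_lt_one_iff]
      linarith
    linarith
  have h1h : 1 - h = Real.exp (-(T / n)) := by
    rw [hhdef]
    ring
  have h1hpos : 0 < 1 - h := by
    rw [h1h]
    exact Real.exp_pos _
  have hpow : (1 - h) ^ n = τ := by
    rw [h1h, ← Real.exp_nat_mul]
    have : (n:ℝ) * -(T / n) = Real.log τ := by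
      rw [hTdef]
      field_simp
    rw [this, Real.exp_log hτ]
  have hnh : (n:ℝ) * h ≤ T := by
    have := mul_le_mul_of_nonneg_left hh1 hnpos.le
    rwa [mul_div_cancel₀ _ hnpos.ne'] at this
  obtain ⟨ψ, ψ', hψ, hψs⟩ := hstep h hhpos (lt_of_le_of_lt hh1 hnT)
  refine ⟨ψ^[n], ψ'^[n], laut_iter hψ n, ?_⟩
  intro p₀ hp₀
  have hp₀' := al_mem_PD.mp hp₀
  have key : ∀ j : ℕ, j ≤ n → ∃ p ∈ PD R₂ ρ₂, ψ^[j] (g p₀) = g p ∧
      ‖p - ((1 - (h:ℂ)) ^ j) • p₀‖ ≤ j * h * ε' := by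
    intro j
    induction j with
    | zero =>
      intro _
      refine ⟨p₀, al_mem_PD.mpr ⟨by linarith [hp₀'.1], by linarith [hp₀'.2]⟩, rfl, ?_⟩
      simp
    | succ j ih =>
      intro hj
      obtain ⟨p, hp, hpe, hpn⟩ := ih (by omega)
      obtain ⟨p', hp', hpe', hpn'⟩ := hψs p hp
      have hnorm1 : ‖(1 - (h:ℂ))‖ = 1 - h := by
        have : (1 - (h:ℂ)) = ((1 - h : ℝ) : ℂ) := by push_cast; ring
        rw [this, Complex.norm_real, Real.norm_eq_abs, abs_of_pos h1hpos]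
      have hdist : ‖p' - ((1 - (h:ℂ)) ^ (j+1)) • p₀‖ ≤ (j+1) * h * ε' := by
        have e1 : p' - ((1 - (h:ℂ)) ^ (j+1)) • p₀ = (p' - (1 - (h:ℂ)) • p) +
            (1 - (h:ℂ)) • (p - ((1 - (h:ℂ)) ^ j) • p₀) := by
          rw [smul_sub, smul_smul, pow_succ']
          abel
        rw [e1]
        calc ‖(p' - (1 - (h:ℂ)) • p) + (1 - (h:ℂ)) • (p - ((1 - (h:ℂ)) ^ j) • p₀)‖
            ≤ ‖p' - (1 - (h:ℂ)) • p‖ + ‖(1 - (h:ℂ)) • (p - ((1 - (h:ℂ)) ^ j) • p₀)‖ :=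
              norm_add_le _ _
          _ ≤ ε' * h + 1 * (j * h * ε') := by
              refine add_le_add hpn' ?_
              rw [norm_smul, hnorm1]
              exact mul_le_mul (by linarith) hpn (norm_nonneg _) zero_le_one
          _ = (j+1) * h * ε' := by ring
      have hjn : ((j:ℝ) + 1) ≤ n := by exact_mod_cast hj
      have hsmall : ((j:ℝ)+1) * h * ε' ≤ d := by
        have a1 : ((j:ℝ)+1) * h ≤ n * h := mul_le_mul_of_nonneg_right hjn hhpos.le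
        have a2 : ((j:ℝ)+1) * h * ε' ≤ T * ε' :=
          mul_le_mul_of_nonneg_right (le_trans a1 hnh) hε'pos.le
        linarith
      have hcp : ‖((1 - (h:ℂ)) ^ (j+1))‖ ≤ 1 := by
        rw [norm_pow, hnorm1]
        exact pow_le_one₀ h1hpos.le (by linarith)
      have hq1 : ‖p'.1‖ ≤ R₂ := by
        have b1 : ‖(p' - ((1 - (h:ℂ)) ^ (j+1)) • p₀).1‖ ≤ d :=
          le_trans (norm_fst_le _) (le_trans hdist hsmall)
        have b2 : p'.1 = (p' - ((1 - (h:ℂ)) ^ (j+1)) • p₀).1 + ((1 - (h:ℂ)) ^ (j+1)) * p₀.1 := by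
          simp
        rw [b2]
        refine le_trans (norm_add_le _ _) ?_
        have b3 : ‖((1 - (h:ℂ)) ^ (j+1)) * p₀.1‖ ≤ R₁ := by
          rw [norm_mul]
          calc _ ≤ 1 * ‖p₀.1‖ := mul_le_mul_of_nonneg_right hcp (norm_nonneg _)
            _ ≤ R₁ := by rw [one_mul]; exact hp₀'.1
        have b4 : d ≤ R₂ - R₁ := min_le_left _ _
        linarith
      have hq2 : ‖p'.2‖ ≤ ρ₂ := by
        have b1 : ‖(p' - ((1 - (h:ℂ)) ^ (j+1)) • p₀).2‖ ≤ d :=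
          le_trans (norm_snd_le _) (le_trans hdist hsmall)
        have b2 : p'.2 = (p' - ((1 - (h:ℂ)) ^ (j+1)) • p₀).2 + ((1 - (h:ℂ)) ^ (j+1)) * p₀.2 := by
          simp
        rw [b2]
        refine le_trans (norm_add_le _ _) ?_
        have b3 : ‖((1 - (h:ℂ)) ^ (j+1)) * p₀.2‖ ≤ ρ₁ := by
          rw [norm_mul]
          calc _ ≤ 1 * ‖p₀.2‖ := mul_le_mul_of_nonneg_right hcp (norm_nonneg _)
            _ ≤ ρ₁ := by rw [one_mul]; exact hp₀'.2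
        have b4 : d ≤ ρ₂ - ρ₁ := min_le_right _ _
        linarith
      refine ⟨p', al_mem_PD.mpr ⟨hq1, hq2⟩, ?_, ?_⟩
      · rw [Function.iterate_succ_apply', hpe, hpe']
      · push_cast
        exact hdist
  obtain ⟨p, hp, hpe, hpn⟩ := key n le_rfl
  rw [hpe]
  have hpow' : ((1 - (h:ℂ)) ^ n) = (τ:ℂ) := by
    rw [← hpow]
    push_cast
    ring
  rw [hpow'] at hpn
  have hτp : ((τ:ℂ) • p₀) ∈ PD R₂ ρ₂ := by
    rw [al_mem_PD]
    have c1 : ‖(τ:ℂ)‖ ≤ 1 := by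
      rw [Complex.norm_real, Real.norm_eq_abs, abs_of_pos hτ]
      exact hτ1.le
    constructor
    · rw [Prod.smul_fst, norm_smul]
      calc _ ≤ 1 * ‖p₀.1‖ := mul_le_mul_of_nonneg_right c1 (norm_nonneg _)
        _ ≤ R₂ := by linarith [hp₀'.1]
    · rw [Prod.smul_snd, norm_smul]
      calc _ ≤ 1 * ‖p₀.2‖ := mul_le_mul_of_nonneg_right c1 (norm_nonneg _)
        _ ≤ ρ₂ := by linarith [hp₀'.2]
  have hfin := hδ p hp _ hτp (by
    rw [dist_eq_norm]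
    calc _ ≤ (n:ℝ) * h * ε' := hpn
      _ ≤ T * ε' := mul_le_mul_of_nonneg_right hnh hε'pos.le
      _ < δ' := hTδ)
  rwa [dist_eq_norm] at hfin

end FBH
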