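import Pool.Agent.FBH.Defs

/-!
BallEnum. A sequence of balls such that every point is, for arbitrarily large indices, in arbitrarily small balls of the sequence.
Proof. `c k = denseSeq V3 (unpair k).1`, `ρ k = 1/((unpair (unpair k).2).1 + 1)`: every pair (dense point, `1/(n+1)`) occurs for infinitely many `k`.
-/

set_option autoImplicit false

open Metric Set Filter Topology

namespace FBH

theorem ball_enum : ∃ (c : ℕ → V3) (ρ : ℕ → ℝ), (∀ k, 0 < ρ k) ∧
    ∀ (x : V3) (δ : ℝ), 0 < δ → ∀ k₀ : ℕ, ∃ k ≥ k₀, x ∈ closedBall (c k) (ρ k) ∧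
      closedBall (c k) (2 * ρ k) ⊆ ball x δ := by
  refine ⟨fun k => TopologicalSpace.denseSeq V3 (Nat.unpair k).1,
    fun k => 1 / (((Nat.unpair (Nat.unpair k).2).1 : ℝ) + 1), fun k => by positivity, ?_⟩
  intro x δ hδ k₀
  obtain ⟨n, hn⟩ := exists_nat_one_div_lt (show (0:ℝ) < δ / 3 by positivity)
  have hpos : (0:ℝ) < 1 / ((n:ℝ) + 1) := by positivity
  have hd := TopologicalSpace.denseRange_denseSeq V3
  obtain ⟨i, hi⟩ := hd.exists_dist_lt x hpos
  refine ⟨Nat.pair i (Nat.pair n k₀), ?_, ?_, ?_⟩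
  · exact le_trans (Nat.right_le_pair n k₀) (Nat.right_le_pair i _)
  · simp only [Nat.unpair_pair]
    rw [mem_closedBall]
    exact hi.le
  · simp only [Nat.unpair_pair]
    intro y hy
    rw [mem_closedBall] at hy
    rw [mem_ball]
    have h1 : dist y x ≤ dist y (TopologicalSpace.denseSeq V3 i) + dist x (TopologicalSpace.denseSeq V3 i) :=
      dist_triangle_right _ _ _
    linarith

end FBH
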