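import Pool.Agent.FBH.Defs
import Pool.Agent.FBH.ScSmooth

/-!
Bilip. An injective holomorphic immersion is bi-Lipschitz from below on compact sets.
Proof. Otherwise there are `x_n, y_n ∈ K` with `‖f x_n - f y_n‖ < (1/n) ‖x_n - y_n‖`; pass to subsequences
`x_n → x`, `y_n → y` in `K`. If `x ≠ y` then `f x = f y`, contradicting injectivity. If `x = y`: the derivative at `x`
is injective on a finite dimensional space, so antilipschitz (`c ‖v‖ ≤ ‖fderiv f x v‖`, `c > 0`), and strict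
differentiability gives `‖f x_n - f y_n‖ ≥ (c/2) ‖x_n - y_n‖` for large `n`. Contradiction.
-/

set_option autoImplicit false

open Metric Set Filter Topology

namespace FBH

theorem bilip {E F : Type*} [NormedAddCommGroup E] [NormedSpace ℂ E] [FiniteDimensional ℂ E]
    [NormedAddCommGroup F] [NormedSpace ℂ F] [CompleteSpace F] (f : E → F) (O K : Set E)
    (hO : IsOpen O) (hf : DifferentiableOn ℂ f O) (hinj : InjOn f O) (hK : IsCompact K) (hKO : K ⊆ O)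
    (himm : ∀ x ∈ K, Function.Injective (fderiv ℂ f x)) :
    ∃ μ : ℝ, 0 < μ ∧ ∀ x ∈ K, ∀ y ∈ K, μ * ‖x - y‖ ≤ ‖f x - f y‖ := by
  by_contra hcon
  have h1 : ∀ n : ℕ, ∃ p : E × E, p.1 ∈ K ∧ p.2 ∈ K ∧
      ‖f p.1 - f p.2‖ < (1 / ((n:ℝ) + 1)) * ‖p.1 - p.2‖ := by
    intro n
    by_contra hn
    apply hcon
    refine ⟨1 / ((n:ℝ) + 1), by positivity, ?_⟩
    intro x hx y hy
    by_contra hxy
    exact hn ⟨(x, y), hx, hy, not_le.mp hxy⟩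
  choose p hp1 hp2 hp3 using h1
  obtain ⟨a, haK, φ, hφ, hlim⟩ := (hK.prod hK).tendsto_subseq (x := p) (fun n => ⟨hp1 n, hp2 n⟩)
  have hlim1 : Tendsto (fun n => (p (φ n)).1) atTop (𝓝 a.1) := (continuous_fst.tendsto a).comp hlim
  have hlim2 : Tendsto (fun n => (p (φ n)).2) atTop (𝓝 a.2) := (continuous_snd.tendsto a).comp hlim
  have hc1 : ContinuousAt f a.1 :=
    (hf.differentiableAt (hO.mem_nhds (hKO haK.1))).continuousAt
  have hc2 : ContinuousAt f a.2 :=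
    (hf.differentiableAt (hO.mem_nhds (hKO haK.2))).continuousAt
  have hfl : Tendsto (fun n => ‖f (p (φ n)).1 - f (p (φ n)).2‖) atTop (𝓝 ‖f a.1 - f a.2‖) :=
    ((hc1.tendsto.comp hlim1).sub (hc2.tendsto.comp hlim2)).norm
  have hone : Tendsto (fun n => 1 / (((φ n : ℕ) : ℝ) + 1)) atTop (𝓝 0) :=
    (tendsto_one_div_add_atTop_nhds_zero_nat (𝕜 := ℝ)).comp hφ.tendsto_atTop
  have hg : Tendsto (fun n => (1 / (((φ n : ℕ) : ℝ) + 1)) * ‖(p (φ n)).1 - (p (φ n)).2‖) atTop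
      (𝓝 (0 * ‖a.1 - a.2‖)) := hone.mul (hlim1.sub hlim2).norm
  have hle : ‖f a.1 - f a.2‖ ≤ 0 * ‖a.1 - a.2‖ :=
    le_of_tendsto_of_tendsto' hfl hg (fun n => (hp3 _).le)
  have hfe : f a.1 = f a.2 := by
    rw [zero_mul] at hle
    exact sub_eq_zero.mp (norm_le_zero_iff.mp hle)
  have hae : a.1 = a.2 := hinj (hKO haK.1) (hKO haK.2) hfe
  have hst := sc_strict f O hO hf a.1 (hKO haK.1)
  obtain ⟨c, hc0, hanti⟩ := LinearMap.exists_antilipschitzWith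
    ((fderiv ℂ f a.1 : E →L[ℂ] F) : E →ₗ[ℂ] F) (LinearMap.ker_eq_bot.mpr (himm a.1 haK.1))
  have hc0' : (0:ℝ) < c := hc0
  have hd0 : (0 : NNReal) < (2 * c)⁻¹ := by positivity
  obtain ⟨s, hs, happ⟩ := hst.approximates_deriv_on_nhds (c := (2 * c)⁻¹) (Or.inr hd0)
  have hs2 : s ∈ 𝓝 a.2 := by rw [← hae]; exact hs
  have hev1 : ∀ᶠ n in atTop, (p (φ n)).1 ∈ s := hlim1.eventually_mem hs
  have hev2 : ∀ᶠ n in atTop, (p (φ n)).2 ∈ s := hlim2.eventually_mem hs2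
  have hd0' : (0:ℝ) < (2 * (c:ℝ))⁻¹ := by positivity
  have hev3 : ∀ᶠ n in atTop, 1 / (((φ n : ℕ) : ℝ) + 1) < (2 * (c:ℝ))⁻¹ :=
    hone.eventually_lt_const hd0'
  obtain ⟨n, h1, h2, h3⟩ := (hev1.and (hev2.and hev3)).exists
  have hlt := hp3 (φ n)
  generalize (p (φ n)).1 = x at h1 hlt
  generalize (p (φ n)).2 = y at h2 hlt
  have hap := happ x h1 y h2
  have han : ‖x - y‖ ≤ c * ‖fderiv ℂ f a.1 (x - y)‖ := by
    have h4 := hanti.le_mul_dist x y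
    rw [dist_eq_norm, dist_eq_norm] at h4
    have h5 : (((fderiv ℂ f a.1 : E →L[ℂ] F) : E →ₗ[ℂ] F) x -
        ((fderiv ℂ f a.1 : E →L[ℂ] F) : E →ₗ[ℂ] F) y) = fderiv ℂ f a.1 (x - y) := by
      simp
    rw [h5] at h4
    exact h4
  have hap' : ‖f x - f y - fderiv ℂ f a.1 (x - y)‖ ≤ (2 * (c:ℝ))⁻¹ * ‖x - y‖ := by
    have h4 := hap
    push_cast at h4
    exact h4
  have htri : ‖fderiv ℂ f a.1 (x - y)‖ ≤ ‖f x - f y‖ + (2 * (c:ℝ))⁻¹ * ‖x - y‖ := by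
    have h4 : fderiv ℂ f a.1 (x - y) = (f x - f y) - (f x - f y - fderiv ℂ f a.1 (x - y)) := by
      abel
    calc ‖fderiv ℂ f a.1 (x - y)‖ = ‖(f x - f y) - (f x - f y - fderiv ℂ f a.1 (x - y))‖ := by
          rw [← h4]
      _ ≤ ‖f x - f y‖ + ‖f x - f y - fderiv ℂ f a.1 (x - y)‖ := norm_sub_le _ _
      _ ≤ _ := by linarith
  have hinv : (c:ℝ) * (2 * (c:ℝ))⁻¹ = 1 / 2 := by field_simp
  have hpos : 0 ≤ ‖x - y‖ := norm_nonneg _
  have h6 : ‖x - y‖ ≤ c * ‖f x - f y‖ + 1 / 2 * ‖x - y‖ := by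
    calc ‖x - y‖ ≤ c * ‖fderiv ℂ f a.1 (x - y)‖ := han
      _ ≤ c * (‖f x - f y‖ + (2 * (c:ℝ))⁻¹ * ‖x - y‖) := by gcongr
      _ = c * ‖f x - f y‖ + (c * (2 * (c:ℝ))⁻¹) * ‖x - y‖ := by ring
      _ = _ := by rw [hinv]
  have h7 : ‖f x - f y‖ < (2 * (c:ℝ))⁻¹ * ‖x - y‖ := by
    rcases hpos.lt_or_eq with h8 | h8
    · exact hlt.trans_le (mul_le_mul_of_nonneg_right h3.le hpos)
    · rw [← h8, mul_zero] at hlt
      exact absurd hlt (not_lt.mpr (norm_nonneg _))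
  have h9 : (c:ℝ) * ‖f x - f y‖ < 1 / 2 * ‖x - y‖ := by
    calc (c:ℝ) * ‖f x - f y‖ < c * ((2 * (c:ℝ))⁻¹ * ‖x - y‖) := by gcongr
      _ = (c * (2 * (c:ℝ))⁻¹) * ‖x - y‖ := by ring
      _ = _ := by rw [hinv]
  linarith

end FBH
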