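import Pool.Agent.FBH.Defs

/-!
CPLim. Ultrafilter limits of sets with the continuity principle have it.
Proof. Closed: if `x ∉ limSet U E` there is a neighbourhood `N` (take it open) with, `U`-eventually,
`E m ∩ N = ∅` (Ultrafilter.eventually_not); then no point of `N` is in `limSet U E`.
Discs: let `φ` satisfy the hypotheses for `E∞ = limSet U E` and let `L = φ 0 '' (closed disc) ∪
φ '' ([0,1] × circle)`, compact and disjoint from `E∞`. Each `y ∈ L` has an `r_y > 0` with, `U`-eventually,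
`E m ∩ ball y r_y = ∅`; by compactness there is `δ > 0` such that `U`-eventually no point of `E m` is within
distance `< δ` of `L` (Lebesgue number or finite subcover with radii `r_y / 2`). Suppose `x = φ 1 σ₀ ∈ E∞`. Then
for `U`-many `m` there is `x_m ∈ E m` with `‖x_m - x‖ < δ`. Pick one `m` with both properties and apply `CP (E m)` to the
translated family `φ s σ + (x_m - x)`: its first disc and all its boundaries are within `δ` of `L`, so avoid `E m`,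
but its value at `(1, σ₀)` is `x_m ∈ E m`. Contradiction.
-/

set_option autoImplicit false

open Metric Set Filter Topology

namespace FBH

theorem CPLim_not {V : Type*} [NormedAddCommGroup V] (U : Ultrafilter ℕ) (E : ℕ → Set V)
    {x : V} (hx : x ∉ limSet U E) :
    ∃ r : ℝ, 0 < r ∧ ∀ᶠ m in (U : Filter ℕ), ∀ y ∈ E m, r ≤ dist y x := by
  simp only [limSet, mem_setOf_eq, not_forall] at hx
  obtain ⟨N, hN, hN2⟩ := hx
  obtain ⟨r, hr, hrN⟩ := Metric.mem_nhds_iff.1 hN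
  refine ⟨r, hr, ?_⟩
  have h := (Ultrafilter.eventually_not).2 hN2
  filter_upwards [h] with m hm y hy
  by_contra hc
  exact hm ⟨y, hy, hrN (by simpa [Metric.mem_ball] using lt_of_not_ge hc)⟩

theorem CPLim_mem {V : Type*} [NormedAddCommGroup V] (U : Ultrafilter ℕ) (E : ℕ → Set V)
    {x : V} (hx : x ∈ limSet U E) {r : ℝ} (hr : 0 < r) :
    ∀ᶠ m in (U : Filter ℕ), ∃ y ∈ E m, dist y x < r := by
  filter_upwards [hx (ball x r) (Metric.ball_mem_nhds x hr)] with m hm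
  obtain ⟨y, hy, hy2⟩ := hm
  exact ⟨y, hy, hy2⟩

theorem CPLim_closed {V : Type*} [NormedAddCommGroup V] (U : Ultrafilter ℕ) (E : ℕ → Set V) :
    IsClosed (limSet U E) := by
  rw [← isOpen_compl_iff, Metric.isOpen_iff]
  intro x hx
  obtain ⟨r, hr, h⟩ := CPLim_not U E hx
  refine ⟨r / 2, half_pos hr, ?_⟩
  intro z hz hzE
  have h2 := CPLim_mem U E hzE (half_pos hr)
  obtain ⟨m, hm1, y, hy, hyz⟩ := (h.and h2).exists
  have h3 := hm1 y hy
  have h4 : dist y x ≤ dist y z + dist z x := dist_triangle y z x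
  have h5 : dist z x < r / 2 := hz
  linarith

theorem CPLim_compact {V : Type*} [NormedAddCommGroup V] (U : Ultrafilter ℕ) (E : ℕ → Set V)
    {L : Set V} (hL : IsCompact L) (hd : ∀ x ∈ L, x ∉ limSet U E) :
    ∃ δ : ℝ, 0 < δ ∧ ∀ᶠ m in (U : Filter ℕ), ∀ y ∈ E m, ∀ l ∈ L, δ ≤ dist y l := by
  refine hL.induction_on (p := fun S : Set V => ∃ δ : ℝ, 0 < δ ∧
    ∀ᶠ m in (U : Filter ℕ), ∀ y ∈ E m, ∀ l ∈ S, δ ≤ dist y l) ?_ ?_ ?_ ?_
  · exact ⟨1, one_pos, Filter.Eventually.of_forall fun m y _ l hl => absurd hl (Set.notMem_empty l)⟩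
  · rintro S T hST ⟨δ, hδ, h⟩
    exact ⟨δ, hδ, h.mono fun m hm y hy l hl => hm y hy l (hST hl)⟩
  · rintro S T ⟨δ, hδ, h⟩ ⟨δ', hδ', h'⟩
    refine ⟨min δ δ', lt_min hδ hδ', ?_⟩
    filter_upwards [h, h'] with m hm hm' y hy l hl
    rcases hl with hl | hl
    · exact (min_le_left _ _).trans (hm y hy l hl)
    · exact (min_le_right _ _).trans (hm' y hy l hl)
  · intro x hx
    obtain ⟨r, hr, h⟩ := CPLim_not U E (hd x hx)
    refine ⟨ball x (r / 2), mem_nhdsWithin_of_mem_nhds (Metric.ball_mem_nhds x (half_pos hr)), r / 2,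
      half_pos hr, ?_⟩
    filter_upwards [h] with m hm y hy l hl
    have h1 := hm y hy
    have h2 : dist y x ≤ dist y l + dist l x := dist_triangle y l x
    have h3 : dist l x < r / 2 := hl
    linarith

theorem cp_limSet {V : Type*} [NormedAddCommGroup V] [NormedSpace ℂ V] (U : Ultrafilter ℕ)
    (E : ℕ → Set V) (hE : ∀ m, CP (E m)) : CP (limSet U E) := by
  refine ⟨CPLim_closed U E, ?_⟩
  intro φ hc hd h0 hb σ₀ hσ₀ hx
  have hc0 : ContinuousOn (fun σ : ℂ => φ 0 σ) (closedBall (0:ℂ) 1) := by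
    have h1 : ContinuousOn (fun σ : ℂ => ((0:ℝ), σ)) (closedBall (0:ℂ) 1) := by fun_prop
    exact hc.comp h1 fun σ hσ => ⟨⟨le_rfl, zero_le_one⟩, hσ⟩
  have hcb : ContinuousOn (fun p : ℝ × ℂ => φ p.1 p.2) (Icc (0:ℝ) 1 ×ˢ sphere (0:ℂ) 1) :=
    hc.mono (Set.prod_mono le_rfl sphere_subset_closedBall)
  have hL : IsCompact ((fun σ : ℂ => φ 0 σ) '' closedBall (0:ℂ) 1 ∪
      (fun p : ℝ × ℂ => φ p.1 p.2) '' (Icc (0:ℝ) 1 ×ˢ sphere (0:ℂ) 1)) :=
    ((isCompact_closedBall (0:ℂ) 1).image_of_continuousOn hc0).union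
      ((isCompact_Icc.prod (isCompact_sphere (0:ℂ) 1)).image_of_continuousOn hcb)
  obtain ⟨δ, hδ, hev⟩ := CPLim_compact U E hL (by
    rintro x (⟨σ, hσ, rfl⟩ | ⟨p, hp, rfl⟩)
    · exact h0 σ hσ
    · exact hb p.1 hp.1 p.2 hp.2)
  obtain ⟨m, hm, y, hy, hyx⟩ := (hev.and (CPLim_mem U E hx hδ)).exists
  have hn : ‖y - φ 1 σ₀‖ < δ := by rwa [dist_eq_norm] at hyx
  have key : ∀ z : V, z ∈ ((fun σ : ℂ => φ 0 σ) '' closedBall (0:ℂ) 1 ∪
      (fun p : ℝ × ℂ => φ p.1 p.2) '' (Icc (0:ℝ) 1 ×ˢ sphere (0:ℂ) 1)) →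
      z + (y - φ 1 σ₀) ∉ E m := by
    intro z hz hzE
    have h1 := hm _ hzE z hz
    rw [dist_eq_norm, add_sub_cancel_left] at h1
    linarith
  have hfin := (hE m).2 (fun s σ => φ s σ + (y - φ 1 σ₀)) (hc.add continuousOn_const)
    (fun s hs => (hd s hs).add_const _)
    (fun σ hσ => key _ (Or.inl ⟨σ, hσ, rfl⟩))
    (fun s hs σ hσ => key _ (Or.inr ⟨(s, σ), ⟨hs, hσ⟩, rfl⟩)) σ₀ hσ₀
  apply hfin
  have h2 : φ 1 σ₀ + (y - φ 1 σ₀) = y := by abel
  show φ 1 σ₀ + (y - φ 1 σ₀) ∈ E m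
  rw [h2]
  exact hy

end FBH
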