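import Pool.Agent.FBH.Defs

/-!
CPPre. Preimages of sets with the continuity principle under holomorphic maps again have it: compose the discs
with `f`.
-/

set_option autoImplicit false

open Metric Set Filter Topology

namespace FBH

theorem cp_preimage {V W : Type*} [NormedAddCommGroup V] [NormedSpace ℂ V] [NormedAddCommGroup W]
    [NormedSpace ℂ W] (f : V → W) (hf : Differentiable ℂ f) {E : Set W} (hE : CP E) : CP (f ⁻¹' E) := by
  refine ⟨hE.1.preimage hf.continuous, ?_⟩
  intro φ hc hd h0 hs σ hσ
  exact hE.2 (fun s σ => f (φ s σ)) (hf.continuous.comp_continuousOn hc)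
    (fun s hs' => hf.comp_differentiableOn (hd s hs')) (fun σ hσ => h0 σ hσ)
    (fun s hs' σ hσ => hs s hs' σ hσ) σ hσ

end FBH
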