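import Pool.Agent.FBH.Defs

/-!
Kai. Elementary facts on `ka s = ((1+s)/(1-s))²` and `kai u = (√u - 1)/(√u + 1)` (`√u = u^(1/2)`, principal
branch, `Re √u > 0` on the slit plane).
`v = (1+s)/(1-s)` has `Re v = (1-|s|²)/|1-s|² > 0` for `|s| < 1`; the square of a number with positive real part is
in the slit plane and `(v²)^(1/2) = v`; `(v-1)/(v+1) = s`. For `u` in the slit plane `v = u^(1/2)` has positive real
part (`|arg v| < π/2`), so `|v-1| < |v+1|`.
-/

set_option autoImplicit false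

open Metric Set Filter Topology

namespace FBH

theorem Kai_ne {s : ℂ} (hs : ‖s‖ < 1) : (1:ℂ) - s ≠ 0 := by
  intro h
  have h1 : s = 1 := (sub_eq_zero.1 h).symm
  rw [h1] at hs
  simp at hs

theorem Kai_re {s : ℂ} (hs : ‖s‖ < 1) : 0 < ((1 + s) / (1 - s)).re := by
  have h1 := Kai_ne hs
  have h2 : 0 < Complex.normSq (1 - s) := Complex.normSq_pos.2 h1
  have h3 : s.re * s.re + s.im * s.im < 1 := by
    have h4 : Complex.normSq s < 1 := by
      rw [Complex.normSq_eq_norm_sq]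
      have := norm_nonneg s
      nlinarith
    rwa [Complex.normSq_apply] at h4
  rw [Complex.div_re, ← add_div]
  apply div_pos _ h2
  simp only [Complex.add_re, Complex.one_re, Complex.sub_re, Complex.add_im, Complex.one_im,
    Complex.sub_im]
  nlinarith

theorem Kai_sq {v : ℂ} (hv : 0 < v.re) : v ^ 2 ∈ Complex.slitPlane := by
  rw [Complex.mem_slitPlane_iff]
  rcases eq_or_ne v.im 0 with h | h
  · left
    rw [sq, Complex.mul_re, h]
    nlinarith
  · right
    rw [sq, Complex.mul_im]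
    intro h2
    have h3 : 2 * (v.re * v.im) = 0 := by linarith
    rcases mul_eq_zero.1 h3 with h4 | h4
    · norm_num at h4
    · rcases mul_eq_zero.1 h4 with h5 | h5
      · exact hv.ne' h5
      · exact h h5

theorem Kai_root {v : ℂ} (hv : 0 < v.re) : (v ^ 2) ^ ((1:ℂ) / 2) = v := by
  rw [one_div]
  exact Complex.sq_cpow_two_inv hv

theorem Kai_pow (u : ℂ) : (u ^ ((1:ℂ) / 2)) ^ 2 = u := by
  have h := Complex.cpow_nat_inv_pow u (n := 2) two_ne_zero
  simp only [one_div] at h ⊢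
  exact_mod_cast h

theorem Kai_rpos {u : ℂ} (hu : u ∈ Complex.slitPlane) : 0 < (u ^ ((1:ℂ) / 2)).re := by
  have h0 : u ≠ 0 := Complex.slitPlane_ne_zero hu
  rw [Complex.cpow_def_of_ne_zero h0, Complex.exp_re]
  apply mul_pos (Real.exp_pos _)
  have h1 : (Complex.log u * (1 / 2)).im = Complex.arg u / 2 := by
    have h2 : Complex.log u * (1 / 2) = ((1 / 2 : ℝ) : ℂ) * Complex.log u := by
      push_cast
      ring
    rw [h2, Complex.im_ofReal_mul]
    rw [Complex.log_im]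
    ring
  rw [h1]
  have h3 := Complex.neg_pi_lt_arg u
  have h4 := Complex.arg_le_pi u
  have h5 : Complex.arg u ≠ Real.pi := by
    intro h
    have h6 := (Complex.mem_slitPlane_iff_arg.1 hu).1
    exact h6 h
  have h7 : Complex.arg u < Real.pi := lt_of_le_of_ne h4 h5
  apply Real.cos_pos_of_mem_Ioo
  constructor <;> linarith

theorem Kai_den {r : ℂ} (hr : 0 < r.re) : r + 1 ≠ 0 := by
  intro h
  have h1 : (r + 1).re = 0 := by rw [h]; rfl
  rw [Complex.add_re, Complex.one_re] at h1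
  linarith

theorem Kai_alg {r : ℂ} (h : r + 1 ≠ 0) : (1 + (r - 1) / (r + 1)) / (1 - (r - 1) / (r + 1)) = r := by
  have h1 : 1 + (r - 1) / (r + 1) = 2 * r / (r + 1) := by
    field_simp
    ring
  have h2 : 1 - (r - 1) / (r + 1) = 2 / (r + 1) := by
    field_simp
    ring
  rw [h1, h2, div_div_div_cancel_right₀ h]
  field_simp

theorem Kai_alg2 {s : ℂ} (h : 1 - s ≠ 0) :
    ((1 + s) / (1 - s) - 1) / ((1 + s) / (1 - s) + 1) = s := by
  have h1 : (1 + s) / (1 - s) - 1 = 2 * s / (1 - s) := by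
    field_simp
    ring
  have h2 : (1 + s) / (1 - s) + 1 = 2 / (1 - s) := by
    field_simp
    ring
  rw [h1, h2, div_div_div_cancel_right₀ h]
  field_simp

theorem Kai_rd {u : ℂ} (hu : u ∈ Complex.slitPlane) :
    HasDerivAt (fun u : ℂ => u ^ ((1:ℂ) / 2)) (((1:ℂ) / 2) * u ^ ((1:ℂ) / 2 - 1)) u := by
  have h := (hasDerivAt_id u).cpow_const (c := (1:ℂ) / 2) hu
  simpa using h

theorem ka_mem {s : ℂ} (hs : ‖s‖ < 1) : ka s ∈ Complex.slitPlane :=
  Kai_sq (Kai_re hs)

theorem kai_ka {s : ℂ} (hs : ‖s‖ < 1) : kai (ka s) = s := by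
  unfold kai ka
  rw [Kai_root (Kai_re hs)]
  exact Kai_alg2 (Kai_ne hs)

theorem kai_norm {u : ℂ} (hu : u ∈ Complex.slitPlane) : ‖kai u‖ < 1 := by
  unfold kai
  have hr := Kai_rpos hu
  have hd := Kai_den hr
  rw [norm_div, div_lt_one (norm_pos_iff.2 hd)]
  have h1 : ‖u ^ ((1:ℂ) / 2) - 1‖ ^ 2 < ‖u ^ ((1:ℂ) / 2) + 1‖ ^ 2 := by
    rw [← Complex.normSq_eq_norm_sq, ← Complex.normSq_eq_norm_sq, Complex.normSq_apply,
      Complex.normSq_apply]
    simp only [Complex.add_re, Complex.one_re, Complex.sub_re, Complex.add_im, Complex.one_im,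
      Complex.sub_im]
    nlinarith
  exact lt_of_pow_lt_pow_left₀ 2 (norm_nonneg _) h1

theorem ka_kai {u : ℂ} (hu : u ∈ Complex.slitPlane) : ka (kai u) = u := by
  unfold ka kai
  rw [Kai_alg (Kai_den (Kai_rpos hu))]
  exact Kai_pow u

theorem ka_diff : DifferentiableOn ℂ ka (ball (0:ℂ) 1) := by
  intro s hs
  have hs' : ‖s‖ < 1 := by simpa using hs
  have h := Kai_ne hs'
  apply DifferentiableAt.differentiableWithinAt
  unfold ka
  have h1 : DifferentiableAt ℂ (fun s : ℂ => 1 + s) s := by fun_prop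
  have h2 : DifferentiableAt ℂ (fun s : ℂ => 1 - s) s := by fun_prop
  exact (h1.div h2 h).pow 2

theorem kai_diff : DifferentiableOn ℂ kai Complex.slitPlane := by
  intro u hu
  apply DifferentiableAt.differentiableWithinAt
  unfold kai
  have h1 := (Kai_rd hu).differentiableAt
  exact (h1.sub_const 1).div (h1.add_const 1) (Kai_den (Kai_rpos hu))

theorem ka_zero : ka 0 = 1 ∧ HasDerivAt ka 4 0 := by
  constructor
  · simp [ka]
  · have h1 : HasDerivAt (fun s : ℂ => 1 + s) 1 0 := by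
      simpa using (hasDerivAt_id (0:ℂ)).const_add 1
    have h2 : HasDerivAt (fun s : ℂ => 1 - s) (-1) 0 := by
      simpa using (hasDerivAt_id (0:ℂ)).const_sub 1
    have h3 := (h1.div h2 (by norm_num)).pow 2
    have h4 : HasDerivAt ka ((2:ℕ) * ((1 + (0:ℂ)) / (1 - 0)) ^ (2 - 1) *
        ((1 * (1 - 0) - (1 + 0) * (-1)) / (1 - 0) ^ 2)) 0 := h3
    convert h4 using 1
    norm_num

theorem kai_one : kai 1 = 0 ∧ HasDerivAt kai (1/4) 1 := by
  constructor
  · simp [kai]
  · have hm : (1:ℂ) ∈ Complex.slitPlane := Complex.one_mem_slitPlane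
    have h1 := Kai_rd hm
    have h3 := (h1.sub_const 1).div (h1.add_const 1) (Kai_den (Kai_rpos hm))
    have h4 : HasDerivAt kai (((((1:ℂ) / 2) * 1 ^ ((1:ℂ) / 2 - 1)) * ((1:ℂ) ^ ((1:ℂ) / 2) + 1) -
        ((1:ℂ) ^ ((1:ℂ) / 2) - 1) * (((1:ℂ) / 2) * 1 ^ ((1:ℂ) / 2 - 1))) /
        ((1:ℂ) ^ ((1:ℂ) / 2) + 1) ^ 2) 1 := h3
    convert h4 using 1
    rw [Complex.one_cpow, Complex.one_cpow]
    norm_num

end FBH
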