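import Pool.Agent.FBH.Defs

/-!
PolePush. For `K` compact in the slit plane and real `c ≤ 0`, `1/(u-c)` is a uniform limit of polynomials on `K`.
Proof. Let `d > 0` be the distance from `K` to the closed ray `(-∞,0]` (if `K` is empty the claim is trivial) and
`M` a bound of `|u|` on `K`. Claim A: true for `c ≤ -2M-1`: `1/(u-c) = -(1/c) Σ (u/c)^n`, uniformly convergent since
`|u/c| ≤ 1/2`. Claim B: if true for `c'` and `c' < c ≤ 0`, `c - c' ≤ d/2`, then true for `c`:
`1/(u-c) = Σ_n (c-c')^n/(u-c')^(n+1)` with `|(c-c')/(u-c')| ≤ 1/2`; each power of `1/(u-c')` is a uniform limit of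
polynomials on `K` (products of bounded uniformly approximable functions). Induct on the number of steps of
length `d/2` from a far point.
-/

set_option autoImplicit false

open Metric Set Filter Topology

namespace FBH

theorem polepush_neumann {K : Set ℂ} [CompactSpace K] (A : Subalgebra ℂ C(K, ℂ)) (hA : IsClosed (A : Set C(K, ℂ)))
    (x r s : C(K, ℂ)) (hx : x ∈ A) (hn : ‖x‖ < 1) (hs : s ∈ A) (h : r * (1 - x) = s) : r ∈ A := by
  have h1 : Summable (fun n : ℕ => x ^ n) := summable_geometric_of_norm_lt_one hn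
  have h2 : (∑' n : ℕ, x ^ n) ∈ A := by
    refine hA.mem_of_tendsto h1.hasSum.tendsto_sum_nat (Filter.Eventually.of_forall fun n => ?_)
    exact A.sum_mem fun i _ => A.pow_mem hx i
  have h3 : (1 - x) * (∑' n : ℕ, x ^ n) = 1 := mul_neg_geom_series x hn
  have h4 : r = s * (∑' n : ℕ, x ^ n) := by
    rw [← h, mul_assoc, h3, mul_one]
  rw [h4]
  exact A.mul_mem hs h2

theorem pole_push (K : Set ℂ) (hK : IsCompact K) (hKs : K ⊆ Complex.slitPlane) (c : ℝ) (hc : c ≤ 0) :
    ∀ ε : ℝ, 0 < ε → ∃ p : Polynomial ℂ, ∀ u ∈ K, ‖(u - (c:ℂ))⁻¹ - p.eval u‖ < ε := by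
  have : CompactSpace K := isCompact_iff_compactSpace.1 hK
  obtain ⟨d, hd0, hd⟩ := hK.exists_cthickening_subset_open Complex.isOpen_slitPlane hKs
  have hdist : ∀ u ∈ K, ∀ e : ℝ, e ≤ 0 → d < ‖u - (e:ℂ)‖ := by
    intro u hu e he
    by_contra hcon
    have h1 : (e:ℂ) ∈ cthickening d K := by
      refine mem_cthickening_of_dist_le _ u d K hu ?_
      rw [dist_comm, dist_eq_norm]
      exact not_lt.1 hcon
    have h2 := hd h1
    rw [Complex.ofReal_mem_slitPlane] at h2
    linarith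
  obtain ⟨M, hM⟩ := hK.exists_bound_of_continuousOn (f := fun u : ℂ => u) continuous_id.continuousOn
  set M' : ℝ := max M 0 with hM'
  have hM0 : 0 ≤ M' := le_max_right _ _
  have hMu : ∀ u ∈ K, ‖u‖ ≤ M' := fun u hu => (hM u hu).trans (le_max_left _ _)
  set A : Subalgebra ℂ C(K, ℂ) := (polynomialFunctions K).topologicalClosure with hA
  have hAc : IsClosed (A : Set C(K, ℂ)) := (polynomialFunctions K).isClosed_topologicalClosure
  have key : ∀ n : ℕ, ∀ e : ℝ, e ≤ 0 → e ≤ -(2 * M' + 1) + n * (d / 2) → ∀ r : C(K, ℂ),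
      (∀ u : K, r u = ((u:ℂ) - (e:ℂ))⁻¹) → r ∈ A := by
    intro n
    induction n with
    | zero =>
      intro e he0 he r hr
      have he' : e ≤ -(2 * M' + 1) := by simpa using he
      have hene : (e:ℂ) ≠ 0 := by
        intro h
        have : e = 0 := by exact_mod_cast h
        linarith
      have hX : ((e:ℂ)⁻¹ • (Polynomial.toContinuousMapOn (Polynomial.X : Polynomial ℂ) K)) ∈ A := by
        refine A.smul_mem ?_ _
        exact (polynomialFunctions K).le_topologicalClosure ⟨Polynomial.X, trivial, rfl⟩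
      refine polepush_neumann A hAc ((e:ℂ)⁻¹ • (Polynomial.toContinuousMapOn (Polynomial.X : Polynomial ℂ) K)) r
        (algebraMap ℂ C(K, ℂ) (-(e:ℂ)⁻¹)) hX ?_ (A.algebraMap_mem _) ?_
      · refine lt_of_le_of_lt ((ContinuousMap.norm_le _ (by norm_num : (0:ℝ) ≤ 1 / 2)).2 fun u => ?_)
          (by norm_num : (1:ℝ) / 2 < 1)
        simp only [ContinuousMap.coe_smul, Pi.smul_apply, Polynomial.toContinuousMapOn_apply,
          Polynomial.toContinuousMap_apply, Polynomial.eval_X, smul_eq_mul, norm_mul, norm_inv]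
        have h1 : ‖(e:ℂ)‖ = -e := by
          rw [Complex.norm_real, Real.norm_eq_abs, abs_of_nonpos he0]
        rw [h1, inv_mul_le_iff₀ (by linarith)]
        have := hMu u u.2
        linarith
      · ext u
        have hne : (u:ℂ) - (e:ℂ) ≠ 0 := by
          intro h
          have := hdist u u.2 e he0
          rw [h, norm_zero] at this
          linarith
        have hal : (algebraMap ℂ C(K, ℂ) (-(e:ℂ)⁻¹)) u = -(e:ℂ)⁻¹ := by
          rw [Algebra.algebraMap_eq_smul_one, ContinuousMap.coe_smul, Pi.smul_apply, ContinuousMap.one_apply,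
            smul_eq_mul, mul_one]
        simp only [ContinuousMap.mul_apply, ContinuousMap.sub_apply, ContinuousMap.one_apply,
          ContinuousMap.coe_smul, Pi.smul_apply, Polynomial.toContinuousMapOn_apply,
          Polynomial.toContinuousMap_apply, Polynomial.eval_X, smul_eq_mul, hr u, hal]
        have h3 : (1:ℂ) - (e:ℂ)⁻¹ * (u:ℂ) = ((u:ℂ) - (e:ℂ)) * (-(e:ℂ)⁻¹) := by
          have h4 : (1:ℂ) = (e:ℂ) * (e:ℂ)⁻¹ := (mul_inv_cancel₀ hene).symm
          calc (1:ℂ) - (e:ℂ)⁻¹ * (u:ℂ) = (e:ℂ) * (e:ℂ)⁻¹ - (e:ℂ)⁻¹ * (u:ℂ) := by rw [← h4]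
            _ = ((u:ℂ) - (e:ℂ)) * (-(e:ℂ)⁻¹) := by ring
        rw [h3, ← mul_assoc, inv_mul_cancel₀ hne, one_mul]
    | succ n ih =>
      intro e he0 he r hr
      have he1 : e - d / 2 ≤ 0 := by linarith
      have he2 : e - d / 2 ≤ -(2 * M' + 1) + n * (d / 2) := by
        push_cast at he
        linarith
      have hcont : Continuous (fun u : K => ((u:ℂ) - ((e - d / 2 : ℝ):ℂ))⁻¹) := by
        refine Continuous.inv₀ (by fun_prop) fun u h => ?_
        have := hdist u u.2 (e - d / 2) he1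
        rw [h, norm_zero] at this
        linarith
      have hr' : (⟨_, hcont⟩ : C(K, ℂ)) ∈ A := ih (e - d / 2) he1 he2 ⟨_, hcont⟩ fun u => rfl
      refine polepush_neumann A hAc ((((d / 2 : ℝ):ℂ)) • (⟨_, hcont⟩ : C(K, ℂ))) r ⟨_, hcont⟩ (A.smul_mem hr' _) ?_
        hr' ?_
      · refine lt_of_le_of_lt ((ContinuousMap.norm_le _ (by norm_num : (0:ℝ) ≤ 1 / 2)).2 fun u => ?_)
          (by norm_num : (1:ℝ) / 2 < 1)
        simp only [ContinuousMap.coe_smul, Pi.smul_apply, ContinuousMap.coe_mk, smul_eq_mul, norm_mul, norm_inv]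
        have h1 : ‖((d / 2 : ℝ):ℂ)‖ = d / 2 := by
          rw [Complex.norm_real, Real.norm_eq_abs, abs_of_pos (by linarith)]
        have h2 := hdist u u.2 (e - d / 2) he1
        rw [h1, ← div_eq_mul_inv, div_le_iff₀ (by linarith)]
        linarith
      · ext u
        have hne : (u:ℂ) - (e:ℂ) ≠ 0 := by
          intro h
          have := hdist u u.2 e he0
          rw [h, norm_zero] at this
          linarith
        have hne' : (u:ℂ) - ((e - d / 2 : ℝ):ℂ) ≠ 0 := by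
          intro h
          have := hdist u u.2 (e - d / 2) he1
          rw [h, norm_zero] at this
          linarith
        simp only [ContinuousMap.mul_apply, ContinuousMap.sub_apply, ContinuousMap.one_apply,
          ContinuousMap.coe_smul, Pi.smul_apply, ContinuousMap.coe_mk, smul_eq_mul, hr u]
        have h3 : (1:ℂ) - ((d / 2 : ℝ):ℂ) * ((u:ℂ) - ((e - d / 2 : ℝ):ℂ))⁻¹ =
            ((u:ℂ) - (e:ℂ)) * ((u:ℂ) - ((e - d / 2 : ℝ):ℂ))⁻¹ := by
          have h4 : (1:ℂ) = ((u:ℂ) - ((e - d / 2 : ℝ):ℂ)) * ((u:ℂ) - ((e - d / 2 : ℝ):ℂ))⁻¹ :=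
            (mul_inv_cancel₀ hne').symm
          calc (1:ℂ) - ((d / 2 : ℝ):ℂ) * ((u:ℂ) - ((e - d / 2 : ℝ):ℂ))⁻¹
              = ((u:ℂ) - ((e - d / 2 : ℝ):ℂ)) * ((u:ℂ) - ((e - d / 2 : ℝ):ℂ))⁻¹ -
                ((d / 2 : ℝ):ℂ) * ((u:ℂ) - ((e - d / 2 : ℝ):ℂ))⁻¹ := by rw [← h4]
            _ = ((u:ℂ) - (e:ℂ)) * ((u:ℂ) - ((e - d / 2 : ℝ):ℂ))⁻¹ := by
              push_cast
              ring
        rw [h3, ← mul_assoc, inv_mul_cancel₀ hne, one_mul]
  obtain ⟨n, hn⟩ := exists_nat_ge ((2 * M' + 1) / (d / 2))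
  have hn' : 2 * M' + 1 ≤ n * (d / 2) := (div_le_iff₀ (by linarith)).1 hn
  have hcont : Continuous (fun u : K => ((u:ℂ) - (c:ℂ))⁻¹) := by
    refine Continuous.inv₀ (by fun_prop) fun u h => ?_
    have := hdist u u.2 c hc
    rw [h, norm_zero] at this
    linarith
  have hmem : (⟨_, hcont⟩ : C(K, ℂ)) ∈ A := key n c hc (by linarith) ⟨_, hcont⟩ fun u => rfl
  intro ε hε
  have h5 : (⟨_, hcont⟩ : C(K, ℂ)) ∈ closure ((polynomialFunctions K : Subalgebra ℂ C(K, ℂ)) : Set C(K, ℂ)) := hmem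
  obtain ⟨q, hq, hq2⟩ := Metric.mem_closure_iff.1 h5 ε hε
  obtain ⟨p, -, rfl⟩ := hq
  refine ⟨p, fun u hu => ?_⟩
  rw [dist_eq_norm, ContinuousMap.norm_lt_iff _ hε] at hq2
  exact hq2 ⟨u, hu⟩

end FBH
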