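import Pool.Agent.FBH.Defs
import Pool.Agent.FBH.Poly1
import Pool.Agent.FBH.PolePush

/-!
SqrtPoly. On compact subsets of the slit plane, `√u` and `kai u` are uniform limits of polynomials.
Proof. Work with the set `𝒫(K)` of functions on `K` that are uniform limits of polynomials: an algebra (for bounded
functions) closed under uniform limits, and if `f ∈ 𝒫(K)` has values in a closed disc inside an open disc on which
`F` is holomorphic then `F ∘ f ∈ 𝒫(K)` (poly1).
`u_t = 1 + t (u-1)`, `t ∈ [0,1]`, is in the slit plane for `u ∈ K`, and `|u_t| ≥ c > 0` (compactness of `[0,1] × K`).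
`√u = ∏_{k<n} √(u_{(k+1)/n} / u_{k/n})`: indeed `arg` of each ratio is small (for large `n`), and the product formula
holds because both sides are continuous square roots along `t`: precisely `√u_{(k+1)/n} = √u_{k/n} √(ratio)` as
both sides square to the same number and both have positive real part (`|arg √u_{k/n}| < π/2` and `ratio` close to `1`;
use uniform continuity: `√` is continuous on the compact set of all `u_t`, so
`√u_{(k+1)/n}/√u_{k/n}` is close to `1`, and the number close to `1` with the given square is `√(ratio)`).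
`ratio = 1 + (1/n)(u-1)/u_{k/n}`, with `1/u_t = (1/t)/(u - (1 - 1/t))`, `1 - 1/t ≤ 0` for `t ∈ (0,1]` (pole_push), so
`ratio ∈ 𝒫(K)`, close to `1`, and `√` is holomorphic on `ball 1 1`. Hence `√u ∈ 𝒫(K)`.
`kai u = 1 - 2/(1+√u)`; with `v = √u`, `Re v > 0`, `|v| ≤ M` choose `m` with `m² + M² < (m+1)²`; then
`|m - v|² ≤ m² + M²`, and `1/(1+v) = Σ_n (m-v)^n/(m+1)^(n+1)` uniformly.
-/

set_option autoImplicit false

open Metric Set Filter Topology

namespace FBH

/-- Uniform approximability by polynomials on `K`. -/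
private def sqrtPolyApp (K : Set ℂ) (f : ℂ → ℂ) : Prop :=
  ∀ ε : ℝ, 0 < ε → ∃ p : Polynomial ℂ, ∀ u ∈ K, ‖f u - p.eval u‖ < ε

private theorem sqrtPoly_poly (K : Set ℂ) (p : Polynomial ℂ) : sqrtPolyApp K (fun u => p.eval u) := by
  intro ε hε
  exact ⟨p, fun u _ => by simpa using hε⟩

private theorem sqrtPoly_congr {K : Set ℂ} {f g : ℂ → ℂ} (h : ∀ u ∈ K, f u = g u)
    (hf : sqrtPolyApp K f) : sqrtPolyApp K g := by
  intro ε hε
  obtain ⟨p, hp⟩ := hf ε hε
  exact ⟨p, fun u hu => by rw [← h u hu]; exact hp u hu⟩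

private theorem sqrtPoly_bound {K : Set ℂ} (hK : IsCompact K) {f : ℂ → ℂ} (hf : sqrtPolyApp K f) :
    ∃ M : ℝ, 0 ≤ M ∧ ∀ u ∈ K, ‖f u‖ ≤ M := by
  obtain ⟨p, hp⟩ := hf 1 one_pos
  obtain ⟨C, hC⟩ := hK.exists_bound_of_continuousOn (f := fun u => p.eval u)
    p.continuous.continuousOn
  refine ⟨|C| + 1, by positivity, fun u hu => ?_⟩
  have h1 := hp u hu
  have h2 := hC u hu
  have h3 : ‖f u‖ ≤ ‖f u - p.eval u‖ + ‖p.eval u‖ := by
    have := norm_add_le (f u - p.eval u) (p.eval u)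
    simpa using this
  have h4 := le_abs_self C
  linarith

private theorem sqrtPoly_mul {K : Set ℂ} (hK : IsCompact K) {f g : ℂ → ℂ} (hf : sqrtPolyApp K f)
    (hg : sqrtPolyApp K g) : sqrtPolyApp K (fun u => f u * g u) := by
  intro ε hε
  obtain ⟨A, hA0, hA⟩ := sqrtPoly_bound hK hf
  obtain ⟨B, hB0, hB⟩ := sqrtPoly_bound hK hg
  have hden : 0 < A + B + 2 := by linarith
  set δ : ℝ := min 1 (ε / (A + B + 2)) with hδ
  have hδpos : 0 < δ := lt_min one_pos (div_pos hε hden)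
  have hδ1 : δ ≤ 1 := min_le_left _ _
  have hδ2 : δ * (A + B + 2) ≤ ε := by
    have : δ ≤ ε / (A + B + 2) := min_le_right _ _
    rwa [le_div_iff₀ hden] at this
  obtain ⟨p, hp⟩ := hf δ hδpos
  obtain ⟨q, hq⟩ := hg δ hδpos
  refine ⟨p * q, fun u hu => ?_⟩
  have h1 := hp u hu
  have h2 := hq u hu
  have h3 : f u * g u - (p * q).eval u
      = f u * (g u - q.eval u) + (f u - p.eval u) * g u
        - (f u - p.eval u) * (g u - q.eval u) := by
    rw [Polynomial.eval_mul]
    ring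
  rw [h3]
  have h4 : ‖f u * (g u - q.eval u)‖ ≤ A * δ := by
    rw [norm_mul]
    exact mul_le_mul (hA u hu) h2.le (norm_nonneg _) hA0
  have h5 : ‖(f u - p.eval u) * g u‖ ≤ δ * B := by
    rw [norm_mul]
    exact mul_le_mul h1.le (hB u hu) (norm_nonneg _) hδpos.le
  have h6 : ‖(f u - p.eval u) * (g u - q.eval u)‖ ≤ δ * 1 := by
    rw [norm_mul]
    exact mul_le_mul h1.le (h2.le.trans hδ1) (norm_nonneg _) hδpos.le
  have h7 := norm_sub_le (f u * (g u - q.eval u) + (f u - p.eval u) * g u)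
    ((f u - p.eval u) * (g u - q.eval u))
  have h8 := norm_add_le (f u * (g u - q.eval u)) ((f u - p.eval u) * g u)
  nlinarith

private theorem sqrtPoly_add {K : Set ℂ} {f g : ℂ → ℂ} (hf : sqrtPolyApp K f)
    (hg : sqrtPolyApp K g) : sqrtPolyApp K (fun u => f u + g u) := by
  intro ε hε
  obtain ⟨p, hp⟩ := hf (ε / 2) (by linarith)
  obtain ⟨q, hq⟩ := hg (ε / 2) (by linarith)
  refine ⟨p + q, fun u hu => ?_⟩
  have h3 : f u + g u - (p + q).eval u = (f u - p.eval u) + (g u - q.eval u) := by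
    rw [Polynomial.eval_add]
    ring
  rw [h3]
  have h1 := hp u hu
  have h2 := hq u hu
  have h4 := norm_add_le (f u - p.eval u) (g u - q.eval u)
  linarith

private theorem sqrtPoly_comp {K : Set ℂ} {f F : ℂ → ℂ} (hf : sqrtPolyApp K f) (c : ℂ) (r r' : ℝ)
    (hrr : r < r') (hfK : ∀ u ∈ K, f u ∈ closedBall c r) (hF : DifferentiableOn ℂ F (ball c r')) :
    sqrtPolyApp K (fun u => F (f u)) := by
  intro ε hε
  set r₂ : ℝ := (r + r') / 2 with hr₂
  have h1 : r < r₂ := by rw [hr₂]; linarith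
  have h2 : r₂ < r' := by rw [hr₂]; linarith
  obtain ⟨q, hq⟩ := poly1 F c r₂ r' h2 hF (ε / 2) (by linarith)
  have huc := (isCompact_closedBall c r₂).uniformContinuousOn_of_continuous
    (f := fun w => q.eval w) q.continuous.continuousOn
  rw [Metric.uniformContinuousOn_iff] at huc
  obtain ⟨δ, hδ, hδq⟩ := huc (ε / 2) (by linarith)
  obtain ⟨p, hp⟩ := hf (min δ (r₂ - r)) (lt_min hδ (by linarith))
  refine ⟨q.comp p, fun u hu => ?_⟩
  have h3 := hp u hu
  have h4 : ‖f u - p.eval u‖ < δ := lt_of_lt_of_le h3 (min_le_left _ _)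
  have h5 : ‖f u - p.eval u‖ < r₂ - r := lt_of_lt_of_le h3 (min_le_right _ _)
  have h6 : f u ∈ closedBall c r₂ := closedBall_subset_closedBall h1.le (hfK u hu)
  have h7 : p.eval u ∈ closedBall c r₂ := by
    have h8 := hfK u hu
    rw [mem_closedBall, dist_eq_norm] at h8 ⊢
    have h9 : p.eval u - c = (f u - c) - (f u - p.eval u) := by ring
    rw [h9]
    have := norm_sub_le (f u - c) (f u - p.eval u)
    linarith
  have h8 := hδq (f u) h6 (p.eval u) h7 (by rw [dist_eq_norm]; exact h4)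
  rw [dist_eq_norm] at h8
  have h9 := hq (f u) h6
  rw [Polynomial.eval_comp]
  have h10 : F (f u) - q.eval (p.eval u) = (F (f u) - q.eval (f u)) +
      (q.eval (f u) - q.eval (p.eval u)) := by ring
  rw [h10]
  have h11 := norm_add_le (F (f u) - q.eval (f u)) (q.eval (f u) - q.eval (p.eval u))
  linarith

private theorem sqrtPoly_re_pos {w : ℂ} (hw : w ∈ Complex.slitPlane) : 0 < (w ^ ((1:ℂ) / 2)).re := by
  have hw0 : w ≠ 0 := Complex.slitPlane_ne_zero hw
  rw [Complex.cpow_def_of_ne_zero hw0, Complex.exp_re]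
  have h1 : (Complex.log w * (1 / 2)).im = w.arg / 2 := by
    rw [show (Complex.log w * (1 / 2)) = Complex.log w * ((1/2 : ℝ) : ℂ) by push_cast; ring,
      Complex.im_mul_ofReal, Complex.log_im]
    ring
  rw [h1]
  have h2 : w.arg ≠ Real.pi := by
    rw [Complex.mem_slitPlane_iff_arg] at hw
    exact hw.1
  have h3 : w.arg < Real.pi := lt_of_le_of_ne (Complex.arg_le_pi w) h2
  have h4 := Complex.neg_pi_lt_arg w
  refine mul_pos (Real.exp_pos _) (Real.cos_pos_of_mem_Ioo ⟨by linarith, by linarith⟩)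

private theorem sqrtPoly_sq (w : ℂ) : (w ^ ((1:ℂ) / 2)) ^ 2 = w := by
  have h : ((1:ℂ) / 2) = ((2:ℕ):ℂ)⁻¹ := by norm_num
  rw [h]
  exact Complex.cpow_nat_inv_pow w two_ne_zero

private theorem sqrtPoly_cont : ContinuousOn (fun w : ℂ => w ^ ((1:ℂ) / 2)) Complex.slitPlane := by
  intro w hw
  exact (continuousAt_cpow_const hw).continuousWithinAt

/-- The multiplicativity of the square root when the second factor has root close to `1`. -/
private theorem sqrtPoly_mulroot {x y : ℂ} (hxy : x * y ∈ Complex.slitPlane)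
    (h : 0 < (x ^ ((1:ℂ) / 2) * y ^ ((1:ℂ) / 2)).re) :
    (x * y) ^ ((1:ℂ) / 2) = x ^ ((1:ℂ) / 2) * y ^ ((1:ℂ) / 2) := by
  have h1 : ((x * y) ^ ((1:ℂ) / 2)) ^ 2 = (x ^ ((1:ℂ) / 2) * y ^ ((1:ℂ) / 2)) ^ 2 := by
    rw [mul_pow, sqrtPoly_sq, sqrtPoly_sq, sqrtPoly_sq]
  rcases sq_eq_sq_iff_eq_or_eq_neg.mp h1 with h2 | h2
  · exact h2
  · exfalso
    have h3 := sqrtPoly_re_pos hxy
    rw [h2, Complex.neg_re] at h3
    linarith

theorem sqrt_poly (K : Set ℂ) (hK : IsCompact K) (hKs : K ⊆ Complex.slitPlane) :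
    ∀ ε : ℝ, 0 < ε → ∃ p : Polynomial ℂ, ∀ u ∈ K, ‖u ^ ((1:ℂ) / 2) - p.eval u‖ < ε := by
  rcases K.eq_empty_or_nonempty with hKe | hKne
  · subst hKe
    intro ε _
    exact ⟨0, fun u hu => absurd hu (Set.notMem_empty u)⟩
  -- the compact set of all segments
  set K' : Set ℂ := (fun x : ℝ × ℂ => 1 + (x.1 : ℂ) * (x.2 - 1)) '' (Icc (0:ℝ) 1 ×ˢ K) with hK'
  have hK'c : IsCompact K' := by
    refine (isCompact_Icc.prod hK).image ?_
    fun_prop
  have hK's : K' ⊆ Complex.slitPlane := by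
    rintro w ⟨⟨t, u⟩, ⟨ht, hu⟩, rfl⟩
    have hst := Complex.starConvex_one_slitPlane (hKs hu) (a := 1 - t) (b := t)
      (by linarith [ht.2]) ht.1 (by ring)
    have e : (1 - t) • (1:ℂ) + t • u = 1 + (t:ℂ) * (u - 1) := by
      simp only [Complex.real_smul]
      push_cast
      ring
    rw [e] at hst
    exact hst
  have hK'ne : K'.Nonempty := by
    obtain ⟨u, hu⟩ := hKne
    exact ⟨_, ⟨(0, u), ⟨⟨le_rfl, zero_le_one⟩, hu⟩, rfl⟩⟩
  have hscont : ContinuousOn (fun w : ℂ => w ^ ((1:ℂ) / 2)) K' := sqrtPoly_cont.mono hK's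
  obtain ⟨w0, hw0, hw0min⟩ := hK'c.exists_isMinOn hK'ne
    (f := fun w : ℂ => (w ^ ((1:ℂ) / 2)).re) (Complex.continuous_re.comp_continuousOn hscont)
  set c : ℝ := (w0 ^ ((1:ℂ) / 2)).re with hc
  have hcpos : 0 < c := sqrtPoly_re_pos (hK's hw0)
  have hcmin : ∀ w ∈ K', c ≤ (w ^ ((1:ℂ) / 2)).re := fun w hw => hw0min hw
  obtain ⟨M₀, hM₀⟩ := hK'c.exists_bound_of_continuousOn hscont
  set M : ℝ := |M₀| + 1 with hM
  have hMpos : 0 < M := by positivity
  have hMb : ∀ w ∈ K', ‖w ^ ((1:ℂ) / 2)‖ ≤ M := fun w hw => by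
    have := hM₀ w hw
    have := le_abs_self M₀
    linarith
  obtain ⟨w1, hw1, hw1min⟩ := hK'c.exists_isMinOn hK'ne (f := fun w : ℂ => ‖w‖)
    continuous_norm.continuousOn
  set m₀ : ℝ := ‖w1‖ with hm₀
  have hm₀pos : 0 < m₀ := norm_pos_iff.mpr (Complex.slitPlane_ne_zero (hK's hw1))
  have hm₀min : ∀ w ∈ K', m₀ ≤ ‖w‖ := fun w hw => hw1min hw
  have hone : ContinuousAt (fun w : ℂ => w ^ ((1:ℂ) / 2)) 1 :=
    continuousAt_cpow_const Complex.one_mem_slitPlane
  rw [Metric.continuousAt_iff] at hone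
  obtain ⟨η₀, hη₀, hη₀s⟩ := hone (c / (2 * M)) (by positivity)
  set η : ℝ := min (1 / 2) (η₀ / 2) with hη
  have hηpos : 0 < η := lt_min (by norm_num) (by linarith)
  have hη1 : η ≤ 1 / 2 := min_le_left _ _
  have hη2 : η < η₀ := lt_of_le_of_lt (min_le_right _ _) (by linarith)
  obtain ⟨B₀, hB₀⟩ := hK.exists_bound_of_continuousOn (f := fun u : ℂ => u - 1)
    (by fun_prop : ContinuousOn (fun u : ℂ => u - 1) K)
  set B : ℝ := |B₀| + 1 with hB
  have hBpos : 0 < B := by positivity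
  have hBb : ∀ u ∈ K, ‖u - 1‖ ≤ B := fun u hu => by
    have := hB₀ u hu
    have := le_abs_self B₀
    linarith
  obtain ⟨n, hn⟩ := exists_nat_gt (B / (m₀ * η))
  have hBm : 0 < B / (m₀ * η) := by positivity
  have hnpos : (0:ℝ) < n := lt_trans hBm hn
  have hnB : B / n / m₀ ≤ η := by
    rw [div_lt_iff₀ (by positivity)] at hn
    rw [div_div, div_le_iff₀ (by positivity)]
    linarith
  -- the points on the segments
  have hmem : ∀ k : ℕ, k ≤ n → ∀ u ∈ K, 1 + (((k:ℝ) / n : ℝ) : ℂ) * (u - 1) ∈ K' := by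
    intro k hk u hu
    refine ⟨((k:ℝ) / n, u), ⟨⟨by positivity, ?_⟩, hu⟩, rfl⟩
    rw [div_le_one hnpos]
    exact_mod_cast hk
  have main : ∀ k : ℕ, k ≤ n →
      sqrtPolyApp K (fun u => (1 + (((k:ℝ) / n : ℝ) : ℂ) * (u - 1)) ^ ((1:ℂ) / 2)) := by
    intro k
    induction k with
    | zero =>
      intro _
      refine sqrtPoly_congr ?_ (sqrtPoly_poly K 1)
      intro u _
      simp
    | succ k ih =>
      intro hk
      have ihk := ih (by omega)
      -- the ratio
      have hrat : sqrtPolyApp K (fun u => 1 + ((1 / (n:ℝ) : ℝ) : ℂ) * (u - 1) *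
          (1 + (((k:ℝ) / n : ℝ) : ℂ) * (u - 1))⁻¹) := by
        rcases Nat.eq_zero_or_pos k with hk0 | hk0
        · refine sqrtPoly_congr ?_ (sqrtPoly_poly K
            (1 + Polynomial.C ((1 / (n:ℝ) : ℝ) : ℂ) * (Polynomial.X - 1)))
          intro u _
          subst hk0
          simp
        · set t : ℝ := (k:ℝ) / n with ht
          have htpos : 0 < t := by
            have : (0:ℝ) < k := by exact_mod_cast hk0
            positivity
          have ht1 : t ≤ 1 := by
            rw [ht, div_le_one hnpos]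
            exact_mod_cast (by omega : k ≤ n)
          have hcc : 1 - 1 / t ≤ 0 := by
            rw [sub_nonpos, le_div_iff₀ htpos]
            linarith
          have hpp := pole_push K hK hKs (1 - 1 / t) hcc
          have hpp' : sqrtPolyApp K (fun u => (u - ((1 - 1 / t : ℝ) : ℂ))⁻¹) := hpp
          have h1 := sqrtPoly_mul hK (sqrtPoly_poly K
            (Polynomial.C ((1 / (n:ℝ) / t : ℝ) : ℂ) * (Polynomial.X - 1))) hpp'
          have h2 := sqrtPoly_add (sqrtPoly_poly K 1) h1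
          refine sqrtPoly_congr ?_ h2
          intro u hu
          have htc : (t:ℂ) ≠ 0 := by exact_mod_cast htpos.ne'
          have hw0 : (1 + (t:ℂ) * (u - 1)) ≠ 0 :=
            Complex.slitPlane_ne_zero (hK's (hmem k (by omega) u hu))
          have e1 : (u - ((1 - 1 / t : ℝ) : ℂ)) = (1 + (t:ℂ) * (u - 1)) / t := by
            push_cast
            field_simp
            ring
          simp only [Polynomial.eval_one, Polynomial.eval_mul, Polynomial.eval_C,
            Polynomial.eval_sub, Polynomial.eval_X]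
          rw [e1]
          push_cast
          have hnc : (n:ℂ) ≠ 0 := by
            have : (n:ℝ) ≠ 0 := hnpos.ne'
            exact_mod_cast this
          field_simp
      have hratball : ∀ u ∈ K, (1 + ((1 / (n:ℝ) : ℝ) : ℂ) * (u - 1) *
          (1 + (((k:ℝ) / n : ℝ) : ℂ) * (u - 1))⁻¹) ∈ closedBall (1:ℂ) η := by
        intro u hu
        rw [mem_closedBall, dist_eq_norm, add_sub_cancel_left, norm_mul, norm_mul, norm_inv]
        have e1 : ‖((1 / (n:ℝ) : ℝ) : ℂ)‖ = 1 / n := by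
          rw [Complex.norm_real, Real.norm_eq_abs, abs_of_pos (by positivity)]
        rw [e1]
        have h1 := hBb u hu
        have h2 := hm₀min _ (hmem k (by omega) u hu)
        calc 1 / (n:ℝ) * ‖u - 1‖ * ‖1 + (((k:ℝ) / n : ℝ) : ℂ) * (u - 1)‖⁻¹
            ≤ 1 / (n:ℝ) * B * m₀⁻¹ := by
              refine mul_le_mul (mul_le_mul_of_nonneg_left h1 (by positivity)) ?_
                (by positivity) (by positivity)
              exact inv_anti₀ hm₀pos h2
          _ = B / n / m₀ := by field_simp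
          _ ≤ η := hnB
      have hroot := sqrtPoly_comp (F := fun w : ℂ => w ^ ((1:ℂ) / 2)) hrat 1 η 1
        (by linarith) hratball (by
          intro w hw
          have hws : w ∈ Complex.slitPlane := by
            have h2 : ‖w - 1‖ < 1 := by
              rw [mem_ball, dist_eq_norm] at hw
              exact hw
            have h3 := Complex.mem_slitPlane_of_norm_lt_one h2
            rwa [add_sub_cancel] at h3
          exact (DifferentiableAt.cpow differentiableAt_id (differentiableAt_const _)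
            hws).differentiableWithinAt)
      have hprod := sqrtPoly_mul hK ihk hroot
      refine sqrtPoly_congr ?_ hprod
      intro u hu
      have hxK := hmem k (by omega) u hu
      have hzK := hmem (k+1) hk u hu
      have hx0 := Complex.slitPlane_ne_zero (hK's hxK)
      have exy : (1 + (((k:ℝ) / n : ℝ) : ℂ) * (u - 1)) *
          (1 + ((1 / (n:ℝ) : ℝ) : ℂ) * (u - 1) * (1 + (((k:ℝ) / n : ℝ) : ℂ) * (u - 1))⁻¹)
          = 1 + ((((k+1 : ℕ):ℝ) / n : ℝ) : ℂ) * (u - 1) := by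
        rw [mul_add, mul_one, mul_comm (((1 / (n:ℝ) : ℝ) : ℂ) * (u - 1)), ← mul_assoc,
          mul_inv_cancel₀ hx0, one_mul]
        push_cast
        ring
      have hb := hratball u hu
      rw [mem_closedBall] at hb
      have hs := hη₀s (lt_of_le_of_lt hb hη2)
      rw [Complex.one_cpow, dist_eq_norm] at hs
      set x : ℂ := 1 + (((k:ℝ) / n : ℝ) : ℂ) * (u - 1) with hx
      set y : ℂ := 1 + ((1 / (n:ℝ) : ℝ) : ℂ) * (u - 1) * x⁻¹ with hy
      have hre : 0 < (x ^ ((1:ℂ) / 2) * y ^ ((1:ℂ) / 2)).re := by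
        have e2 : x ^ ((1:ℂ) / 2) * y ^ ((1:ℂ) / 2) = x ^ ((1:ℂ) / 2) +
            x ^ ((1:ℂ) / 2) * (y ^ ((1:ℂ) / 2) - 1) := by ring
        rw [e2, Complex.add_re]
        have h3 : ‖x ^ ((1:ℂ) / 2) * (y ^ ((1:ℂ) / 2) - 1)‖ ≤ M * (c / (2 * M)) := by
          rw [norm_mul]
          exact mul_le_mul (hMb x hxK) hs.le (norm_nonneg _) hMpos.le
        have h4 : M * (c / (2 * M)) = c / 2 := by field_simp
        have h5 := Complex.abs_re_le_norm (x ^ ((1:ℂ) / 2) * (y ^ ((1:ℂ) / 2) - 1))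
        have h6 := neg_abs_le (x ^ ((1:ℂ) / 2) * (y ^ ((1:ℂ) / 2) - 1)).re
        have h7 := hcmin x hxK
        linarith
      rw [← exy] at hzK ⊢
      exact (sqrtPoly_mulroot (hK's hzK) hre).symm
  intro ε hε
  obtain ⟨p, hp⟩ := main n le_rfl ε hε
  refine ⟨p, fun u hu => ?_⟩
  have h1 := hp u hu
  have h2 : (1 + (((n:ℝ) / n : ℝ) : ℂ) * (u - 1)) = u := by
    rw [div_self hnpos.ne']
    push_cast
    ring
  simp only [h2] at h1
  exact h1

theorem kai_poly (K : Set ℂ) (hK : IsCompact K) (hKs : K ⊆ Complex.slitPlane) :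
    ∀ ε : ℝ, 0 < ε → ∃ p : Polynomial ℂ, ∀ u ∈ K, ‖kai u - p.eval u‖ < ε := by
  rcases K.eq_empty_or_nonempty with hKe | hKne
  · subst hKe
    intro ε _
    exact ⟨0, fun u hu => absurd hu (Set.notMem_empty u)⟩
  have hscont : ContinuousOn (fun w : ℂ => w ^ ((1:ℂ) / 2)) K := sqrtPoly_cont.mono hKs
  obtain ⟨w0, hw0, hw0min⟩ := hK.exists_isMinOn hKne
    (f := fun w : ℂ => (w ^ ((1:ℂ) / 2)).re) (Complex.continuous_re.comp_continuousOn hscont)
  set c : ℝ := (w0 ^ ((1:ℂ) / 2)).re with hc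
  have hcpos : 0 < c := sqrtPoly_re_pos (hKs hw0)
  have hcmin : ∀ w ∈ K, c ≤ (w ^ ((1:ℂ) / 2)).re := fun w hw => hw0min hw
  obtain ⟨M₀, hM₀⟩ := hK.exists_bound_of_continuousOn hscont
  set M : ℝ := |M₀| + c + 1 with hM
  have hMpos : 0 < M := by positivity
  have hMb : ∀ w ∈ K, ‖w ^ ((1:ℂ) / 2)‖ ≤ M := fun w hw => by
    have := hM₀ w hw
    have := le_abs_self M₀
    linarith
  set m : ℝ := M ^ 2 / c with hm
  have hmpos : 0 < m := by positivity
  have hmM : M ≤ m := by
    rw [hm, le_div_iff₀ hcpos]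
    have : c ≤ M := by
      have := abs_nonneg M₀
      linarith
    nlinarith
  have hmc : m * c = M ^ 2 := by
    rw [hm]
    field_simp
  have hball : ∀ u ∈ K, u ^ ((1:ℂ) / 2) ∈ closedBall (m:ℂ) (Real.sqrt (m ^ 2 - M ^ 2)) := by
    intro u hu
    rw [mem_closedBall, dist_eq_norm]
    apply Real.le_sqrt_of_sq_le
    rw [Complex.sq_norm, Complex.normSq_apply]
    have h1 := hcmin u hu
    have h2 := hMb u hu
    have h3 : ‖u ^ ((1:ℂ) / 2)‖ ^ 2 = (u ^ ((1:ℂ) / 2)).re * (u ^ ((1:ℂ) / 2)).re +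
        (u ^ ((1:ℂ) / 2)).im * (u ^ ((1:ℂ) / 2)).im := by
      rw [Complex.sq_norm, Complex.normSq_apply]
    have h4 : ‖u ^ ((1:ℂ) / 2)‖ ^ 2 ≤ M ^ 2 := pow_le_pow_left₀ (norm_nonneg _) h2 2
    have h5 : m * c ≤ m * (u ^ ((1:ℂ) / 2)).re := mul_le_mul_of_nonneg_left h1 hmpos.le
    simp only [Complex.sub_re, Complex.sub_im, Complex.ofReal_re, Complex.ofReal_im]
    nlinarith
  have hrm : Real.sqrt (m ^ 2 - M ^ 2) < m := by
    rw [Real.sqrt_lt' hmpos]
    nlinarith [sq_pos_of_pos hMpos]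
  have hF : DifferentiableOn ℂ (fun v : ℂ => (v - 1) / (v + 1)) (ball (m:ℂ) m) := by
    intro v hv
    have hv1 : v + 1 ≠ 0 := by
      intro h
      have h1 : v = -1 := eq_neg_of_add_eq_zero_left h
      rw [h1, mem_ball, dist_eq_norm] at hv
      have h2 : ‖(-1:ℂ) - m‖ = m + 1 := by
        have : (-1:ℂ) - m = -(((m + 1 : ℝ)) : ℂ) := by push_cast; ring
        rw [this, norm_neg, Complex.norm_real, Real.norm_eq_abs, abs_of_pos (by linarith)]
      rw [h2] at hv
      linarith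
    have : DifferentiableAt ℂ (fun v : ℂ => (v - 1) / (v + 1)) v :=
      ((differentiableAt_id.sub_const 1).div (differentiableAt_id.add_const 1) hv1)
    exact this.differentiableWithinAt
  have hs : sqrtPolyApp K (fun u => u ^ ((1:ℂ) / 2)) := sqrt_poly K hK hKs
  have := sqrtPoly_comp hs (m:ℂ) (Real.sqrt (m ^ 2 - M ^ 2)) m hrm hball hF
  exact this

end FBH
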