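import Pool.Agent.FBH.Defs
import Pool.Agent.FBH.LPComp
import Pool.Agent.FBH.SqrtPoly
import Pool.Agent.FBH.Kai

/-!
CoordLap. The coordinates `cd (Θ x)` are Laurent-approximable on compact sets `K ⊆ X` with `(Θ x).2` in the slit plane:
the first is `app1`; the second is `kai` of `app2`, use lap_poly with the compact set `(Θ ·).2 '' K` and kai_poly.
-/

set_option autoImplicit false

open Metric Set Filter Topology

namespace FBH

theorem coord_lap {Θ Θ' : V2 → V2} (hΘ : LAut Θ Θ') (K : Set V2) (hK : IsCompact K) (hKX : K ⊆ XS)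
    (hs : ∀ x ∈ K, (Θ x).2 ∈ Complex.slitPlane) :
    LAp K (fun x : V2 => x) (fun x => (cd (Θ x)).1) ∧
      LAp K (fun x : V2 => x) (fun x => (cd (Θ x)).2) := by
  refine ⟨hΘ.app1 K hK hKX, ?_⟩
  have hc : ContinuousOn (fun x : V2 => (Θ x).2) K := (continuous_snd.comp_continuousOn hΘ.diff.continuousOn).mono hKX
  have hcomp : IsCompact ((fun x : V2 => (Θ x).2) '' K) := hK.image_of_continuousOn hc
  obtain ⟨M, hM⟩ := hcomp.isBounded.exists_norm_le
  have hsub : (fun x : V2 => (Θ x).2) '' K ⊆ Complex.slitPlane := by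
    rintro _ ⟨x, hx, rfl⟩
    exact hs x hx
  exact lap_poly (S := K) (g := fun x : V2 => x) (fun x hx => hKX hx) (h := fun x : V2 => (Θ x).2) M
    (fun x hx => hM _ ⟨x, hx, rfl⟩) (hΘ.app2 K hK hKX) ((fun x : V2 => (Θ x).2) '' K)
    (fun x hx => ⟨x, hx, rfl⟩) kai (kai_poly _ hcomp hsub)

end FBH
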