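import Mathlib

/-!
# Definitions for the construction of a Fatou-Bieberbach domain in `ℂ³` with no holomorphically
convex domain strictly between it and `ℂ³`.
-/

set_option autoImplicit false

open Metric Set Filter Topology

namespace FBH

/-- The plane `ℂ²` (sup norm); points are `x = (z, w)`. -/
abbrev V2 := ℂ × ℂ

/-- The space `ℂ³ = ℂ × ℂ²` (sup norm); points are `(a, (z, w))`. -/
abbrev V3 := ℂ × (ℂ × ℂ)

/-- Continuity principle for a closed set `E`: a continuous family of closed analytic discs whose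
first disc and all boundaries avoid `E` has last disc avoiding `E`. -/
def CP {V : Type*} [NormedAddCommGroup V] [NormedSpace ℂ V] (E : Set V) : Prop :=
  IsClosed E ∧ ∀ φ : ℝ → ℂ → V,
    ContinuousOn (fun p : ℝ × ℂ => φ p.1 p.2) (Icc (0:ℝ) 1 ×ˢ closedBall (0:ℂ) 1) →
    (∀ s ∈ Icc (0:ℝ) 1, DifferentiableOn ℂ (φ s) (ball (0:ℂ) 1)) →
    (∀ σ ∈ closedBall (0:ℂ) 1, φ 0 σ ∉ E) →
    (∀ s ∈ Icc (0:ℝ) 1, ∀ σ ∈ sphere (0:ℂ) 1, φ s σ ∉ E) →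
    ∀ σ ∈ closedBall (0:ℂ) 1, φ 1 σ ∉ E

/-- Limit of a sequence of sets along an ultrafilter. -/
def limSet {V : Type*} [TopologicalSpace V] (U : Ultrafilter ℕ) (E : ℕ → Set V) : Set V :=
  {x | ∀ N ∈ 𝓝 x, ∀ᶠ m in (U : Filter ℕ), (E m ∩ N).Nonempty}

/-- The map `s ↦ ((1+s)/(1-s))²` from the unit disc onto the slit plane. -/
noncomputable def ka (s : ℂ) : ℂ := ((1 + s) / (1 - s)) ^ 2

/-- The inverse of `ka` on the slit plane: `u ↦ (√u - 1)/(√u + 1)`. -/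
noncomputable def kai (u : ℂ) : ℂ := (u ^ ((1:ℂ) / 2) - 1) / (u ^ ((1:ℂ) / 2) + 1)

/-- `X = ℂ × ℂ*`. -/
def XS : Set V2 := {x | x.2 ≠ 0}

/-- Closed polydisc in `ℂ²`. -/
def PD (R ρ : ℝ) : Set V2 := closedBall (0:ℂ) R ×ˢ closedBall (0:ℂ) ρ

/-- Open polydisc in `ℂ²`. -/
def OD (R ρ : ℝ) : Set V2 := ball (0:ℂ) R ×ˢ ball (0:ℂ) ρ

/-- The Laurent polynomials: span of the functions `z^i w^K` (`i : ℕ`, `K : ℤ`). -/
def LPoly : Submodule ℂ (V2 → ℂ) :=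
  Submodule.span ℂ {f | ∃ (i : ℕ) (K : ℤ), f = fun x : V2 => x.1 ^ i * x.2 ^ K}

/-- The polynomials in two variables: span of the functions `q^i s^j`. -/
def BPoly : Submodule ℂ (V2 → ℂ) :=
  Submodule.span ℂ {f | ∃ (i j : ℕ), f = fun x : V2 => x.1 ^ i * x.2 ^ j}

/-- `h` is a uniform limit on `S` of functions `L ∘ g`, `L` a Laurent polynomial. -/
def LAp {α : Type*} (S : Set α) (g : α → V2) (h : α → ℂ) : Prop :=
  ∀ ε : ℝ, 0 < ε → ∃ L ∈ LPoly, ∀ x ∈ S, ‖h x - L (g x)‖ < ε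

/-- An automorphism `Θ` of `X = ℂ × ℂ*` (with inverse `Θ'`), given by functions on `ℂ²`, whose
components (and the inverse of the second one) are Laurent-approximable on compact subsets of `X`. -/
structure LAut (Θ Θ' : V2 → V2) : Prop where
  mapsX : ∀ x : V2, x.2 ≠ 0 → (Θ x).2 ≠ 0
  mapsX' : ∀ x : V2, x.2 ≠ 0 → (Θ' x).2 ≠ 0
  left : ∀ x : V2, x.2 ≠ 0 → Θ' (Θ x) = x
  right : ∀ x : V2, x.2 ≠ 0 → Θ (Θ' x) = x
  diff : DifferentiableOn ℂ Θ XS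
  diff' : DifferentiableOn ℂ Θ' XS
  app1 : ∀ K : Set V2, IsCompact K → K ⊆ XS → LAp K (fun x : V2 => x) (fun x => (Θ x).1)
  app2 : ∀ K : Set V2, IsCompact K → K ⊆ XS → LAp K (fun x : V2 => x) (fun x => (Θ x).2)
  app3 : ∀ K : Set V2, IsCompact K → K ⊆ XS → LAp K (fun x : V2 => x) (fun x => ((Θ x).2)⁻¹)

/-- The vector field `V` on `X` is infinitesimally realised by automorphisms in the class `LAut`. -/
def InfA (V : V2 → V2) : Prop :=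
  ∀ K : Set V2, IsCompact K → K ⊆ XS → ∀ ε : ℝ, 0 < ε → ∃ h0 : ℝ, 0 < h0 ∧
    ∀ h : ℝ, 0 < h → h < h0 → ∃ ψ ψ' : V2 → V2, LAut ψ ψ' ∧
      ∀ x ∈ K, ‖ψ x - x - (h : ℂ) • V x‖ ≤ ε * h

/-- Wildness: every surface `{u = -t}`, `t > 0`, accumulates on the whole line `w = 0`. -/
def Wild (Θ : V2 → V2) : Prop :=
  ∀ t : ℝ, 0 < t → ∀ z : ℂ, ((z, 0) : V2) ∈ closure {x : V2 | x.2 ≠ 0 ∧ (Θ x).2 = -(t : ℂ)}

/-- The first component of `Θ` is unbounded near every point of the line `w = 0`. -/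
def Unb (Θ : V2 → V2) : Prop :=
  ∀ (z : ℂ) (M r : ℝ), 0 < r → ∃ x : V2, x.2 ≠ 0 ∧ ‖x - (z, 0)‖ < r ∧ M < ‖(Θ x).1‖

/-- The chart `p = (q, s) ↦ Θ'(q, ka s)`. -/
noncomputable def xk (Θ' : V2 → V2) (p : V2) : V2 := Θ' (p.1, ka p.2)

/-- The coordinates `(q, u) ↦ (q, kai u)`. -/
noncomputable def cd (y : V2) : V2 := (y.1, kai y.2)

/-- Stage data of the construction. -/
structure Stage where
  Φ : V3 → V3
  Φ' : V3 → V3
  A : V3 → V3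
  A' : V3 → V3
  Θ : V2 → V2
  Θ' : V2 → V2
  σ : ℝ

/-- The map of a stage. -/
noncomputable def Stage.F (S : Stage) (x : V3) : V3 :=
  S.Φ' ((S.A x).1, xk S.Θ' (S.A x).2)

/-- Validity of stage data. -/
structure Stage.OK (S : Stage) : Prop where
  dΦ : Differentiable ℂ S.Φ
  dΦ' : Differentiable ℂ S.Φ'
  lΦ : ∀ x, S.Φ' (S.Φ x) = x
  rΦ : ∀ x, S.Φ (S.Φ' x) = x
  dA : Differentiable ℂ S.A
  dA' : Differentiable ℂ S.A'
  lA : ∀ x, S.A' (S.A x) = x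
  rA : ∀ x, S.A (S.A' x) = x
  laut : LAut S.Θ S.Θ'
  σpos : 0 < S.σ
  A2 : ∀ x, (S.A x).2 = (S.σ : ℂ) • x.2
  zero : S.Φ 0 = 0

/-- The `N`-th root of `1 - v` close to `1`. -/
noncomputable def rt (N : ℕ) (v : ℂ) : ℂ := Complex.exp (Complex.log (1 - v) / N)

/-- The map `(z, w) ↦ (z + Λ (w - w'), w')`, `w' = w (1 - L^l)^(1/N)`. -/
noncomputable def nu (L : V2 → ℂ) (l N : ℕ) (Λ : ℂ) (x : V2) : V2 :=
  (x.1 + Λ * (x.2 - x.2 * rt N (L x ^ l)), x.2 * rt N (L x ^ l))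

/-- `G = w^(ml+1) - w P^l`, equal to `w^N (1 - L^l)` for `L = P / w^m`, `N = m l + 1`. -/
noncomputable def GG (P : V2 → ℂ) (m l : ℕ) (x : V2) : ℂ := x.2 ^ (m * l + 1) - x.2 * P x ^ l

/-- The map `(z, w) ↦ (z + Λ w, -G(z,w))`. -/
noncomputable def gm (G : V2 → ℂ) (Λ : ℂ) (x : V2) : V2 := (x.1 + Λ * x.2, -G x)

/-- The main substitution `(a, (z, w)) ↦ (w, (z + Λ w, η (a - κ w) - G(z,w)))`. -/
noncomputable def tT (G : V2 → ℂ) (Λ κ : ℂ) (η : ℝ) (y : V3) : V3 :=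
  (y.2.2, (y.2.1 + Λ * y.2.2, (η:ℂ) * (y.1 - κ * y.2.2) - G y.2))

/-- Its inverse. -/
noncomputable def tT' (G : V2 → ℂ) (Λ κ : ℂ) (η : ℝ) (y : V3) : V3 :=
  ((y.2.2 + G (y.2.1 - Λ * y.1, y.1)) / (η:ℂ) + κ * y.1, (y.2.1 - Λ * y.1, y.1))

/-- The overshear and dilation. -/
noncomputable def tA (κ : ℂ) (η τ : ℝ) (B₁ B₂ : V2 → ℂ) (y : V3) : V3 :=
  (B₁ y.2 + (η:ℂ) * (y.1 - κ * B₁ y.2) * Complex.exp (-B₂ y.2), (τ:ℂ) • y.2)

/-- Its inverse. -/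
noncomputable def tA' (κ : ℂ) (η τ : ℝ) (B₁ B₂ : V2 → ℂ) (y : V3) : V3 :=
  (κ * B₁ ((τ:ℂ)⁻¹ • y.2) +
    (y.1 - B₁ ((τ:ℂ)⁻¹ • y.2)) * Complex.exp (B₂ ((τ:ℂ)⁻¹ • y.2)) / (η:ℂ), (τ:ℂ)⁻¹ • y.2)

/-- The next stage. -/
noncomputable def newStage (S : Stage) (G : V2 → ℂ) (Λ κ : ℂ) (η τ : ℝ) (B₁ B₂ : V2 → ℂ)
    (Θ Θ' : V2 → V2) : Stage where
  Φ := fun x => tT G Λ κ η (S.Φ x)
  Φ' := fun x => S.Φ' (tT' G Λ κ η x)
  A := fun x => tA κ η τ B₁ B₂ (S.A x)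
  A' := fun x => S.A' (tA' κ η τ B₁ B₂ x)
  Θ := Θ
  Θ' := Θ'
  σ := τ * S.σ

/-- The compact set of a stage: preimage of a closed polydisc under `S.A`. -/
def CS (S : Stage) (R ρ : ℝ) : Set V3 := {x | ‖(S.A x).1‖ ≤ R ∧ (S.A x).2 ∈ PD R ρ}

/-- The relation between two consecutive stages `(S, r, e)` and `(S', r', e')`, with the compact set
`C` and the point `b` of the step, for the ball of centre `c` and radius `ρ`. -/
structure Rel (k : ℕ) (c : V3) (ρ : ℝ) (S : Stage) (r e : ℝ) (C : Set V3) (b : V3) (S' : Stage)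
    (r' e' : ℝ) : Prop where
  compactC : IsCompact C
  dom : ∀ x ∈ C, ‖(S.A x).2.2‖ < 1
  ballC : closedBall (0:V3) r ⊆ interior C
  epos : 0 < e'
  ehalf : e' ≤ e / 2
  Cball : C ⊆ ball 0 r'
  rr : r + 1 ≤ r'
  ok' : S'.OK
  wild' : Wild S'.Θ
  dom' : S'.σ * r' < 1
  close : ∀ x ∈ C, ‖S'.F x - S.F x‖ ≤ e'
  tolInj : ∀ G : V3 → V3, Differentiable ℂ G → (∀ x ∈ C, ‖G x - S.F x‖ ≤ 2 * e') →
    InjOn G (closedBall 0 r) ∧ (∀ x ∈ ball (0:V3) r, Function.Injective (fderiv ℂ G x)) ∧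
      ∀ x ∈ C, G x ≠ 0
  tolFat : 0 < k → ∀ G : V3 → V3, Continuous G → IsOpenMap G →
    (∀ x ∈ C, ‖G x - S.F x‖ ≤ 2 * e') → ∀ E : Set V3, CP E → Disjoint E (range G) →
      (E ∩ closedBall (0:V3) k).Nonempty → ∀ h ∈ closedBall (0:V3) k, (S.Φ h).2.2 = 0 →
        ∃ x ∈ E, dist h x < 1 / (k:ℝ)
  tolB : ∀ G : V3 → V3, Continuous G → IsOpenMap G → (∀ x ∈ C, ‖G x - S.F x‖ ≤ 2 * e') →
    closedBall c ρ ⊆ range G ∨ b ∈ closedBall c (2 * ρ)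
  bz : (S'.Φ b).2.2 = 0

end FBH
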