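import Pool.Agent.FBH.Defs
import Pool.Agent.FBH.Kai

/-!
FatOpen. The map `(a, q, s) ↦ Φ'(a, xk Θ'(q,s))` is open at points with `‖s‖ < 1`.
-/

set_option autoImplicit false

open Metric Set Filter Topology

namespace FBH

theorem fat_open (Θ Θ' : V2 → V2) (hΘ : LAut Θ Θ') (Φ Φ' : V3 → V3)
    (hΦ : Differentiable ℂ Φ) (hΦ' : Differentiable ℂ Φ') (hl : ∀ x, Φ' (Φ x) = x)
    (hr : ∀ x, Φ (Φ' x) = x) (a : ℂ) (p : V2) (hp : ‖p.2‖ < 1) (δ : ℝ) (hδ : 0 < δ) :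
    ∃ N ∈ 𝓝 (Φ' (a, xk Θ' p)), ∀ y ∈ N, ∃ (a' : ℂ) (p' : V2), ‖a' - a‖ < δ ∧ ‖p' - p‖ < δ ∧
      ‖p'.2‖ < 1 ∧ y = Φ' (a', xk Θ' p') := by
  have hka : ka p.2 ∈ Complex.slitPlane := ka_mem hp
  have hka0 : ka p.2 ≠ 0 := Complex.slitPlane_ne_zero hka
  set y₀ : V3 := Φ' (a, xk Θ' p) with hy₀
  have hΦy : Φ y₀ = (a, xk Θ' p) := hr _
  have hx2 : (xk Θ' p).2 ≠ 0 := hΘ.mapsX' (p.1, ka p.2) hka0
  have hΘx : Θ (xk Θ' p) = (p.1, ka p.2) := hΘ.right (p.1, ka p.2) hka0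
  have hXS : IsOpen XS := isOpen_ne_fun continuous_snd continuous_const
  have hΘc : ContinuousAt Θ (xk Θ' p) :=
    hΘ.diff.continuousOn.continuousAt (hXS.mem_nhds hx2)
  have hΦc : ContinuousAt Φ y₀ := hΦ.continuous.continuousAt
  have hΦ2c : ContinuousAt (fun y => (Φ y).2) y₀ := hΦc.snd
  have h2 : ContinuousAt (fun y => Θ (Φ y).2) y₀ := by
    have : ContinuousAt Θ ((fun y => (Φ y).2) y₀) := by
      simpa [hΦy] using hΘc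
    exact ContinuousAt.comp this hΦ2c
  have h22 : ContinuousAt (fun y => (Θ (Φ y).2).2) y₀ := h2.snd
  have hv : (Θ (Φ y₀).2).2 = ka p.2 := by rw [hΦy]; simp [hΘx]
  have hkai : ContinuousAt kai (ka p.2) :=
    kai_diff.continuousOn.continuousAt (Complex.isOpen_slitPlane.mem_nhds hka)
  have h3 : ContinuousAt (fun y => kai (Θ (Φ y).2).2) y₀ := by
    have : ContinuousAt kai ((fun y => (Θ (Φ y).2).2) y₀) := by
      simpa [hv] using hkai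
    exact ContinuousAt.comp (g := kai) (f := fun y => (Θ (Φ y).2).2) this h22
  have h4 : ContinuousAt (fun y => cd (Θ (Φ y).2)) y₀ := h2.fst.prodMk h3
  have hk0 : cd (Θ (Φ y₀).2) = p := by
    rw [hΦy]
    simp only [hΘx, cd]
    rw [kai_ka hp]
  have h1 : ContinuousAt (fun y => (Φ y).1) y₀ := hΦc.fst
  have e1 : ∀ᶠ y in 𝓝 y₀, ‖(Φ y).1 - a‖ < δ := by
    have := h1.eventually (Metric.ball_mem_nhds _ hδ)
    filter_upwards [this] with y hy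
    have h5 : (Φ y₀).1 = a := by rw [hΦy]
    rw [h5, dist_eq_norm] at hy
    exact hy
  have e2 : ∀ᶠ y in 𝓝 y₀, ‖cd (Θ (Φ y).2) - p‖ < δ := by
    have := h4.eventually (Metric.ball_mem_nhds _ hδ)
    filter_upwards [this] with y hy
    rw [hk0, dist_eq_norm] at hy
    exact hy
  have e3 : ∀ᶠ y in 𝓝 y₀, (Φ y).2.2 ≠ 0 := by
    have h6 : (Φ y₀).2.2 ≠ 0 := by rw [hΦy]; exact hx2
    exact hΦ2c.snd.eventually_ne h6
  have e4 : ∀ᶠ y in 𝓝 y₀, (Θ (Φ y).2).2 ∈ Complex.slitPlane :=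
    h22.eventually (Complex.isOpen_slitPlane.mem_nhds (by show (Θ (Φ y₀).2).2 ∈ Complex.slitPlane; rw [hv]; exact hka))
  refine ⟨{y | ‖(Φ y).1 - a‖ < δ ∧ ‖cd (Θ (Φ y).2) - p‖ < δ ∧ (Φ y).2.2 ≠ 0 ∧
    (Θ (Φ y).2).2 ∈ Complex.slitPlane}, ?_, ?_⟩
  · filter_upwards [e1, e2, e3, e4] with y a1 a2 a3 a4
    exact ⟨a1, a2, a3, a4⟩
  · rintro y ⟨a1, a2, a3, a4⟩
    refine ⟨(Φ y).1, cd (Θ (Φ y).2), a1, a2, kai_norm a4, ?_⟩
    have h7 : xk Θ' (cd (Θ (Φ y).2)) = (Φ y).2 := by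
      unfold xk cd
      simp only [ka_kai a4]
      exact hΘ.left _ a3
    rw [h7]
    exact (hl y).symm

end FBH
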