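import Pool.Agent.FBH.Defs

/-!
PlaneT. If `E` has the continuity principle, is contained in `{w = 0}` and is nonempty, then it is all of `{w = 0}`.
Proof. Suppose `x₁ ∉ E`, `x₁.2.2 = 0`. Choose `ρ > 0` such that `x₁ + (0,(0,ρσ)) ∉ E` for `|σ| ≤ 1`. Discs
`φ s σ = (1-s) x₁ + s x₀ + (0,(0,ρσ))`. Boundary points have `w = ρσ ≠ 0`, first disc avoids `E`; hence
`φ 1 0 = x₀ ∉ E`. Contradiction (`x₀.2.2 = 0` since `x₀ ∈ E`).
-/

set_option autoImplicit false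

open Metric Set Filter Topology

namespace FBH

theorem plane_transl (E : Set V3) (hE : CP E) (hsub : ∀ x ∈ E, x.2.2 = 0) (x₀ x₁ : V3) (h₀ : x₀ ∈ E)
    (h₁ : x₁.2.2 = 0) : x₁ ∈ E := by
  obtain ⟨hcl, hcp⟩ := hE
  by_contra hx
  have hop : IsOpen Eᶜ := hcl.isOpen_compl
  obtain ⟨ε, hε, hball⟩ := Metric.isOpen_iff.1 hop x₁ hx
  have h00 : x₀.2.2 = 0 := hsub x₀ h₀
  have key := hcp (fun (s : ℝ) (σ : ℂ) =>
    (((1 - (s:ℂ)) * x₁.1 + (s:ℂ) * x₀.1, ((1 - (s:ℂ)) * x₁.2.1 + (s:ℂ) * x₀.2.1,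
      ((ε / 2 : ℝ) : ℂ) * σ)) : V3)) ?_ ?_ ?_ ?_ 0 (by simp)
  · apply key
    have : (((1 - ((1:ℝ):ℂ)) * x₁.1 + ((1:ℝ):ℂ) * x₀.1, ((1 - ((1:ℝ):ℂ)) * x₁.2.1 +
        ((1:ℝ):ℂ) * x₀.2.1, ((ε / 2 : ℝ) : ℂ) * 0)) : V3) = x₀ := by
      ext <;> simp [h00]
    rw [this]
    exact h₀
  · fun_prop
  · intro s hs
    fun_prop
  · intro σ hσ
    have hσ' : ‖σ‖ ≤ 1 := by simpa using hσ
    have hd : (((1 - ((0:ℝ):ℂ)) * x₁.1 + ((0:ℝ):ℂ) * x₀.1, ((1 - ((0:ℝ):ℂ)) * x₁.2.1 +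
        ((0:ℝ):ℂ) * x₀.2.1, ((ε / 2 : ℝ) : ℂ) * σ)) : V3) ∈ ball x₁ ε := by
      rw [mem_ball, dist_eq_norm, Prod.norm_def, Prod.norm_def]
      have h3 : ‖((ε / 2 : ℝ) : ℂ) * σ‖ < ε := by
        rw [norm_mul, Complex.norm_real, Real.norm_of_nonneg (by positivity)]
        nlinarith [norm_nonneg σ]
      simp only [Prod.fst_sub, Prod.snd_sub, Complex.ofReal_zero, sub_zero, one_mul, zero_mul,
        add_zero, sub_self, norm_zero, h₁]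
      exact max_lt hε (max_lt hε h3)
    exact hball hd
  · intro s hs σ hσ hin
    have := hsub _ hin
    have hσ' : ‖σ‖ = 1 := by simpa using hσ
    simp only at this
    rcases mul_eq_zero.1 this with h | h
    · have : (ε / 2 : ℝ) = 0 := by exact_mod_cast h
      linarith
    · rw [h, norm_zero] at hσ'
      exact zero_ne_one hσ'

end FBH
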