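import Pool.Agent.FBH.Defs
import Pool.Agent.FBH.Kai

/-!
SlitT. Let `E` be closed with the continuity principle, disjoint from all points `(a, Θ'(q, u))` with `u` in the
slit plane. If `(a₀, Θ'(q₀,-t)) ∈ E` with `t > 0`, then `(a₁, Θ'(q₁,-t)) ∈ E` for all `a₁, q₁`.
Proof. Every `u` in the slit plane is `ka s`, `s = kai u`, `‖s‖ < 1`, so `hdis` says `(a, Θ'(q,u)) ∉ E` for all such `u`.
Suppose `(a₁, Θ'(q₁,-t)) ∉ E`. The map `Ψ(a,q,u) = (a, Θ'(q,u))` is continuous on `u ≠ 0` and `E` is closed, so there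
is `0 < ρ < t` with `Ψ(a₁,q₁,u) ∉ E` for `|u + t| ≤ ρ`. Discs:
`φ s σ = Ψ(a₁ + s (a₀ - a₁)(1-σ²), q₁ + s (q₀ - q₁)(1-σ²), -t + ρ σ)` (`-t + ρσ ≠ 0` since `ρ < t`).
First disc `s = 0`: in the excluded neighbourhood, avoids `E`. Boundary: if `Im σ ≠ 0` then
`-t + ρσ` is not real, so in the slit plane and the point is not in `E`; if `σ = ± 1`, then `1 - σ² = 0` and the point is
`Ψ(a₁,q₁,-t±ρ) ∉ E`. By the continuity principle `φ 1 0 = Ψ(a₀,q₀,-t) ∉ E`. Contradiction.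
-/

set_option autoImplicit false

open Metric Set Filter Topology

namespace FBH

theorem slit_transl (Θ' : V2 → V2) (hΘ' : DifferentiableOn ℂ Θ' XS) (E : Set V3) (hE : CP E)
    (hdis : ∀ a q s : ℂ, ‖s‖ < 1 → ((a, xk Θ' (q, s)) : V3) ∉ E) (t : ℝ) (ht : 0 < t)
    (a₀ q₀ a₁ q₁ : ℂ) (h : ((a₀, Θ' (q₀, -(t:ℂ))) : V3) ∈ E) :
    ((a₁, Θ' (q₁, -(t:ℂ))) : V3) ∈ E := by
  obtain ⟨hcl, hcp⟩ := hE
  by_contra hx
  -- points over the slit plane are not in `E`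
  have hslit : ∀ a q u : ℂ, u ∈ Complex.slitPlane → ((a, Θ' (q, u)) : V3) ∉ E := by
    intro a q u hu
    have := hdis a q (kai u) (kai_norm hu)
    simp only [xk, ka_kai hu] at this
    exact this
  have hopX : IsOpen XS := by
    have : XS = (fun x : V2 => x.2) ⁻¹' {0}ᶜ := rfl
    rw [this]
    exact isOpen_compl_singleton.preimage continuous_snd
  have hcΘ : ContinuousOn Θ' XS := hΘ'.continuousOn
  -- continuity of Psi
  have hPsi : ContinuousOn (fun p : ℂ × V2 => ((p.1, Θ' p.2) : V3)) {p | p.2 ∈ XS} := by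
    apply ContinuousOn.prodMk continuous_fst.continuousOn
    exact hcΘ.comp continuous_snd.continuousOn (fun p hp => hp)
  have ht0 : (-(t:ℂ)) ≠ 0 := by
    simp [ht.ne']
  have hnear : ∀ᶠ u in 𝓝 (-(t:ℂ)), ((a₁, Θ' (q₁, u)) : V3) ∉ E := by
    have hc : ContinuousAt (fun u : ℂ => ((a₁, Θ' (q₁, u)) : V3)) (-(t:ℂ)) := by
      apply ContinuousAt.prodMk continuousAt_const
      have h1 : ContinuousAt Θ' (q₁, -(t:ℂ)) := hcΘ.continuousAt (hopX.mem_nhds ht0)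
      exact ContinuousAt.comp (f := fun u : ℂ => ((q₁, u) : V2)) (g := Θ') h1 (by fun_prop)
    exact hc.eventually (hcl.isOpen_compl.mem_nhds hx)
  obtain ⟨ε, hε, hball⟩ := Metric.eventually_nhds_iff.1 hnear
  set ρ : ℝ := min (ε / 2) (t / 2) with hρ
  have hρ0 : 0 < ρ := lt_min (by positivity) (by positivity)
  have hρε : ρ < ε := lt_of_le_of_lt (min_le_left _ _) (by linarith)
  have hρt : ρ < t := lt_of_le_of_lt (min_le_right _ _) (by linarith)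
  have hneg : ∀ σ : ℂ, ‖σ‖ ≤ 1 → -(t:ℂ) + (ρ:ℂ) * σ ≠ 0 := by
    intro σ hσ h0
    have h1 : (ρ:ℂ) * σ = (t:ℂ) := by linear_combination h0
    have h2 : ρ * ‖σ‖ = t := by
      have := congrArg norm h1
      rw [norm_mul, Complex.norm_real, Complex.norm_real, Real.norm_of_nonneg hρ0.le,
        Real.norm_of_nonneg ht.le] at this
      exact this
    nlinarith [norm_nonneg σ]
  have hclose : ∀ σ : ℂ, ‖σ‖ ≤ 1 → ((a₁, Θ' (q₁, -(t:ℂ) + (ρ:ℂ) * σ)) : V3) ∉ E := by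
    intro σ hσ
    apply hball
    rw [dist_eq_norm]
    have : -(t:ℂ) + (ρ:ℂ) * σ - -(t:ℂ) = (ρ:ℂ) * σ := by ring
    rw [this, norm_mul, Complex.norm_real, Real.norm_of_nonneg hρ0.le]
    nlinarith [norm_nonneg σ]
  have key := hcp (fun (s : ℝ) (σ : ℂ) =>
    ((a₁ + (s:ℂ) * (a₀ - a₁) * (1 - σ ^ 2),
      Θ' (q₁ + (s:ℂ) * (q₀ - q₁) * (1 - σ ^ 2), -(t:ℂ) + (ρ:ℂ) * σ)) : V3)) ?_ ?_ ?_ ?_ 0 (by simp)
  · apply key
    have e1 : a₁ + ((1:ℝ):ℂ) * (a₀ - a₁) * (1 - (0:ℂ) ^ 2) = a₀ := by push_cast; ring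
    have e2 : q₁ + ((1:ℝ):ℂ) * (q₀ - q₁) * (1 - (0:ℂ) ^ 2) = q₀ := by push_cast; ring
    have e3 : -(t:ℂ) + (ρ:ℂ) * 0 = -(t:ℂ) := by ring
    simp only [e1, e2, e3]
    exact h
  · have : ContinuousOn (fun p : ℝ × ℂ => ((a₁ + (p.1:ℂ) * (a₀ - a₁) * (1 - p.2 ^ 2),
      (q₁ + (p.1:ℂ) * (q₀ - q₁) * (1 - p.2 ^ 2), -(t:ℂ) + (ρ:ℂ) * p.2)) : V3))
        (Icc (0:ℝ) 1 ×ˢ closedBall (0:ℂ) 1) := by fun_prop
    exact hPsi.comp this (fun p hp => hneg _ (by simpa using hp.2))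
  · intro s hs
    apply DifferentiableOn.prodMk
    · fun_prop
    · have hd : DifferentiableOn ℂ (fun σ : ℂ => ((q₁ + (s:ℂ) * (q₀ - q₁) * (1 - σ ^ 2),
        -(t:ℂ) + (ρ:ℂ) * σ) : V2)) (ball (0:ℂ) 1) := by fun_prop
      exact hΘ'.comp hd (fun σ hσ => hneg _ (by
        have : ‖σ‖ < 1 := by simpa using hσ
        exact this.le))
  · intro σ hσ
    have hσ' : ‖σ‖ ≤ 1 := by simpa using hσ
    have e1 : a₁ + ((0:ℝ):ℂ) * (a₀ - a₁) * (1 - σ ^ 2) = a₁ := by push_cast; ring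
    have e2 : q₁ + ((0:ℝ):ℂ) * (q₀ - q₁) * (1 - σ ^ 2) = q₁ := by push_cast; ring
    simp only [e1, e2]
    exact hclose σ hσ'
  · intro s hs σ hσ
    have hσ' : ‖σ‖ = 1 := by simpa using hσ
    by_cases him : σ.im = 0
    · have hsq : σ ^ 2 = 1 := by
        have h1 : σ.re ^ 2 = 1 := by
          have := Complex.sq_norm σ
          rw [hσ', Complex.normSq_apply, him] at this
          nlinarith
        have h2 : σ = (σ.re : ℂ) := by
          apply Complex.ext <;> simp [him]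
        rw [h2, ← Complex.ofReal_pow, h1, Complex.ofReal_one]
      have e1 : a₁ + (s:ℂ) * (a₀ - a₁) * (1 - σ ^ 2) = a₁ := by rw [hsq]; ring
      have e2 : q₁ + (s:ℂ) * (q₀ - q₁) * (1 - σ ^ 2) = q₁ := by rw [hsq]; ring
      simp only [e1, e2]
      exact hclose σ hσ'.le
    · apply hslit
      rw [Complex.mem_slitPlane_iff]
      right
      simp only [Complex.add_im, Complex.neg_im, Complex.ofReal_im, neg_zero, zero_add,
        Complex.mul_im, Complex.ofReal_re, zero_mul, add_zero]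
      exact mul_ne_zero hρ0.ne' him

end FBH
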