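import Pool.Agent.FBH.Defs
import Pool.Agent.FBH.Kai
import Pool.Agent.FBH.SlitT
import Pool.Agent.FBH.PlaneT

/-!
SlitMain. If `E ≠ ∅` has the continuity principle and avoids all `(a, Θ'(q, ka s))`, `‖s‖ < 1`, and `Θ` is wild, then
`{w = 0} ⊆ E`.
Proof. If `E ⊆ {w = 0}` use plane_transl. Otherwise there is `(a₀, y) ∈ E` with `y.2 ≠ 0`; put `(q₀,u₀) = Θ y`,
`u₀ ≠ 0`, `Θ' (q₀,u₀) = y`. `u₀` is not in the slit plane (otherwise `u₀ = ka (kai u₀)` contradicts `hdis`), so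
`u₀ = -t` with `t > 0`. By slit_transl, `(a, Θ'(q,-t)) ∈ E` for all `a, q`. Given `h = (a,(z,0))`: by wildness
`(z,0)` is in the closure of `{x | x.2 ≠ 0 ∧ (Θ x).2 = -t}`; each such `x` is `Θ'((Θ x).1, -t)`, so `(a, x) ∈ E`;
as `E` is closed, `h ∈ E`.
-/

set_option autoImplicit false

open Metric Set Filter Topology

namespace FBH

theorem slit_main (Θ Θ' : V2 → V2) (hΘ : LAut Θ Θ') (hW : Wild Θ) (E : Set V3) (hE : CP E)
    (hdis : ∀ a q s : ℂ, ‖s‖ < 1 → ((a, xk Θ' (q, s)) : V3) ∉ E) (hne : E.Nonempty) (h : V3)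
    (hh : h.2.2 = 0) : h ∈ E := by
  by_cases hsub : ∀ x ∈ E, x.2.2 = 0
  · obtain ⟨x₀, hx₀⟩ := hne
    exact plane_transl E hE hsub x₀ h hx₀ hh
  · push Not at hsub
    obtain ⟨⟨a₀, y⟩, hyE, hy⟩ := hsub
    have hy' : y.2 ≠ 0 := hy
    have hu₀ : (Θ y).2 ≠ 0 := hΘ.mapsX y hy'
    have hback : Θ' (Θ y) = y := hΘ.left y hy'
    have hslit : (Θ y).2 ∉ Complex.slitPlane := by
      intro hs
      apply hdis a₀ (Θ y).1 (kai (Θ y).2) (kai_norm hs)
      have h1 : xk Θ' ((Θ y).1, kai (Θ y).2) = y := by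
        show Θ' ((Θ y).1, ka (kai (Θ y).2)) = y
        rw [ka_kai hs]
        exact hback
      rw [h1]
      exact hyE
    rw [Complex.mem_slitPlane_iff] at hslit
    push Not at hslit
    obtain ⟨hre, him⟩ := hslit
    obtain ⟨t, ht⟩ : ∃ t : ℝ, t = -(Θ y).2.re := ⟨_, rfl⟩
    have hut : (Θ y).2 = -(t : ℂ) := by
      apply Complex.ext
      · simp [ht]
      · simp [him]
    have htpos : 0 < t := by
      rcases lt_or_eq_of_le hre with h1 | h1
      · rw [ht]; linarith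
      · exfalso
        apply hu₀
        apply Complex.ext
        · simpa using h1
        · simpa using him
    have hst : ∀ a q : ℂ, ((a, Θ' (q, -(t:ℂ))) : V3) ∈ E := by
      intro a q
      apply slit_transl Θ' hΘ.diff' E hE hdis t htpos a₀ (Θ y).1 a q
      rw [← hut]
      have h1 : Θ' ((Θ y).1, (Θ y).2) = y := hback
      rw [h1]
      exact hyE
    obtain ⟨a, z, w⟩ := h
    have hw : w = 0 := hh
    subst hw
    have hcl := hW t htpos z
    have hmaps : MapsTo (fun x : V2 => ((a, x) : V3)) {x : V2 | x.2 ≠ 0 ∧ (Θ x).2 = -(t : ℂ)} E := by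
      rintro x ⟨hx0, hx1⟩
      have h2 : Θ' ((Θ x).1, (Θ x).2) = x := hΘ.left x hx0
      rw [hx1] at h2
      have h3 := hst a (Θ x).1
      rw [h2] at h3
      exact h3
    have hcont : Continuous (fun x : V2 => ((a, x) : V3)) := by fun_prop
    have hmem := map_mem_closure hcont hcl hmaps
    rwa [hE.1.closure_eq] at hmem

end FBH
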