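import Pool.Agent.FBH.Defs
import Pool.Agent.FBH.Kai
import Pool.Agent.FBH.CPPre
import Pool.Agent.FBH.CPLim
import Pool.Agent.FBH.SlitMain
import Pool.Agent.FBH.FatOpen

/-!
Fat. Fatness. Proof by contradiction and compactness. If for every `m` there is a bad `E m` (with `CP (E m)`,
avoiding the polydisc image `P_m`, meeting `closedBall 0 n` in a point `x m`, and a point `h m ∈ closedBall 0 n` with
`(Φ (h m)).2.2 = 0` and `dist (h m) e ≥ 1/n` for all `e ∈ E m`), let `U` be a free ultrafilter on `ℕ`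
(`Filter.hyperfilter ℕ`), `x = lim_U x m`, `h = lim_U h m` (compactness of `closedBall 0 n`, finite dimension), and
`E∞ = limSet U E`, `CP E∞` by cp_limSet. Then `x ∈ E∞`; `h ∉ E∞` (`U`-eventually `dist (h m) h < 1/(2n)`, so
`E m ∩ ball h (1/(2n)) = ∅`); `(Φ h).2.2 = 0` by continuity. Let `E' = Φ' ⁻¹' E∞` (in the coordinates of `Φ`;
`CP E'` by cp_preimage). `E'` avoids all `(a, xk Θ' (q,s))`, `‖s‖ < 1`: the map
`F(a,q,s) = Φ'(a, xk Θ'(q,s))` is open at such points (fat_open); so a neighbourhood `N` of `F(p)` consists of points `F(p')` with `p'` close to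
`p`, inside the polydisc of radii `m, m, 1-1/(m+1)` for all large `m`; thus `E m ∩ N = ∅` for all large `m`, and
`F(p) ∉ E∞`. `E'` is nonempty (contains `Φ x`). By slit_main, `Φ h ∈ E'`, i.e. `h = Φ' (Φ h) ∈ E∞`. Contradiction.
-/

set_option autoImplicit false

open Metric Set Filter Topology

namespace FBH

theorem fatness (Θ Θ' : V2 → V2) (hΘ : LAut Θ Θ') (hW : Wild Θ) (Φ Φ' : V3 → V3)
    (hΦ : Differentiable ℂ Φ) (hΦ' : Differentiable ℂ Φ') (hl : ∀ x, Φ' (Φ x) = x)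
    (hr : ∀ x, Φ (Φ' x) = x) (n : ℕ) (hn : 0 < n) :
    ∃ m : ℕ, ∀ E : Set V3, CP E →
      (∀ a q s : ℂ, ‖a‖ ≤ m → ‖q‖ ≤ m → ‖s‖ ≤ 1 - 1 / ((m:ℝ) + 1) → Φ' (a, xk Θ' (q, s)) ∉ E) →
      (E ∩ closedBall (0:V3) n).Nonempty →
      ∀ h ∈ closedBall (0:V3) n, (Φ h).2.2 = 0 → ∃ e ∈ E, dist h e < 1 / (n:ℝ) := by
  by_contra hcon
  push Not at hcon
  choose E hE hav hne h hh hh0 hdist using hcon
  choose x hx using hne
  have hnpos : (0:ℝ) < n := by exact_mod_cast hn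
  obtain ⟨U, hU⟩ : ∃ U : Ultrafilter ℕ, (U : Filter ℕ) ≤ atTop :=
    ⟨Filter.hyperfilter ℕ, Nat.hyperfilter_le_atTop⟩
  have hcomp : IsCompact (closedBall (0:V3) (n:ℝ)) := isCompact_closedBall _ _
  have hlim : ∀ y : ℕ → V3, (∀ m, y m ∈ closedBall (0:V3) (n:ℝ)) →
      ∃ y0 : V3, Tendsto y (U : Filter ℕ) (𝓝 y0) := by
    intro y hy
    have hle : ((U.map y : Ultrafilter V3) : Filter V3) ≤ 𝓟 (closedBall (0:V3) (n:ℝ)) := by
      rw [Filter.le_principal_iff]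
      show y ⁻¹' (closedBall (0:V3) (n:ℝ)) ∈ (U : Filter ℕ)
      exact Filter.univ_mem' hy
    obtain ⟨y0, -, hy0⟩ := hcomp.ultrafilter_le_nhds (U.map y) hle
    exact ⟨y0, hy0⟩
  obtain ⟨x0, hx0⟩ := hlim x (fun m => (hx m).2)
  obtain ⟨h0, hh0l⟩ := hlim h hh
  have hCP : CP (limSet U E) := cp_limSet U E hE
  have hxE : x0 ∈ limSet U E := by
    intro N hN
    filter_upwards [hx0 hN] with m hm
    exact ⟨x m, (hx m).1, hm⟩
  have hhE : h0 ∉ limSet U E := by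
    intro hmem
    have hb : ball h0 (1 / (2 * (n:ℝ))) ∈ 𝓝 h0 := ball_mem_nhds _ (by positivity)
    obtain ⟨m, ⟨e, heE, heb⟩, hm2⟩ := ((hmem _ hb).and (hh0l hb)).exists
    have h1 := hdist m e heE
    have h2 : dist (h m) h0 < 1 / (2 * (n:ℝ)) := hm2
    have h3 : dist e h0 < 1 / (2 * (n:ℝ)) := heb
    have h4 : dist (h m) e ≤ dist (h m) h0 + dist e h0 := dist_triangle_right _ _ _
    have h5 : 1 / (2 * (n:ℝ)) + 1 / (2 * (n:ℝ)) = 1 / (n:ℝ) := by field_simp; norm_num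
    linarith
  have hΦ0 : (Φ h0).2.2 = 0 := by
    have hc : Continuous (fun y : V3 => (Φ y).2.2) :=
      continuous_snd.comp (continuous_snd.comp hΦ.continuous)
    have h1 : Tendsto (fun m => (Φ (h m)).2.2) (U : Filter ℕ) (𝓝 (Φ h0).2.2) :=
      (hc.tendsto h0).comp hh0l
    have h2 : (fun m => (Φ (h m)).2.2) = fun _ => (0:ℂ) := funext hh0
    rw [h2] at h1
    exact tendsto_nhds_unique h1 tendsto_const_nhds
  have hCP' : CP (Φ' ⁻¹' limSet U E) := cp_preimage Φ' hΦ' hCP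
  have hdis : ∀ a q s : ℂ, ‖s‖ < 1 → ((a, xk Θ' (q, s)) : V3) ∉ Φ' ⁻¹' limSet U E := by
    intro a q s hs hmem
    have hmem' : Φ' (a, xk Θ' (q, s)) ∈ limSet U E := hmem
    have hδ : 0 < (1 - ‖s‖) / 2 := by linarith
    obtain ⟨N, hN, hNy⟩ := fat_open Θ Θ' hΘ Φ Φ' hΦ hΦ' hl hr a (q, s) hs ((1 - ‖s‖) / 2) hδ
    have e1 : ∀ᶠ m : ℕ in (U : Filter ℕ), ‖a‖ + 1 ≤ (m:ℝ) :=
      hU (tendsto_natCast_atTop_atTop.eventually (eventually_ge_atTop (‖a‖ + 1)))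
    have e2 : ∀ᶠ m : ℕ in (U : Filter ℕ), ‖q‖ + 1 ≤ (m:ℝ) :=
      hU (tendsto_natCast_atTop_atTop.eventually (eventually_ge_atTop (‖q‖ + 1)))
    have e3 : ∀ᶠ m : ℕ in (U : Filter ℕ), 1 / ((m:ℝ) + 1) < (1 - ‖s‖) / 2 :=
      hU (tendsto_one_div_add_atTop_nhds_zero_nat.eventually (gt_mem_nhds hδ))
    obtain ⟨m, ⟨⟨⟨y, hyE, hyN⟩, m1⟩, m2⟩, m3⟩ := ((((hmem' N hN).and e1).and e2).and e3).exists
    obtain ⟨a', p', ha', hp', -, hy⟩ := hNy y hyN
    have hδ1 : (1 - ‖s‖) / 2 ≤ 1 := by have := norm_nonneg s; linarith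
    have hp1 : ‖p'.1 - q‖ ≤ ‖p' - (q, s)‖ := by
      have := norm_fst_le (p' - (q, s))
      simpa using this
    have hp2 : ‖p'.2 - s‖ ≤ ‖p' - (q, s)‖ := by
      have := norm_snd_le (p' - (q, s))
      simpa using this
    have b1 : ‖a'‖ ≤ m := by
      have : ‖a'‖ ≤ ‖a' - a‖ + ‖a‖ := by
        have := norm_add_le (a' - a) a
        simpa using this
      linarith
    have b2 : ‖p'.1‖ ≤ m := by
      have : ‖p'.1‖ ≤ ‖p'.1 - q‖ + ‖q‖ := by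
        have := norm_add_le (p'.1 - q) q
        simpa using this
      linarith
    have b3 : ‖p'.2‖ ≤ 1 - 1 / ((m:ℝ) + 1) := by
      have : ‖p'.2‖ ≤ ‖p'.2 - s‖ + ‖s‖ := by
        have := norm_add_le (p'.2 - s) s
        simpa using this
      linarith
    exact hav m a' p'.1 p'.2 b1 b2 b3 (by rw [hy] at hyE; exact hyE)
  have hne' : (Φ' ⁻¹' limSet U E).Nonempty := ⟨Φ x0, by
    show Φ' (Φ x0) ∈ limSet U E
    rw [hl]; exact hxE⟩
  have hfin := slit_main Θ Θ' hΘ hW (Φ' ⁻¹' limSet U E) hCP' hdis hne' (Φ h0) hΦ0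
  apply hhE
  have : Φ' (Φ h0) ∈ limSet U E := hfin
  rwa [hl] at this

end FBH
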