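import Pool.Agent.FBH.Defs

/-!
HullCP. The complement of a holomorphically convex open set satisfies the continuity principle.
Proof. `Dᶜ` is closed. Given the family `φ`, put `K = φ([0,1] × circle)`, compact, contained in `D`; let `K̂` be
its hull (compact by `h`, hence closed, `K̂ ⊆ D`). Maximum principle: if `φ_s(closed disc) ⊆ D`, then for `f`
holomorphic on `D` with `‖f‖ ≤ c` on `K`, `f ∘ φ_s` is continuous on the closed disc, holomorphic inside and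
bounded by `c` on the circle, so `‖f (φ_s σ)‖ ≤ c` (Complex.norm_le_of_forall_mem_frontier_norm_le); hence
`φ_s(closed disc) ⊆ K̂`. Let `T = {s ∈ [0,1] | φ_s(closed disc) ⊆ K̂}`. `0 ∈ T`; `T` is closed in `[0,1]`
(`K̂` closed, `s ↦ φ s σ` continuous); `T` is open in `[0,1]`: if `s ∈ T` then by compactness of the disc
(tube lemma, generalized_tube_lemma) `φ_{s'}(closed disc) ⊆ D` for `s'` near `s` in `[0,1]`, hence `⊆ K̂`.
By connectedness of `[0,1]`, `1 ∈ T`.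
-/

set_option autoImplicit false

open Metric Set Filter Topology

namespace FBH

theorem cp_of_hull {V : Type*} [NormedAddCommGroup V] [NormedSpace ℂ V] (D : Set V) (hD : IsOpen D)
    (h : ∀ K : Set V, IsCompact K → K ⊆ D →
      IsCompact {z | z ∈ D ∧ ∀ f : V → ℂ, DifferentiableOn ℂ f D →
        ∀ c : ℝ, (∀ w ∈ K, ‖f w‖ ≤ c) → ‖f z‖ ≤ c}) : CP Dᶜ := by
  refine ⟨hD.isClosed_compl, ?_⟩
  intro φ hc hd h0 hs
  have hcB : IsCompact (Icc (0:ℝ) 1 ×ˢ closedBall (0:ℂ) 1) :=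
    isCompact_Icc.prod (isCompact_closedBall _ _)
  set K : Set V := (fun p : ℝ × ℂ => φ p.1 p.2) '' (Icc (0:ℝ) 1 ×ˢ sphere (0:ℂ) 1) with hK
  have hKc : IsCompact K := by
    apply IsCompact.image_of_continuousOn (isCompact_Icc.prod (isCompact_sphere _ _))
    exact hc.mono (Set.prod_mono le_rfl sphere_subset_closedBall)
  have hKD : K ⊆ D := by
    rintro _ ⟨⟨s, σ⟩, ⟨hs1, hσ1⟩, rfl⟩
    by_contra hcon
    exact hs s hs1 σ hσ1 hcon
  set H : Set V := {z | z ∈ D ∧ ∀ f : V → ℂ, DifferentiableOn ℂ f D →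
        ∀ c : ℝ, (∀ w ∈ K, ‖f w‖ ≤ c) → ‖f z‖ ≤ c} with hH
  have hHc : IsCompact H := h K hKc hKD
  have hHD : H ⊆ D := fun z hz => hz.1
  have maxp : ∀ s ∈ Icc (0:ℝ) 1, (∀ σ ∈ closedBall (0:ℂ) 1, φ s σ ∈ D) →
      ∀ σ ∈ closedBall (0:ℂ) 1, φ s σ ∈ H := by
    intro s hs1 hsD σ hσ
    refine ⟨hsD σ hσ, ?_⟩
    intro f hf c hfc
    have hcont : ContinuousOn (φ s) (closedBall (0:ℂ) 1) := by
      have h1 : ContinuousOn (fun σ : ℂ => ((s, σ) : ℝ × ℂ)) (closedBall (0:ℂ) 1) :=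
        (by fun_prop)
      exact hc.comp h1 (fun σ hσ => ⟨hs1, hσ⟩)
    have hdc : DiffContOnCl ℂ (fun σ => f (φ s σ)) (ball (0:ℂ) 1) := by
      refine ⟨?_, ?_⟩
      · exact hf.comp (hd s hs1) (fun σ hσ => hsD σ (ball_subset_closedBall hσ))
      · rw [closure_ball (0:ℂ) one_ne_zero]
        exact hf.continuousOn.comp hcont (fun σ hσ => hsD σ hσ)
    refine Complex.norm_le_of_forall_mem_frontier_norm_le (isBounded_ball) hdc ?_ ?_
    · intro z hz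
      rw [frontier_ball (0:ℂ) one_ne_zero] at hz
      exact hfc _ ⟨(s, z), ⟨hs1, hz⟩, rfl⟩
    · rw [closure_ball (0:ℂ) one_ne_zero]
      exact hσ
  have key : Icc (0:ℝ) 1 ⊆ {s | ∀ σ ∈ closedBall (0:ℂ) 1, φ s σ ∈ H} := by
    refine IsClosed.Icc_subset_of_forall_mem_nhdsWithin ?_ ?_ ?_
    · have e : {s | ∀ σ ∈ closedBall (0:ℂ) 1, φ s σ ∈ H} ∩ Icc (0:ℝ) 1 =
          ⋂ σ ∈ closedBall (0:ℂ) 1, (Icc (0:ℝ) 1 ∩ (fun s => φ s σ) ⁻¹' H) := by
        ext s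
        simp only [mem_inter_iff, mem_setOf_eq, mem_iInter, mem_preimage]
        constructor
        · rintro ⟨h1, h2⟩ σ hσ
          exact ⟨h2, h1 σ hσ⟩
        · intro h1
          exact ⟨fun σ hσ => (h1 σ hσ).2, (h1 0 (by simp)).1⟩
      rw [e]
      refine isClosed_biInter (fun σ hσ => ?_)
      have h1 : ContinuousOn (fun s : ℝ => φ s σ) (Icc (0:ℝ) 1) := by
        have h2 : ContinuousOn (fun s : ℝ => ((s, σ) : ℝ × ℂ)) (Icc (0:ℝ) 1) := (by fun_prop)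
        exact hc.comp h2 (fun s hs1 => ⟨hs1, hσ⟩)
      exact h1.preimage_isClosed_of_isClosed isClosed_Icc hHc.isClosed
    · exact maxp 0 (by simp) (fun σ hσ => by
        by_contra hcon
        exact h0 σ hσ hcon)
    · rintro x ⟨hx, hx1⟩
      set Bad : Set (ℝ × ℂ) := (Icc (0:ℝ) 1 ×ˢ closedBall (0:ℂ) 1) ∩
        (fun p : ℝ × ℂ => φ p.1 p.2) ⁻¹' Dᶜ with hBad
      have hBc : IsCompact Bad := hcB.of_isClosed_subset
        (hc.preimage_isClosed_of_isClosed hcB.isClosed hD.isClosed_compl) inter_subset_left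
      have hPc : IsClosed (Prod.fst '' Bad) := (hBc.image continuous_fst).isClosed
      have hxP : x ∉ Prod.fst '' Bad := by
        rintro ⟨⟨s, σ⟩, ⟨⟨h1, h2⟩, h3⟩, rfl⟩
        exact h3 (hHD (hx σ h2))
      have hn : (Prod.fst '' Bad)ᶜ ∈ 𝓝[>] x := mem_nhdsWithin_of_mem_nhds (hPc.isOpen_compl.mem_nhds hxP)
      have hn2 : Ioo x 1 ∈ 𝓝[>] x := Ioo_mem_nhdsGT hx1.2
      filter_upwards [hn, hn2] with s hs1 hs2
      have hsI : s ∈ Icc (0:ℝ) 1 := ⟨hx1.1.trans hs2.1.le, hs2.2.le⟩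
      refine maxp s hsI (fun σ hσ => ?_)
      by_contra hcon
      exact hs1 ⟨(s, σ), ⟨⟨hsI, hσ⟩, hcon⟩, rfl⟩
  intro σ hσ hcon
  exact hcon (hHD (key (by simp) σ hσ))

end FBH
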