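import Pool.Agent.FBH.Defs
import Pool.Agent.FBH.ScSmooth

/-!
ScInv. Injective entire map with injective derivative: open map with holomorphic inverse.
Proof. `fderiv ℂ f x` injective on a finite dimensional space, so it is a `ContinuousLinearEquiv`
(LinearEquiv.ofInjectiveEndo, then toContinuousLinearEquiv). By sc_strict and the inverse function theorem
(HasStrictFDerivAt.to_localInverse, HasStrictFDerivAt.map_nhds_eq_of_equiv) `f` is open and the inverse function
`g = Function.invFun f` coincides near `f x` with the local inverse (injectivity), so it is differentiable at `f x`.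
-/

set_option autoImplicit false

open Metric Set Filter Topology

namespace FBH

theorem sc_inv {E : Type*} [NormedAddCommGroup E] [NormedSpace ℂ E] [FiniteDimensional ℂ E]
    (f : E → E) (hf : Differentiable ℂ f) (hinj : Function.Injective f)
    (himm : ∀ x, Function.Injective (fderiv ℂ f x)) :
    IsOpenMap f ∧ ∃ g : E → E, DifferentiableOn ℂ g (range f) ∧ ∀ x, g (f x) = x := by
  have : CompleteSpace E := FiniteDimensional.complete ℂ E
  have key : ∀ x, ∃ e : E ≃L[ℂ] E, HasStrictFDerivAt f (e : E →L[ℂ] E) x := by
    intro x
    let e : E ≃L[ℂ] E :=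
      (LinearEquiv.ofInjectiveEndo (fderiv ℂ f x : E →ₗ[ℂ] E) (himm x)).toContinuousLinearEquiv
    refine ⟨e, ?_⟩
    have he : (e : E →L[ℂ] E) = fderiv ℂ f x := by
      ext v
      rfl
    rw [he]
    exact sc_strict f univ isOpen_univ hf.differentiableOn x (mem_univ x)
  have hg : ∀ x, Function.invFun f (f x) = x := Function.leftInverse_invFun hinj
  refine ⟨?_, Function.invFun f, ?_, hg⟩
  · rw [isOpenMap_iff_nhds_le]
    intro x
    obtain ⟨e, he⟩ := key x
    exact he.map_nhds_eq_of_equiv.ge
  · rintro y ⟨x, rfl⟩
    obtain ⟨e, he⟩ := key x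
    exact (he.to_local_left_inverse (Eventually.of_forall hg)).hasFDerivAt.differentiableAt.differentiableWithinAt

end FBH
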