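import Pool.Agent.FBH.Defs
import Pool.Agent.FBH.Kai
import Pool.Agent.FBH.ScSmooth

/-!
XkBasic. Basic facts on the chart `xk Θ' (q,s) = Θ'(q, ka s)` on `‖s‖ < 1` and the coordinates `cd (q,u) = (q, kai u)`.
All immediate from the properties of `ka`, `kai` and `LAut`: `ka s ≠ 0` as it is in the slit plane.
`xk_imm`: on `{‖s‖ < 1}` we have `cd (Θ (xk Θ' p)) = p`; all maps are differentiable at the relevant points, so the chain
rule gives a left inverse of the derivative.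
-/

set_option autoImplicit false

open Metric Set Filter Topology

namespace FBH

theorem xk_X {Θ Θ' : V2 → V2} (hΘ : LAut Θ Θ') {p : V2} (hp : ‖p.2‖ < 1) : (xk Θ' p).2 ≠ 0 :=
  hΘ.mapsX' (p.1, ka p.2) (Complex.slitPlane_ne_zero (ka_mem hp))

private theorem xkBasic_open : IsOpen {p : V2 | ‖p.2‖ < 1} :=
  isOpen_lt (continuous_norm.comp continuous_snd) continuous_const

private theorem xkBasic_inner : DifferentiableOn ℂ (fun p : V2 => ((p.1, ka p.2) : V2)) {p : V2 | ‖p.2‖ < 1} := by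
  apply DifferentiableOn.prodMk
  · exact differentiable_fst.differentiableOn
  · exact ka_diff.comp differentiable_snd.differentiableOn (fun p hp => by simpa using hp)

theorem xk_diff {Θ Θ' : V2 → V2} (hΘ : LAut Θ Θ') : DifferentiableOn ℂ (xk Θ') {p : V2 | ‖p.2‖ < 1} :=
  hΘ.diff'.comp xkBasic_inner (fun p hp => Complex.slitPlane_ne_zero (ka_mem hp))

private theorem xkBasic_right {Θ Θ' : V2 → V2} (hΘ : LAut Θ Θ') {p : V2} (hp : ‖p.2‖ < 1) :
    Θ (xk Θ' p) = (p.1, ka p.2) :=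
  hΘ.right (p.1, ka p.2) (Complex.slitPlane_ne_zero (ka_mem hp))

theorem xk_slit {Θ Θ' : V2 → V2} (hΘ : LAut Θ Θ') {p : V2} (hp : ‖p.2‖ < 1) :
    (Θ (xk Θ' p)).2 ∈ Complex.slitPlane := by
  rw [xkBasic_right hΘ hp]
  exact ka_mem hp

theorem cd_xk {Θ Θ' : V2 → V2} (hΘ : LAut Θ Θ') {p : V2} (hp : ‖p.2‖ < 1) : cd (Θ (xk Θ' p)) = p := by
  rw [xkBasic_right hΘ hp]
  show ((p.1, kai (ka p.2)) : V2) = p
  rw [kai_ka hp]

theorem xk_cd {Θ Θ' : V2 → V2} (hΘ : LAut Θ Θ') {y : V2} (hy : y.2 ≠ 0)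
    (hs : (Θ y).2 ∈ Complex.slitPlane) : xk Θ' (cd (Θ y)) = y := by
  show Θ' ((Θ y).1, ka (kai (Θ y).2)) = y
  rw [ka_kai hs]
  exact hΘ.left y hy

theorem xk_imm {Θ Θ' : V2 → V2} (hΘ : LAut Θ Θ') {p : V2} (hp : ‖p.2‖ < 1) :
    Function.Injective (fderiv ℂ (xk Θ') p) := by
  have hx : DifferentiableAt ℂ (xk Θ') p := (xk_diff hΘ).differentiableAt (xkBasic_open.mem_nhds hp)
  have hXopen : IsOpen XS := isOpen_ne_fun continuous_snd continuous_const
  have hT : DifferentiableAt ℂ Θ (xk Θ' p) := hΘ.diff.differentiableAt (hXopen.mem_nhds (xk_X hΘ hp))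
  have hk : DifferentiableAt ℂ kai (Θ (xk Θ' p)).2 :=
    kai_diff.differentiableAt (Complex.isOpen_slitPlane.mem_nhds (xk_slit hΘ hp))
  have hcd : DifferentiableAt ℂ cd (Θ (xk Θ' p)) := by
    have h2 : DifferentiableAt ℂ (fun y : V2 => kai y.2) (Θ (xk Θ' p)) :=
      DifferentiableAt.comp (Θ (xk Θ' p)) hk differentiableAt_snd
    exact differentiableAt_fst.prodMk h2
  have hcomp : (fun q : V2 => cd (Θ (xk Θ' q))) =ᶠ[𝓝 p] id := by
    filter_upwards [xkBasic_open.mem_nhds hp] with q hq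
    exact cd_xk hΘ hq
  have h1 : HasFDerivAt (fun q : V2 => cd (Θ (xk Θ' q)))
      ((fderiv ℂ cd (Θ (xk Θ' p))).comp ((fderiv ℂ Θ (xk Θ' p)).comp (fderiv ℂ (xk Θ') p))) p := by
    have := hcd.hasFDerivAt.comp p (hT.hasFDerivAt.comp p hx.hasFDerivAt)
    exact this
  have h2 : HasFDerivAt (fun q : V2 => cd (Θ (xk Θ' q))) (ContinuousLinearMap.id ℂ V2) p :=
    (hasFDerivAt_id p).congr_of_eventuallyEq hcomp
  have h3 := h1.unique h2
  intro a b hab
  have ha := congrArg (fun L : V2 →L[ℂ] V2 => L a) h3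
  have hb := congrArg (fun L : V2 →L[ℂ] V2 => L b) h3
  simp only [ContinuousLinearMap.comp_apply, ContinuousLinearMap.id_apply] at ha hb
  rw [← ha, ← hb, hab]

end FBH
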