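import Pool.Agent.FBH.Defs
import Pool.Agent.FBH.XkBasic
import Pool.Agent.FBH.Kai

/-!
StageF. Basic facts on the map `S.F` of a stage, on the open set `{x | ‖(S.A x).2.2‖ < 1}`.
`stageF_left`: the left inverse is `y ↦ S.A' ((S.Φ y).1, cd (S.Θ (S.Φ y).2))` (cd_xk). Injectivity follows; `stageF_imm` by the chain rule
(the left inverse is differentiable at `S.F x`: `(S.Φ (S.F x)).2 = xk S.Θ' (S.A x).2 ∈ X`, slit plane by xk_slit).
`stageF_ne`: `(S.Φ (S.F x)).2.2 = (xk S.Θ' (S.A x).2).2 ≠ 0 = (S.Φ 0).2.2`.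
`stage_dense`: the set of `(a, y)` with `y.2 ≠ 0` and `(S.Θ y).2` in the slit plane is dense: `{y.2 ≠ 0}` is dense and open, `S.Θ` is a
homeomorphism of `X`, and `{u | u ∈ slitPlane}` is dense in `ℂ`; `S.Φ` is a homeomorphism of `V3`. Every such point is
`(a, xk S.Θ' (cd (S.Θ y)))` (xk_cd).
-/

set_option autoImplicit false

open Metric Set Filter Topology

namespace FBH

private theorem stageF_open' {S : Stage} (hS : S.OK) : IsOpen {x : V3 | ‖(S.A x).2.2‖ < 1} := by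
  have h : Continuous (fun x : V3 => ‖(S.A x).2.2‖) :=
    (continuous_snd.comp (continuous_snd.comp hS.dA.continuous)).norm
  exact isOpen_lt h continuous_const

private theorem stageF_X_open : IsOpen XS := by
  have h : XS = {x : V2 | x.2 ≠ 0} := rfl
  rw [h]
  exact isOpen_ne_fun continuous_snd continuous_const

/-- the left inverse -/
private noncomputable def stageF_k (S : Stage) (y : V3) : V3 :=
  S.A' ((S.Φ y).1, cd (S.Θ (S.Φ y).2))

private theorem stageF_k_left {S : Stage} (hS : S.OK) {x : V3} (hx : ‖(S.A x).2.2‖ < 1) :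
    stageF_k S (S.F x) = x := by
  unfold stageF_k Stage.F
  rw [hS.rΦ]
  simp only
  rw [cd_xk hS.laut hx]
  exact hS.lA x

theorem stageF_diff {S : Stage} (hS : S.OK) : DifferentiableOn ℂ S.F {x | ‖(S.A x).2.2‖ < 1} := by
  intro x hx
  have h1 : DifferentiableAt ℂ (fun x : V3 => (S.A x).1) x := (hS.dA x).fst
  have h2 : DifferentiableAt ℂ (fun x : V3 => (S.A x).2) x := (hS.dA x).snd
  have hopen : IsOpen {p : V2 | ‖p.2‖ < 1} := isOpen_lt continuous_snd.norm continuous_const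
  have h3 : DifferentiableAt ℂ (xk S.Θ') (S.A x).2 :=
    (xk_diff hS.laut).differentiableAt (hopen.mem_nhds hx)
  have h4 : DifferentiableAt ℂ (fun x : V3 => xk S.Θ' (S.A x).2) x :=
    DifferentiableAt.comp (g := xk S.Θ') (f := fun x : V3 => (S.A x).2) x h3 h2
  have h5 : DifferentiableAt ℂ (fun x : V3 => ((S.A x).1, xk S.Θ' (S.A x).2)) x := h1.prodMk h4
  exact ((hS.dΦ' _).comp x h5).differentiableWithinAt

theorem stageF_open {S : Stage} (hS : S.OK) : IsOpen {x : V3 | ‖(S.A x).2.2‖ < 1} :=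
  stageF_open' hS

theorem stageF_inj {S : Stage} (hS : S.OK) : InjOn S.F {x | ‖(S.A x).2.2‖ < 1} := by
  intro x hx y hy hxy
  rw [← stageF_k_left hS hx, ← stageF_k_left hS hy, hxy]

private theorem stageF_k_diff {S : Stage} (hS : S.OK) {x : V3} (hx : ‖(S.A x).2.2‖ < 1) :
    DifferentiableAt ℂ (stageF_k S) (S.F x) := by
  have hΦF : S.Φ (S.F x) = ((S.A x).1, xk S.Θ' (S.A x).2) := by
    unfold Stage.F
    rw [hS.rΦ]
  have h1 : DifferentiableAt ℂ (fun y : V3 => (S.Φ y).1) (S.F x) := (hS.dΦ _).fst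
  have h2 : DifferentiableAt ℂ (fun y : V3 => (S.Φ y).2) (S.F x) := (hS.dΦ _).snd
  have hX : (S.Φ (S.F x)).2.2 ≠ 0 := by
    rw [hΦF]
    exact xk_X hS.laut hx
  have h3 : DifferentiableAt ℂ S.Θ (S.Φ (S.F x)).2 :=
    hS.laut.diff.differentiableAt (stageF_X_open.mem_nhds hX)
  have h4 : DifferentiableAt ℂ (fun y : V3 => S.Θ (S.Φ y).2) (S.F x) :=
    DifferentiableAt.comp (g := S.Θ) (f := fun y : V3 => (S.Φ y).2) (S.F x) h3 h2
  have hs : (S.Θ (S.Φ (S.F x)).2).2 ∈ Complex.slitPlane := by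
    rw [hΦF]
    exact xk_slit hS.laut hx
  have h5 : DifferentiableAt ℂ kai (S.Θ (S.Φ (S.F x)).2).2 :=
    kai_diff.differentiableAt (Complex.isOpen_slitPlane.mem_nhds hs)
  have h6 : DifferentiableAt ℂ (fun y : V3 => kai (S.Θ (S.Φ y).2).2) (S.F x) :=
    DifferentiableAt.comp (g := kai) (f := fun y : V3 => (S.Θ (S.Φ y).2).2) (S.F x) h5 h4.snd
  have h7 : DifferentiableAt ℂ (fun y : V3 => cd (S.Θ (S.Φ y).2)) (S.F x) := h4.fst.prodMk h6
  exact (hS.dA' _).comp _ (h1.prodMk h7)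

theorem stageF_imm {S : Stage} (hS : S.OK) :
    ∀ x ∈ {x : V3 | ‖(S.A x).2.2‖ < 1}, Function.Injective (fderiv ℂ S.F x) := by
  intro x hx
  have hmem := (stageF_open' hS).mem_nhds hx
  have h1 : DifferentiableAt ℂ S.F x := (stageF_diff hS).differentiableAt hmem
  have h2 := stageF_k_diff hS hx
  have h3 : (fun y => stageF_k S (S.F y)) =ᶠ[𝓝 x] (fun y => y) := by
    filter_upwards [hmem] with y hy using stageF_k_left hS hy
  have h4 : HasFDerivAt (fun y => stageF_k S (S.F y))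
      ((fderiv ℂ (stageF_k S) (S.F x)).comp (fderiv ℂ S.F x)) x :=
    h2.hasFDerivAt.comp x h1.hasFDerivAt
  have h5 : HasFDerivAt (fun y : V3 => y)
      ((fderiv ℂ (stageF_k S) (S.F x)).comp (fderiv ℂ S.F x)) x := h4.congr_of_eventuallyEq h3.symm
  have h6 := h5.unique (hasFDerivAt_id x)
  intro v w hvw
  have h7 : ∀ v, (fderiv ℂ (stageF_k S) (S.F x)) ((fderiv ℂ S.F x) v) = v := by
    intro v
    have := congrArg (fun T : V3 →L[ℂ] V3 => T v) h6
    simpa using this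
  rw [← h7 v, ← h7 w, hvw]

theorem stageF_ne {S : Stage} (hS : S.OK) (x : V3) (hx : ‖(S.A x).2.2‖ < 1) : S.F x ≠ 0 := by
  intro h
  have h1 : S.Φ (S.F x) = ((S.A x).1, xk S.Θ' (S.A x).2) := by
    unfold Stage.F
    rw [hS.rΦ]
  rw [h, hS.zero] at h1
  have h2 : (xk S.Θ' (S.A x).2).2 = 0 := by
    have := congrArg (fun y : V3 => y.2.2) h1
    simpa using this.symm
  exact xk_X hS.laut hx h2

private theorem stageF_slit_dense : Dense Complex.slitPlane := by
  rw [Metric.dense_iff]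
  intro u ε hε
  rcases em (u ∈ Complex.slitPlane) with h | h
  · exact ⟨u, mem_ball_self hε, h⟩
  · refine ⟨u + (ε / 2 : ℝ) * Complex.I, ?_, ?_⟩
    · rw [mem_ball, dist_eq_norm]
      simp only [add_sub_cancel_left, norm_mul, Complex.norm_I, mul_one, Complex.norm_real]
      rw [Real.norm_of_nonneg (by linarith)]
      linarith
    · rw [Complex.mem_slitPlane_iff] at h ⊢
      push Not at h
      right
      simp [h.2]
      linarith

theorem stage_dense {S : Stage} (hS : S.OK) :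
    Dense {y : V3 | ∃ (a : ℂ) (p : V2), ‖p.2‖ < 1 ∧ y = S.Φ' (a, xk S.Θ' p)} := by
  rw [Metric.dense_iff]
  intro y₀ ε hε
  -- neighbourhood in the coordinates of Φ
  have hc : ContinuousAt S.Φ' (S.Φ y₀) := hS.dΦ'.continuous.continuousAt
  rw [Metric.continuousAt_iff] at hc
  obtain ⟨δ, hδ, hc⟩ := hc ε hε
  rw [hS.lΦ] at hc
  -- first move the point off w = 0
  obtain ⟨x₁, hx₁X, hx₁⟩ : ∃ x₁ : V2, x₁.2 ≠ 0 ∧ dist x₁ (S.Φ y₀).2 < δ / 2 := by
    rcases em ((S.Φ y₀).2.2 = 0) with h | h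
    · refine ⟨((S.Φ y₀).2.1, ((δ / 4 : ℝ) : ℂ)), ?_, ?_⟩
      · show ((δ / 4 : ℝ) : ℂ) ≠ 0
        exact_mod_cast (by positivity : δ / 4 ≠ 0)
      · rw [Prod.dist_eq, h]
        simp only [dist_self, dist_zero_right, Complex.norm_real]
        rw [Real.norm_of_nonneg (by linarith)]
        exact max_lt (by linarith) (by linarith)
    · exact ⟨(S.Φ y₀).2, h, by rw [dist_self]; linarith⟩
  -- then move in the coordinates of Θ
  have hX' : (S.Θ x₁).2 ≠ 0 := hS.laut.mapsX x₁ hx₁X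
  have hc2 : ContinuousAt S.Θ' (S.Θ x₁) :=
    (hS.laut.diff'.differentiableAt (stageF_X_open.mem_nhds hX')).continuousAt
  rw [Metric.continuousAt_iff] at hc2
  obtain ⟨δ₂, hδ₂, hc2⟩ := hc2 (δ / 2) (by linarith)
  rw [hS.laut.left x₁ hx₁X] at hc2
  obtain ⟨u, hu, hus⟩ := Metric.dense_iff.1 stageF_slit_dense (S.Θ x₁).2 δ₂ hδ₂
  have hu0 : u ≠ 0 := Complex.slitPlane_ne_zero hus
  have h1 : dist (S.Θ' ((S.Θ x₁).1, u)) x₁ < δ / 2 := by
    apply hc2
    rw [Prod.dist_eq]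
    simp only [dist_self]
    exact max_lt hδ₂ hu
  have h2 : dist (S.Θ' ((S.Θ x₁).1, u)) (S.Φ y₀).2 < δ := by
    have := dist_triangle (S.Θ' ((S.Θ x₁).1, u)) x₁ (S.Φ y₀).2
    linarith
  refine ⟨S.Φ' ((S.Φ y₀).1, S.Θ' ((S.Θ x₁).1, u)), ?_, (S.Φ y₀).1, ((S.Θ x₁).1, kai u), kai_norm hus, ?_⟩
  · rw [mem_ball]
    apply hc
    rw [Prod.dist_eq]
    simp only [dist_self]
    exact max_lt hδ h2
  · unfold xk
    simp only
    rw [ka_kai hus]

end FBH
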