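import Pool.Agent.FBH.Defs
import Pool.Agent.FBH.StageF

/-!
RelA. Geometry of the compact set `CS S R ρ = {x | ‖(S.A x).1‖ ≤ R ∧ (S.A x).2 ∈ PD R ρ}` (defined in Defs).
`relA_choose`: `(S.A x).2 = σ x.2` and `σ r < 1`, so `‖(S.A x).2.2‖ ≤ σ r < 1` on `closedBall 0 r`; the continuous functions
`‖(S.A x).1‖`, `‖(S.A x).2.1‖` are bounded on the compact set `closedBall 0 r`, `‖(S.Φ y).1‖` on `closedBall c (2ρ)`.
`relA_compact`: `CS` is the image under `S.A'` of the compact product of closed balls.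
`relA_int`: the set of `x` with strict inequalities is open and contained in `CS`.
`relA_dom`: clear.
-/

set_option autoImplicit false

open Metric Set Filter Topology

namespace FBH

theorem relA_choose {S : Stage} (hS : S.OK) (r : ℝ) (hr : 0 < r) (hσ : S.σ * r < 1) (m : ℕ) (c : V3)
    (ρ : ℝ) : ∃ R ρ' : ℝ, 0 < R ∧ 0 < ρ' ∧ ρ' < 1 ∧ (m:ℝ) < R ∧ 1 - 1 / ((m:ℝ) + 1) < ρ' ∧
      (∀ y ∈ closedBall c (2 * ρ), ‖(S.Φ y).1‖ < R) ∧
      ∀ x ∈ closedBall (0:V3) r, ‖(S.A x).1‖ < R ∧ (S.A x).2 ∈ OD R ρ' := by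
  obtain ⟨M1, hM1⟩ := (isCompact_closedBall c (2 * ρ)).exists_bound_of_continuousOn
    hS.dΦ.continuous.continuousOn
  obtain ⟨M2, hM2⟩ := (isCompact_closedBall (0:V3) r).exists_bound_of_continuousOn
    hS.dA.continuous.continuousOn
  have hm0 : (0:ℝ) ≤ m := Nat.cast_nonneg m
  have hm1 : (0:ℝ) < 1 / ((m:ℝ) + 1) := by positivity
  have hm2 : 1 / ((m:ℝ) + 1) ≤ 1 := by
    rw [div_le_one (by positivity)]; linarith
  have hmx : max (S.σ * r) (1 - 1 / ((m:ℝ) + 1)) < 1 := max_lt hσ (by linarith)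
  have h1 := le_max_left (S.σ * r) (1 - 1 / ((m:ℝ) + 1))
  have h2 := le_max_right (S.σ * r) (1 - 1 / ((m:ℝ) + 1))
  set q := max (S.σ * r) (1 - 1 / ((m:ℝ) + 1))
  have k1 := le_max_left (max M1 M2) (m:ℝ)
  have k2 := le_max_right (max M1 M2) (m:ℝ)
  have k3 := le_max_left M1 M2
  have k4 := le_max_right M1 M2
  refine ⟨max (max M1 M2) m + 1, (1 + q) / 2, by linarith, by linarith, by linarith, by linarith,
    by linarith, ?_, ?_⟩
  · intro y hy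
    have := hM1 y hy
    have h3 : ‖(S.Φ y).1‖ ≤ ‖S.Φ y‖ := norm_fst_le _
    linarith
  · intro x hx
    have := hM2 x hx
    have h3 : ‖(S.A x).1‖ ≤ ‖S.A x‖ := norm_fst_le _
    have h4 : ‖(S.A x).2‖ ≤ ‖S.A x‖ := norm_snd_le _
    have h5 : ‖(S.A x).2.1‖ ≤ ‖(S.A x).2‖ := norm_fst_le _
    have h6 : ‖(S.A x).2.2‖ ≤ S.σ * r := by
      have e : (S.A x).2.2 = (S.σ : ℂ) * x.2.2 := by rw [hS.A2]; rfl
      rw [e, norm_mul, Complex.norm_real, Real.norm_of_nonneg hS.σpos.le]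
      refine mul_le_mul_of_nonneg_left ?_ hS.σpos.le
      have h7 : ‖x.2.2‖ ≤ ‖x.2‖ := norm_snd_le _
      have h8 : ‖x.2‖ ≤ ‖x‖ := norm_snd_le _
      have h9 : ‖x‖ ≤ r := by simpa using hx
      linarith
    refine ⟨by linarith, ?_⟩
    refine mem_prod.2 ⟨?_, ?_⟩
    · rw [mem_ball_zero_iff]; linarith
    · rw [mem_ball_zero_iff]; linarith

theorem relA_compact {S : Stage} (hS : S.OK) (R ρ : ℝ) : IsCompact (CS S R ρ) := by
  have h : CS S R ρ = S.A' '' (closedBall (0:ℂ) R ×ˢ PD R ρ) := by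
    ext x
    constructor
    · intro hx
      refine ⟨S.A x, mem_prod.2 ⟨?_, hx.2⟩, hS.lA x⟩
      rw [mem_closedBall_zero_iff]
      exact hx.1
    · rintro ⟨y, hy, rfl⟩
      have hy' := mem_prod.1 hy
      refine ⟨?_, ?_⟩
      · rw [hS.rA]
        exact mem_closedBall_zero_iff.1 hy'.1
      · rw [hS.rA]
        exact hy'.2
  rw [h]
  exact ((isCompact_closedBall (0:ℂ) R).prod
    ((isCompact_closedBall (0:ℂ) R).prod (isCompact_closedBall (0:ℂ) ρ))).image hS.dA'.continuous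

theorem relA_int {S : Stage} (hS : S.OK) (R ρ : ℝ) :
    {x : V3 | ‖(S.A x).1‖ < R ∧ (S.A x).2 ∈ OD R ρ} ⊆ interior (CS S R ρ) := by
  refine interior_maximal ?_ ?_
  · rintro x ⟨h1, h2⟩
    have h2' := mem_prod.1 h2
    exact ⟨h1.le, mem_prod.2 ⟨ball_subset_closedBall h2'.1, ball_subset_closedBall h2'.2⟩⟩
  · have hA := hS.dA.continuous
    have h1 : IsOpen {x : V3 | ‖(S.A x).1‖ < R} :=
      isOpen_lt (continuous_fst.comp hA).norm continuous_const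
    have h2 : IsOpen {x : V3 | (S.A x).2 ∈ OD R ρ} :=
      (isOpen_ball.prod isOpen_ball).preimage (continuous_snd.comp hA)
    exact h1.inter h2

theorem relA_dom {S : Stage} (R ρ : ℝ) (hρ : ρ < 1) : ∀ x ∈ CS S R ρ, ‖(S.A x).2.2‖ < 1 := by
  intro x hx
  have := mem_closedBall_zero_iff.1 (mem_prod.1 hx.2).2
  exact lt_of_le_of_lt this hρ

theorem relA_mem {S : Stage} (hS : S.OK) (R ρ : ℝ) (a : ℂ) (p : V2) :
    S.A' (a, p) ∈ CS S R ρ ↔ ‖a‖ ≤ R ∧ ‖p.1‖ ≤ R ∧ ‖p.2‖ ≤ ρ := by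
  have e : S.A (S.A' (a, p)) = (a, p) := hS.rA _
  constructor
  · rintro ⟨h1, h2⟩
    rw [e] at h1 h2
    have h2' := mem_prod.1 h2
    exact ⟨h1, mem_closedBall_zero_iff.1 h2'.1, mem_closedBall_zero_iff.1 h2'.2⟩
  · rintro ⟨h1, h2, h3⟩
    refine ⟨?_, ?_⟩
    · rw [e]; exact h1
    · rw [e]
      exact mem_prod.2 ⟨mem_closedBall_zero_iff.2 h2, mem_closedBall_zero_iff.2 h3⟩

theorem relA_F {S : Stage} (hS : S.OK) (a : ℂ) (p : V2) : S.F (S.A' (a, p)) = S.Φ' (a, xk S.Θ' p) := by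
  unfold Stage.F
  rw [hS.rA]

end FBH
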