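import Pool.Agent.FBH.Defs
import Pool.Agent.FBH.StageF
import Pool.Agent.FBH.RelA

/-!
RelB. Choice of the point `b`.
Proof. Let `C = CS S R ρ'`, `Dom = {x | ‖(S.A x).2.2‖ < 1} ⊇ C`. If `closedBall c ρ ⊄ S.F '' interior C` pick `y ∈ closedBall c ρ`,
`y ∉ S.F '' interior C`. Claim: some `b ∈ ball y ρ` is in the dense set of
stage_dense and not in `S.F '' C`. If not, then (`S.F '' C` is compact, hence closed; `ball y ρ` is open) `ball y ρ ⊆ closure (ball y ρ ∩ dense) ⊆ S.F '' C`; in particular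
`y = S.F x`, `x ∈ C ⊆ Dom`; the set `{x' ∈ Dom | S.F x' ∈ ball y ρ}` is open (stageF_diff, stageF_open), contains `x`, and is contained in `C` by injectivity of `S.F` on `Dom`
(stageF_inj); so `x ∈ interior C`, contradiction. For this `b = S.Φ' (a, xk S.Θ' p)`, `b ∈ closedBall c (2ρ)`, `‖a‖ = ‖(S.Φ b).1‖ < R`; `b = S.F (S.A' (a,p))` (relA_F), so
`S.A' (a,p) ∉ C`, i.e. `¬(‖p.1‖ ≤ R ∧ ‖p.2‖ ≤ ρ')` (relA_mem).
-/

set_option autoImplicit false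

open Metric Set Filter Topology

namespace FBH

theorem relB {S : Stage} (hS : S.OK) (R ρ' : ℝ) (hR : 0 < R) (hρ' : 0 < ρ') (hρ1 : ρ' < 1) (c : V3)
    (ρ : ℝ) (hρ : 0 < ρ) (hΦ : ∀ y ∈ closedBall c (2 * ρ), ‖(S.Φ y).1‖ < R) :
    closedBall c ρ ⊆ S.F '' interior (CS S R ρ') ∨
      ∃ (a : ℂ) (p : V2), ‖p.2‖ < 1 ∧ ¬(‖p.1‖ ≤ R ∧ ‖p.2‖ ≤ ρ') ∧
        S.Φ' (a, xk S.Θ' p) ∈ closedBall c (2 * ρ) := by
  by_cases hsub : closedBall c ρ ⊆ S.F '' interior (CS S R ρ')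
  · exact Or.inl hsub
  right
  obtain ⟨y, hy, hyn⟩ := not_subset.1 hsub
  have hCdom : CS S R ρ' ⊆ {x : V3 | ‖(S.A x).2.2‖ < 1} := fun x hx => relA_dom R ρ' hρ1 x hx
  have hcomp : IsCompact (S.F '' CS S R ρ') :=
    (relA_compact hS R ρ').image_of_continuousOn ((stageF_diff hS).continuousOn.mono hCdom)
  have hclaim : ∃ b ∈ ball y ρ, b ∈ {y : V3 | ∃ (a : ℂ) (p : V2), ‖p.2‖ < 1 ∧ y = S.Φ' (a, xk S.Θ' p)} ∧
      b ∉ S.F '' CS S R ρ' := by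
    by_contra hno
    push Not at hno
    have h1 : ball y ρ ⊆ S.F '' CS S R ρ' := by
      have h2 : ball y ρ ⊆ closure (ball y ρ ∩
          {y : V3 | ∃ (a : ℂ) (p : V2), ‖p.2‖ < 1 ∧ y = S.Φ' (a, xk S.Θ' p)}) :=
        (stage_dense hS).open_subset_closure_inter isOpen_ball
      refine h2.trans ?_
      refine closure_minimal ?_ hcomp.isClosed
      rintro b ⟨hb1, hb2⟩
      exact hno b hb1 hb2
    obtain ⟨x, hxC, hxy⟩ := h1 (mem_ball_self hρ)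
    apply hyn
    refine ⟨x, ?_, hxy⟩
    rw [mem_interior]
    refine ⟨{x : V3 | ‖(S.A x).2.2‖ < 1} ∩ S.F ⁻¹' ball y ρ, ?_, ?_, ?_⟩
    · rintro x' ⟨hx'1, hx'2⟩
      obtain ⟨x'', hx''C, hx''⟩ := h1 hx'2
      have := stageF_inj hS (hCdom hx''C) hx'1 hx''
      rw [← this]
      exact hx''C
    · exact (stageF_diff hS).continuousOn.isOpen_inter_preimage (stageF_open hS) isOpen_ball
    · refine ⟨hCdom hxC, ?_⟩
      rw [mem_preimage, hxy]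
      exact mem_ball_self hρ
  obtain ⟨b, hb1, ⟨a, p, hp, hbe⟩, hb3⟩ := hclaim
  have hbc : b ∈ closedBall c (2 * ρ) := by
    rw [mem_closedBall]
    have h1 : dist b y < ρ := hb1
    have h2 : dist y c ≤ ρ := hy
    have := dist_triangle b y c
    linarith
  refine ⟨a, p, hp, ?_, by rw [← hbe]; exact hbc⟩
  rintro ⟨h1, h2⟩
  apply hb3
  refine ⟨S.A' (a, p), ?_, ?_⟩
  · rw [relA_mem hS]
    refine ⟨?_, h1, h2⟩
    have h3 := hΦ b hbc
    rw [hbe, hS.rΦ] at h3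
    exact h3.le
  · rw [relA_F hS, hbe]

end FBH
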