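import Pool.Agent.FBH.Defs
import Pool.Agent.FBH.XkBasic

/-!
GImm. `p ↦ gm G Λ (xk Θ' p)` is holomorphic with injective derivative where the derivative of `G` in direction `(-Λ,1)` is
nonzero. Proof: the derivative of `gm G Λ` at `x` is `v ↦ (v.1 + Λ v.2, -fderiv ℂ G x v)`; if it kills `v` then
`v = v.2 • (-Λ, 1)` and `v.2 · fderiv ℂ G x (-Λ,1) = 0`, so `v = 0`. Compose with xk_imm.
-/

set_option autoImplicit false

open Metric Set Filter Topology

namespace FBH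

theorem GImm_gm_diff (G : V2 → ℂ) (hG : Differentiable ℂ G) (Λ : ℂ) :
    Differentiable ℂ (gm G Λ) := by
  have h1 : Differentiable ℂ (fun x : V2 => x.1) := differentiable_fst
  have h2 : Differentiable ℂ (fun x : V2 => x.2) := differentiable_snd
  exact (h1.add (h2.const_mul Λ)).prodMk hG.neg

theorem g_diff {Θ Θ' : V2 → V2} (hΘ : LAut Θ Θ') (G : V2 → ℂ) (hG : Differentiable ℂ G) (Λ : ℂ) :
    DifferentiableOn ℂ (fun p => gm G Λ (xk Θ' p)) {p : V2 | ‖p.2‖ < 1} :=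
  (GImm_gm_diff G hG Λ).comp_differentiableOn (xk_diff hΘ)

theorem g_imm {Θ Θ' : V2 → V2} (hΘ : LAut Θ Θ') (G : V2 → ℂ) (hG : Differentiable ℂ G) (Λ : ℂ)
    {p : V2} (hp : ‖p.2‖ < 1) (hne : fderiv ℂ G (xk Θ' p) (-Λ, 1) ≠ 0) :
    Function.Injective (fderiv ℂ (fun p => gm G Λ (xk Θ' p)) p) := by
  have hopen : IsOpen {p : V2 | ‖p.2‖ < 1} := isOpen_lt (by fun_prop) continuous_const
  have hx : DifferentiableAt ℂ (xk Θ') p := (xk_diff hΘ).differentiableAt (hopen.mem_nhds hp)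
  set x := xk Θ' p with hxdef
  have hGx : HasFDerivAt G (fderiv ℂ G x) x := (hG x).hasFDerivAt
  have h1 : HasFDerivAt (fun x : V2 => x.1) (ContinuousLinearMap.fst ℂ ℂ ℂ) x := hasFDerivAt_fst
  have h2 : HasFDerivAt (fun x : V2 => x.2) (ContinuousLinearMap.snd ℂ ℂ ℂ) x := hasFDerivAt_snd
  have hg : HasFDerivAt (gm G Λ) ((ContinuousLinearMap.fst ℂ ℂ ℂ + Λ • ContinuousLinearMap.snd ℂ ℂ ℂ).prod
      (-(fderiv ℂ G x))) x := (h1.add (h2.const_mul Λ)).prodMk hGx.neg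
  have hcomp : HasFDerivAt (fun p => gm G Λ (xk Θ' p))
      (((ContinuousLinearMap.fst ℂ ℂ ℂ + Λ • ContinuousLinearMap.snd ℂ ℂ ℂ).prod
      (-(fderiv ℂ G x))).comp (fderiv ℂ (xk Θ') p)) p := by
    have h0 := HasFDerivAt.comp (g := gm G Λ) (f := xk Θ') p hg hx.hasFDerivAt
    exact h0
  rw [hcomp.fderiv, ContinuousLinearMap.coe_comp]
  refine Function.Injective.comp ?_ (xk_imm hΘ hp)
  rw [injective_iff_map_eq_zero]
  rintro ⟨a, b⟩ hab
  simp only [ContinuousLinearMap.prod_apply, add_apply,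
    smul_apply, ContinuousLinearMap.coe_fst', ContinuousLinearMap.coe_snd',
    neg_apply, smul_eq_mul, Prod.mk_eq_zero, neg_eq_zero] at hab
  obtain ⟨e1, e2⟩ := hab
  have ea : a = b * (-Λ) := by linear_combination e1
  have hv : ((a, b) : V2) = b • ((-Λ, 1) : V2) := by
    rw [Prod.smul_mk, smul_eq_mul, smul_eq_mul, mul_one, ea]
  rw [hv, map_smul, smul_eq_mul] at e2
  rcases mul_eq_zero.1 e2 with hb | hb
  · subst hb
    simp [ea]
  · exact absurd hb hne

end FBH
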