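import Pool.Agent.FBH.Defs
import Pool.Agent.FBH.UDQ
import Pool.Agent.FBH.ScSmooth

/-!
Hest. The error estimate of the main step.
Proof. Put `lam x = fderiv ℂ G x (-Λ,1)` (continuous, nonzero on the compact `K`), `v(x,a) = (a - κ x.2)/lam x`, bounded on
`K × closedBall 0 R`. Exact model (`δ = 0`): `c₀ = x.2 + η v`, `b₀ - Λ c₀ = x.1 - Λ η v`. By udq applied to
`f c (x,a) = G (x + (c v) • (-Λ,1))` (derivative in `c` at `0`: `v lam x = a - κ x.2`), for small `η`: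
`‖(G (x.1 - Λ η v, x.2 + η v) - G x)/η - (a - κ x.2)‖ ≤ ε/4`, and `‖κ η v‖ ≤ ε/4`, `‖Λ η v‖ ≤ ε/2`, `‖η v‖ ≤ ε/2`. So in the exact model the three
quantities are `≤ ε/2`. Fix such an `η`. The three expressions are continuous functions of
`(x, a, b, ζ, w₁, μ)`, the exact model is a compact set of such parameters; take a thickening.
-/

set_option autoImplicit false

open Metric Set Filter Topology

namespace FBH

private theorem hest_cont (G : V2 → ℂ) (hG : Differentiable ℂ G) :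
    Continuous (fun x : V2 => fderiv ℂ G x) := by
  have h := sc_fderiv_diff G univ isOpen_univ hG.differentiableOn
  rw [differentiableOn_univ] at h
  exact h.continuous

private theorem hest_exact (K : Set V2) (hK : IsCompact K) (G : V2 → ℂ) (hG : Differentiable ℂ G)
    (Λ κ : ℂ) (R : ℝ) (hne : ∀ x ∈ K, fderiv ℂ G x (-Λ, 1) ≠ 0) (ε : ℝ) (hε : 0 < ε) :
    ∃ η : ℝ, 0 < η ∧ ∀ x ∈ K, ∀ a c : ℂ, ‖a‖ ≤ R →
      c = x.2 + (η:ℂ) * (a - κ * x.2) * (fderiv ℂ G x (-Λ, 1))⁻¹ →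
      ‖(-G x + G (x.1 + Λ * x.2 - Λ * c, c)) / (η:ℂ) + κ * c - a‖ < ε ∧
        ‖x.1 + Λ * x.2 - Λ * c - x.1‖ < ε ∧ ‖c - x.2‖ < ε := by
  have hcont := hest_cont G hG
  set v : V2 × ℂ → ℂ := fun p => (p.2 - κ * p.1.2) * (fderiv ℂ G p.1 (-Λ, 1))⁻¹ with hv
  set K' : Set (V2 × ℂ) := K ×ˢ closedBall (0:ℂ) R with hK'
  have hK'c : IsCompact K' := hK.prod (isCompact_closedBall _ _)
  have hvc : ContinuousOn v K' := by
    have h1 : Continuous (fun p : V2 × ℂ => fderiv ℂ G p.1 (-Λ, 1)) :=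
      (hcont.comp continuous_fst).clm_apply continuous_const
    refine ContinuousOn.mul ?_ ?_
    · exact (continuous_snd.sub (continuous_const.mul (continuous_snd.comp continuous_fst))).continuousOn
    · exact h1.continuousOn.inv₀ (fun p hp => hne p.1 hp.1)
  obtain ⟨M, hM⟩ : ∃ M : ℝ, ∀ p ∈ K', ‖v p‖ ≤ M := by
    obtain ⟨M, hM⟩ := (hK'c.image_of_continuousOn hvc).isBounded.exists_norm_le
    exact ⟨M, fun p hp => hM _ (mem_image_of_mem _ hp)⟩
  set M₁ : ℝ := max M 0 + 1 with hM₁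
  have hM₁pos : 0 < M₁ := by have := le_max_right M 0; linarith
  have hM₁' : ∀ p ∈ K', ‖v p‖ ≤ M₁ := fun p hp => by
    have := hM p hp
    have := le_max_left M 0
    linarith
  have hudq := udq K' hK'c 1 one_pos
    (fun (c : ℂ) (p : V2 × ℂ) => G (p.1 + (c * v p) • ((-Λ, 1) : V2)))
    (fun (c : ℂ) (p : V2 × ℂ) => v p * fderiv ℂ G (p.1 + (c * v p) • ((-Λ, 1) : V2)) (-Λ, 1))
    (by
      intro c _ p _
      have h1 : HasDerivAt (fun c : ℂ => p.1 + (c * v p) • ((-Λ, 1) : V2))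
          ((v p) • ((-Λ, 1) : V2)) c := by
        have h2 : HasDerivAt (fun c : ℂ => c * v p) (v p) c := by
          simpa using (hasDerivAt_id c).mul_const (v p)
        have h3 := h2.smul_const ((-Λ, 1) : V2)
        exact h3.const_add p.1
      have h4 := (hG (p.1 + (c * v p) • ((-Λ, 1) : V2))).hasFDerivAt.comp_hasDerivAt c h1
      have h5 : fderiv ℂ G (p.1 + (c * v p) • ((-Λ, 1) : V2)) ((v p) • ((-Λ, 1) : V2)) =
          v p * fderiv ℂ G (p.1 + (c * v p) • ((-Λ, 1) : V2)) (-Λ, 1) := by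
        rw [map_smul, smul_eq_mul]
      rw [h5] at h4
      exact h4)
    (by
      have h1 : ContinuousOn (fun q : ℂ × (V2 × ℂ) => v q.2) (ball (0:ℂ) 1 ×ˢ K') :=
        hvc.comp continuous_snd.continuousOn (fun q hq => hq.2)
      refine h1.mul ?_
      have h2 : ContinuousOn (fun q : ℂ × (V2 × ℂ) =>
          q.2.1 + (q.1 * v q.2) • ((-Λ, 1) : V2)) (ball (0:ℂ) 1 ×ˢ K') := by
        refine ContinuousOn.add (continuous_fst.comp continuous_snd).continuousOn ?_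
        exact (continuous_fst.continuousOn.mul h1).smul continuousOn_const
      exact (hcont.comp_continuousOn h2).clm_apply continuousOn_const)
    (ε / 4) (by positivity)
  obtain ⟨δ, hδ, hδ'⟩ := hudq
  set B : ℝ := 1 + ‖κ‖ + ‖Λ‖ with hB
  have hBpos : 0 < B := by positivity
  have hη0 : 0 < min (δ / 2) (ε / (4 * (B * M₁))) := by positivity
  refine ⟨min (δ / 2) (ε / (4 * (B * M₁))), hη0, ?_⟩
  set η : ℝ := min (δ / 2) (ε / (4 * (B * M₁))) with hη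
  intro x hx a c ha hc
  have hp : ((x, a) : V2 × ℂ) ∈ K' := ⟨hx, by simpa using ha⟩
  have hηδ : η < δ := by
    have := min_le_left (δ / 2) (ε / (4 * (B * M₁)))
    rw [← hη] at this
    linarith
  have hηB : η * (B * M₁) ≤ ε / 4 := by
    have h1 := min_le_right (δ / 2) (ε / (4 * (B * M₁)))
    rw [← hη] at h1
    have h2 : η * (B * M₁) ≤ ε / (4 * (B * M₁)) * (B * M₁) :=
      mul_le_mul_of_nonneg_right h1 (by positivity)
    have h3 : ε / (4 * (B * M₁)) * (B * M₁) = ε / 4 := by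
      have : B * M₁ ≠ 0 := by positivity
      field_simp
    linarith
  have hηn : ‖(η:ℂ)‖ = η := by simp [abs_of_pos hη0]
  have hηne : (η:ℂ) ≠ 0 := by exact_mod_cast hη0.ne'
  have key := hδ' (η:ℂ) (by rw [hηn]; exact hηδ) (x, a) hp
  have hvv : v (x, a) = (a - κ * x.2) * (fderiv ℂ G x (-Λ, 1))⁻¹ := rfl
  have hnx := hne x hx
  have hc' : c = x.2 + (η:ℂ) * v (x, a) := by rw [hc, hvv]; ring
  have hvM : ‖v (x, a)‖ ≤ M₁ := hM₁' _ hp
  -- the products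
  have hκ : ‖κ‖ * (η * ‖v (x, a)‖) ≤ ε / 4 := by
    calc ‖κ‖ * (η * ‖v (x, a)‖) ≤ B * (η * M₁) := by
          apply mul_le_mul
          · rw [hB]; have := norm_nonneg Λ; linarith
          · exact mul_le_mul_of_nonneg_left hvM hη0.le
          · positivity
          · positivity
      _ = η * (B * M₁) := by ring
      _ ≤ ε / 4 := hηB
  have hΛ : ‖Λ‖ * (η * ‖v (x, a)‖) ≤ ε / 4 := by
    calc ‖Λ‖ * (η * ‖v (x, a)‖) ≤ B * (η * M₁) := by
          apply mul_le_mul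
          · rw [hB]; have := norm_nonneg κ; linarith
          · exact mul_le_mul_of_nonneg_left hvM hη0.le
          · positivity
          · positivity
      _ = η * (B * M₁) := by ring
      _ ≤ ε / 4 := hηB
  have h1 : 1 * (η * ‖v (x, a)‖) ≤ ε / 4 := by
    calc 1 * (η * ‖v (x, a)‖) ≤ B * (η * M₁) := by
          apply mul_le_mul
          · rw [hB]; have := norm_nonneg κ; have := norm_nonneg Λ; linarith
          · exact mul_le_mul_of_nonneg_left hvM hη0.le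
          · positivity
          · positivity
      _ = η * (B * M₁) := by ring
      _ ≤ ε / 4 := hηB
  refine ⟨?_, ?_, ?_⟩
  · have hpt : ((x.1 + Λ * x.2 - Λ * c, c) : V2) = x + ((η:ℂ) * v (x, a)) • ((-Λ, 1) : V2) := by
      rw [hc']
      apply Prod.ext
      · simp; ring
      · simp
    have e0 : (fun (c : ℂ) (p : V2 × ℂ) => G (p.1 + (c * v p) • ((-Λ, 1) : V2))) (0:ℂ) (x, a) = G x := by
      simp
    have e1 : (fun (c : ℂ) (p : V2 × ℂ) => v p * fderiv ℂ G (p.1 + (c * v p) • ((-Λ, 1) : V2)) (-Λ, 1))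
        (0:ℂ) (x, a) = a - κ * x.2 := by
      simp only [zero_mul, zero_smul, add_zero, hvv]
      field_simp
    simp only at e0 e1 key
    rw [e0, e1, hηn] at key
    rw [hpt]
    have e2 : (-G x + G (x + ((η:ℂ) * v (x, a)) • ((-Λ, 1) : V2))) / (η:ℂ) + κ * c - a =
        (G (x + ((η:ℂ) * v (x, a)) • ((-Λ, 1) : V2)) - G x - (η:ℂ) • (a - κ * x.2)) / (η:ℂ) +
          κ * ((η:ℂ) * v (x, a)) := by
      rw [hc', smul_eq_mul]
      field_simp
      ring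
    rw [e2]
    have e3 : ‖(G (x + ((η:ℂ) * v (x, a)) • ((-Λ, 1) : V2)) - G x - (η:ℂ) • (a - κ * x.2)) / (η:ℂ)‖ ≤
        ε / 4 := by
      rw [norm_div, hηn, div_le_iff₀ hη0]
      exact key
    have e4 : ‖κ * ((η:ℂ) * v (x, a))‖ ≤ ε / 4 := by
      rw [norm_mul, norm_mul, hηn]
      exact hκ
    calc _ ≤ _ := norm_add_le _ _
      _ ≤ ε / 4 + ε / 4 := add_le_add e3 e4
      _ < ε := by linarith
  · have e2 : x.1 + Λ * x.2 - Λ * c - x.1 = -(Λ * ((η:ℂ) * v (x, a))) := by rw [hc']; ring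
    rw [e2, norm_neg, norm_mul, norm_mul, hηn]
    linarith
  · have e2 : c - x.2 = (η:ℂ) * v (x, a) := by rw [hc']; ring
    rw [e2, norm_mul, hηn]
    linarith

theorem hest (K : Set V2) (hK : IsCompact K) (G : V2 → ℂ) (hG : Differentiable ℂ G) (Λ κ : ℂ)
    (R : ℝ) (hne : ∀ x ∈ K, fderiv ℂ G x (-Λ, 1) ≠ 0) (ε : ℝ) (hε : 0 < ε) :
    ∃ η : ℝ, 0 < η ∧ ∃ δ : ℝ, 0 < δ ∧ ∀ x ∈ K, ∀ a b ζ w₁ μ c : ℂ, ‖a‖ ≤ R →
      ‖b - (x.1 + Λ * x.2)‖ ≤ δ → ‖ζ + G x‖ ≤ δ → ‖w₁ - x.2‖ ≤ δ →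
      ‖μ - (fderiv ℂ G x (-Λ, 1))⁻¹‖ ≤ δ → c = w₁ + (η:ℂ) * (a - κ * w₁) * μ →
      ‖(ζ + G (b - Λ * c, c)) / (η:ℂ) + κ * c - a‖ ≤ ε ∧ ‖b - Λ * c - x.1‖ ≤ ε ∧ ‖c - x.2‖ ≤ ε := by
  obtain ⟨η, hη, hex⟩ := hest_exact K hK G hG Λ κ R hne ε hε
  refine ⟨η, hη, ?_⟩
  have hcont := hest_cont G hG
  -- parameters `(x, a, b, ζ, w₁, μ)`
  set cc : V2 × ℂ × ℂ × ℂ × ℂ × ℂ → ℂ := fun t =>
    t.2.2.2.2.1 + (η:ℂ) * (t.2.1 - κ * t.2.2.2.2.1) * t.2.2.2.2.2 with hcc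
  have hccc : Continuous cc := by rw [hcc]; fun_prop
  set Ψ : V2 × ℂ × ℂ × ℂ × ℂ × ℂ → ℂ × ℂ × ℂ := fun t =>
    ((t.2.2.2.1 + G (t.2.2.1 - Λ * cc t, cc t)) / (η:ℂ) + κ * cc t - t.2.1,
      (t.2.2.1 - Λ * cc t - t.1.1, cc t - t.1.2)) with hΨ
  have hΨc : Continuous Ψ := by
    have hG' : Continuous (fun t : V2 × ℂ × ℂ × ℂ × ℂ × ℂ => G (t.2.2.1 - Λ * cc t, cc t)) := by
      refine hG.continuous.comp ?_
      fun_prop
    rw [hΨ]
    refine Continuous.prodMk ?_ (Continuous.prodMk ?_ ?_)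
    · refine Continuous.sub (Continuous.add (Continuous.div_const (Continuous.add ?_ hG') _) ?_) ?_
      · fun_prop
      · fun_prop
      · fun_prop
    · fun_prop
    · fun_prop
  set ex : V2 × ℂ → V2 × ℂ × ℂ × ℂ × ℂ × ℂ := fun p =>
    (p.1, p.2, p.1.1 + Λ * p.1.2, -G p.1, p.1.2, (fderiv ℂ G p.1 (-Λ, 1))⁻¹) with hexdef
  set K' : Set (V2 × ℂ) := K ×ˢ closedBall (0:ℂ) R with hK'
  have hK'c : IsCompact K' := hK.prod (isCompact_closedBall _ _)
  have hexc : ContinuousOn ex K' := by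
    have h1 : Continuous (fun p : V2 × ℂ => fderiv ℂ G p.1 (-Λ, 1)) :=
      (hcont.comp continuous_fst).clm_apply continuous_const
    have h2 : ContinuousOn (fun p : V2 × ℂ => (fderiv ℂ G p.1 (-Λ, 1))⁻¹) K' :=
      h1.continuousOn.inv₀ (fun p hp => hne p.1 hp.1)
    have h3 : Continuous (fun p : V2 × ℂ => -G p.1) := (hG.continuous.comp continuous_fst).neg
    rw [hexdef]
    refine ContinuousOn.prodMk continuousOn_fst (ContinuousOn.prodMk continuousOn_snd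
      (ContinuousOn.prodMk ?_ (ContinuousOn.prodMk h3.continuousOn (ContinuousOn.prodMk ?_ h2))))
    · exact Continuous.continuousOn (by fun_prop)
    · exact Continuous.continuousOn (by fun_prop)
  set T := ex '' K' with hT
  have hTc : IsCompact T := hK'c.image_of_continuousOn hexc
  set O : Set (V2 × ℂ × ℂ × ℂ × ℂ × ℂ) := {t | ‖Ψ t‖ < ε} with hO
  have hOo : IsOpen O := isOpen_lt (hΨc.norm) continuous_const
  have hTO : T ⊆ O := by
    rintro t ⟨⟨x, a⟩, ⟨hx, ha⟩, rfl⟩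
    have ha' : ‖a‖ ≤ R := by simpa using ha
    have h := hex x hx a (cc (ex (x, a))) ha' rfl
    change ‖Ψ (ex (x, a))‖ < ε
    rw [hΨ]
    simp only [Prod.norm_def]
    exact max_lt h.1 (max_lt h.2.1 h.2.2)
  obtain ⟨δ, hδ, hsub⟩ := hTc.exists_thickening_subset_open hOo hTO
  refine ⟨δ / 2, by positivity, ?_⟩
  intro x hx a b ζ w₁ μ c ha hb hζ hw hμ hc
  have hmem : ((x, a, b, ζ, w₁, μ) : V2 × ℂ × ℂ × ℂ × ℂ × ℂ) ∈ thickening δ T := by
    rw [mem_thickening_iff]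
    refine ⟨ex (x, a), mem_image_of_mem _ ⟨hx, by simpa using ha⟩, ?_⟩
    rw [hexdef]
    simp only [Prod.dist_eq, dist_self]
    have hζ' : dist ζ (-G x) ≤ δ / 2 := by rw [dist_eq_norm, sub_neg_eq_add]; exact hζ
    have hb' : dist b (x.1 + Λ * x.2) ≤ δ / 2 := by rw [dist_eq_norm]; exact hb
    have hw' : dist w₁ x.2 ≤ δ / 2 := by rw [dist_eq_norm]; exact hw
    have hμ' : dist μ (fderiv ℂ G x (-Λ, 1))⁻¹ ≤ δ / 2 := by rw [dist_eq_norm]; exact hμ
    refine max_lt (by simpa using hδ) (max_lt (by simpa using hδ) (max_lt ?_ (max_lt ?_ (max_lt ?_ ?_)))) <;>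
      linarith
  have hfin := hsub hmem
  change ‖Ψ (x, a, b, ζ, w₁, μ)‖ < ε at hfin
  have hcceq : cc (x, a, b, ζ, w₁, μ) = c := by rw [hc]
  rw [hΨ] at hfin
  simp only [Prod.norm_def, hcceq] at hfin
  obtain ⟨h1, h2⟩ := max_lt_iff.1 hfin
  obtain ⟨h2, h3⟩ := max_lt_iff.1 h2
  exact ⟨h1.le, h2.le, h3.le⟩

end FBH
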