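import Pool.Agent.FBH.Defs

/-!
LogEx. A nonvanishing holomorphic function on a bidisc has a holomorphic logarithm (on a smaller bidisc).
Proof. `P = PD R ρ` is compact, star-shaped about `0`. `l` is continuous and nonvanishing on the compact set `P`, so
`|l| ≥ c > 0` and `l` is uniformly continuous on `P`: choose `n` such that `‖l ((k+1)/n • p) - l (k/n • p)‖ < c/2` for
`p ∈ P`, `k < n`. Then `r_k p = l ((k+1)/n • p) / l (k/n • p)` satisfies `‖r_k p - 1‖ < 1/2`, is in the slit plane, and is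
holomorphic on `OD R ρ`. Put `ℓ p = log (l 0) + Σ_{k<n} log (r_k p)`; `exp (ℓ p) = l 0 ∏ r_k p = l p` (telescoping).
-/

set_option autoImplicit false

open Metric Set Filter Topology

namespace FBH

private theorem logEx_smul {R ρ t : ℝ} (h0 : 0 ≤ t) (h1 : t ≤ 1) {p : V2}
    (hp : p ∈ OD R ρ) : (t:ℂ) • p ∈ OD R ρ := by
  obtain ⟨ha, hb⟩ := hp
  rw [mem_ball, dist_zero_right] at ha hb
  constructor
  · rw [mem_ball, dist_zero_right, Prod.smul_fst, norm_smul, Complex.norm_real, Real.norm_eq_abs,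
      abs_of_nonneg h0]
    calc t * ‖p.1‖ ≤ 1 * ‖p.1‖ := mul_le_mul_of_nonneg_right h1 (norm_nonneg _)
      _ < R := by rw [one_mul]; exact ha
  · rw [mem_ball, dist_zero_right, Prod.smul_snd, norm_smul, Complex.norm_real, Real.norm_eq_abs,
      abs_of_nonneg h0]
    calc t * ‖p.2‖ ≤ 1 * ‖p.2‖ := mul_le_mul_of_nonneg_right h1 (norm_nonneg _)
      _ < ρ := by rw [one_mul]; exact hb

theorem log_ex (l : V2 → ℂ) (R ρ R' ρ' : ℝ) (hR : 0 < R) (hρ : 0 < ρ) (hR' : R < R') (hρ' : ρ < ρ')
    (hl : DifferentiableOn ℂ l (OD R' ρ')) (hne : ∀ p ∈ OD R' ρ', l p ≠ 0) :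
    ∃ ℓ : V2 → ℂ, DifferentiableOn ℂ ℓ (OD R ρ) ∧ ∀ p ∈ OD R ρ, Complex.exp (ℓ p) = l p := by
  have hPO : PD R ρ ⊆ OD R' ρ' :=
    Set.prod_mono (closedBall_subset_ball hR') (closedBall_subset_ball hρ')
  have hOP : OD R ρ ⊆ PD R ρ := Set.prod_mono ball_subset_closedBall ball_subset_closedBall
  have hPc : IsCompact (PD R ρ) := (isCompact_closedBall _ _).prod (isCompact_closedBall _ _)
  have hlc : ContinuousOn l (PD R ρ) := (hl.mono hPO).continuousOn
  -- lower bound
  obtain ⟨c, hc, hcb⟩ : ∃ c : ℝ, 0 < c ∧ ∀ p ∈ PD R ρ, c ≤ ‖l p‖ := by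
    obtain ⟨b, hb⟩ := hPc.exists_bound_of_continuousOn (f := fun p => (l p)⁻¹)
      (hlc.inv₀ fun p hp => hne p (hPO hp))
    refine ⟨(max b 1)⁻¹, ?_, ?_⟩
    · have : (0:ℝ) < max b 1 := lt_of_lt_of_le one_pos (le_max_right _ _)
      positivity
    · intro p hp
      have h1 : ‖(l p)⁻¹‖ ≤ max b 1 := (hb p hp).trans (le_max_left _ _)
      have h2 : 0 < ‖l p‖ := norm_pos_iff.mpr (hne p (hPO hp))
      rw [norm_inv] at h1
      exact inv_le_of_inv_le₀ h2 h1
  have hU := hPc.uniformContinuousOn_of_continuous hlc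
  rw [Metric.uniformContinuousOn_iff] at hU
  obtain ⟨δ, hδ, hU⟩ := hU (c / 2) (by positivity)
  obtain ⟨n, hn⟩ := exists_nat_gt ((max R ρ) / δ)
  have hmax : 0 < max R ρ := lt_of_lt_of_le hR (le_max_left _ _)
  have hn0 : (0:ℝ) < n := lt_trans (div_pos hmax hδ) hn
  have hnR : max R ρ / n < δ := by
    rw [div_lt_iff₀ hδ] at hn
    rw [div_lt_iff₀ hn0]
    linarith
  have hpn : ∀ p ∈ PD R ρ, ‖p‖ ≤ max R ρ := by
    intro p hp
    obtain ⟨ha, hb⟩ := hp
    rw [mem_closedBall, dist_zero_right] at ha hb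
    rw [Prod.norm_def]
    exact max_le_max ha hb
  -- scaled points
  set s : ℕ → V2 → V2 := fun k p => (((k:ℝ) / n : ℝ) : ℂ) • p with hs
  have hsO : ∀ k ≤ n, ∀ p ∈ OD R ρ, s k p ∈ OD R ρ := by
    intro k hk p hp
    apply logEx_smul (by positivity) _ hp
    rw [div_le_one hn0]
    exact_mod_cast hk
  have hsne : ∀ k ≤ n, ∀ p ∈ OD R ρ, l (s k p) ≠ 0 := fun k hk p hp =>
    hne _ (hPO (hOP (hsO k hk p hp)))
  have hr : ∀ k < n, ∀ p ∈ OD R ρ, l (s (k + 1) p) / l (s k p) ∈ Complex.slitPlane := by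
    intro k hk p hp
    have h1 : dist (s (k + 1) p) (s k p) < δ := by
      rw [dist_eq_norm, hs]
      simp only
      rw [← sub_smul, norm_smul, ← Complex.ofReal_sub, Complex.norm_real, Real.norm_eq_abs]
      have h2 : ((k + 1 : ℕ) : ℝ) / n - (k:ℝ) / n = 1 / n := by
        push_cast
        ring
      rw [h2, abs_of_pos (by positivity)]
      calc 1 / (n:ℝ) * ‖p‖ ≤ 1 / (n:ℝ) * max R ρ :=
            mul_le_mul_of_nonneg_left (hpn p (hOP hp)) (by positivity)
        _ = max R ρ / n := by ring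
        _ < δ := hnR
    have h3 := hU _ (hOP (hsO (k + 1) hk p hp)) _ (hOP (hsO k hk.le p hp)) h1
    have h4 := hcb _ (hOP (hsO k hk.le p hp))
    have h5 : 0 < ‖l (s k p)‖ := lt_of_lt_of_le hc h4
    have h6 : l (s (k + 1) p) / l (s k p) =
        1 + (l (s (k + 1) p) - l (s k p)) / l (s k p) := by
      have := hsne k hk.le p hp
      field_simp
      ring
    rw [h6]
    apply Complex.mem_slitPlane_of_norm_lt_one
    rw [norm_div, div_lt_one h5]
    rw [dist_eq_norm] at h3
    linarith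
  have hsd : ∀ k ≤ n, DifferentiableOn ℂ (fun p => l (s k p)) (OD R ρ) := by
    intro k hk
    have hsk : Differentiable ℂ (s k) := by
      show Differentiable ℂ (fun p : V2 => (((k:ℝ) / n : ℝ) : ℂ) • p)
      fun_prop
    refine hl.comp hsk.differentiableOn ?_
    intro p hp
    exact hPO (hOP (hsO k hk p hp))
  refine ⟨fun p => Complex.log (l 0) + ∑ k ∈ Finset.range n,
    Complex.log (l (s (k + 1) p) / l (s k p)), ?_, ?_⟩
  · apply DifferentiableOn.const_add
    apply DifferentiableOn.fun_sum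
    intro k hk
    have hk' := Finset.mem_range.mp hk
    apply DifferentiableOn.clog
    · simp only [div_eq_mul_inv]
      exact (hsd (k + 1) hk').mul ((hsd k hk'.le).inv (hsne k hk'.le))
    · exact hr k hk'
  · intro p hp
    have h00 : (0 : V2) ∈ OD R' ρ' := by
      constructor
      · exact mem_ball_self (hR.trans hR')
      · exact mem_ball_self (hρ.trans hρ')
    have key : ∀ m ≤ n, Complex.exp (Complex.log (l 0) + ∑ k ∈ Finset.range m,
        Complex.log (l (s (k + 1) p) / l (s k p))) = l (s m p) := by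
      intro m
      induction m with
      | zero =>
        intro _
        rw [Finset.sum_range_zero, add_zero, Complex.exp_log (hne _ h00), hs]
        simp
      | succ m ih =>
        intro hm
        rw [Finset.sum_range_succ, ← add_assoc, Complex.exp_add, ih (by omega),
          Complex.exp_log (div_ne_zero (hsne (m + 1) hm p hp) (hsne m (by omega) p hp)),
          mul_div_cancel₀ _ (hsne m (by omega) p hp)]
    have h7 := key n le_rfl
    have h8 : s n p = p := by
      rw [hs]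
      simp only
      rw [div_self hn0.ne', Complex.ofReal_one, one_smul]
    rw [h8] at h7
    exact h7

end FBH
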