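import Pool.Agent.FBH.Defs

/-!
Poly2. Functions holomorphic near a closed bidisc are uniform limits of polynomials on it.
Proof. One variable with explicit linear dependence: fix `R < R₁ < R'`. For `n ≥ 1` and `f` holomorphic on `ball 0 R'` put
`a_i = (1/n) Σ_{k<n} f(R₁ ω^k) (R₁ ω^k)^(-i)`, `ω = e^{2πi/n}`. If `f = Σ_m c_m q^m` then
`a_i = Σ_{m ≡ i (n)} c_m R₁^(m-i)`; with `|c_m| ≤ M R₂^(-m)`, `R₁ < R₂ < R'` (Cauchy), one gets
`|f q - Σ_{i<n} a_i q^i| ≤ M · C(n)`, `C(n) → 0`, uniformly for `|q| ≤ R`, where `M` bounds `|f|` on `|q| = R₂`.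
(Alternative: use the Cauchy integral formula `f q = (1/2πi) ∮ f(ζ)/(ζ-q) dζ` in the variable `q` with parameter `s`,
geometric series truncated at `n`; the coefficients `a_i(s) = (1/2πi) ∮ h(ζ,s) ζ^(-i-1) dζ` are
holomorphic in `s` - e.g. as uniform limits of Riemann sums, or by differentiating under the integral sign, or because
`a_i(s)` are the iterated derivatives.) In either case `h(q,s)` is within `ε/2` of `Σ_{i<n} a_i(s) q^i` on `PD R ρ` with
`a_i` holomorphic on `ball 0 ρ'` (in the discrete version this is obvious: finite sums of `h(R₁ω^k, s)`); approximate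
each `a_i` on `closedBall 0 ρ` by a polynomial in `s` (one variable Taylor).
`bpoly_diff`: span induction.
-/

set_option autoImplicit false

open Metric Set Filter Topology

namespace FBH

open Complex in
/-- normalised circle integral -/
private noncomputable def poly2_J (R : ℝ) (f : ℂ → ℂ) : ℂ :=
  (2 * Real.pi * Complex.I : ℂ)⁻¹ • ∮ z in C(0, R), f z

private theorem poly2_J_sub {R : ℝ} {f g : ℂ → ℂ} (hf : CircleIntegrable f 0 R)
    (hg : CircleIntegrable g 0 R) : poly2_J R (fun z => f z - g z) = poly2_J R f - poly2_J R g := by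
  unfold poly2_J
  rw [circleIntegral.integral_sub hf hg, smul_sub]

private theorem poly2_J_sum {R : ℝ} (n : ℕ) (f : ℕ → ℂ → ℂ)
    (hf : ∀ i ∈ Finset.range n, CircleIntegrable (f i) 0 R) :
    poly2_J R (fun z => ∑ i ∈ Finset.range n, f i z) = ∑ i ∈ Finset.range n, poly2_J R (f i) := by
  unfold poly2_J
  rw [circleIntegral.integral_fun_sum hf, Finset.smul_sum]

private theorem poly2_J_mul (R : ℝ) (a : ℂ) (f : ℂ → ℂ) :
    poly2_J R (fun z => a * f z) = a * poly2_J R f := by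
  unfold poly2_J
  rw [circleIntegral.integral_const_mul, mul_smul_comm]

private theorem poly2_J_le {R C : ℝ} (hR : 0 ≤ R) {f : ℂ → ℂ} (hf : ∀ z ∈ sphere (0:ℂ) R, ‖f z‖ ≤ C) :
    ‖poly2_J R f‖ ≤ R * C :=
  circleIntegral.norm_two_pi_i_inv_smul_integral_le_of_norm_le_const hR hf

private theorem poly2_J_congr {R : ℝ} (hR : 0 ≤ R) {f g : ℂ → ℂ}
    (h : ∀ z ∈ sphere (0:ℂ) R, f z = g z) : poly2_J R f = poly2_J R g := by
  unfold poly2_J
  rw [circleIntegral.integral_congr hR h]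

private theorem poly2_geo (z q : ℂ) (hz : z ≠ 0) (hzq : z - q ≠ 0) (n : ℕ) :
    (z - q)⁻¹ - ∑ i ∈ Finset.range n, q ^ i * (z ^ (i + 1))⁻¹ = (q / z) ^ n * (z - q)⁻¹ := by
  induction n with
  | zero => simp
  | succ n ih =>
    rw [Finset.sum_range_succ, ← sub_sub, ih, pow_succ (q / z) n, div_pow]
    field_simp
    ring

private theorem poly2_tay {f : ℂ → ℂ} {R₁ R M : ℝ} (hR0 : 0 ≤ R) (hR : R < R₁)
    (hf : DifferentiableOn ℂ f (closedBall 0 R₁)) (hM : ∀ z ∈ sphere (0:ℂ) R₁, ‖f z‖ ≤ M) (n : ℕ)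
    (q : ℂ) (hq : ‖q‖ ≤ R) :
    ‖f q - ∑ i ∈ Finset.range n, poly2_J R₁ (fun z => (z ^ (i + 1))⁻¹ * f z) * q ^ i‖ ≤
      R₁ * ((R / R₁) ^ n * ((R₁ - R)⁻¹ * M)) := by
  have hR₁ : 0 < R₁ := lt_of_le_of_lt hR0 hR
  have hqb : q ∈ ball (0:ℂ) R₁ := by
    rw [mem_ball, dist_zero_right]
    exact lt_of_le_of_lt hq hR
  have hzn : ∀ z ∈ sphere (0:ℂ) R₁, ‖z‖ = R₁ := by
    intro z hz
    rwa [mem_sphere, dist_zero_right] at hz
  have hz0 : ∀ z ∈ sphere (0:ℂ) R₁, z ≠ 0 := by
    intro z hz h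
    have := hzn z hz
    rw [h, norm_zero] at this
    exact hR₁.ne this
  have hzq' : ∀ z ∈ sphere (0:ℂ) R₁, R₁ - R ≤ ‖z - q‖ := by
    intro z hz
    have h1 := norm_sub_norm_le z q
    have h2 := hzn z hz
    linarith
  have hzq : ∀ z ∈ sphere (0:ℂ) R₁, z - q ≠ 0 := by
    intro z hz h
    have := hzq' z hz
    rw [h, norm_zero] at this
    linarith
  have hfc : ContinuousOn f (sphere (0:ℂ) R₁) := hf.continuousOn.mono sphere_subset_closedBall
  have hc1 : CircleIntegrable (fun z => (z - q)⁻¹ * f z) 0 R₁ := by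
    apply ContinuousOn.circleIntegrable hR₁.le
    exact ((continuousOn_id.sub continuousOn_const).inv₀ hzq).mul hfc
  have hc2 : ∀ i ∈ Finset.range n,
      CircleIntegrable (fun z => q ^ i * ((z ^ (i + 1))⁻¹ * f z)) 0 R₁ := by
    intro i _
    apply ContinuousOn.circleIntegrable hR₁.le
    exact continuousOn_const.mul (((continuousOn_id.pow _).inv₀
      (fun z hz => pow_ne_zero _ (hz0 z hz))).mul hfc)
  have hc3 : CircleIntegrable (fun z => ∑ i ∈ Finset.range n, q ^ i * ((z ^ (i + 1))⁻¹ * f z)) 0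
      R₁ := by
    apply ContinuousOn.circleIntegrable hR₁.le
    apply continuousOn_finsetSum
    intro i _
    exact continuousOn_const.mul (((continuousOn_id.pow _).inv₀
      (fun z hz => pow_ne_zero _ (hz0 z hz))).mul hfc)
  have h1 : f q = poly2_J R₁ (fun z => (z - q)⁻¹ * f z) := by
    have h2 := hf.circleIntegral_sub_inv_smul hqb
    unfold poly2_J
    simp only [smul_eq_mul] at h2 ⊢
    rw [h2, ← mul_assoc, inv_mul_cancel₀ Complex.two_pi_I_ne_zero, one_mul]
  have h3 : ∑ i ∈ Finset.range n, poly2_J R₁ (fun z => (z ^ (i + 1))⁻¹ * f z) * q ^ i =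
      poly2_J R₁ (fun z => ∑ i ∈ Finset.range n, q ^ i * ((z ^ (i + 1))⁻¹ * f z)) := by
    rw [poly2_J_sum n _ hc2]
    apply Finset.sum_congr rfl
    intro i _
    rw [poly2_J_mul, mul_comm]
  rw [h3]
  conv_lhs => rw [h1]
  rw [← poly2_J_sub hc1 hc3]
  apply poly2_J_le hR₁.le
  intro z hz
  have h4 : (z - q)⁻¹ * f z - ∑ i ∈ Finset.range n, q ^ i * ((z ^ (i + 1))⁻¹ * f z) =
      (q / z) ^ n * ((z - q)⁻¹ * f z) := by
    have h5 := poly2_geo z q (hz0 z hz) (hzq z hz) n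
    have h6 : ∑ i ∈ Finset.range n, q ^ i * ((z ^ (i + 1))⁻¹ * f z) =
        (∑ i ∈ Finset.range n, q ^ i * (z ^ (i + 1))⁻¹) * f z := by
      rw [Finset.sum_mul]
      apply Finset.sum_congr rfl
      intro i _
      ring
    rw [h6, ← sub_mul, h5, mul_assoc]
  rw [h4, norm_mul, norm_mul, norm_pow, norm_div, norm_inv, hzn z hz]
  have hp : (0:ℝ) < R₁ - R := by linarith
  have h7 : ‖z - q‖⁻¹ ≤ (R₁ - R)⁻¹ := inv_anti₀ hp (hzq' z hz)
  have h8 : (‖q‖ / R₁) ^ n ≤ (R / R₁) ^ n :=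
    pow_le_pow_left₀ (by positivity) (div_le_div_of_nonneg_right hq hR₁.le) n
  have hM0 : 0 ≤ M := (norm_nonneg _).trans (hM z hz)
  exact mul_le_mul h8 (mul_le_mul h7 (hM z hz) (norm_nonneg _) (by positivity)) (by positivity)
    (by positivity)

theorem poly2 (h : V2 → ℂ) (R ρ R' ρ' : ℝ) (hR : 0 < R) (hρ : 0 < ρ) (hR' : R < R') (hρ' : ρ < ρ')
    (hh : DifferentiableOn ℂ h (OD R' ρ')) :
    ∀ ε : ℝ, 0 < ε → ∃ B ∈ BPoly, ∀ p ∈ PD R ρ, ‖h p - B p‖ < ε := by
  intro ε hε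
  obtain ⟨R₁, hRa, hRb⟩ := exists_between hR'
  obtain ⟨ρ₁, hρa, hρb⟩ := exists_between hρ'
  have hR₁ : 0 < R₁ := hR.trans hRa
  have hρ₁ : 0 < ρ₁ := hρ.trans hρa
  have hsub : closedBall (0:ℂ) R₁ ×ˢ closedBall (0:ℂ) ρ₁ ⊆ OD R' ρ' :=
    Set.prod_mono (closedBall_subset_ball hRb) (closedBall_subset_ball hρb)
  obtain ⟨M₀, hM₀⟩ := ((isCompact_closedBall (0:ℂ) R₁).prod
    (isCompact_closedBall (0:ℂ) ρ₁)).exists_bound_of_continuousOn (hh.mono hsub).continuousOn
  obtain ⟨M, hMpos, hM⟩ : ∃ M : ℝ, 0 < M ∧ ∀ z ∈ closedBall (0:ℂ) R₁, ∀ w ∈ closedBall (0:ℂ) ρ₁,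
      ‖h (z, w)‖ ≤ M :=
    ⟨max M₀ 1, lt_of_lt_of_le one_pos (le_max_right _ _),
      fun z hz w hw => (hM₀ (z, w) ⟨hz, hw⟩).trans (le_max_left _ _)⟩
  have hd1 : ∀ s ∈ closedBall (0:ℂ) ρ₁, DifferentiableOn ℂ (fun z => h (z, s)) (closedBall 0 R₁) := by
    intro s hs
    refine hh.comp (differentiable_id.prodMk (differentiable_const s)).differentiableOn ?_
    intro z hz
    exact hsub ⟨hz, hs⟩
  have hd2 : ∀ z ∈ closedBall (0:ℂ) R₁, DifferentiableOn ℂ (fun s => h (z, s)) (closedBall 0 ρ₁) := by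
    intro z hz
    refine hh.comp ((differentiable_const z).prodMk differentiable_id).differentiableOn ?_
    intro s hs
    exact hsub ⟨hz, hs⟩
  set b : ℕ → ℂ → ℂ := fun j z => poly2_J ρ₁ (fun w => (w ^ (j + 1))⁻¹ * h (z, w)) with hb
  -- continuity of b along the circle
  have hbc : ∀ j, Continuous (fun θ : ℝ => b j (circleMap 0 R₁ θ)) := by
    intro j
    have hcont : Continuous (fun x : ℝ × ℝ =>
        deriv (circleMap 0 ρ₁) x.2 • (((circleMap 0 ρ₁ x.2) ^ (j + 1))⁻¹ *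
          h (circleMap 0 R₁ x.1, circleMap 0 ρ₁ x.2))) := by
      have hc1 : Continuous (fun x : ℝ × ℝ => h (circleMap 0 R₁ x.1, circleMap 0 ρ₁ x.2)) := by
        refine hh.continuousOn.comp_continuous
          (((continuous_circleMap 0 R₁).comp continuous_fst).prodMk
            ((continuous_circleMap 0 ρ₁).comp continuous_snd)) ?_
        intro x
        exact hsub ⟨circleMap_mem_closedBall _ hR₁.le _, circleMap_mem_closedBall _ hρ₁.le _⟩
      have hc2 : Continuous (fun x : ℝ × ℝ => ((circleMap 0 ρ₁ x.2) ^ (j + 1))⁻¹) := by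
        refine (((continuous_circleMap 0 ρ₁).comp continuous_snd).pow _).inv₀ ?_
        intro x
        exact pow_ne_zero _ (circleMap_ne_center hρ₁.ne')
      have hc3 : Continuous (fun x : ℝ × ℝ => deriv (circleMap 0 ρ₁) x.2) := by
        simp only [deriv_circleMap]
        exact ((continuous_circleMap 0 ρ₁).comp continuous_snd).mul continuous_const
      exact hc3.smul (hc2.mul hc1)
    have hint := intervalIntegral.continuous_parametric_intervalIntegral_of_continuous'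
      (μ := MeasureTheory.volume) (f := fun θ φ : ℝ =>
        deriv (circleMap 0 ρ₁) φ • (((circleMap 0 ρ₁ φ) ^ (j + 1))⁻¹ *
          h (circleMap 0 R₁ θ, circleMap 0 ρ₁ φ))) hcont 0 (2 * Real.pi)
    exact hint.const_smul ((2 * Real.pi * Complex.I : ℂ)⁻¹)
  have hbi : ∀ (i j : ℕ) (s : ℂ), CircleIntegrable (fun z => (z ^ (i + 1))⁻¹ * (b j z * s ^ j)) 0
      R₁ := by
    intro i j s
    apply Continuous.intervalIntegrable
    have hc2 : Continuous (fun θ : ℝ => ((circleMap 0 R₁ θ) ^ (i + 1))⁻¹) := by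
      refine ((continuous_circleMap 0 R₁).pow _).inv₀ ?_
      intro x
      exact pow_ne_zero _ (circleMap_ne_center hR₁.ne')
    exact hc2.mul ((hbc j).mul continuous_const)
  set cc : ℕ → ℕ → ℂ := fun i j => poly2_J R₁ (fun z => (z ^ (i + 1))⁻¹ * b j z) with hcc
  set a : ℕ → ℂ → ℂ := fun i s => poly2_J R₁ (fun z => (z ^ (i + 1))⁻¹ * h (z, s)) with ha
  have hzn : ∀ z ∈ sphere (0:ℂ) R₁, ‖z‖ = R₁ := by
    intro z hz
    rwa [mem_sphere, dist_zero_right] at hz
  -- second estimate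
  have hE2 : ∀ (i m : ℕ) (s : ℂ), ‖s‖ ≤ ρ →
      ‖a i s - ∑ j ∈ Finset.range m, cc i j * s ^ j‖ ≤
        R₁ * ((R₁ ^ (i + 1))⁻¹ * (ρ₁ * ((ρ / ρ₁) ^ m * ((ρ₁ - ρ)⁻¹ * M)))) := by
    intro i m s hs
    have hsb : s ∈ closedBall (0:ℂ) ρ₁ := by
      rw [mem_closedBall, dist_zero_right]
      linarith
    have h1 : ∑ j ∈ Finset.range m, cc i j * s ^ j =
        poly2_J R₁ (fun z => ∑ j ∈ Finset.range m, (z ^ (i + 1))⁻¹ * (b j z * s ^ j)) := by
      rw [poly2_J_sum m _ (fun j _ => hbi i j s)]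
      apply Finset.sum_congr rfl
      intro j _
      rw [hcc]
      simp only
      rw [mul_comm, ← poly2_J_mul]
      congr 1
      funext z
      ring
    have hi1 : CircleIntegrable (fun z => (z ^ (i + 1))⁻¹ * h (z, s)) 0 R₁ := by
      apply ContinuousOn.circleIntegrable hR₁.le
      refine ((continuousOn_id.pow _).inv₀ ?_).mul
        ((hd1 s hsb).continuousOn.mono sphere_subset_closedBall)
      intro z hz
      apply pow_ne_zero
      intro h0
      have h00 := hzn z hz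
      simp only [id] at h0
      rw [h0, norm_zero] at h00
      exact hR₁.ne h00
    have hi2 : CircleIntegrable (fun z => ∑ j ∈ Finset.range m, (z ^ (i + 1))⁻¹ * (b j z * s ^ j)) 0
        R₁ := by
      have := CircleIntegrable.fun_sum (Finset.range m) (fun j _ => hbi i j s)
      exact this
    rw [h1, ha]
    simp only
    rw [← poly2_J_sub hi1 hi2]
    apply poly2_J_le hR₁.le
    intro z hz
    have h2 : (z ^ (i + 1))⁻¹ * h (z, s) -
        ∑ j ∈ Finset.range m, (z ^ (i + 1))⁻¹ * (b j z * s ^ j) =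
        (z ^ (i + 1))⁻¹ * (h (z, s) - ∑ j ∈ Finset.range m, b j z * s ^ j) := by
      rw [← Finset.mul_sum, mul_sub]
    rw [h2, norm_mul, norm_inv, norm_pow, hzn z hz]
    apply mul_le_mul_of_nonneg_left _ (by positivity)
    exact poly2_tay (f := fun w => h (z, w)) hρ.le hρa (hd2 z (sphere_subset_closedBall hz))
      (fun w hw => hM z (sphere_subset_closedBall hz) w (sphere_subset_closedBall hw)) m s hs
  -- choice of n and m
  have hκ1 : R / R₁ < 1 := by rwa [div_lt_one hR₁]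
  have hκ2 : ρ / ρ₁ < 1 := by rwa [div_lt_one hρ₁]
  have hq1 : 0 < R₁ - R := by linarith
  have hq2 : 0 < ρ₁ - ρ := by linarith
  obtain ⟨n, hn⟩ := exists_pow_lt_of_lt_one (y := R / R₁)
    (x := ε / 2 / (R₁ * ((R₁ - R)⁻¹ * M))) (by positivity) hκ1
  obtain ⟨m, hm⟩ := exists_pow_lt_of_lt_one (y := ρ / ρ₁)
    (x := ε / 2 / ((n + 1) * (ρ₁ * ((ρ₁ - ρ)⁻¹ * M)))) (by positivity) hκ2
  rw [lt_div_iff₀ (by positivity)] at hn hm
  refine ⟨fun p => ∑ i ∈ Finset.range n, ∑ j ∈ Finset.range m, cc i j * (p.1 ^ i * p.2 ^ j), ?_, ?_⟩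
  · have e1 : (fun p : V2 => ∑ i ∈ Finset.range n, ∑ j ∈ Finset.range m,
        cc i j * (p.1 ^ i * p.2 ^ j)) = ∑ i ∈ Finset.range n, ∑ j ∈ Finset.range m,
        cc i j • (fun p : V2 => p.1 ^ i * p.2 ^ j) := by
      funext p
      simp only [Finset.sum_apply, Pi.smul_apply, smul_eq_mul]
    rw [e1]
    apply Submodule.sum_mem
    intro i _
    apply Submodule.sum_mem
    intro j _
    exact Submodule.smul_mem _ _ (Submodule.subset_span ⟨i, j, rfl⟩)
  · rintro ⟨q, s⟩ ⟨hq, hs⟩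
    rw [mem_closedBall, dist_zero_right] at hq hs
    simp only at hq hs
    have hsb : s ∈ closedBall (0:ℂ) ρ₁ := by
      rw [mem_closedBall, dist_zero_right]
      linarith
    have t1 : ‖h (q, s) - ∑ i ∈ Finset.range n, a i s * q ^ i‖ ≤
        R₁ * ((R / R₁) ^ n * ((R₁ - R)⁻¹ * M)) :=
      poly2_tay (f := fun z => h (z, s)) hR.le hRa (hd1 s hsb)
        (fun z hz => hM z (sphere_subset_closedBall hz) s hsb) n q hq
    set E : ℝ := ρ₁ * ((ρ / ρ₁) ^ m * ((ρ₁ - ρ)⁻¹ * M)) with hE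
    have hE0 : 0 ≤ E := by positivity
    have t2 : ‖∑ i ∈ Finset.range n, a i s * q ^ i - ∑ i ∈ Finset.range n,
        ∑ j ∈ Finset.range m, cc i j * (q ^ i * s ^ j)‖ ≤ n * E := by
      rw [← Finset.sum_sub_distrib]
      calc _ ≤ ∑ i ∈ Finset.range n, E := by
            apply norm_sum_le_of_le
            intro i _
            have e2 : a i s * q ^ i - ∑ j ∈ Finset.range m, cc i j * (q ^ i * s ^ j) =
                q ^ i * (a i s - ∑ j ∈ Finset.range m, cc i j * s ^ j) := by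
              rw [mul_sub, Finset.mul_sum]
              congr 1
              · ring
              · apply Finset.sum_congr rfl
                intro j _
                ring
            rw [e2, norm_mul, norm_pow]
            have e3 : ‖q‖ ^ i ≤ R₁ ^ i := pow_le_pow_left₀ (norm_nonneg _) (by linarith) i
            calc ‖q‖ ^ i * ‖a i s - ∑ j ∈ Finset.range m, cc i j * s ^ j‖ ≤
                  R₁ ^ i * (R₁ * ((R₁ ^ (i + 1))⁻¹ * E)) :=
                  mul_le_mul e3 (hE2 i m s hs) (norm_nonneg _) (by positivity)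
              _ = E := by
                  rw [pow_succ]
                  field_simp
        _ = n * E := by rw [Finset.sum_const, Finset.card_range, nsmul_eq_mul]
    have t3 : (n:ℝ) * E < ε / 2 := by
      calc (n:ℝ) * E ≤ (n + 1) * E := by nlinarith
        _ = (ρ / ρ₁) ^ m * ((n + 1) * (ρ₁ * ((ρ₁ - ρ)⁻¹ * M))) := by rw [hE]; ring
        _ < ε / 2 := hm
    have t4 : R₁ * ((R / R₁) ^ n * ((R₁ - R)⁻¹ * M)) < ε / 2 := by
      calc _ = (R / R₁) ^ n * (R₁ * ((R₁ - R)⁻¹ * M)) := by ring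
        _ < ε / 2 := hn
    calc ‖h (q, s) - ∑ i ∈ Finset.range n, ∑ j ∈ Finset.range m, cc i j * (q ^ i * s ^ j)‖ ≤
          ‖h (q, s) - ∑ i ∈ Finset.range n, a i s * q ^ i‖ +
          ‖∑ i ∈ Finset.range n, a i s * q ^ i - ∑ i ∈ Finset.range n,
            ∑ j ∈ Finset.range m, cc i j * (q ^ i * s ^ j)‖ := norm_sub_le_norm_sub_add_norm_sub _ _ _
      _ < ε := by linarith

theorem bpoly_diff {B : V2 → ℂ} (hB : B ∈ BPoly) : Differentiable ℂ B := by
  induction hB using Submodule.span_induction with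
  | mem f hf =>
    obtain ⟨i, j, rfl⟩ := hf
    exact (differentiable_fst.pow i).mul (differentiable_snd.pow j)
  | zero => exact differentiable_const 0
  | add f g _ _ hf hg => exact hf.add hg
  | smul c f _ hf => exact hf.const_smul c

end FBH
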