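import Pool.Agent.FBH.Defs
import Pool.Agent.FBH.ScBound

/-!
NiSurj. Holomorphic maps close to the identity: surjectivity and injectivity.
Proof. `e = π - id` is bounded by `δ` on `OD (R+d) (ρ+d)`. For `x ∈ OD (R+3d/4) (ρ+3d/4)` the sup-norm ball
`ball x (d/4)` is in `OD (R+d) (ρ+d)`; by sc_lip `e` is Lipschitz with constant `δ/(d/4) ≤ 1/2` on the convex set
`OD (R+3d/4) (ρ+3d/4)` (`8δ ≤ d`): this is `ni_lip` (if `δ < 0` the hypotheses are contradictory).
`ni_surj`: for `y ∈ OD (R+d/2) (ρ+d/2)` the map `T p = y - e p` maps `closedBall y δ ⊆ OD (R+3d/4) (ρ+3d/4)` into itself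
and is a contraction; its fixed point `p` satisfies `π p = y`, `‖p - y‖ ≤ δ` (Banach fixed point theorem on the
complete set `closedBall y δ`).
-/

set_option autoImplicit false

open Metric Set Filter Topology

namespace FBH

private theorem niSurj_mem (R ρ : ℝ) (x : V2) : x ∈ OD R ρ ↔ ‖x.1‖ < R ∧ ‖x.2‖ < ρ := by
  simp [OD, mem_prod]

private theorem niSurj_shift (R ρ a b : ℝ) (x y : V2) (hx : x ∈ OD (R + a) (ρ + a))
    (hxy : ‖y - x‖ ≤ b) : y ∈ OD (R + (a + b)) (ρ + (a + b)) := by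
  rw [niSurj_mem] at hx ⊢
  have h1 : ‖(y - x).1‖ ≤ b := le_trans (norm_fst_le _) hxy
  have h2 : ‖(y - x).2‖ ≤ b := le_trans (norm_snd_le _) hxy
  have e1 : y.1 = x.1 + (y - x).1 := by simp
  have e2 : y.2 = x.2 + (y - x).2 := by simp
  constructor
  · have := norm_add_le x.1 (y - x).1
    rw [← e1] at this
    linarith [hx.1]
  · have := norm_add_le x.2 (y - x).2
    rw [← e2] at this
    linarith [hx.2]

private theorem niSurj_delta (π : V2 → V2) (R ρ d δ : ℝ) (hR : 0 < R) (hρ : 0 < ρ) (hd : 0 < d)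
    (hc : ∀ p ∈ OD (R + d) (ρ + d), ‖π p - p‖ ≤ δ) : 0 ≤ δ := by
  have h0 : (0 : V2) ∈ OD (R + d) (ρ + d) := by
    rw [niSurj_mem]; simp; constructor <;> linarith
  exact le_trans (norm_nonneg _) (hc 0 h0)

theorem ni_lip (π : V2 → V2) (R ρ d δ : ℝ) (hR : 0 < R) (hρ : 0 < ρ) (hd : 0 < d) (hδ : 8 * δ ≤ d)
    (hπ : DifferentiableOn ℂ π (OD (R + d) (ρ + d)))
    (hc : ∀ p ∈ OD (R + d) (ρ + d), ‖π p - p‖ ≤ δ) :
    ∀ x ∈ OD (R + 3 * d / 4) (ρ + 3 * d / 4), ∀ y ∈ OD (R + 3 * d / 4) (ρ + 3 * d / 4),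
      ‖(π x - x) - (π y - y)‖ ≤ 1 / 2 * ‖x - y‖ := by
  intro x hx y hy
  have hδ0 := niSurj_delta π R ρ d δ hR hρ hd hc
  have hU : IsOpen (OD (R + d) (ρ + d)) := isOpen_ball.prod isOpen_ball
  have hK : Convex ℝ (OD (R + 3 * d / 4) (ρ + 3 * d / 4)) :=
    (convex_ball _ _).prod (convex_ball _ _)
  have hKU : ∀ x ∈ OD (R + 3 * d / 4) (ρ + 3 * d / 4), ball x (d / 4) ⊆ OD (R + d) (ρ + d) := by
    intro x hx y hy
    have hxy : ‖y - x‖ ≤ d / 4 := by
      rw [mem_ball, dist_eq_norm] at hy; exact hy.le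
    have h := niSurj_shift R ρ (3 * d / 4) (d / 4) x y hx hxy
    have e : 3 * d / 4 + d / 4 = d := by ring
    rwa [e] at h
  have hf : DifferentiableOn ℂ (fun p => π p - p) (OD (R + d) (ρ + d)) :=
    hπ.sub differentiableOn_id
  have h := sc_lip (fun p => π p - p) (OD (R + d) (ρ + d)) (OD (R + 3 * d / 4) (ρ + 3 * d / 4)) hU
    (d / 4) δ (by linarith) hK hKU hf hc x hx y hy
  refine le_trans h ?_
  apply mul_le_mul_of_nonneg_right _ (norm_nonneg _)
  rw [div_le_iff₀ (by linarith)]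
  linarith

theorem ni_surj (π : V2 → V2) (R ρ d δ : ℝ) (hR : 0 < R) (hρ : 0 < ρ) (hd : 0 < d) (hδ : 8 * δ ≤ d)
    (hπ : DifferentiableOn ℂ π (OD (R + d) (ρ + d)))
    (hc : ∀ p ∈ OD (R + d) (ρ + d), ‖π p - p‖ ≤ δ) :
    ∀ y ∈ OD (R + d / 2) (ρ + d / 2), ∃ p ∈ OD (R + 3 * d / 4) (ρ + 3 * d / 4),
      π p = y ∧ ‖p - y‖ ≤ δ := by
  intro y hy
  have hδ0 := niSurj_delta π R ρ d δ hR hρ hd hc
  have hlip := ni_lip π R ρ d δ hR hρ hd hδ hπ hc
  have hsub : ∀ p : V2, ‖p - y‖ ≤ δ → p ∈ OD (R + 3 * d / 4) (ρ + 3 * d / 4) := by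
    intro p hp
    have h := niSurj_shift R ρ (d / 2) (d / 4) y p hy (by linarith)
    have e : d / 2 + d / 4 = 3 * d / 4 := by ring
    rwa [e] at h
  have hsub2 : ∀ p : V2, ‖p - y‖ ≤ δ → p ∈ OD (R + d) (ρ + d) := by
    intro p hp
    have h := niSurj_shift R ρ (d / 2) (d / 2) y p hy (by linarith)
    have e : d / 2 + d / 2 = d := by ring
    rwa [e] at h
  have hmaps : MapsTo (fun p => y - (π p - p)) (closedBall y δ) (closedBall y δ) := by
    intro p hp
    rw [mem_closedBall, dist_eq_norm] at hp ⊢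
    have h := hc p (hsub2 p hp)
    have e : y - (π p - p) - y = -(π p - p) := by abel
    rw [e, norm_neg]
    exact h
  have hcomp : IsComplete (closedBall y δ) := isClosed_closedBall.isComplete
  have hcontr : ContractingWith (1 / 2 : NNReal) (hmaps.restrict _ _ _) := by
    refine ⟨by norm_num, ?_⟩
    refine LipschitzWith.of_dist_le_mul ?_
    intro p q
    have hp := p.2
    have hq := q.2
    rw [mem_closedBall, dist_eq_norm] at hp hq
    have h := hlip p (hsub p hp) q (hsub q hq)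
    rw [Subtype.dist_eq, Subtype.dist_eq, dist_eq_norm, dist_eq_norm]
    have e : (↑(hmaps.restrict (fun p => y - (π p - p)) (closedBall y δ) (closedBall y δ) p) : V2) -
        ↑(hmaps.restrict (fun p => y - (π p - p)) (closedBall y δ) (closedBall y δ) q) =
        -((π (p : V2) - p) - (π (q : V2) - q)) := by
      simp only [MapsTo.val_restrict_apply]
      abel
    rw [e, norm_neg]
    simpa using h
  obtain ⟨p, hp, hfix, -⟩ := ContractingWith.exists_fixedPoint' hcomp hmaps hcontr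
    (x := y) (by rw [mem_closedBall, dist_self]; exact hδ0) (by
      rw [edist_dist]; exact ENNReal.ofReal_ne_top)
  rw [mem_closedBall, dist_eq_norm] at hp
  refine ⟨p, hsub p hp, ?_, hp⟩
  have h : y - (π p - p) = p := hfix
  have h2 : π p = y - (y - (π p - p)) + p := by abel
  rw [h2, h]; abel

end FBH
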