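import Pool.Agent.FBH.Defs
import Pool.Agent.FBH.LAComp
import Pool.Agent.FBH.GenE

/-!
Norm0. Normalisation of a 1-jet by an automorphism of `X`.
-/

set_option autoImplicit false

open Metric Set Filter Topology

namespace FBH

private def norm0_Q (a b c d : ℂ) : Prop :=
  ∃ N N' : V2 → V2, LAut N N' ∧ N (0, 1) = (0, 1) ∧
    ∃ D : V2 →L[ℂ] V2, HasFDerivAt N D (0, 1) ∧ ∀ v : V2, D v = (a * v.1 + b * v.2, c * v.1 + d * v.2)

private lemma norm0_mul {a b c d a' b' c' d' : ℂ} (h : norm0_Q a b c d) (h' : norm0_Q a' b' c' d') :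
    norm0_Q (a * a' + b * c') (a * b' + b * d') (c * a' + d * c') (c * b' + d * d') := by
  obtain ⟨N, N', hN, h1, D, hD, hDv⟩ := h
  obtain ⟨M, M', hM, g1, E, hE, hEv⟩ := h'
  refine ⟨_, _, laut_comp hN hM, by simp only [g1, h1], D.comp E, ?_, ?_⟩
  · have hD' : HasFDerivAt N D (M (0, 1)) := by rw [g1]; exact hD
    exact hD'.comp _ hE
  · intro v
    rw [ContinuousLinearMap.comp_apply, hDv, hEv]
    refine Prod.ext ?_ ?_ <;> simp <;> ring

private lemma norm0_fst (x : V2) : HasFDerivAt (fun x : V2 => x.1) (ContinuousLinearMap.fst ℂ ℂ ℂ) x :=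
  (ContinuousLinearMap.fst ℂ ℂ ℂ).hasFDerivAt

private lemma norm0_snd (x : V2) : HasFDerivAt (fun x : V2 => x.2) (ContinuousLinearMap.snd ℂ ℂ ℂ) x :=
  (ContinuousLinearMap.snd ℂ ℂ ℂ).hasFDerivAt

private lemma norm0_E1 (c : ℂ) : norm0_Q 1 c 0 1 := by
  refine ⟨_, _, laut_comp (laut_E1 c 1) (laut_E1 (-c) 0), by simp, ?_⟩
  have hf : (fun x : V2 => ((fun x : V2 => (x.1 + c * x.2 ^ (1:ℤ), x.2))
      ((fun x : V2 => (x.1 + -c * x.2 ^ (0:ℤ), x.2)) x))) =
      fun x : V2 => (x.1 + (-c) + c * x.2, x.2) := by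
    funext x
    simp
  rw [hf]
  refine ⟨_, (((norm0_fst _).add_const (-c)).add ((norm0_snd _).const_mul c)).prodMk (norm0_snd _), ?_⟩
  intro v
  simp

private lemma norm0_E2 (c : ℂ) : norm0_Q 1 0 c 1 := by
  refine ⟨_, _, laut_E2 (fun z => c * z) (by fun_prop), by simp, ?_⟩
  refine ⟨_, (norm0_fst _).prodMk ((norm0_snd _).mul (((norm0_fst _).const_mul c).cexp)), ?_⟩
  intro v
  simp

private lemma norm0_S (l : ℂ) (hl : l ≠ 0) : norm0_Q l 0 0 1 := by
  refine ⟨_, _, laut_S l hl, by simp, ?_⟩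
  refine ⟨_, ((norm0_fst _).const_mul l).prodMk (norm0_snd _), ?_⟩
  intro v
  simp

private lemma norm0_cast {a b c d a' b' c' d' : ℂ} (h : norm0_Q a b c d) (h1 : a = a') (h2 : b = b')
    (h3 : c = c') (h4 : d = d') : norm0_Q a' b' c' d' := by
  subst h1 h2 h3 h4
  exact h

private lemma norm0_one {a b c d : ℂ} (hc : c ≠ 0) (h : a * d - b * c = 1) : norm0_Q a b c d := by
  refine norm0_cast (norm0_mul (norm0_mul (norm0_E1 ((a - 1) / c)) (norm0_E2 c))
    (norm0_E1 ((d - 1) / c))) ?_ ?_ ?_ ?_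
  · field_simp
    ring
  · field_simp
    linear_combination h
  · field_simp
    ring
  · field_simp
    ring

private lemma norm0_one' {a b c d : ℂ} (h : a * d - b * c = 1) : norm0_Q a b c d := by
  by_cases hc : c = 0
  · subst hc
    have ha : a ≠ 0 := by
      rintro rfl
      simp at h
    have h1 : norm0_Q a b a (b + d) := norm0_one ha (by linear_combination h)
    refine norm0_cast (norm0_mul (norm0_E2 (-1)) h1) ?_ ?_ ?_ ?_ <;> ring
  · exact norm0_one hc h

private lemma norm0_all {a b c d : ℂ} (h : a * d - b * c ≠ 0) : norm0_Q a b c d := by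
  have h1 : norm0_Q (a / (a * d - b * c)) (b / (a * d - b * c)) c d := norm0_one' (by field_simp)
  refine norm0_cast (norm0_mul (norm0_S _ h) h1) ?_ ?_ ?_ ?_
  · field_simp
    ring
  · field_simp
    ring
  · ring
  · ring

theorem norm0 (y₀ : V2) (hy : y₀.2 ≠ 0) (B : V2 →L[ℂ] V2) (hB : Function.Injective B) :
    ∃ N N' : V2 → V2, LAut N N' ∧ N y₀ = (0, 1) ∧
      ∃ D : V2 →L[ℂ] V2, HasFDerivAt N D y₀ ∧ ∀ v : V2, D (B v) = (v.1, 4 * v.2) := by
  set al := (B (1, 0)).1 with hal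
  set ga := (B (1, 0)).2 with hga
  set be := (B (0, 1)).1 with hbe
  set ep := (B (0, 1)).2 with hep
  have hBv : ∀ v : V2, B v = (al * v.1 + be * v.2, ga * v.1 + ep * v.2) := by
    intro v
    have hv : v = v.1 • ((1, 0) : V2) + v.2 • ((0, 1) : V2) := by
      refine Prod.ext ?_ ?_ <;> simp
    conv_lhs => rw [hv, map_add, map_smul, map_smul]
    refine Prod.ext ?_ ?_ <;> simp [hal, hga, hbe, hep] <;> ring
  have hdet : al * ep - be * ga ≠ 0 := by
    intro h0
    have h1 : B (ep, -ga) = 0 := by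
      rw [hBv]
      refine Prod.ext ?_ ?_ <;> simp
      · linear_combination h0
      · ring
    have h2 : ((ep, -ga) : V2) = 0 := hB (by rw [h1, map_zero])
    have h3 : B (-be, al) = 0 := by
      rw [hBv]
      refine Prod.ext ?_ ?_ <;> simp
      · ring
      · linear_combination h0
    have h4 : ((-be, al) : V2) = 0 := hB (by rw [h3, map_zero])
    have e1 : ep = 0 := congrArg Prod.fst h2
    have e2 : ga = 0 := by
      have := congrArg Prod.snd h2
      simpa using this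
    have e3 : al = 0 := congrArg Prod.snd h4
    have e4 : be = 0 := by
      have := congrArg Prod.fst h4
      simpa using this
    have h5 : B (1, 0) = 0 := by
      rw [hBv, e1, e2, e3, e4]
      simp
    have h6 : ((1, 0) : V2) = 0 := hB (by rw [h5, map_zero])
    exact one_ne_zero (congrArg Prod.fst h6)
  set y := y₀.2 with hydef
  have hdet' : al * (ep / y) - be * (ga / y) ≠ 0 := by
    have : al * (ep / y) - be * (ga / y) = (al * ep - be * ga) / y := by ring
    rw [this]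
    exact div_ne_zero hdet hy
  set De := al * (ep / y) - be * (ga / y) with hDe
  obtain ⟨N, N', hN, h1, D, hD, hDv⟩ : norm0_Q (ep / y / De) (-be / De) (-4 * (ga / y) / De)
      (4 * al / De) := by
    refine norm0_all ?_
    have : ep / y / De * (4 * al / De) - -be / De * (-4 * (ga / y) / De) = 4 / De := by
      have : ep / y / De * (4 * al / De) - -be / De * (-4 * (ga / y) / De) =
        4 * (al * (ep / y) - be * (ga / y)) / De / De := by ring
      rw [this, ← hDe]
      field_simp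
    rw [this]
    exact div_ne_zero (by norm_num) hdet'
  have hmid := laut_comp (laut_S2 y⁻¹ (inv_ne_zero hy)) (laut_E1 (-y₀.1) 0)
  refine ⟨_, _, laut_comp hN hmid, ?_, ?_⟩
  · have : ((y₀.1 + -y₀.1 * y₀.2 ^ (0:ℤ), y⁻¹ * y₀.2) : V2) = (0, 1) := by
      refine Prod.ext ?_ ?_
      · simp
      · simp [← hydef, hy]
    show N (y₀.1 + -y₀.1 * y₀.2 ^ (0:ℤ), y⁻¹ * y₀.2) = (0, 1)
    rw [this, h1]
  · have hm : HasFDerivAt (fun x : V2 => ((x.1 + -y₀.1 * x.2 ^ (0:ℤ), y⁻¹ * x.2) : V2))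
        ((ContinuousLinearMap.fst ℂ ℂ ℂ).prod (y⁻¹ • ContinuousLinearMap.snd ℂ ℂ ℂ)) y₀ := by
      have hf : (fun x : V2 => ((x.1 + -y₀.1 * x.2 ^ (0:ℤ), y⁻¹ * x.2) : V2)) =
          fun x : V2 => ((x.1 + (-y₀.1), y⁻¹ * x.2) : V2) := by
        funext x
        simp
      rw [hf]
      exact ((norm0_fst _).add_const _).prodMk ((norm0_snd _).const_mul _)
    have hval : ((y₀.1 + -y₀.1 * y₀.2 ^ (0:ℤ), y⁻¹ * y₀.2) : V2) = (0, 1) := by
      refine Prod.ext ?_ ?_
      · simp
      · simp [← hydef, hy]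
    have hD' : HasFDerivAt N D ((fun x : V2 => ((x.1 + -y₀.1 * x.2 ^ (0:ℤ), y⁻¹ * x.2) : V2)) y₀) := by
      simp only
      rw [hval]
      exact hD
    refine ⟨_, hD'.comp y₀ hm, ?_⟩
    intro v
    rw [ContinuousLinearMap.comp_apply, hDv, hBv]
    have hE : al * (ep / y) - be * (ga / y) = De := hDe.symm
    refine Prod.ext ?_ ?_
    · simp
      have : ep / y / De * (al * v.1 + be * v.2) + -be / De * (y⁻¹ * (ga * v.1 + ep * v.2)) =
          (al * (ep / y) - be * (ga / y)) / De * v.1 := by ring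
      rw [this, hE, div_self hdet', one_mul]
    · simp
      have : -(4 * (ga / y)) / De * (al * v.1 + be * v.2) + 4 * al / De * (y⁻¹ * (ga * v.1 + ep * v.2)) =
          4 * ((al * (ep / y) - be * (ga / y)) / De) * v.2 := by ring
      rw [this, hE, div_self hdet', mul_one]

end FBH
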