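import Pool.Agent.FBH.Defs
import Pool.Agent.FBH.Kai
import Pool.Agent.FBH.LAComp
import Pool.Agent.FBH.Norm0

/-!
S2a. `cd_lip`: `cd` is Lipschitz on the ball of radius `1/2` about `(0,1)` (convex; its second coordinates `u`, `|u-1| ≤ 1/2`, form a compact convex
subset of the slit plane on which the derivative of kai is continuous, hence bounded; mean value inequality).
`s2_norm`: let `N` be from norm0 for `y₀ = g 0`, `B = fderiv ℂ g 0`. The map `c = cd ∘ N ∘ g` is differentiable at `0`, `c 0 = cd (0,1) = 0`, with derivative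
`v ↦ ((D (B v)).1, (1/4) (D (B v)).2) = v` (kai_one). By definition of the derivative `‖c v - v‖ ≤ (δ'/(M+1)) ‖v‖` for small `v`; take `v = τ • p`,
`p ∈ PD R₁ ρ₁`, `‖p‖ ≤ M = max R₁ ρ₁`. Continuity of `N ∘ g` at `0` gives the second estimate.
-/

set_option autoImplicit false

open Metric Set Filter Topology

namespace FBH

theorem cd_lip : ∃ Lc : ℝ, 1 ≤ Lc ∧ ∀ y y' : V2, ‖y - (0, 1)‖ ≤ 1 / 2 → ‖y' - (0, 1)‖ ≤ 1 / 2 →
    ‖cd y - cd y'‖ ≤ Lc * ‖y - y'‖ := by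
  have hsl : ∀ u ∈ closedBall (1:ℂ) (1 / 2), closedBall u (1 / 4) ⊆ Complex.slitPlane := by
    intro u hu v hv
    left
    rw [mem_closedBall, dist_eq_norm] at hu hv
    have h1 := (abs_le.1 ((Complex.abs_re_le_norm _).trans hu)).1
    have h2 := (abs_le.1 ((Complex.abs_re_le_norm _).trans hv)).1
    simp only [Complex.sub_re, Complex.one_re] at h1 h2
    linarith
  have hder : ∀ u ∈ closedBall (1:ℂ) (1 / 2), ‖deriv kai u‖ ≤ 4 := by
    intro u hu
    have h1 : DiffContOnCl ℂ kai (ball u (1 / 4)) :=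
      (kai_diff.mono (hsl u hu)).diffContOnCl_ball (subset_refl _)
    have h2 := Complex.norm_deriv_le_of_forall_mem_sphere_norm_le (C := 1) (by norm_num : (0:ℝ) < 1 / 4) h1
      (fun z hz => (kai_norm (hsl u hu (sphere_subset_closedBall hz))).le)
    refine h2.trans ?_
    norm_num
  have hdat : ∀ u ∈ closedBall (1:ℂ) (1 / 2), DifferentiableAt ℂ kai u := by
    intro u hu
    have h1 : u ∈ Complex.slitPlane := hsl u hu (mem_closedBall_self (by norm_num))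
    exact (kai_diff u h1).differentiableAt (Complex.isOpen_slitPlane.mem_nhds h1)
  refine ⟨4, by norm_num, ?_⟩
  intro y y' hy hy'
  have hy2 : y.2 ∈ closedBall (1:ℂ) (1 / 2) := by
    rw [mem_closedBall, dist_eq_norm]
    exact (norm_snd_le (y - (0, 1))).trans hy
  have hy2' : y'.2 ∈ closedBall (1:ℂ) (1 / 2) := by
    rw [mem_closedBall, dist_eq_norm]
    exact (norm_snd_le (y' - (0, 1))).trans hy'
  have h3 := (convex_closedBall (1:ℂ) (1 / 2)).norm_image_sub_le_of_norm_deriv_le hdat hder hy2' hy2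
  have h4 : ‖y.2 - y'.2‖ ≤ ‖y - y'‖ := norm_snd_le (y - y')
  have h5 : ‖y.1 - y'.1‖ ≤ ‖y - y'‖ := norm_fst_le (y - y')
  have h6 : cd y - cd y' = (y.1 - y'.1, kai y.2 - kai y'.2) := rfl
  rw [h6, Prod.norm_def]
  apply max_le
  · have := norm_nonneg (y - y')
    exact h5.trans (by linarith)
  · exact h3.trans (by linarith)

theorem s2_norm (g : V2 → V2) (hg : DifferentiableAt ℂ g 0) (hX : (g 0).2 ≠ 0)
    (himm : Function.Injective (fderiv ℂ g 0)) (R₁ ρ₁ : ℝ) (δ' : ℝ) (hδ' : 0 < δ') :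
    ∃ N N' : V2 → V2, LAut N N' ∧ ∃ τ₁ : ℝ, 0 < τ₁ ∧ ∀ τ : ℝ, 0 < τ → τ < τ₁ → ∀ p ∈ PD R₁ ρ₁,
      ‖cd (N (g ((τ:ℂ) • p))) - (τ:ℂ) • p‖ ≤ δ' * τ ∧ ‖N (g ((τ:ℂ) • p)) - (0, 1)‖ ≤ 1 / 4 := by
  obtain ⟨N, N', hN, hN0, D, hD, hDB⟩ := norm0 (g 0) hX (fderiv ℂ g 0) himm
  refine ⟨N, N', hN, ?_⟩
  set M : ℝ := |R₁| + |ρ₁| with hM
  have hM0 : 0 ≤ M := by positivity
  have hcd : HasFDerivAt cd ((ContinuousLinearMap.fst ℂ ℂ ℂ).prod
      ((1 / 4 : ℂ) • ContinuousLinearMap.snd ℂ ℂ ℂ)) ((0, 1) : V2) := by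
    unfold cd
    refine HasFDerivAt.prodMk (hasFDerivAt_fst) ?_
    have h1 : HasFDerivAt (fun y : V2 => y.2) (ContinuousLinearMap.snd ℂ ℂ ℂ) ((0, 1) : V2) := hasFDerivAt_snd
    exact kai_one.2.comp_hasFDerivAt_of_eq _ h1 rfl
  have hc : HasFDerivAt (fun x => cd (N (g x))) (ContinuousLinearMap.id ℂ V2) 0 := by
    have h1 : HasFDerivAt (fun x => N (g x)) (D.comp (fderiv ℂ g 0)) 0 := hD.comp 0 hg.hasFDerivAt
    have h2 : HasFDerivAt cd ((ContinuousLinearMap.fst ℂ ℂ ℂ).prod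
      ((1 / 4 : ℂ) • ContinuousLinearMap.snd ℂ ℂ ℂ)) (N (g 0)) := by rw [hN0]; exact hcd
    have h3 := h2.comp 0 h1
    refine h3.congr_fderiv ?_
    ext v
    · simp [hDB]
    · simp [hDB]
    · simp [hDB]
    · simp [hDB]
  have hc0 : cd (N (g 0)) = 0 := by
    rw [hN0]
    unfold cd
    rw [kai_one.1]
    rfl
  have h1 := hc.isLittleO.def (c := δ' / (M + 1)) (by positivity)
  have h2 : ContinuousAt (fun x => N (g x)) 0 := hD.continuousAt.comp hg.continuousAt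
  have h3 : ∀ᶠ x in 𝓝 (0:V2), ‖N (g x) - (0, 1)‖ < 1 / 4 := by
    have h4 := h2.tendsto
    rw [hN0] at h4
    have h5 := (tendsto_iff_norm_sub_tendsto_zero.1 h4).eventually (gt_mem_nhds (show (0:ℝ) < 1 / 4 by norm_num))
    exact h5
  obtain ⟨r, hr, hball⟩ := Metric.eventually_nhds_iff.1 (h1.and h3)
  refine ⟨r / (M + 1), by positivity, ?_⟩
  intro τ hτ0 hτ p hp
  have hp1 : ‖p.1‖ ≤ |R₁| := by
    have := hp.1
    rw [mem_closedBall, dist_zero_right] at this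
    exact this.trans (le_abs_self _)
  have hp2 : ‖p.2‖ ≤ |ρ₁| := by
    have := hp.2
    rw [mem_closedBall, dist_zero_right] at this
    exact this.trans (le_abs_self _)
  have hpM : ‖p‖ ≤ M := by
    rw [Prod.norm_def]
    exact max_le (hp1.trans (by rw [hM]; linarith [abs_nonneg ρ₁])) (hp2.trans (by rw [hM]; linarith [abs_nonneg R₁]))
  have hn : ‖(τ:ℂ) • p‖ = τ * ‖p‖ := by
    rw [norm_smul, Complex.norm_real, Real.norm_of_nonneg hτ0.le]
  have hlt : dist ((τ:ℂ) • p) 0 < r := by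
    rw [dist_zero_right, hn]
    calc τ * ‖p‖ ≤ τ * M := by gcongr
      _ ≤ τ * (M + 1) := by nlinarith
      _ < r / (M + 1) * (M + 1) := by gcongr
      _ = r := by field_simp
  obtain ⟨h4, h5⟩ := hball hlt
  refine ⟨?_, h5.le⟩
  rw [hc0] at h4
  simp only [sub_zero, ContinuousLinearMap.coe_id', id_eq] at h4
  rw [hn] at h4
  refine h4.trans ?_
  have h6 : τ * ‖p‖ ≤ τ * (M + 1) := by nlinarith
  calc δ' / (M + 1) * (τ * ‖p‖) ≤ δ' / (M + 1) * (τ * (M + 1)) := by gcongr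
    _ = δ' * τ := by field_simp

end FBH
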