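import Pool.Agent.FBH.Defs
import Pool.Agent.FBH.LAComp
import Pool.Agent.FBH.GenE

/-!
UnbEx. A small shear makes the first component unbounded near every point of `{w = 0}`.
-/

set_option autoImplicit false

open Metric Set Filter Topology

namespace FBH

private def unbEx_bad (Θ : V2 → V2) (p : V2) (e : ℝ) : Prop :=
  ∃ M r : ℝ, 0 < r ∧ ∀ x : V2, x.2 ≠ 0 → ‖x - p‖ < r →
    ‖(Θ x).1 + (e:ℂ) * ((Θ x).2 + ((Θ x).2)⁻¹)‖ ≤ M

private lemma unbEx_bd {u : ℂ} {C : ℝ} (hC : 0 ≤ C) (h : ‖u + u⁻¹‖ ≤ C) : ‖u‖ ≤ C + 1 := by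
  by_contra hcon
  push Not at hcon
  have h1 : 1 < ‖u‖ := by linarith
  have h2 : ‖u⁻¹‖ < 1 := by
    rw [norm_inv]
    exact inv_lt_one_of_one_lt₀ h1
  have h3 : ‖u‖ ≤ ‖u + u⁻¹‖ + ‖u⁻¹‖ := by
    calc ‖u‖ = ‖(u + u⁻¹) - u⁻¹‖ := by ring_nf
      _ ≤ _ := norm_sub_le _ _
  linarith

private lemma unbEx_one {Θ Θ' : V2 → V2} (hΘ : LAut Θ Θ') (ξ : ℂ) {e e' : ℝ}
    (h : unbEx_bad Θ (ξ, 0) e) (h' : unbEx_bad Θ (ξ, 0) e') : e = e' := by
  by_contra hne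
  obtain ⟨M, r, hr, hM⟩ := h
  obtain ⟨M', r', hr', hM'⟩ := h'
  have hee : (0:ℝ) < ‖((e - e' : ℝ) : ℂ)‖ := by
    rw [norm_pos_iff]
    exact_mod_cast sub_ne_zero.mpr hne
  set C : ℝ := |(M + M') / ‖((e - e' : ℝ) : ℂ)‖| with hC
  have hC0 : 0 ≤ C := abs_nonneg _
  set K' : Set V2 := closedBall (0:ℂ) (M + |e| * C) ×ˢ
    (closedBall (0:ℂ) (C + 1) ∩ {u | (C + 1)⁻¹ ≤ ‖u‖}) with hK'
  have hKc : IsCompact K' := by
    refine (isCompact_closedBall _ _).prod ((isCompact_closedBall _ _).inter_right ?_)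
    exact isClosed_le continuous_const continuous_norm
  have hKX : K' ⊆ XS := by
    intro y hy
    have h1 : (C + 1)⁻¹ ≤ ‖y.2‖ := hy.2.2
    have h2 : 0 < (C + 1)⁻¹ := by positivity
    show y.2 ≠ 0
    rw [← norm_pos_iff]
    linarith
  have himc : IsCompact (Θ' '' K') := hKc.image_of_continuousOn (hΘ.diff'.continuousOn.mono hKX)
  have hcl : IsClosed (Θ' '' K') := himc.isClosed
  have hin : ∀ x : V2, x.2 ≠ 0 → ‖x - (ξ, 0)‖ < min r r' → x ∈ Θ' '' K' := by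
    intro x hx hxr
    refine ⟨Θ x, ?_, hΘ.left x hx⟩
    have a1 := hM x hx (lt_of_lt_of_le hxr (min_le_left _ _))
    have a2 := hM' x hx (lt_of_lt_of_le hxr (min_le_right _ _))
    set u := (Θ x).2 with hu
    set q := (Θ x).1 with hq
    have hu0 : u ≠ 0 := hΘ.mapsX x hx
    have a3 : ‖((e - e' : ℝ) : ℂ) * (u + u⁻¹)‖ ≤ M + M' := by
      calc ‖((e - e' : ℝ) : ℂ) * (u + u⁻¹)‖
          = ‖(q + (e:ℂ) * (u + u⁻¹)) - (q + (e':ℂ) * (u + u⁻¹))‖ := by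
            congr 1
            push_cast
            ring
        _ ≤ _ := norm_sub_le _ _
        _ ≤ M + M' := add_le_add a1 a2
    have a4 : ‖u + u⁻¹‖ ≤ C := by
      rw [norm_mul] at a3
      have : ‖u + u⁻¹‖ ≤ (M + M') / ‖((e - e' : ℝ) : ℂ)‖ := by
        rw [le_div_iff₀ hee]
        linarith
      exact this.trans (le_abs_self _)
    have a5 : ‖u‖ ≤ C + 1 := unbEx_bd hC0 a4
    have a6 : ‖u⁻¹‖ ≤ C + 1 := by
      refine unbEx_bd hC0 ?_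
      rw [inv_inv, add_comm]
      exact a4
    have a7 : ‖q‖ ≤ M + |e| * C := by
      calc ‖q‖ = ‖(q + (e:ℂ) * (u + u⁻¹)) - (e:ℂ) * (u + u⁻¹)‖ := by ring_nf
        _ ≤ _ := norm_sub_le _ _
        _ ≤ M + |e| * C := by
          refine add_le_add a1 ?_
          rw [norm_mul]
          refine mul_le_mul ?_ a4 (norm_nonneg _) (abs_nonneg _)
          simp
    refine ⟨?_, ?_, ?_⟩
    · simpa using a7
    · simpa using a5
    · show (C + 1)⁻¹ ≤ ‖u‖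
      rw [norm_inv] at a6
      rw [inv_le_comm₀ (by positivity) (norm_pos_iff.mpr hu0)]
      exact a6
  have hmem : ((ξ, 0) : V2) ∈ Θ' '' K' := by
    rw [← hcl.closure_eq]
    rw [Metric.mem_closure_iff]
    intro ε hε
    have hmin : 0 < min r r' := lt_min hr hr'
    set s : ℝ := min (min r r') ε / 2 with hs
    have hs0 : 0 < s := by
      have := lt_min hmin hε
      positivity
    have hs1 : s < min r r' := by
      have : min (min r r') ε ≤ min r r' := min_le_left _ _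
      rw [hs]
      linarith
    have hs2 : s < ε := by
      have : min (min r r') ε ≤ ε := min_le_right _ _
      have h3 := lt_min hmin hε
      rw [hs]
      linarith
    have hn : ‖((ξ, (s:ℂ)) : V2) - (ξ, 0)‖ = s := by
      rw [Prod.norm_def]
      simp [abs_of_pos hs0, hs0.le]
    refine ⟨(ξ, (s:ℂ)), hin _ ?_ ?_, ?_⟩
    · show (s:ℂ) ≠ 0
      exact_mod_cast hs0.ne'
    · rw [hn]
      exact hs1
    · rw [dist_comm, dist_eq_norm, hn]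
      exact hs2
  obtain ⟨y, hy, hye⟩ := hmem
  have := hΘ.mapsX' y (hKX hy)
  rw [hye] at this
  exact this rfl

theorem unb_ex {Θ Θ' : V2 → V2} (hΘ : LAut Θ Θ') (K : Set V2) (hK : IsCompact K) (hKX : K ⊆ XS)
    (δ : ℝ) (hδ : 0 < δ) :
    ∃ Θ₁ Θ₁' : V2 → V2, LAut Θ₁ Θ₁' ∧ Unb Θ₁ ∧ ∀ x ∈ K, ‖Θ₁ x - Θ x‖ ≤ δ := by
  -- bound on K
  have hc2 : ContinuousOn (fun x : V2 => (Θ x).2) K :=
    continuous_snd.comp_continuousOn (hΘ.diff.continuousOn.mono hKX)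
  have hcu : ContinuousOn (fun x : V2 => (Θ x).2 + ((Θ x).2)⁻¹) K :=
    hc2.add (hc2.inv₀ (fun x hx => hΘ.mapsX x (hKX hx)))
  obtain ⟨C₀, hC₀⟩ := hK.exists_bound_of_continuousOn hcu
  set C : ℝ := |C₀| + 1 with hC
  have hCpos : 0 < C := by positivity
  have hCb : ∀ x ∈ K, ‖(Θ x).2 + ((Θ x).2)⁻¹‖ ≤ C := by
    intro x hx
    have := hC₀ x hx
    have h2 := le_abs_self C₀
    rw [hC]
    linarith
  set e₀ : ℝ := δ / C with he₀
  have he₀pos : 0 < e₀ := div_pos hδ hCpos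
  set ξ : ℕ → ℂ := TopologicalSpace.denseSeq ℂ with hξ
  have hcount : (⋃ i : ℕ, {e : ℝ | unbEx_bad Θ (ξ i, 0) e}).Countable := by
    refine countable_iUnion (fun i => Set.Subsingleton.countable ?_)
    intro e he e' he'
    exact unbEx_one hΘ (ξ i) he he'
  have hex : ∃ e ∈ Ioo (0:ℝ) e₀, e ∉ ⋃ i : ℕ, {e : ℝ | unbEx_bad Θ (ξ i, 0) e} := by
    by_contra hcon
    push Not at hcon
    have hsub : Ioo (0:ℝ) e₀ ⊆ ⋃ i : ℕ, {e : ℝ | unbEx_bad Θ (ξ i, 0) e} := hcon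
    have h1 := hcount.mono hsub
    rw [← Cardinal.le_aleph0_iff_set_countable, Cardinal.mk_Ioo_real he₀pos] at h1
    exact (not_le.mpr Cardinal.aleph0_lt_continuum) h1
  obtain ⟨e, ⟨he1, he2⟩, hebad⟩ := hex
  have hcomp := laut_comp (laut_comp (laut_E1 (e:ℂ) 1) (laut_E1 (e:ℂ) (-1))) hΘ
  refine ⟨_, _, hcomp, ?_, ?_⟩
  · intro z M r hr
    have hd : DenseRange ξ := TopologicalSpace.denseRange_denseSeq ℂ
    obtain ⟨i, hi⟩ := Metric.denseRange_iff.mp hd z (r / 2) (by positivity)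
    have hnb : ¬ unbEx_bad Θ (ξ i, 0) e := by
      intro hb
      exact hebad (mem_iUnion.mpr ⟨i, hb⟩)
    have : ∃ x : V2, x.2 ≠ 0 ∧ ‖x - (ξ i, 0)‖ < r / 2 ∧
        M < ‖(Θ x).1 + (e:ℂ) * ((Θ x).2 + ((Θ x).2)⁻¹)‖ := by
      by_contra hcon
      push Not at hcon
      exact hnb ⟨M, r / 2, by positivity, fun x hx hxr => hcon x hx hxr⟩
    obtain ⟨x, hx, hxr, hxM⟩ := this
    refine ⟨x, hx, ?_, ?_⟩
    · have h1 : ‖((ξ i, 0) : V2) - (z, 0)‖ < r / 2 := by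
        rw [Prod.norm_def]
        rw [dist_comm, dist_eq_norm] at hi
        simp only [Prod.fst_sub, Prod.snd_sub, sub_zero, norm_zero]
        exact max_lt hi (by positivity)
      calc ‖x - (z, 0)‖ = ‖(x - (ξ i, 0)) + (((ξ i, 0) : V2) - (z, 0))‖ := by
            congr 1
            abel
        _ ≤ _ := norm_add_le _ _
        _ < r := by linarith
    · have hEq : ((Θ x).1 + (e:ℂ) * (Θ x).2 ^ (-1:ℤ) + (e:ℂ) * (Θ x).2 ^ (1:ℤ)) =
          (Θ x).1 + (e:ℂ) * ((Θ x).2 + ((Θ x).2)⁻¹) := by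
        rw [zpow_neg_one, zpow_one]
        ring
      show M < ‖((Θ x).1 + (e:ℂ) * (Θ x).2 ^ (-1:ℤ) + (e:ℂ) * (Θ x).2 ^ (1:ℤ))‖
      rw [hEq]
      exact hxM
  · intro x hx
    have hEq : (((Θ x).1 + (e:ℂ) * (Θ x).2 ^ (-1:ℤ) + (e:ℂ) * (Θ x).2 ^ (1:ℤ), (Θ x).2) : V2) - Θ x =
        ((e:ℂ) * ((Θ x).2 + ((Θ x).2)⁻¹), 0) := by
      refine Prod.ext ?_ ?_
      · simp only [Prod.fst_sub]
        rw [zpow_neg_one, zpow_one]
        ring
      · simp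
    show ‖(((Θ x).1 + (e:ℂ) * (Θ x).2 ^ (-1:ℤ) + (e:ℂ) * (Θ x).2 ^ (1:ℤ), (Θ x).2) : V2) - Θ x‖ ≤ δ
    rw [hEq, Prod.norm_def]
    refine max_le ?_ (by simpa using hδ.le)
    show ‖(e:ℂ) * ((Θ x).2 + ((Θ x).2)⁻¹)‖ ≤ δ
    rw [norm_mul]
    have h1 : ‖(e:ℂ)‖ ≤ δ / C := by
      rw [Complex.norm_real, Real.norm_eq_abs, abs_of_pos he1]
      exact he2.le
    calc ‖(e:ℂ)‖ * ‖(Θ x).2 + ((Θ x).2)⁻¹‖ ≤ (δ / C) * C :=
          mul_le_mul h1 (hCb x hx) (norm_nonneg _) (by positivity)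
      _ = δ := by field_simp

end FBH
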