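import Pool.Agent.FBH.Defs

/-!
WildStep. One step of the construction of the wild entire function.
-/

set_option autoImplicit false

open Metric Set Filter Topology

namespace FBH

private theorem wildstep_exp (y : ℂ) (hy : ‖y‖ = 1) : 1 / 4 ≤ ‖Complex.exp y - 1‖ := by
  have h3 := Complex.exp_bound (x := y) (n := 3) hy.le (by norm_num)
  rw [hy] at h3
  have hs : ∑ m ∈ Finset.range 3, y ^ m / (m.factorial : ℂ) = 1 + y + y ^ 2 / 2 := by
    simp [Finset.sum_range_succ, Nat.factorial]
  rw [hs] at h3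
  have h4 : ‖Complex.exp y - (1 + y + y ^ 2 / 2)‖ ≤ 2 / 9 := by
    refine h3.trans ?_
    norm_num [Nat.factorial]
  have h5 : ‖y ^ 2 / 2‖ = 1 / 2 := by
    rw [norm_div, norm_pow, hy]; norm_num
  have h6 : y = (Complex.exp y - 1) - (Complex.exp y - (1 + y + y ^ 2 / 2)) - y ^ 2 / 2 := by ring
  have h7 : ‖y‖ ≤ ‖Complex.exp y - 1‖ + ‖Complex.exp y - (1 + y + y ^ 2 / 2)‖ + ‖y ^ 2 / 2‖ := by
    calc ‖y‖ = ‖(Complex.exp y - 1) - (Complex.exp y - (1 + y + y ^ 2 / 2)) - y ^ 2 / 2‖ := by
          rw [← h6]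
      _ ≤ _ := by
          refine (norm_sub_le _ _).trans ?_
          gcongr
          exact norm_sub_le _ _
  rw [hy, h5] at h7
  linarith

private theorem wildstep_root (F : ℂ → ℂ) (hF : Differentiable ℂ F) (v : ℂ) (B : ℝ) (hB : 0 < B)
    (hv : 8 * (B + 1) < ‖v‖)
    (hFB : ∀ w ∈ closedBall (Complex.log v) 1, ‖F w‖ ≤ B) :
    ∃ w ∈ closedBall (Complex.log v) 1, Complex.exp w + F w = v := by
  by_contra hcon
  push Not at hcon
  have hv0 : v ≠ 0 := by
    rintro rfl
    simp at hv
    linarith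
  set w0 := Complex.log v with hw0
  have hne : ∀ w ∈ closedBall w0 1, Complex.exp w - v + F w ≠ 0 := by
    intro w hw h0
    apply hcon w hw
    linear_combination h0
  have hfd : Differentiable ℂ (fun w => Complex.exp w - v + F w) :=
    (Complex.differentiable_exp.sub (differentiable_const v)).add hF
  have hcl : closure (ball w0 1) = closedBall w0 1 := closure_ball w0 (by norm_num)
  have hdc : DiffContOnCl ℂ (fun w => (Complex.exp w - v + F w)⁻¹) (ball w0 1) := by
    refine ⟨?_, ?_⟩
    · exact hfd.differentiableOn.inv (fun w hw => hne w (ball_subset_closedBall hw))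
    · rw [hcl]
      exact hfd.continuous.continuousOn.inv₀ hne
  have hfr : ∀ z ∈ frontier (ball w0 1), ‖(fun w => (Complex.exp w - v + F w)⁻¹) z‖ ≤ (B + 2)⁻¹ := by
    intro z hz
    rw [frontier_ball w0 (by norm_num : (1:ℝ) ≠ 0)] at hz
    have hz1 : ‖z - w0‖ = 1 := by
      rw [← dist_eq_norm]; exact hz
    have hzc : z ∈ closedBall w0 1 := sphere_subset_closedBall hz
    have e1 : Complex.exp z - v = v * (Complex.exp (z - w0) - 1) := by
      have : Complex.exp z = Complex.exp w0 * Complex.exp (z - w0) := by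
        rw [← Complex.exp_add]; congr 1; ring
      rw [this, hw0, Complex.exp_log hv0]; ring
    have e2 : ‖v‖ / 4 ≤ ‖Complex.exp z - v‖ := by
      rw [e1, norm_mul]
      have := wildstep_exp _ hz1
      have hvn := norm_nonneg v
      nlinarith
    have e3 : ‖Complex.exp z - v‖ ≤ ‖Complex.exp z - v + F z‖ + ‖F z‖ := by
      have : Complex.exp z - v = (Complex.exp z - v + F z) - F z := by ring
      calc ‖Complex.exp z - v‖ = ‖(Complex.exp z - v + F z) - F z‖ := by rw [← this]
        _ ≤ _ := norm_sub_le _ _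
    have e4 := hFB z hzc
    have e5 : B + 2 ≤ ‖Complex.exp z - v + F z‖ := by linarith
    simp only [norm_inv]
    exact inv_anti₀ (by linarith) e5
  have hmem : w0 ∈ closure (ball w0 1) := subset_closure (mem_ball_self (by norm_num))
  have hle := Complex.norm_le_of_forall_mem_frontier_norm_le isBounded_ball hdc hfr hmem
  simp only [norm_inv] at hle
  have hw0c : w0 ∈ closedBall w0 1 := mem_closedBall_self (by norm_num)
  have hval : Complex.exp w0 - v + F w0 = F w0 := by
    rw [hw0, Complex.exp_log hv0]; ring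
  have hpos : 0 < ‖Complex.exp w0 - v + F w0‖ := norm_pos_iff.mpr (hne w0 hw0c)
  have hB2 : ‖Complex.exp w0 - v + F w0‖ ≤ B := by
    rw [hval]; exact hFB w0 hw0c
  have hge : B + 2 ≤ ‖Complex.exp w0 - v + F w0‖ := by
    rwa [inv_le_inv₀ hpos (by linarith)] at hle
  linarith

theorem wild_step (h : ℂ → ℂ) (hh : Differentiable ℂ h) (q u : ℂ) (hq : q ≠ 0) (hu : u ≠ 0)
    (δ : ℝ) (hδ : 0 < δ) (hδ1 : δ ≤ 1) (T : ℝ) (hT : 1 ≤ T) :
    ∃ N₀ : ℕ, ∀ N ≥ N₀, ∀ e : ℂ → ℂ, Differentiable ℂ e → (∀ x ∈ closedBall q 1, ‖e x‖ ≤ 1) →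
      ∀ t : ℝ, 1 / T ≤ t → t ≤ T → ∃ x ∈ ball q δ, u * Complex.exp (h x + (x / q) ^ N + e x) = -(t:ℂ) := by
  obtain ⟨B0, hB0⟩ := (isCompact_closedBall q (1:ℝ)).exists_bound_of_continuousOn
    hh.continuous.continuousOn
  set B : ℝ := |B0| + 1 with hBdef
  have hBpos : 0 < B := by positivity
  have hBh : ∀ x ∈ closedBall q 1, ‖h x‖ + 1 ≤ B := by
    intro x hx
    have := hB0 x hx
    have h2 := le_abs_self B0
    rw [hBdef]; linarith
  set c : ℂ := Complex.log (-1 / u) with hc
  have hexpc : Complex.exp c = -1 / u := Complex.exp_log (div_ne_zero (by norm_num) hu)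
  set C : ℝ := ‖c‖ + Real.log T with hC
  have hlogT : 0 ≤ Real.log T := Real.log_nonneg hT
  have hCnn : 0 ≤ C := by positivity
  obtain ⟨n, hn⟩ := exists_nat_ge ((8 * (B + 1) + C + 1) / (2 * Real.pi))
  have hpi := Real.pi_pos
  have hn2 : 8 * (B + 1) + C + 1 ≤ 2 * Real.pi * n := by
    rw [div_le_iff₀ (by positivity)] at hn
    linarith
  set D : ℝ := 2 * Real.pi * n + C + Real.pi + 1 with hD
  have hDpos : 0 < D := by positivity
  obtain ⟨N₀, hN₀⟩ := exists_nat_gt (D * (1 + 2 * ‖q‖ / δ))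
  refine ⟨N₀, ?_⟩
  intro N hN e he heb t ht1 ht2
  have hTpos : 0 < T := by linarith
  have htpos : 0 < t := lt_of_lt_of_le (by positivity) ht1
  have hNreal : D * (1 + 2 * ‖q‖ / δ) < N := lt_of_lt_of_le hN₀ (by exact_mod_cast hN)
  have hN1 : D < N := by
    have : D * 1 ≤ D * (1 + 2 * ‖q‖ / δ) := by
      apply mul_le_mul_of_nonneg_left _ hDpos.le
      have : 0 ≤ 2 * ‖q‖ / δ := by positivity
      linarith
    linarith
  have hNpos : (0:ℝ) < N := by linarith
  have hNne : (N:ℂ) ≠ 0 := by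
    have : (N:ℝ) ≠ 0 := hNpos.ne'
    exact_mod_cast this
  have hlogt : |Real.log t| ≤ Real.log T := by
    rw [abs_le]
    constructor
    · have := Real.log_le_log (by positivity) ht1
      rw [one_div, Real.log_inv] at this
      exact this
    · exact Real.log_le_log htpos ht2
  set v : ℂ := c + (Real.log t : ℂ) + (n:ℂ) * (2 * Real.pi * Complex.I) with hv
  have hexpv : Complex.exp v = -1 / u * t := by
    rw [hv, Complex.exp_add, Complex.exp_add, hexpc, Complex.exp_nat_mul_two_pi_mul_I, mul_one,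
      ← Complex.ofReal_exp, Real.exp_log htpos]
  have hnn : ‖(n:ℂ) * (2 * Real.pi * Complex.I)‖ = 2 * Real.pi * n := by
    rw [norm_mul, norm_mul, norm_mul]
    simp [abs_of_pos hpi]
    ring
  have hlt : ‖(Real.log t : ℂ)‖ ≤ Real.log T := by
    rw [Complex.norm_real, Real.norm_eq_abs]; exact hlogt
  have hvlow : 8 * (B + 1) < ‖v‖ := by
    have : (n:ℂ) * (2 * Real.pi * Complex.I) = v - c - (Real.log t : ℂ) := by rw [hv]; ring
    have h1 : ‖(n:ℂ) * (2 * Real.pi * Complex.I)‖ ≤ ‖v‖ + ‖c‖ + ‖(Real.log t : ℂ)‖ := by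
      rw [this]
      refine (norm_sub_le _ _).trans ?_
      gcongr
      exact norm_sub_le _ _
    rw [hnn] at h1
    linarith
  have hvup : ‖v‖ ≤ 2 * Real.pi * n + C := by
    rw [hv]
    refine (norm_add_le _ _).trans ?_
    rw [hnn]
    have := norm_add_le c (Real.log t : ℂ)
    linarith
  have hv1 : 1 ≤ ‖v‖ := by linarith
  have hlogv : ‖Complex.log v‖ ≤ 2 * Real.pi * n + C + Real.pi := by
    have h1 : Complex.log v = ((Complex.log v).re : ℂ) + ((Complex.log v).im : ℂ) * Complex.I :=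
      (Complex.re_add_im _).symm
    have h2 : ‖Complex.log v‖ ≤ |(Complex.log v).re| + |(Complex.log v).im| :=
      Complex.norm_le_abs_re_add_abs_im _
    have h3 : |(Complex.log v).re| ≤ ‖v‖ := by
      rw [Complex.log_re, abs_of_nonneg (Real.log_nonneg hv1)]
      have := Real.log_le_sub_one_of_pos (show 0 < ‖v‖ by linarith)
      linarith
    have h4 : |(Complex.log v).im| ≤ Real.pi := by
      rw [Complex.log_im]; exact Complex.abs_arg_le_pi v
    linarith
  -- the chart
  have hxd : ∀ w : ℂ, ‖w‖ ≤ D → q * Complex.exp (w / N) ∈ ball q δ := by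
    intro w hw
    have h1 : ‖w / N‖ ≤ D / N := by
      rw [norm_div]
      simp only [Complex.norm_natCast]
      gcongr
    have h2 : ‖w / N‖ ≤ 1 := by
      refine h1.trans ?_
      rw [div_le_one hNpos]; exact hN1.le
    have h3 := Complex.norm_exp_sub_one_le h2
    rw [mem_ball, dist_eq_norm]
    have h4 : q * Complex.exp (w / N) - q = q * (Complex.exp (w / N) - 1) := by ring
    rw [h4, norm_mul]
    have hqn : 0 < ‖q‖ := norm_pos_iff.mpr hq
    calc ‖q‖ * ‖Complex.exp (w / N) - 1‖ ≤ ‖q‖ * (2 * (D / N)) := by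
          gcongr
          linarith
      _ < δ := by
          have h5 : D * (2 * ‖q‖ / δ) < N := by
            have : D * (1 + 2 * ‖q‖ / δ) = D + D * (2 * ‖q‖ / δ) := by ring
            linarith
          rw [show D * (2 * ‖q‖ / δ) = D * 2 * ‖q‖ / δ by ring, div_lt_iff₀ hδ] at h5
          rw [show ‖q‖ * (2 * (D / N)) = D * 2 * ‖q‖ / N by ring, div_lt_iff₀ hNpos]
          linarith
  have hsub : ∀ w ∈ closedBall (Complex.log v) 1, ‖w‖ ≤ D := by
    intro w hw
    rw [mem_closedBall, dist_eq_norm] at hw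
    have : ‖w‖ ≤ ‖w - Complex.log v‖ + ‖Complex.log v‖ := by
      have := norm_add_le (w - Complex.log v) (Complex.log v)
      simpa using this
    rw [hD]; linarith
  obtain ⟨w, hw, hroot⟩ := wildstep_root
    (fun w => h (q * Complex.exp (w / N)) + e (q * Complex.exp (w / N)))
    (by
      have hxdiff : Differentiable ℂ (fun w : ℂ => q * Complex.exp (w / N)) :=
        (differentiable_const q).mul ((differentiable_id.div_const (N:ℂ)).cexp)
      exact (hh.comp hxdiff).add (he.comp hxdiff))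
    v B hBpos hvlow
    (by
      intro w hw
      have hx := hxd w (hsub w hw)
      have hx1 : q * Complex.exp (w / N) ∈ closedBall q 1 :=
        closedBall_subset_closedBall hδ1 (ball_subset_closedBall hx)
      have e1 := hBh _ hx1
      have e2 := heb _ hx1
      exact (norm_add_le _ _).trans (by linarith))
  refine ⟨q * Complex.exp (w / N), hxd w (hsub w hw), ?_⟩
  have hpow : (q * Complex.exp (w / N) / q) ^ N = Complex.exp w := by
    rw [mul_div_cancel_left₀ _ hq, ← Complex.exp_nat_mul, mul_div_cancel₀ _ hNne]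
  rw [hpow]
  have hsum : h (q * Complex.exp (w / N)) + Complex.exp w + e (q * Complex.exp (w / N)) = v := by
    rw [← hroot]; ring
  rw [hsum, hexpv]
  field_simp

end FBH
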