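import Pool.Agent.FBH.Defs
import Pool.Agent.FBH.WildStep

/-!
WildEnt. The wild entire function `g(x) = Σ_j (x/q_j)^{N_j}`.
Proof. Choose recursively `N_j` (with `h_j = Σ_{i<j} (x/q_i)^{N_i}`, entire): `N_j ≥ N₀(h_j, q_j, u_j, min (δ_j) 1, T = j+1)` of
wild_step and `N_j ≥ j + 1 + c`, where `2^(-c) ≤ min η 1`. Recursion: state `h_j`; or strong recursion on `N`. Since `‖q_i‖ ≥ 2^i (2B+2)`-growth:
for `i > j` and `‖x‖ ≤ ‖q_j‖ + 1`, `‖x/q_i‖ ≤ (‖q_j‖+1)/‖q_{j+1}‖ ≤ 1/2` (`‖q_i‖` increasing), so the tail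
`e_j = Σ_{i>j} (x/q_i)^{N_i}` is bounded by `Σ_{i>j} 2^(-N_i) ≤ 1` on `closedBall (q_j) 1`. The series converges locally uniformly (`‖q_i‖ → ∞`), so `g` and
`e_j` are entire (differentiableOn_tsum_of_summable_norm, or TendstoLocallyUniformlyOn.differentiableOn). On `‖x‖ ≤ B`, `‖x/q_i‖ ≤ 1/2` for all
`i`, so `‖g x‖ ≤ Σ 2^(-(i+1+c)) ≤ η`. Apply wild_step with `e = e_j`: `g = h_j + (x/q_j)^{N_j} + e_j`.
-/

set_option autoImplicit false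

open Metric Set Filter Topology

namespace FBH

theorem WildEnt_norm_mono (q : ℕ → ℂ) (hq : ∀ j, 2 * ‖q j‖ + 2 ≤ ‖q (j + 1)‖) :
    Monotone (fun j => ‖q j‖) := by
  apply monotone_nat_of_le_succ
  intro n
  have := hq n
  have h2 := norm_nonneg (q n)
  show ‖q n‖ ≤ ‖q (n + 1)‖
  linarith

theorem WildEnt_norm_growth (q : ℕ → ℂ) (hq0 : 2 ≤ ‖q 0‖)
    (hq : ∀ j, 2 * ‖q j‖ + 2 ≤ ‖q (j + 1)‖) : ∀ j : ℕ, (2:ℝ) ^ (j + 1) ≤ ‖q j‖ := by
  intro j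
  induction j with
  | zero => simpa using hq0
  | succ n ih =>
    have := hq n
    calc (2:ℝ) ^ (n + 1 + 1) = 2 * 2 ^ (n + 1) := by ring
      _ ≤ 2 * ‖q n‖ := by linarith
      _ ≤ _ := by linarith

theorem WildEnt_summable (q : ℕ → ℂ) (hg : ∀ j : ℕ, (2:ℝ) ^ (j + 1) ≤ ‖q j‖) (N : ℕ → ℕ)
    (hN : ∀ j, j + 1 ≤ N j) (R : ℝ) (hR : 0 ≤ R) : Summable (fun i => (R / ‖q i‖) ^ N i) := by
  have hev : ∀ᶠ i : ℕ in atTop, R ≤ (2:ℝ) ^ i := by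
    have := tendsto_pow_atTop_atTop_of_one_lt (r := (2:ℝ)) (by norm_num)
    exact this.eventually_ge_atTop R
  have hgeo : Summable (fun i : ℕ => ((1:ℝ) / 2) ^ i) := summable_geometric_two
  refine Summable.of_norm_bounded_eventually_nat hgeo ?_
  filter_upwards [hev] with i hi
  have hqi : 0 < ‖q i‖ := lt_of_lt_of_le (by positivity) (hg i)
  have h1 : R / ‖q i‖ ≤ 1 / 2 := by
    rw [div_le_iff₀ hqi]
    have := hg i
    have h3 : (2:ℝ) ^ (i + 1) = 2 * 2 ^ i := by ring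
    linarith
  have h0 : 0 ≤ R / ‖q i‖ := by positivity
  rw [Real.norm_of_nonneg (by positivity)]
  calc (R / ‖q i‖) ^ N i ≤ (1 / 2) ^ N i := by gcongr
    _ ≤ (1 / 2) ^ i := by
      apply pow_le_pow_of_le_one (by norm_num) (by norm_num)
      have := hN i
      omega

theorem WildEnt_norm_term (q : ℂ) (hq : 0 < ‖q‖) (N : ℕ) (x : ℂ) (R : ℝ) (hx : ‖x‖ ≤ R) :
    ‖(x / q) ^ N‖ ≤ (R / ‖q‖) ^ N := by
  rw [norm_pow, norm_div]
  gcongr

theorem WildEnt_diff (q : ℕ → ℂ) (hg : ∀ j : ℕ, (2:ℝ) ^ (j + 1) ≤ ‖q j‖) (N : ℕ → ℕ)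
    (hN : ∀ j, j + 1 ≤ N j) (k : ℕ) :
    Differentiable ℂ (fun x : ℂ => ∑' i, (x / q (i + k)) ^ N (i + k)) := by
  have key : ∀ R : ℝ, 0 < R →
      DifferentiableOn ℂ (fun x : ℂ => ∑' i, (x / q (i + k)) ^ N (i + k)) (ball 0 R) := by
    intro R hR
    have hs := (summable_nat_add_iff k).2 (WildEnt_summable q hg N hN R hR.le)
    refine Complex.differentiableOn_tsum_of_summable_norm hs ?_ isOpen_ball ?_
    · intro i
      fun_prop
    · intro i w hw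
      apply WildEnt_norm_term
      · exact lt_of_lt_of_le (by positivity) (hg (i + k))
      · simpa using (mem_ball_zero_iff.1 hw).le
  intro x
  have := (key (‖x‖ + 1) (by positivity)).differentiableAt (x := x)
    (isOpen_ball.mem_nhds (by simp))
  exact this

theorem WildEnt_termsummable (q : ℕ → ℂ) (hg : ∀ j : ℕ, (2:ℝ) ^ (j + 1) ≤ ‖q j‖) (N : ℕ → ℕ)
    (hN : ∀ j, j + 1 ≤ N j) (x : ℂ) : Summable (fun i => (x / q i) ^ N i) := by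
  refine Summable.of_norm_bounded (WildEnt_summable q hg N hN ‖x‖ (norm_nonneg x)) ?_
  intro i
  apply WildEnt_norm_term
  · exact lt_of_lt_of_le (by positivity) (hg i)
  · exact le_rfl

/-- The choice of the exponents. -/
theorem WildEnt_choice (q u : ℕ → ℂ) (δ : ℕ → ℝ) (hq : ∀ j, q j ≠ 0) (hu : ∀ j, u j ≠ 0)
    (hδ : ∀ j, 0 < δ j) (c : ℕ) :
    ∃ N : ℕ → ℕ, (∀ j, j + 1 + c ≤ N j) ∧
      ∀ j : ℕ, ∀ e : ℂ → ℂ, Differentiable ℂ e → (∀ x ∈ closedBall (q j) 1, ‖e x‖ ≤ 1) →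
      ∀ t : ℝ, 1 / ((j:ℝ) + 1) ≤ t → t ≤ (j:ℝ) + 1 →
        ∃ x ∈ ball (q j) (min (δ j) 1), u j * Complex.exp ((∑ i ∈ Finset.range j, (x / q i) ^ N i) +
          (x / q j) ^ N j + e x) = -(t:ℂ) := by
  have H : ∀ (j : ℕ) (h : {h : ℂ → ℂ // Differentiable ℂ h}), ∃ N : ℕ, j + 1 + c ≤ N ∧
      ∀ e : ℂ → ℂ, Differentiable ℂ e → (∀ x ∈ closedBall (q j) 1, ‖e x‖ ≤ 1) →
      ∀ t : ℝ, 1 / ((j:ℝ) + 1) ≤ t → t ≤ (j:ℝ) + 1 →
        ∃ x ∈ ball (q j) (min (δ j) 1), u j * Complex.exp (h.1 x +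
          (x / q j) ^ N + e x) = -(t:ℂ) := by
    intro j h
    obtain ⟨N₀, hN₀⟩ := wild_step h.1 h.2 (q j) (u j) (hq j) (hu j) (min (δ j) 1)
      (lt_min (hδ j) one_pos) (min_le_right _ _) ((j:ℝ) + 1) (by
        have : (0:ℝ) ≤ j := Nat.cast_nonneg j
        linarith)
    exact ⟨max N₀ (j + 1 + c), le_max_right _ _, fun e he hb t h1 h2 =>
      hN₀ _ (le_max_left _ _) e he hb t h1 h2⟩
  choose Nf hNf1 hNf2 using H
  let st : ℕ → {h : ℂ → ℂ // Differentiable ℂ h} := fun j => Nat.rec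
    ⟨fun _ => 0, differentiable_const 0⟩
    (fun j h => ⟨fun x => h.1 x + (x / q j) ^ Nf j h, by
      have := h.2
      fun_prop⟩) j
  have hst : ∀ j x, (st j).1 x = ∑ i ∈ Finset.range j, (x / q i) ^ Nf i (st i) := by
    intro j x
    induction j with
    | zero => rfl
    | succ n ih =>
      rw [Finset.sum_range_succ, ← ih]
  refine ⟨fun j => Nf j (st j), fun j => hNf1 j (st j), ?_⟩
  intro j e he hb t h1 h2
  obtain ⟨x, hx, hx2⟩ := hNf2 j (st j) e he hb t h1 h2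
  refine ⟨x, hx, ?_⟩
  rw [hst] at hx2
  exact hx2

theorem wild_entire (q u : ℕ → ℂ) (δ : ℕ → ℝ) (hu : ∀ j, u j ≠ 0) (hδ : ∀ j, 0 < δ j) (B : ℝ)
    (hB : 0 ≤ B) (hq0 : 2 * B + 2 ≤ ‖q 0‖) (hq : ∀ j, 2 * ‖q j‖ + 2 ≤ ‖q (j + 1)‖) (η : ℝ)
    (hη : 0 < η) :
    ∃ g : ℂ → ℂ, Differentiable ℂ g ∧ (∀ x : ℂ, ‖x‖ ≤ B → ‖g x‖ ≤ η) ∧
      ∀ (j : ℕ) (t : ℝ), 1 / ((j:ℝ) + 1) ≤ t → t ≤ (j:ℝ) + 1 →
        ∃ x ∈ ball (q j) (δ j), u j * Complex.exp (g x) = -(t:ℂ) := by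
  have hq0' : 2 ≤ ‖q 0‖ := by linarith
  have hg := WildEnt_norm_growth q hq0' hq
  have hqne : ∀ j, 0 < ‖q j‖ := fun j => lt_of_lt_of_le (by positivity) (hg j)
  obtain ⟨c, hc⟩ : ∃ c : ℕ, ((1:ℝ) / 2) ^ c < η := exists_pow_lt_of_lt_one hη (by norm_num)
  obtain ⟨N, hN, hN2⟩ := WildEnt_choice q u δ (fun j => norm_pos_iff.1 (hqne j)) hu hδ c
  have hN' : ∀ j, j + 1 ≤ N j := fun j => by
    have := hN j
    omega
  have hmono := WildEnt_norm_mono q hq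
  -- general bound
  have hbound : ∀ (k : ℕ) (x : ℂ), 2 * ‖x‖ ≤ ‖q k‖ →
      ‖∑' i, (x / q (i + k)) ^ N (i + k)‖ ≤ (1 / 2) ^ c := by
    intro k x hx
    have hs := hasSum_geometric_two' (((1:ℝ) / 2) ^ c)
    refine tsum_of_norm_bounded hs ?_
    intro i
    have hqk : ‖q k‖ ≤ ‖q (i + k)‖ := hmono (by omega)
    have h1 : ‖x‖ / ‖q (i + k)‖ ≤ 1 / 2 := by
      rw [div_le_iff₀ (hqne _)]
      linarith
    calc ‖(x / q (i + k)) ^ N (i + k)‖ ≤ (‖x‖ / ‖q (i + k)‖) ^ N (i + k) :=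
          WildEnt_norm_term _ (hqne _) _ _ _ le_rfl
      _ ≤ (1 / 2) ^ N (i + k) := by gcongr
      _ ≤ (1 / 2) ^ (c + 1 + i) := by
        apply pow_le_pow_of_le_one (by norm_num) (by norm_num)
        have := hN (i + k)
        omega
      _ = (1 / 2) ^ c / 2 / 2 ^ i := by
        rw [pow_add, pow_add, one_div_pow (a := (2:ℝ)) i]
        ring
  refine ⟨fun x => ∑' i, (x / q i) ^ N i, ?_, ?_, ?_⟩
  · simpa using WildEnt_diff q hg N hN' 0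
  · intro x hx
    have := hbound 0 x (by linarith)
    simp only [add_zero] at this
    exact this.trans hc.le
  · intro j t h1 h2
    have he := WildEnt_diff q hg N hN' (j + 1)
    have hb : ∀ x ∈ closedBall (q j) 1, ‖∑' i, (x / q (i + (j + 1))) ^ N (i + (j + 1))‖ ≤ 1 := by
      intro x hx
      refine (hbound (j + 1) x ?_).trans (pow_le_one₀ (by norm_num) (by norm_num))
      have h3 : ‖x - q j‖ ≤ 1 := by simpa [dist_eq_norm] using hx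
      have h4 : ‖x‖ ≤ ‖q j‖ + 1 := by
        calc ‖x‖ = ‖q j + (x - q j)‖ := by ring_nf
          _ ≤ ‖q j‖ + ‖x - q j‖ := norm_add_le _ _
          _ ≤ _ := by linarith
      have := hq j
      linarith
    obtain ⟨x, hx, hx2⟩ := hN2 j _ he hb t h1 h2
    refine ⟨x, ball_subset_ball (min_le_left _ _) hx, ?_⟩
    have hsum := (WildEnt_termsummable q hg N hN' x).sum_add_tsum_nat_add (j + 1)
    rw [Finset.sum_range_succ] at hsum
    rw [← hx2]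
    show u j * Complex.exp (∑' i, (x / q i) ^ N i) = _
    rw [← hsum]

end FBH
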