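import Pool.Agent.FBH.Defs
import Pool.Agent.FBH.LAComp
import Pool.Agent.FBH.GenE
import Pool.Agent.FBH.UnbEx
import Pool.Agent.FBH.WildEnt

/-!
WildEx. Wild automorphisms close to a given one.
-/

set_option autoImplicit false

open Metric Set Filter Topology

namespace FBH

private lemma wildEx_exp {w : ℂ} {η : ℝ} (h : ‖w‖ ≤ η) (hη : η ≤ 1) : ‖Complex.exp w - 1‖ ≤ 2 * η := by
  have := Complex.norm_exp_sub_one_le (h.trans hη)
  linarith

private lemma wildEx_seq (Θ : V2 → V2) (hU : Unb Θ) (ζ : ℕ → ℂ) (B : ℝ) :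
    ∃ x : ℕ → V2, (∀ j, (x j).2 ≠ 0) ∧ (∀ j, ‖x j - (ζ j, 0)‖ < 1 / ((j:ℝ) + 1)) ∧
      2 * B + 2 ≤ ‖(Θ (x 0)).1‖ ∧ ∀ j, 2 * ‖(Θ (x j)).1‖ + 2 ≤ ‖(Θ (x (j + 1))).1‖ := by
  have hpos : ∀ j : ℕ, (0:ℝ) < 1 / ((j:ℝ) + 1) := fun j => by positivity
  choose f hf1 hf2 hf3 using hU
  let x : ℕ → V2 := fun n => Nat.rec (motive := fun _ => V2) (f (ζ 0) (2 * B + 2) _ (hpos 0))
    (fun j xj => f (ζ (j + 1)) (2 * ‖(Θ xj).1‖ + 2) _ (hpos (j + 1))) n
  have hx0 : x 0 = f (ζ 0) (2 * B + 2) _ (hpos 0) := rfl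
  have hxs : ∀ j, x (j + 1) = f (ζ (j + 1)) (2 * ‖(Θ (x j)).1‖ + 2) _ (hpos (j + 1)) := fun j => rfl
  refine ⟨x, ?_, ?_, ?_, ?_⟩
  · intro j
    cases j with
    | zero => rw [hx0]; exact hf1 _ _ _ _
    | succ j => rw [hxs]; exact hf1 _ _ _ _
  · intro j
    cases j with
    | zero => rw [hx0]; exact hf2 _ _ _ _
    | succ j => rw [hxs]; exact hf2 _ _ _ _
  · rw [hx0]
    exact (hf3 _ _ _ _).le
  · intro j
    rw [hxs]
    exact (hf3 _ _ _ _).le

theorem wild_ex {Θ Θ' : V2 → V2} (hΘ : LAut Θ Θ') (K : Set V2) (hK : IsCompact K) (hKX : K ⊆ XS)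
    (δ : ℝ) (hδ : 0 < δ) :
    ∃ Θ₁ Θ₁' : V2 → V2, LAut Θ₁ Θ₁' ∧ Wild Θ₁ ∧ ∀ x ∈ K, ‖Θ₁ x - Θ x‖ ≤ δ := by
  obtain ⟨Θ₀, Θ₀', hL, hU, hcl⟩ := unb_ex hΘ K hK hKX (δ / 2) (by positivity)
  have hcont : ContinuousOn Θ₀ K := hL.diff.continuousOn.mono hKX
  obtain ⟨Bq, hBq⟩ := hK.exists_bound_of_continuousOn hcont
  set B : ℝ := |Bq| with hB
  have hB0 : 0 ≤ B := abs_nonneg _
  have hBb : ∀ x ∈ K, ‖Θ₀ x‖ ≤ B := fun x hx => (hBq x hx).trans (le_abs_self _)
  set D : ℕ → ℂ := TopologicalSpace.denseSeq ℂ with hD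
  set ζ : ℕ → ℂ := fun j => D (Nat.unpair j).1 with hζ
  obtain ⟨x, hx0, hxc, hxB, hxg⟩ := wildEx_seq Θ₀ hU ζ B
  set q : ℕ → ℂ := fun j => (Θ₀ (x j)).1 with hq
  set u : ℕ → ℂ := fun j => (Θ₀ (x j)).2 with hu
  have hu0 : ∀ j, u j ≠ 0 := fun j => hL.mapsX _ (hx0 j)
  -- continuity of the inverse along the slice
  have hδex : ∀ j : ℕ, ∃ d : ℝ, 0 < d ∧ ∀ y : ℂ, dist y (q j) < d →
      ‖Θ₀' (y, u j) - x j‖ < 1 / ((j:ℝ) + 1) := by
    intro j
    have hopen : IsOpen XS := isOpen_ne_fun continuous_snd continuous_const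
    have hca : ContinuousAt Θ₀' (q j, u j) :=
      (hL.diff'.differentiableAt (hopen.mem_nhds (show ((q j, u j) : V2).2 ≠ 0 from hu0 j))).continuousAt
    have hcs : ContinuousAt (fun y : ℂ => Θ₀' (y, u j)) (q j) := by
      have h1 : ContinuousAt (fun y : ℂ => ((y, u j) : V2)) (q j) := by fun_prop
      exact ContinuousAt.comp (f := fun y : ℂ => ((y, u j) : V2)) (x := q j) hca h1
    have hval : Θ₀' (q j, u j) = x j := hL.left _ (hx0 j)
    rw [Metric.continuousAt_iff] at hcs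
    obtain ⟨d, hd, h⟩ := hcs (1 / ((j:ℝ) + 1)) (by positivity)
    refine ⟨d, hd, fun y hy => ?_⟩
    have := h hy
    rw [hval, dist_eq_norm] at this
    exact this
  choose d hd0 hd using hδex
  set η : ℝ := min 1 (δ / (4 * (B + 1))) with hη
  have hη0 : 0 < η := lt_min one_pos (by positivity)
  have hη1 : η ≤ 1 := min_le_left _ _
  have hη2 : η ≤ δ / (4 * (B + 1)) := min_le_right _ _
  obtain ⟨g, hg, hgB, hgj⟩ := wild_entire q u d hu0 hd0 B hB0 hxB hxg η hη0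
  have hcomp := laut_comp (laut_E2 g hg) hL
  refine ⟨_, _, hcomp, ?_, ?_⟩
  · -- wild
    intro t ht z
    rw [Metric.mem_closure_iff]
    intro r hr
    have hdr : DenseRange D := TopologicalSpace.denseRange_denseSeq ℂ
    obtain ⟨i, hi⟩ := Metric.denseRange_iff.mp hdr z (r / 2) (by positivity)
    obtain ⟨m, hm⟩ := exists_nat_gt (max (max t (1 / t)) (4 / r))
    set j : ℕ := Nat.pair i m with hj
    have hmj : m ≤ j := Nat.right_le_pair i m
    have hji : ζ j = D i := by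
      simp only [hζ, hj, Nat.unpair_pair]
    have hmj' : (m:ℝ) ≤ (j:ℝ) := by exact_mod_cast hmj
    have h1 : t < (j:ℝ) + 1 := by
      have := (le_max_left t (1 / t)).trans (le_max_left _ (4 / r))
      linarith
    have h2 : 1 / t < (j:ℝ) + 1 := by
      have := (le_max_right t (1 / t)).trans (le_max_left _ (4 / r))
      linarith
    have h3 : 4 / r < (j:ℝ) + 1 := by
      have := (le_max_right (max t (1 / t)) (4 / r))
      linarith
    have hj1 : (0:ℝ) < (j:ℝ) + 1 := by positivity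
    have h4 : 1 / ((j:ℝ) + 1) ≤ t := by
      rw [div_le_iff₀ hj1]
      rw [div_lt_iff₀ ht] at h2
      linarith
    have h5 : 1 / ((j:ℝ) + 1) < r / 4 := by
      rw [div_lt_iff₀ hj1]
      rw [div_lt_iff₀ hr] at h3
      linarith
    obtain ⟨y, hy, hyt⟩ := hgj j t h4 h1.le
    rw [mem_ball] at hy
    refine ⟨Θ₀' (y, u j), ⟨hL.mapsX' _ (hu0 j), ?_⟩, ?_⟩
    · show (Θ₀ (Θ₀' (y, u j))).2 * Complex.exp (g (Θ₀ (Θ₀' (y, u j))).1) = -(t:ℂ)
      rw [hL.right (y, u j) (hu0 j)]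
      exact hyt
    · have a1 := hd j y hy
      have a2 := hxc j
      have a3 : ‖((ζ j, 0) : V2) - (z, 0)‖ < r / 2 := by
        rw [hji, Prod.norm_def]
        rw [dist_comm, dist_eq_norm] at hi
        simp only [Prod.fst_sub, Prod.snd_sub, sub_zero, norm_zero]
        exact max_lt hi (by positivity)
      rw [dist_comm, dist_eq_norm]
      calc ‖Θ₀' (y, u j) - (z, 0)‖
          = ‖(Θ₀' (y, u j) - x j) + (x j - (ζ j, 0)) + (((ζ j, 0) : V2) - (z, 0))‖ := by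
            congr 1
            abel
        _ ≤ ‖(Θ₀' (y, u j) - x j) + (x j - (ζ j, 0))‖ + ‖((ζ j, 0) : V2) - (z, 0)‖ :=
            norm_add_le _ _
        _ ≤ ‖Θ₀' (y, u j) - x j‖ + ‖x j - (ζ j, 0)‖ + ‖((ζ j, 0) : V2) - (z, 0)‖ := by
            gcongr
            exact norm_add_le _ _
        _ < r := by linarith
  · intro y hy
    have hyB := hBb y hy
    have hy1 : ‖(Θ₀ y).1‖ ≤ B := (norm_fst_le _).trans hyB
    have hy2 : ‖(Θ₀ y).2‖ ≤ B := (norm_snd_le _).trans hyB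
    have hgy := hgB _ hy1
    have hexp := wildEx_exp hgy hη1
    have hstep : ‖(((Θ₀ y).1, (Θ₀ y).2 * Complex.exp (g (Θ₀ y).1)) : V2) - Θ₀ y‖ ≤ δ / 2 := by
      rw [Prod.norm_def]
      refine max_le ?_ ?_
      · simp only [Prod.fst_sub, sub_self, norm_zero]
        positivity
      · simp only [Prod.snd_sub]
        have : (Θ₀ y).2 * Complex.exp (g (Θ₀ y).1) - (Θ₀ y).2 =
            (Θ₀ y).2 * (Complex.exp (g (Θ₀ y).1) - 1) := by ring
        rw [this, norm_mul]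
        calc ‖(Θ₀ y).2‖ * ‖Complex.exp (g (Θ₀ y).1) - 1‖ ≤ B * (2 * (δ / (4 * (B + 1)))) := by
              refine mul_le_mul hy2 (hexp.trans ?_) (norm_nonneg _) hB0
              linarith
          _ ≤ δ / 2 := by
              have : B * (2 * (δ / (4 * (B + 1)))) = (B / (B + 1)) * (δ / 2) := by
                field_simp
                ring
              rw [this]
              have h1 : B / (B + 1) ≤ 1 := by
                rw [div_le_one (by positivity)]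
                linarith
              calc (B / (B + 1)) * (δ / 2) ≤ 1 * (δ / 2) := by gcongr
                _ = δ / 2 := one_mul _
    have h2 := hcl y hy
    calc ‖(((Θ₀ y).1, (Θ₀ y).2 * Complex.exp (g (Θ₀ y).1)) : V2) - Θ y‖
        = ‖((((Θ₀ y).1, (Θ₀ y).2 * Complex.exp (g (Θ₀ y).1)) : V2) - Θ₀ y) + (Θ₀ y - Θ y)‖ := by
          congr 1
          abel
      _ ≤ _ := norm_add_le _ _
      _ ≤ δ := by linarith

end FBH
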