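import Pool.Agent.FBH.Defs
import Pool.Agent.FBH.Kai
import Pool.Agent.FBH.LAComp
import Pool.Agent.FBH.AL
import Pool.Agent.FBH.S2a
import Pool.Agent.FBH.WildEx
import Pool.Agent.FBH.NiSurj
import Pool.Agent.FBH.XkBasic

/-!
S2. The two-dimensional straightening lemma.
-/

set_option autoImplicit false

open Metric Set Filter Topology

namespace FBH

private theorem s2_isOpen_XS : IsOpen XS := by
  have : XS = {x : V2 | x.2 ≠ 0} := rfl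
  rw [this]
  exact isOpen_ne_fun continuous_snd continuous_const

private theorem s2_PD_compact (R ρ : ℝ) : IsCompact (PD R ρ) :=
  (isCompact_closedBall (0:ℂ) R).prod (isCompact_closedBall (0:ℂ) ρ)

private theorem s2_OD_open (R ρ : ℝ) : IsOpen (OD R ρ) := isOpen_ball.prod isOpen_ball

private theorem s2_mem_PD {R ρ : ℝ} {p : V2} : p ∈ PD R ρ ↔ ‖p.1‖ ≤ R ∧ ‖p.2‖ ≤ ρ := by
  unfold PD
  rw [mem_prod, mem_closedBall_zero_iff, mem_closedBall_zero_iff]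

private theorem s2_mem_OD {R ρ : ℝ} {p : V2} : p ∈ OD R ρ ↔ ‖p.1‖ < R ∧ ‖p.2‖ < ρ := by
  unfold OD
  rw [mem_prod, mem_ball_zero_iff, mem_ball_zero_iff]

private theorem s2_slit {y : V2} (hy : ‖y - (0, 1)‖ ≤ 1 / 2) : y.2 ∈ Complex.slitPlane := by
  have h1 : ‖(y - (0, 1)).2‖ ≤ 1 / 2 := (norm_snd_le _).trans hy
  have h2 : (y - ((0:ℂ), (1:ℂ))).2 = y.2 - 1 := rfl
  rw [h2] at h1
  left
  have h3 := (Complex.abs_re_le_norm (y.2 - 1)).trans h1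
  rw [Complex.sub_re, Complex.one_re, abs_le] at h3
  linarith [h3.1]

theorem S2 (g : V2 → V2) (R ρ R₂ ρ₂ R₃ ρ₃ : ℝ) (hR : 0 < R) (hρ : 0 < ρ) (hR₂ : R < R₂)
    (hρ₂ : ρ < ρ₂) (hR₃ : R₂ < R₃) (hρ₃ : ρ₂ < ρ₃) (hg : DifferentiableOn ℂ g (OD R₃ ρ₃))
    (hX : ∀ p ∈ OD R₃ ρ₃, (g p).2 ≠ 0) (himm : ∀ p ∈ OD R₃ ρ₃, Function.Injective (fderiv ℂ g p))
    (hRu : ∀ h : V2 → ℂ, DifferentiableOn ℂ h (OD R₃ ρ₃) → LAp (PD R₂ ρ₂) g h)
    (δ : ℝ) (hδ : 0 < δ) (τ₀ : ℝ) (hτ₀ : 0 < τ₀) :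
    ∃ τ : ℝ, 0 < τ ∧ τ < τ₀ ∧ ∃ Θ Θ' : V2 → V2, LAut Θ Θ' ∧ Wild Θ ∧
      ∀ p ∈ PD R ρ, ‖xk Θ' ((τ:ℂ) • p) - g p‖ ≤ δ := by
  set d : ℝ := min (R₂ - R) (ρ₂ - ρ) / 2 with hd_def
  have hmin : 0 < min (R₂ - R) (ρ₂ - ρ) := lt_min (by linarith) (by linarith)
  have hd : 0 < d := by positivity
  have hRd : R + d < R₂ := by
    have := min_le_left (R₂ - R) (ρ₂ - ρ)
    rw [hd_def]; linarith
  have hρd : ρ + d < ρ₂ := by
    have := min_le_right (R₂ - R) (ρ₂ - ρ)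
    rw [hd_def]; linarith
  have hPDOD : ∀ p ∈ PD R₂ ρ₂, p ∈ OD R₃ ρ₃ := by
    intro p hp
    rw [s2_mem_PD] at hp
    rw [s2_mem_OD]
    exact ⟨lt_of_le_of_lt hp.1 hR₃, lt_of_le_of_lt hp.2 hρ₃⟩
  have hP12 : ∀ p ∈ PD (R + d) (ρ + d), p ∈ PD R₂ ρ₂ := by
    intro p hp
    rw [s2_mem_PD] at hp ⊢
    exact ⟨hp.1.trans hRd.le, hp.2.trans hρd.le⟩
  have hgc2 : ContinuousOn g (PD R₂ ρ₂) := hg.continuousOn.mono hPDOD
  have huc := (s2_PD_compact R₂ ρ₂).uniformContinuousOn_of_continuous hgc2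
  rw [Metric.uniformContinuousOn_iff] at huc
  obtain ⟨δ₀, hδ₀, huc⟩ := huc δ hδ
  set δ₁ : ℝ := min (δ₀ / 2) (d / 8) with hδ₁_def
  have hδ₁ : 0 < δ₁ := lt_min (by linarith) (by linarith)
  have hδ₁a : δ₁ < δ₀ := lt_of_le_of_lt (min_le_left _ _) (by linarith)
  have hδ₁b : 8 * δ₁ ≤ d := by
    have := min_le_right (δ₀ / 2) (d / 8)
    rw [← hδ₁_def] at this; linarith
  have h0 : (0 : V2) ∈ OD R₃ ρ₃ := by
    rw [s2_mem_OD]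
    simp only [Prod.fst_zero, Prod.snd_zero, norm_zero]
    exact ⟨by linarith, by linarith⟩
  obtain ⟨N, N', hN, τ₁, hτ₁, hNb⟩ := s2_norm g
    (hg.differentiableAt ((s2_OD_open R₃ ρ₃).mem_nhds h0)) (hX 0 h0) (himm 0 h0) (R + d) (ρ + d)
    (δ₁ / 4) (by linarith)
  obtain ⟨Lc, hLc1, hLc⟩ := cd_lip
  set τ : ℝ := min (min τ₀ τ₁) 1 / 2 with hτ_def
  have hm3 : 0 < min (min τ₀ τ₁) 1 := lt_min (lt_min hτ₀ hτ₁) one_pos
  have hτ : 0 < τ := by positivity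
  have hτa : τ < min (min τ₀ τ₁) 1 := by rw [hτ_def]; linarith
  have hττ₀ : τ < τ₀ := lt_of_lt_of_le hτa ((min_le_left _ _).trans (min_le_left _ _))
  have hττ₁ : τ < τ₁ := lt_of_lt_of_le hτa ((min_le_left _ _).trans (min_le_right _ _))
  have hτ1 : τ < 1 := lt_of_lt_of_le hτa (min_le_right _ _)
  have hLcpos : 0 < Lc := by linarith
  set ε₁ : ℝ := min (δ₁ * τ / (4 * Lc)) (1 / 8) with hε₁_def
  have hε₁ : 0 < ε₁ := lt_min (by positivity) (by norm_num)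
  have hε₁a : Lc * (2 * ε₁) ≤ δ₁ * τ / 2 := by
    have h1 : ε₁ ≤ δ₁ * τ / (4 * Lc) := min_le_left _ _
    rw [le_div_iff₀ (by positivity)] at h1
    linarith
  have hε₁b : 2 * ε₁ ≤ 1 / 4 := by
    have h1 : ε₁ ≤ 1 / 8 := min_le_right _ _
    linarith
  set K₁ : Set V2 := g '' PD (R + d) (ρ + d) with hK₁_def
  have hK₁ : IsCompact K₁ := (s2_PD_compact _ _).image_of_continuousOn (hgc2.mono hP12)
  have hK₁X : K₁ ⊆ XS := by
    rintro _ ⟨p, hp, rfl⟩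
    exact hX p (hPDOD p (hP12 p hp))
  have hunif := hK₁.uniformContinuousAt_of_continuousAt N
    (fun a ha => (hN.diff.differentiableAt (s2_isOpen_XS.mem_nhds (hK₁X ha))).continuousAt)
    (Metric.dist_mem_uniformity hε₁)
  obtain ⟨ε₂, hε₂, hε₂b⟩ := Metric.mem_uniformity_dist.mp hunif
  have hNcl : ∀ y' ∈ K₁, ∀ y : V2, ‖y - y'‖ < ε₂ → ‖N y - N y'‖ ≤ ε₁ := by
    intro y' hy' y hy
    have h1 : dist y' y < ε₂ := by
      rw [dist_comm, dist_eq_norm]; exact hy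
    have h2 := hε₂b h1 hy'
    have h3 : dist (N y') (N y) < ε₁ := h2
    rw [dist_comm, dist_eq_norm] at h3
    exact h3.le
  obtain ⟨Θa, Θa', hΘa, hΘab⟩ := al g (R + d) (ρ + d) R₂ ρ₂ R₃ ρ₃ (by linarith) (by linarith) hRd
    hρd hR₃ hρ₃ hg hX himm hRu τ hτ hτ1 ε₂ hε₂
  obtain ⟨Θ, Θ', hΘ, hW, hΘb⟩ := wild_ex (laut_comp hN hΘa) K₁ hK₁ hK₁X ε₁ hε₁
  refine ⟨τ, hτ, hττ₀, Θ, Θ', hΘ, hW, ?_⟩
  have hτn : ‖(τ:ℂ)‖ = τ := by
    rw [Complex.norm_real, Real.norm_eq_abs, abs_of_pos hτ]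
  have hτne : (τ:ℂ) ≠ 0 := by exact_mod_cast hτ.ne'
  have hsc : ∀ p ∈ PD (R + d) (ρ + d), (τ:ℂ) • p ∈ PD (R + d) (ρ + d) := by
    intro p hp
    rw [s2_mem_PD] at hp ⊢
    rw [Prod.smul_fst, Prod.smul_snd, norm_smul, norm_smul, hτn]
    have e1 := norm_nonneg p.1
    have e2 := norm_nonneg p.2
    constructor
    · nlinarith [hp.1]
    · nlinarith [hp.2]
  have key1 : ∀ p ∈ PD (R + d) (ρ + d), ‖Θ (g p) - N (g ((τ:ℂ) • p))‖ ≤ 2 * ε₁ := by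
    intro p hp
    have h1 : ‖Θ (g p) - N (Θa (g p))‖ ≤ ε₁ := hΘb (g p) ⟨p, hp, rfl⟩
    have h2 : ‖N (Θa (g p)) - N (g ((τ:ℂ) • p))‖ ≤ ε₁ :=
      hNcl _ ⟨_, hsc p hp, rfl⟩ _ (hΘab p hp)
    have h3 := norm_add_le (Θ (g p) - N (Θa (g p))) (N (Θa (g p)) - N (g ((τ:ℂ) • p)))
    rw [sub_add_sub_cancel] at h3
    linarith
  have key2 : ∀ p ∈ PD (R + d) (ρ + d), ‖Θ (g p) - (0, 1)‖ ≤ 1 / 2 := by
    intro p hp
    have h1 := key1 p hp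
    have h2 := (hNb τ hτ hττ₁ p hp).2
    have h3 := norm_add_le (Θ (g p) - N (g ((τ:ℂ) • p))) (N (g ((τ:ℂ) • p)) - (0, 1))
    rw [sub_add_sub_cancel] at h3
    linarith
  have key3 : ∀ p ∈ PD (R + d) (ρ + d), ‖cd (Θ (g p)) - (τ:ℂ) • p‖ ≤ τ * δ₁ := by
    intro p hp
    have h2 := hNb τ hτ hττ₁ p hp
    have h1 := hLc (Θ (g p)) (N (g ((τ:ℂ) • p))) (key2 p hp) (by linarith [h2.2])
    have h4 : Lc * ‖Θ (g p) - N (g ((τ:ℂ) • p))‖ ≤ Lc * (2 * ε₁) :=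
      mul_le_mul_of_nonneg_left (key1 p hp) hLcpos.le
    have h3 := norm_add_le (cd (Θ (g p)) - cd (N (g ((τ:ℂ) • p))))
      (cd (N (g ((τ:ℂ) • p))) - (τ:ℂ) • p)
    rw [sub_add_sub_cancel] at h3
    have h5 : 0 < δ₁ * τ := by positivity
    linarith [h2.1]
  set π : V2 → V2 := fun p => (τ:ℂ)⁻¹ • cd (Θ (g p)) with hπ_def
  have hOP : ∀ p ∈ OD (R + d) (ρ + d), p ∈ PD (R + d) (ρ + d) := by
    intro p hp
    rw [s2_mem_OD] at hp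
    rw [s2_mem_PD]
    exact ⟨hp.1.le, hp.2.le⟩
  have hπd : DifferentiableOn ℂ π (OD (R + d) (ρ + d)) := by
    intro p hp
    have hpP := hOP p hp
    have hp3 := hPDOD p (hP12 p hpP)
    have hgp : DifferentiableAt ℂ g p := hg.differentiableAt ((s2_OD_open R₃ ρ₃).mem_nhds hp3)
    have hΘp : DifferentiableAt ℂ Θ (g p) :=
      hΘ.diff.differentiableAt (s2_isOpen_XS.mem_nhds (hX p hp3))
    have hcomp : DifferentiableAt ℂ (fun p => Θ (g p)) p := hΘp.comp p hgp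
    have hk : DifferentiableAt ℂ kai (Θ (g p)).2 :=
      kai_diff.differentiableAt (Complex.isOpen_slitPlane.mem_nhds (s2_slit (key2 p hpP)))
    have hk2 : DifferentiableAt ℂ (fun p => kai (Θ (g p)).2) p := by
      have := hcomp.snd
      exact DifferentiableAt.comp p hk this
    have hcd : DifferentiableAt ℂ (fun p => cd (Θ (g p))) p := hcomp.fst.prodMk hk2
    exact (hcd.const_smul ((τ:ℂ)⁻¹)).differentiableWithinAt
  have hπc : ∀ p ∈ OD (R + d) (ρ + d), ‖π p - p‖ ≤ δ₁ := by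
    intro p hp
    have h1 := key3 p (hOP p hp)
    have h2 : π p - p = (τ:ℂ)⁻¹ • (cd (Θ (g p)) - (τ:ℂ) • p) := by
      rw [smul_sub, smul_smul, inv_mul_cancel₀ hτne, one_smul]
    rw [h2, norm_smul, norm_inv, hτn]
    calc τ⁻¹ * ‖cd (Θ (g p)) - (τ:ℂ) • p‖ ≤ τ⁻¹ * (τ * δ₁) := by gcongr
      _ = δ₁ := by field_simp
  intro y hy
  have hy2 : y ∈ OD (R + d / 2) (ρ + d / 2) := by
    rw [s2_mem_PD] at hy
    rw [s2_mem_OD]
    exact ⟨by linarith [hy.1], by linarith [hy.2]⟩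
  obtain ⟨p', hp', hpy, hpn⟩ := ni_surj π R ρ d δ₁ hR hρ hd hδ₁b hπd hπc y hy2
  have hp'1 : p' ∈ PD (R + d) (ρ + d) := by
    rw [s2_mem_OD] at hp'
    rw [s2_mem_PD]
    exact ⟨by linarith [hp'.1], by linarith [hp'.2]⟩
  have hcdy : cd (Θ (g p')) = (τ:ℂ) • y := by
    rw [← hpy, hπ_def]
    simp only
    rw [smul_smul, mul_inv_cancel₀ hτne, one_smul]
  have hxk := xk_cd hΘ (hX p' (hPDOD p' (hP12 p' hp'1))) (s2_slit (key2 p' hp'1))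
  rw [hcdy] at hxk
  rw [hxk]
  have hy3 : y ∈ PD R₂ ρ₂ := by
    rw [s2_mem_PD] at hy ⊢
    exact ⟨by linarith [hy.1], by linarith [hy.2]⟩
  have hdist : dist p' y < δ₀ := by
    rw [dist_eq_norm]; exact lt_of_le_of_lt hpn hδ₁a
  have := huc p' (hP12 p' hp'1) y hy3 hdist
  rw [dist_eq_norm] at this
  exact this.le

end FBH
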