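import Pool.Agent.FBH.Defs
import Pool.Agent.FBH.XkBasic

/-!
StepAlg. Algebra of the new stage. `tT`, `tT'` are mutually inverse for `η ≠ 0`, entire if `G` is; `tA`, `tA'` are mutually inverse for
`η, τ ≠ 0`, entire if `B₁, B₂` are. `newStage_ok`: check all fields of `Stage.OK`; `(newStage ..).Φ 0 = tT 0 = (0,(0,-G (0,0))) = 0`;
`(A x).2 = τ • (S.A x).2 = (τ σ) • x.2`. `newStage_bz`: `S.Φ (S.Φ' (as, x⋆)) = (as, x⋆)`, the last coordinate of `tT (as, x⋆)` is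
`η (as - κ x⋆.2) - G x⋆ = 0`. `newStage_F`: unfold.
-/

set_option autoImplicit false

open Metric Set Filter Topology

namespace FBH

private theorem stepAlg_tT_left (G : V2 → ℂ) (Λ κ : ℂ) (η : ℝ) (hη : η ≠ 0) (y : V3) :
    tT' G Λ κ η (tT G Λ κ η y) = y := by
  obtain ⟨a, z, w⟩ := y
  have hη' : (η : ℂ) ≠ 0 := by exact_mod_cast hη
  have e1 : z + Λ * w - Λ * w = z := by ring
  simp only [tT', tT, e1]
  refine Prod.ext ?_ rfl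
  simp only
  field_simp
  ring

private theorem stepAlg_tT_right (G : V2 → ℂ) (Λ κ : ℂ) (η : ℝ) (hη : η ≠ 0) (y : V3) :
    tT G Λ κ η (tT' G Λ κ η y) = y := by
  obtain ⟨a, z, w⟩ := y
  have hη' : (η : ℂ) ≠ 0 := by exact_mod_cast hη
  simp only [tT', tT]
  refine Prod.ext rfl (Prod.ext ?_ ?_)
  · simp only
    ring
  · simp only
    field_simp
    ring

private theorem stepAlg_tA_left (κ : ℂ) (η τ : ℝ) (B₁ B₂ : V2 → ℂ) (hη : η ≠ 0) (hτ : τ ≠ 0) (y : V3) :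
    tA' κ η τ B₁ B₂ (tA κ η τ B₁ B₂ y) = y := by
  obtain ⟨a, p⟩ := y
  have hη' : (η : ℂ) ≠ 0 := by exact_mod_cast hη
  have hτ' : (τ : ℂ) ≠ 0 := by exact_mod_cast hτ
  have e1 : (τ:ℂ)⁻¹ • (τ:ℂ) • p = p := by rw [smul_smul, inv_mul_cancel₀ hτ', one_smul]
  simp only [tA', tA, e1]
  refine Prod.ext ?_ rfl
  simp only
  have e2 : Complex.exp (-B₂ p) * Complex.exp (B₂ p) = 1 := by
    rw [← Complex.exp_add]; simp
  have e3 : (B₁ p + (η:ℂ) * (a - κ * B₁ p) * Complex.exp (-B₂ p) - B₁ p) * Complex.exp (B₂ p) / (η:ℂ)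
      = (a - κ * B₁ p) * (Complex.exp (-B₂ p) * Complex.exp (B₂ p)) := by
    field_simp
    ring
  rw [e3, e2]
  ring

private theorem stepAlg_tA_right (κ : ℂ) (η τ : ℝ) (B₁ B₂ : V2 → ℂ) (hη : η ≠ 0) (hτ : τ ≠ 0) (y : V3) :
    tA κ η τ B₁ B₂ (tA' κ η τ B₁ B₂ y) = y := by
  obtain ⟨a, p⟩ := y
  have hη' : (η : ℂ) ≠ 0 := by exact_mod_cast hη
  have hτ' : (τ : ℂ) ≠ 0 := by exact_mod_cast hτ
  have e1 : (τ:ℂ) • (τ:ℂ)⁻¹ • p = p := by rw [smul_smul, mul_inv_cancel₀ hτ', one_smul]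
  simp only [tA', tA, e1]
  refine Prod.ext ?_ rfl
  simp only
  set q := (τ:ℂ)⁻¹ • p
  have e2 : Complex.exp (B₂ q) * Complex.exp (-B₂ q) = 1 := by
    rw [← Complex.exp_add]; simp
  have e3 : (η:ℂ) * (κ * B₁ q + (a - B₁ q) * Complex.exp (B₂ q) / (η:ℂ) - κ * B₁ q) *
      Complex.exp (-B₂ q) = (a - B₁ q) * (Complex.exp (B₂ q) * Complex.exp (-B₂ q)) := by
    field_simp
    ring
  rw [e3, e2]
  ring

private theorem stepAlg_tT_diff (G : V2 → ℂ) (hG : Differentiable ℂ G) (Λ κ : ℂ) (η : ℝ) :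
    Differentiable ℂ (tT G Λ κ η) := by
  unfold tT
  fun_prop

private theorem stepAlg_tT'_diff (G : V2 → ℂ) (hG : Differentiable ℂ G) (Λ κ : ℂ) (η : ℝ) :
    Differentiable ℂ (tT' G Λ κ η) := by
  have h1 : Differentiable ℂ (fun y : V3 => G (y.2.1 - Λ * y.1, y.1)) :=
    hG.comp (g := G) (f := fun y : V3 => ((y.2.1 - Λ * y.1, y.1) : V2)) (by fun_prop)
  have h2 : Differentiable ℂ (fun y : V3 =>
      (y.2.2 + G (y.2.1 - Λ * y.1, y.1)) * ((η:ℂ))⁻¹ + κ * y.1) := by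
    have : Differentiable ℂ (fun y : V3 => y.2.2) := by fun_prop
    exact ((this.add h1).mul_const _).add (by fun_prop)
  have h3 : Differentiable ℂ (fun y : V3 => ((y.2.1 - Λ * y.1, y.1) : V2)) := by fun_prop
  have h4 : tT' G Λ κ η = fun y : V3 =>
      ((y.2.2 + G (y.2.1 - Λ * y.1, y.1)) * ((η:ℂ))⁻¹ + κ * y.1, ((y.2.1 - Λ * y.1, y.1) : V2)) := by
    funext y
    simp only [tT', div_eq_mul_inv]
  rw [h4]
  exact h2.prodMk h3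

private theorem stepAlg_tA_diff (κ : ℂ) (η τ : ℝ) (B₁ B₂ : V2 → ℂ)
    (hB₁ : Differentiable ℂ B₁) (hB₂ : Differentiable ℂ B₂) :
    Differentiable ℂ (tA κ η τ B₁ B₂) := by
  have h1 : Differentiable ℂ (fun y : V3 => B₁ y.2) := hB₁.comp differentiable_snd
  have h2 : Differentiable ℂ (fun y : V3 => B₂ y.2) := hB₂.comp differentiable_snd
  unfold tA
  fun_prop

private theorem stepAlg_tA'_diff (κ : ℂ) (η τ : ℝ) (B₁ B₂ : V2 → ℂ)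
    (hB₁ : Differentiable ℂ B₁) (hB₂ : Differentiable ℂ B₂) :
    Differentiable ℂ (tA' κ η τ B₁ B₂) := by
  have h0 : Differentiable ℂ (fun y : V3 => (τ:ℂ)⁻¹ • y.2) := by fun_prop
  have h1 : Differentiable ℂ (fun y : V3 => B₁ ((τ:ℂ)⁻¹ • y.2)) := hB₁.comp h0
  have h2 : Differentiable ℂ (fun y : V3 => B₂ ((τ:ℂ)⁻¹ • y.2)) := hB₂.comp h0
  have h3 : Differentiable ℂ (fun y : V3 => κ * B₁ ((τ:ℂ)⁻¹ • y.2) +
    (y.1 - B₁ ((τ:ℂ)⁻¹ • y.2)) * Complex.exp (B₂ ((τ:ℂ)⁻¹ • y.2)) * ((η:ℂ))⁻¹) := by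
    have h4 : Differentiable ℂ (fun y : V3 => y.1) := differentiable_fst
    exact (h1.const_mul κ).add (((h4.sub h1).mul h2.cexp).mul_const _)
  have h4 : tA' κ η τ B₁ B₂ = fun y : V3 => (κ * B₁ ((τ:ℂ)⁻¹ • y.2) +
    (y.1 - B₁ ((τ:ℂ)⁻¹ • y.2)) * Complex.exp (B₂ ((τ:ℂ)⁻¹ • y.2)) * ((η:ℂ))⁻¹, (τ:ℂ)⁻¹ • y.2) := by
    funext y
    simp only [tA', div_eq_mul_inv]
  rw [h4]
  exact h3.prodMk h0

theorem newStage_ok (S : Stage) (hS : S.OK) (G : V2 → ℂ) (hG : Differentiable ℂ G)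
    (hG0 : ∀ z : ℂ, G (z, 0) = 0) (Λ κ : ℂ) (η τ : ℝ) (hη : 0 < η) (hτ : 0 < τ) (B₁ B₂ : V2 → ℂ)
    (hB₁ : Differentiable ℂ B₁) (hB₂ : Differentiable ℂ B₂) (Θ Θ' : V2 → V2) (hΘ : LAut Θ Θ') :
    (newStage S G Λ κ η τ B₁ B₂ Θ Θ').OK where
  dΦ := (stepAlg_tT_diff G hG Λ κ η).comp hS.dΦ
  dΦ' := hS.dΦ'.comp (stepAlg_tT'_diff G hG Λ κ η)
  lΦ := fun x => by
    change S.Φ' (tT' G Λ κ η (tT G Λ κ η (S.Φ x))) = x
    rw [stepAlg_tT_left G Λ κ η hη.ne', hS.lΦ]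
  rΦ := fun x => by
    change tT G Λ κ η (S.Φ (S.Φ' (tT' G Λ κ η x))) = x
    rw [hS.rΦ, stepAlg_tT_right G Λ κ η hη.ne']
  dA := (stepAlg_tA_diff κ η τ B₁ B₂ hB₁ hB₂).comp hS.dA
  dA' := hS.dA'.comp (stepAlg_tA'_diff κ η τ B₁ B₂ hB₁ hB₂)
  lA := fun x => by
    change S.A' (tA' κ η τ B₁ B₂ (tA κ η τ B₁ B₂ (S.A x))) = x
    rw [stepAlg_tA_left κ η τ B₁ B₂ hη.ne' hτ.ne', hS.lA]
  rA := fun x => by
    change tA κ η τ B₁ B₂ (S.A (S.A' (tA' κ η τ B₁ B₂ x))) = x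
    rw [hS.rA, stepAlg_tA_right κ η τ B₁ B₂ hη.ne' hτ.ne']
  laut := hΘ
  σpos := mul_pos hτ hS.σpos
  A2 := fun x => by
    change (τ:ℂ) • (S.A x).2 = ((τ * S.σ : ℝ) : ℂ) • x.2
    rw [hS.A2, smul_smul, Complex.ofReal_mul]
  zero := by
    change tT G Λ κ η (S.Φ 0) = 0
    rw [hS.zero]
    have h0 : G ((0 : V3).2) = 0 := hG0 0
    simp only [tT, h0]
    simp

theorem newStage_bz (S : Stage) (hS : S.OK) (G : V2 → ℂ) (Λ κ : ℂ) (η τ : ℝ) (B₁ B₂ : V2 → ℂ)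
    (Θ Θ' : V2 → V2) (as : ℂ) (x : V2) (hx : as = κ * x.2) (hGx : G x = 0) :
    ((newStage S G Λ κ η τ B₁ B₂ Θ Θ').Φ (S.Φ' (as, x))).2.2 = 0 := by
  change (tT G Λ κ η (S.Φ (S.Φ' (as, x)))).2.2 = 0
  rw [hS.rΦ]
  simp only [tT, hGx, hx]
  ring

theorem newStage_F (S : Stage) (G : V2 → ℂ) (Λ κ : ℂ) (η τ : ℝ) (B₁ B₂ : V2 → ℂ)
    (Θ Θ' : V2 → V2) (x : V3) :
    (newStage S G Λ κ η τ B₁ B₂ Θ Θ').F x =
      S.Φ' (tT' G Λ κ η (B₁ (S.A x).2 + (η:ℂ) * ((S.A x).1 - κ * B₁ (S.A x).2) *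
        Complex.exp (-B₂ (S.A x).2), xk Θ' ((τ:ℂ) • (S.A x).2))) := rfl

end FBH
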