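import Pool.Agent.FBH.Defs
import Pool.Agent.FBH.LPMul
import Pool.Agent.FBH.ScSmooth

/-!
LamNe. The derivative of `GG P m l` in the direction `(-Λ, 1)`, `Λ = K₀ N`, `N = m l + 1`, does not vanish on `Y` for large `l`.
Proof. On `X`: `GG P m l x = x.2^N (1 - L x^l)` (`gg_eq`: `P = L w^m`, so `w P^l = w^(ml+1) L^l`). With
`v = (-Λ, 1)`: the derivative is `N w^(N-1) (1 - L^l) - w^N l L^(l-1) (fderiv ℂ L x v)`
`= N w^(N-1) [1 - L^l - (l/N) w L^(l-1) (fderiv ℂ L x v)]` (`L` is differentiable on `X` by lpoly_diff; `GG` agrees with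
`w^N (1-L^l)` near `x`). `‖fderiv ℂ L x v‖ ≤ C ‖v‖ = C K₀ N` on `Y` (`‖v‖ = K₀ N` as `K₀ N ≥ 1`; `C` bounds the operator
norm on the compact set `Y`, continuity by sc_smooth), so the bracket differs from `1` by at most
`θ^l + l Rw θ^(l-1) C K₀ → 0`. For large `l` it is nonzero, and `w ≠ 0` on `Y`.
-/

set_option autoImplicit false

open Metric Set Filter Topology

namespace FBH

theorem gg_eq (P L : V2 → ℂ) (m l : ℕ) (x : V2) (hx : x.2 ≠ 0) (hLP : L x = P x / x.2 ^ m) :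
    GG P m l x = x.2 ^ (m * l + 1) * (1 - L x ^ l) := by
  have h1 : P x = L x * x.2 ^ m := by
    rw [hLP, div_mul_cancel₀ _ (pow_ne_zero m hx)]
  simp only [GG, h1]
  ring

private theorem lamNe_deriv (L : V2 → ℂ) (N l : ℕ) (x v : V2) (hd : DifferentiableAt ℂ L x) (hv : v.2 = 1) :
    fderiv ℂ (fun y : V2 => y.2 ^ N * (1 - L y ^ l)) x v =
      (N : ℂ) * x.2 ^ (N - 1) * (1 - L x ^ l) - x.2 ^ N * ((l : ℂ) * L x ^ (l - 1) * fderiv ℂ L x v) := by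
  have h1 : HasFDerivAt (fun y : V2 => y.2 ^ N)
      (((N : ℂ) * x.2 ^ (N - 1)) • (ContinuousLinearMap.snd ℂ ℂ ℂ)) x := by
    have h := (hasDerivAt_pow N x.2).comp_hasFDerivAt x
      (hasFDerivAt_snd : HasFDerivAt (fun y : V2 => y.2) (ContinuousLinearMap.snd ℂ ℂ ℂ) x)
    exact h
  have h2 : HasFDerivAt (fun y : V2 => L y ^ l) (((l : ℂ) * L x ^ (l - 1)) • fderiv ℂ L x) x := by
    have h := (hasDerivAt_pow l (L x)).comp_hasFDerivAt x hd.hasFDerivAt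
    exact h
  have h3 := h1.mul (h2.const_sub 1)
  rw [show (fun y : V2 => y.2 ^ N * (1 - L y ^ l)) = ((fun y : V2 => y.2 ^ N) * fun y : V2 => (1 - L y ^ l)) from rfl,
    h3.fderiv]
  simp only [ContinuousLinearMap.add_apply, ContinuousLinearMap.smul_apply, ContinuousLinearMap.neg_apply,
    ContinuousLinearMap.coe_snd', smul_eq_mul, hv]
  ring

theorem lam_ne (Y : Set V2) (hY : IsCompact Y) (hYX : Y ⊆ XS) (L P : V2 → ℂ) (m : ℕ)
    (hL : L ∈ LPoly) (hLP : ∀ x : V2, x.2 ≠ 0 → L x = P x / x.2 ^ m) (θ : ℝ) (hθ0 : 0 < θ)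
    (hθ : θ < 1) (hLθ : ∀ x ∈ Y, ‖L x‖ ≤ θ) (K₀ : ℝ) (hK₀ : 1 ≤ K₀) :
    ∃ l₀ : ℕ, ∀ l ≥ l₀, ∀ x ∈ Y,
      fderiv ℂ (GG P m l) x (-(((K₀ * ((m * l + 1 : ℕ) : ℝ)) : ℝ) : ℂ), 1) ≠ 0 := by
  have hXopen : IsOpen XS := isOpen_ne_fun continuous_snd continuous_const
  have hLd : DifferentiableOn ℂ L XS := lpoly_diff hL
  have hfc : ContinuousOn (fun x => fderiv ℂ L x) XS := (sc_fderiv_diff L XS hXopen hLd).continuousOn
  obtain ⟨C0, hC0⟩ := hY.exists_bound_of_continuousOn (hfc.mono hYX)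
  obtain ⟨R0, hR0⟩ := hY.exists_bound_of_continuousOn
    (continuous_snd.continuousOn : ContinuousOn (fun x : V2 => x.2) Y)
  obtain ⟨C, hC, hCn⟩ : ∃ C : ℝ, (∀ x ∈ Y, ‖fderiv ℂ L x‖ ≤ C) ∧ 0 ≤ C :=
    ⟨max C0 0, fun x hx => (hC0 x hx).trans (le_max_left _ _), le_max_right _ _⟩
  obtain ⟨R, hR, hRn⟩ : ∃ R : ℝ, (∀ x ∈ Y, ‖x.2‖ ≤ R) ∧ 0 ≤ R :=
    ⟨max R0 0, fun x hx => (hR0 x hx).trans (le_max_left _ _), le_max_right _ _⟩
  have hlim : Tendsto (fun l : ℕ => θ ^ l + (R * C * K₀ / θ) * ((l : ℝ) * θ ^ l)) atTop (𝓝 0) := by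
    have ha := tendsto_pow_atTop_nhds_zero_of_lt_one hθ0.le hθ
    have hb := (tendsto_self_mul_const_pow_of_lt_one hθ0.le hθ).const_mul (R * C * K₀ / θ)
    simpa using ha.add hb
  have hev := (hlim.eventually (gt_mem_nhds (show (0:ℝ) < 1 by norm_num))).and (eventually_ge_atTop 1)
  obtain ⟨l₀, hl₀⟩ := eventually_atTop.1 hev
  refine ⟨l₀, fun l hl x hx => ?_⟩
  obtain ⟨hsmall, hl1⟩ := hl₀ l hl
  have hxX : x.2 ≠ 0 := hYX hx
  have hLx : DifferentiableAt ℂ L x := hLd.differentiableAt (hXopen.mem_nhds (hYX hx))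
  set N : ℕ := m * l + 1 with hN
  have heq : GG P m l =ᶠ[𝓝 x] (fun y : V2 => y.2 ^ N * (1 - L y ^ l)) := by
    filter_upwards [hXopen.mem_nhds (hYX hx)] with y hy
    exact gg_eq P L m l y hy (hLP y hy)
  rw [heq.fderiv_eq, lamNe_deriv L N l x _ hLx rfl]
  set D : ℂ := fderiv ℂ L x (-(((K₀ * (N : ℝ)) : ℝ) : ℂ), 1) with hD
  have hN1 : (1:ℝ) ≤ (N : ℝ) := by
    rw [hN]; push_cast; nlinarith [Nat.cast_nonneg (α := ℝ) (m * l), Nat.cast_nonneg (α := ℝ) m, Nat.cast_nonneg (α := ℝ) l, mul_nonneg (Nat.cast_nonneg (α := ℝ) m) (Nat.cast_nonneg (α := ℝ) l)]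
  have hKN : 1 ≤ K₀ * (N : ℝ) := by nlinarith
  have hDn : ‖D‖ ≤ C * (K₀ * N) := by
    have h1 := (fderiv ℂ L x).le_opNorm ((-(((K₀ * (N : ℝ)) : ℝ) : ℂ), 1) : V2)
    have h2 : ‖((-(((K₀ * (N : ℝ)) : ℝ) : ℂ), 1) : V2)‖ ≤ K₀ * N := by
      rw [Prod.norm_def]
      apply max_le
      · simp only [norm_neg, Complex.norm_real, Real.norm_eq_abs]
        rw [abs_of_nonneg (by linarith)]
      · simpa using hKN
    exact h1.trans (mul_le_mul (hC x hx) h2 (norm_nonneg _) hCn)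
  intro h0
  have hNsub : x.2 ^ N = x.2 ^ (N - 1) * x.2 := by
    rw [← pow_succ]; congr 1
  have hfac : x.2 ^ (N - 1) * ((N : ℂ) * (1 - L x ^ l) - x.2 * ((l : ℂ) * L x ^ (l - 1) * D)) = 0 := by
    rw [← h0, hNsub]; ring
  rcases mul_eq_zero.1 hfac with h1 | h1
  · exact pow_ne_zero _ hxX h1
  · have h2 : (N : ℂ) = (N : ℂ) * L x ^ l + x.2 * ((l : ℂ) * L x ^ (l - 1) * D) := by
      linear_combination h1
    have h3 : (N : ℝ) ≤ N * θ ^ l + R * (l * θ ^ (l - 1) * (C * (K₀ * N))) := by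
      have e1 : ‖(N : ℂ)‖ = N := by simp
      have hLx' : ‖L x‖ ≤ θ := hLθ x hx
      calc (N : ℝ) = ‖(N : ℂ)‖ := e1.symm
        _ = ‖(N : ℂ) * L x ^ l + x.2 * ((l : ℂ) * L x ^ (l - 1) * D)‖ := by rw [← h2]
        _ ≤ ‖(N : ℂ) * L x ^ l‖ + ‖x.2 * ((l : ℂ) * L x ^ (l - 1) * D)‖ := norm_add_le _ _
        _ = N * ‖L x‖ ^ l + ‖x.2‖ * (l * ‖L x‖ ^ (l - 1) * ‖D‖) := by
            simp [norm_mul, norm_pow]
        _ ≤ N * θ ^ l + R * (l * θ ^ (l - 1) * (C * (K₀ * N))) := by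
            have hNn : (0:ℝ) ≤ N := by linarith
            gcongr
            exact hR x hx
    have h4 : θ ^ (l - 1) = θ ^ l / θ := by
      rw [eq_div_iff hθ0.ne', ← pow_succ]; congr 1; omega
    rw [h4] at h3
    have h5 : (N : ℝ) ≤ N * (θ ^ l + (R * C * K₀ / θ) * ((l : ℝ) * θ ^ l)) := by
      calc (N : ℝ) ≤ _ := h3
        _ = _ := by ring
    nlinarith

end FBH
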