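import Pool.Agent.FBH.Defs

/-!
Root. The root `rt N v = exp (log (1-v) / N)`.
`rt_pow`: `(exp (y/N))^N = exp y`, `exp (log (1-v)) = 1-v`. `rt_close`: for `‖v‖ ≤ 1/2`, `‖log (1-v)‖ ≤ 2‖v‖` (Mathlib:
norm_log_one_add_le or similar; or `‖log(1-v)‖ ≤ ‖v‖/(1-‖v‖)`), and `‖e^y - 1‖ ≤ 2‖y‖` for `‖y‖ ≤ 1`. `rt_diff`: `1 - v`
is in the slit plane for `‖v‖ < 1`.
-/

set_option autoImplicit false

open Metric Set Filter Topology

namespace FBH

theorem rt_pow (N : ℕ) (hN : 0 < N) (v : ℂ) (hv : ‖v‖ < 1) : (rt N v) ^ N = 1 - v := by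
  have h1 : 1 - v ≠ 0 := by
    intro h
    have h2 : v = 1 := by linear_combination -h
    rw [h2, norm_one] at hv
    exact lt_irrefl _ hv
  have hNc : (N:ℂ) ≠ 0 := by exact_mod_cast hN.ne'
  unfold rt
  rw [← Complex.exp_nat_mul, mul_div_cancel₀ _ hNc, Complex.exp_log h1]

theorem rt_close (N : ℕ) (hN : 0 < N) (v : ℂ) (hv : ‖v‖ ≤ 1 / 2) : ‖rt N v - 1‖ ≤ 4 * ‖v‖ / N := by
  have hN' : (0:ℝ) < N := by exact_mod_cast hN
  have hN1 : (1:ℝ) ≤ N := by exact_mod_cast hN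
  have h1 : ‖Complex.log (1 - v)‖ ≤ 3 / 2 * ‖v‖ := by
    have h2 := Complex.norm_log_one_add_half_le_self (z := -v) (by rwa [norm_neg])
    rwa [norm_neg, ← sub_eq_add_neg] at h2
  have h3 : ‖Complex.log (1 - v) / N‖ ≤ 3 / 2 * ‖v‖ / N := by
    rw [norm_div, Complex.norm_natCast]
    gcongr
  have h4 : ‖Complex.log (1 - v) / N‖ ≤ 1 := by
    refine h3.trans ?_
    rw [div_le_one hN']
    linarith
  unfold rt
  refine (Complex.norm_exp_sub_one_le h4).trans ?_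
  calc 2 * ‖Complex.log (1 - v) / N‖ ≤ 2 * (3 / 2 * ‖v‖ / N) := by gcongr
    _ = 3 * ‖v‖ / N := by ring
    _ ≤ 4 * ‖v‖ / N := by
        gcongr
        norm_num

theorem rt_diff (N : ℕ) : DifferentiableOn ℂ (rt N) (ball (0:ℂ) 1) := by
  intro v hv
  rw [mem_ball, dist_zero_right] at hv
  have h1 : 1 - v ∈ Complex.slitPlane := by
    left
    have h2 := Complex.abs_re_le_norm v
    have h3 := (abs_lt.1 (h2.trans_lt hv)).2
    simp only [Complex.sub_re, Complex.one_re]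
    linarith
  unfold rt
  have h5 : DifferentiableAt ℂ (fun v : ℂ => 1 - v) v := (differentiableAt_const _).sub differentiableAt_id
  exact ((h5.clog h1).div_const _).cexp.differentiableWithinAt

end FBH
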