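import Pool.Agent.FBH.Defs
import Pool.Agent.FBH.Root

/-!
Nu. The map `nu` is close to the identity for large `l`, uniformly in `N`, for `Λ = K₀ N`, and its algebra.
`nu_pow`, `nu_sum`: direct. `nu_close`: on the compact set `Y`, `|w| ≤ M`; for `θ^l ≤ 1/2`,
`|w' - w| = |w| |rt N (L^l) - 1| ≤ 4 M θ^l / N` and `|z' - z| = K₀ N |w - w'| ≤ 4 K₀ M θ^l`; both `≤ ε` for large `l`.
`nu_diff`: composition of differentiable maps (`‖L x ^ l‖ < 1`, rt_diff).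
-/

set_option autoImplicit false

open Metric Set Filter Topology

namespace FBH

theorem nu_pow (L : V2 → ℂ) (l N : ℕ) (hN : 0 < N) (Λ : ℂ) (x : V2) (hx : ‖L x ^ l‖ < 1) :
    (nu L l N Λ x).2 ^ N = x.2 ^ N * (1 - L x ^ l) := by
  simp only [nu]
  rw [mul_pow, rt_pow N hN _ hx]

theorem nu_sum (L : V2 → ℂ) (l N : ℕ) (Λ : ℂ) (x : V2) :
    (nu L l N Λ x).1 + Λ * (nu L l N Λ x).2 = x.1 + Λ * x.2 := by
  simp only [nu]
  ring

theorem nu_close (Y : Set V2) (hY : IsCompact Y) (L : V2 → ℂ) (θ : ℝ) (hθ0 : 0 < θ) (hθ : θ < 1)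
    (hL : ∀ x ∈ Y, ‖L x‖ ≤ θ) (K₀ : ℝ) (hK₀ : 0 ≤ K₀) (ε : ℝ) (hε : 0 < ε) :
    ∃ l₀ : ℕ, ∀ l ≥ l₀, ∀ N : ℕ, 0 < N → ∀ x ∈ Y, ‖nu L l N ((K₀ * (N:ℝ) : ℝ) : ℂ) x - x‖ ≤ ε := by
  obtain ⟨M, hM⟩ := hY.isBounded.exists_norm_le
  set M' : ℝ := max M 0 with hM'
  have hM'0 : 0 ≤ M' := le_max_right _ _
  have hMM : ∀ x ∈ Y, ‖x.2‖ ≤ M' := fun x hx =>
    (norm_snd_le x).trans ((hM x hx).trans (le_max_left _ _))
  -- choose l₀
  have hlim : Tendsto (fun l : ℕ => (4 * M' * (K₀ + 1)) * θ ^ l) atTop (𝓝 0) := by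
    have := (tendsto_pow_atTop_nhds_zero_of_lt_one hθ0.le hθ).const_mul (4 * M' * (K₀ + 1))
    simpa using this
  have hlim2 : Tendsto (fun l : ℕ => θ ^ l) atTop (𝓝 0) :=
    tendsto_pow_atTop_nhds_zero_of_lt_one hθ0.le hθ
  have e1 : ∀ᶠ l : ℕ in atTop, (4 * M' * (K₀ + 1)) * θ ^ l < ε := hlim.eventually_lt_const hε
  have e2 : ∀ᶠ l : ℕ in atTop, θ ^ l < 1 / 2 := hlim2.eventually_lt_const (by norm_num)
  obtain ⟨l₀, hl₀⟩ := eventually_atTop.1 (e1.and e2)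
  refine ⟨l₀, fun l hl N hN x hx => ?_⟩
  obtain ⟨h1, h2⟩ := hl₀ l hl
  have hLl : ‖L x ^ l‖ ≤ θ ^ l := by
    rw [norm_pow]; exact pow_le_pow_left₀ (norm_nonneg _) (hL x hx) l
  have hrt := rt_close N hN (L x ^ l) (hLl.trans h2.le)
  have hNpos : (0:ℝ) < N := by exact_mod_cast hN
  have hN1 : (1:ℝ) ≤ N := by exact_mod_cast hN
  have hθl : 0 ≤ θ ^ l := pow_nonneg hθ0.le l
  have hdiff : ‖x.2 - x.2 * rt N (L x ^ l)‖ ≤ M' * (4 * θ ^ l / N) := by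
    have : x.2 - x.2 * rt N (L x ^ l) = -(x.2 * (rt N (L x ^ l) - 1)) := by ring
    rw [this, norm_neg, norm_mul]
    refine mul_le_mul (hMM x hx) (hrt.trans ?_) (norm_nonneg _) hM'0
    gcongr
  have key : 4 * M' * θ ^ l * K₀ ≤ ε ∧ 4 * M' * θ ^ l ≤ ε := by
    have a1 : 0 ≤ 4 * M' * θ ^ l := by positivity
    have a2 : 0 ≤ 4 * M' * θ ^ l * K₀ := by positivity
    constructor <;> nlinarith
  rw [Prod.norm_def, max_le_iff]
  constructor
  · simp only [nu, Prod.fst_sub]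
    rw [add_sub_cancel_left, norm_mul, Complex.norm_real, Real.norm_eq_abs,
      abs_of_nonneg (by positivity)]
    calc K₀ * (N:ℝ) * ‖x.2 - x.2 * rt N (L x ^ l)‖ ≤ K₀ * (N:ℝ) * (M' * (4 * θ ^ l / N)) := by
          gcongr
      _ = 4 * M' * θ ^ l * K₀ := by field_simp
      _ ≤ ε := key.1
  · simp only [nu, Prod.snd_sub]
    rw [norm_sub_rev]
    refine hdiff.trans ?_
    have : M' * (4 * θ ^ l / N) ≤ M' * (4 * θ ^ l) := by
      gcongr
      exact div_le_self (by positivity) hN1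
    linarith [key.2]

theorem nu_diff (L : V2 → ℂ) (l N : ℕ) (Λ : ℂ) (U : Set V2) (hL : DifferentiableOn ℂ L U)
    (hl : ∀ x ∈ U, ‖L x ^ l‖ < 1) : DifferentiableOn ℂ (nu L l N Λ) U := by
  have hr : DifferentiableOn ℂ (fun x => rt N (L x ^ l)) U := by
    have := (rt_diff N).comp (hL.pow l) (fun x hx => by
      simp only [mem_ball_zero_iff]
      exact hl x hx)
    exact this
  have h1 : DifferentiableOn ℂ (fun x : V2 => x.1) U := differentiable_fst.differentiableOn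
  have h2 : DifferentiableOn ℂ (fun x : V2 => x.2) U := differentiable_snd.differentiableOn
  have h3 : DifferentiableOn ℂ (fun x : V2 => x.2 * rt N (L x ^ l)) U := h2.mul hr
  exact (h1.add ((h2.sub h3).const_mul Λ)).prodMk h3

end FBH
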