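import Pool.Agent.FBH.Defs
import Pool.Agent.FBH.XkBasic

/-!
PiClose. Points near `xk Θ' p` have coordinates near `p`, uniformly on `PD R ρ`, `ρ < 1`.
Proof. The open set `O = {y | y.2 ≠ 0 ∧ (Θ y).2 ∈ slitPlane}` contains the compact set `Y = xk Θ' '' PD R ρ`; choose
`r > 0` with `cthickening r Y ⊆ O` (compact). `y ↦ cd (Θ y)` is continuous on `O`, so uniformly continuous on
the compact set `cthickening r Y`; and `cd (Θ (xk Θ' p)) = p`.
-/

set_option autoImplicit false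

open Metric Set Filter Topology

namespace FBH

theorem pi_close {Θ Θ' : V2 → V2} (hΘ : LAut Θ Θ') (R ρ : ℝ) (hρ1 : ρ < 1) (ε : ℝ) (hε : 0 < ε) :
    ∃ δ : ℝ, 0 < δ ∧ ∀ p ∈ PD R ρ, ∀ y : V2, ‖y - xk Θ' p‖ ≤ δ →
      y.2 ≠ 0 ∧ (Θ y).2 ∈ Complex.slitPlane ∧ ‖cd (Θ y) - p‖ ≤ ε := by
  have hXS : IsOpen XS := isOpen_ne_fun continuous_snd continuous_const
  set O : Set V2 := {y | y.2 ≠ 0 ∧ (Θ y).2 ∈ Complex.slitPlane} with hO
  have hOo : IsOpen O := by
    have h1 : ContinuousOn (fun y => (Θ y).2) XS := hΘ.diff.continuousOn.snd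
    exact h1.isOpen_inter_preimage hXS Complex.isOpen_slitPlane
  have hPD : ∀ p ∈ PD R ρ, ‖p.2‖ < 1 := fun p hp => lt_of_le_of_lt (by simpa using hp.2) hρ1
  have hcont : ContinuousOn (fun y => cd (Θ y)) O := by
    have h1 : ContinuousOn Θ O := hΘ.diff.continuousOn.mono (fun y hy => hy.1)
    have h2 : ContinuousOn (fun y => kai (Θ y).2) O :=
      kai_diff.continuousOn.comp h1.snd (fun y hy => hy.2)
    exact h1.fst.prodMk h2
  have hPDc : IsCompact (PD R ρ) := (isCompact_closedBall _ _).prod (isCompact_closedBall _ _)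
  have hYc : IsCompact (xk Θ' '' PD R ρ) :=
    hPDc.image_of_continuousOn ((xk_diff hΘ).continuousOn.mono hPD)
  have hYO : xk Θ' '' PD R ρ ⊆ O := by
    rintro _ ⟨p, hp, rfl⟩
    exact ⟨xk_X hΘ (hPD p hp), xk_slit hΘ (hPD p hp)⟩
  obtain ⟨r, hr, hrO⟩ := hYc.exists_cthickening_subset_open hOo hYO
  have hKc : IsCompact (cthickening r (xk Θ' '' PD R ρ)) := hYc.cthickening
  have hu := hKc.uniformContinuousOn_of_continuous (hcont.mono hrO)
  rw [Metric.uniformContinuousOn_iff] at hu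
  obtain ⟨δ, hδ, h⟩ := hu ε hε
  refine ⟨min r (δ/2), lt_min hr (by linarith), fun p hp y hy => ?_⟩
  have hxm : xk Θ' p ∈ cthickening r (xk Θ' '' PD R ρ) :=
    self_subset_cthickening _ (mem_image_of_mem _ hp)
  have hym : y ∈ cthickening r (xk Θ' '' PD R ρ) := by
    apply mem_cthickening_of_dist_le y (xk Θ' p) r _ (mem_image_of_mem _ hp)
    rw [dist_eq_norm]; exact hy.trans (min_le_left _ _)
  have h3 := h y hym _ hxm (by
    rw [dist_eq_norm]; exact lt_of_le_of_lt (hy.trans (min_le_right _ _)) (by linarith))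
  rw [dist_eq_norm, cd_xk hΘ (hPD p hp)] at h3
  exact ⟨(hrO hym).1, (hrO hym).2, h3.le⟩

end FBH
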