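import Pool.Agent.FBH.Defs
import Pool.Agent.FBH.XkBasic
import Pool.Agent.FBH.CoordLap
import Pool.Agent.FBH.LPMul
import Pool.Agent.FBH.LPBasic

/-!
Sep. Separation of a point from the polydisc by a Laurent polynomial.
Proof. Let `ps = (qs, ss)`. If `‖qs‖ > R` let `h p = p.1/qs` and choose `R' ∈ (R, ‖qs‖)`, `ρ' ∈ (ρ,1)`; otherwise
`‖ss‖ > ρ`, let `h p = p.2/ss` and choose `ρ' ∈ (ρ, ‖ss‖)`, `R' = R+1`. Then `h ps = 1` and `‖h‖ ≤ θ₀ < 1` on `PD R' ρ'`. The set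
`K = xk Θ' '' (PD R' ρ' ∪ {ps})` is compact, contained in `X`, `(Θ x).2` in the slit plane on it (xk_slit), and
`h (cd (Θ x))` at `x = xk Θ' p` is `h p` (cd_xk). By coord_lap and lap_smul, for every `ε` there is `L₀ ∈ LPoly` with
`‖L₀ (xk Θ' p) - h p‖ < ε` on `PD R' ρ' ∪ {ps}`. Take `ε` small and `L = L₀ / L₀ (xk Θ' ps)`.
-/

set_option autoImplicit false

open Metric Set Filter Topology

namespace FBH

private theorem sep_aux (R ρ : ℝ) (hR : 0 < R) (hρ : 0 < ρ) (hρ1 : ρ < 1)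
    (ps : V2) (hs : ‖ps.2‖ < 1) (hout : ¬(‖ps.1‖ ≤ R ∧ ‖ps.2‖ ≤ ρ)) :
    ∃ R' ρ' θ₀ : ℝ, ∃ h : V2 → ℂ, R < R' ∧ ρ < ρ' ∧ ρ' < 1 ∧ 0 < θ₀ ∧ θ₀ < 1 ∧
      (∃ c : ℂ, (∀ p, h p = c * p.1) ∨ (∀ p, h p = c * p.2)) ∧ h ps = 1 ∧
      ∀ p ∈ PD R' ρ', ‖h p‖ ≤ θ₀ := by
  by_cases hq : R < ‖ps.1‖
  · have h0 : 0 < ‖ps.1‖ := hR.trans hq
    have h0' : ps.1 ≠ 0 := norm_pos_iff.mp h0
    refine ⟨(R + ‖ps.1‖) / 2, (ρ + 1) / 2, ((R + ‖ps.1‖) / 2) / ‖ps.1‖,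
      fun p => (ps.1)⁻¹ * p.1, by linarith, by linarith, by linarith, by positivity, ?_,
      ⟨(ps.1)⁻¹, Or.inl fun p => rfl⟩, inv_mul_cancel₀ h0', ?_⟩
    · rw [div_lt_one h0]; linarith
    · intro p hp
      have hp1 : ‖p.1‖ ≤ (R + ‖ps.1‖) / 2 := by simpa using hp.1
      rw [norm_mul, norm_inv, inv_mul_eq_div]
      gcongr
  · have hq' : ‖ps.1‖ ≤ R := not_lt.mp hq
    have hq2 : ρ < ‖ps.2‖ := by
      by_contra hc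
      exact hout ⟨hq', not_lt.mp hc⟩
    have h0 : 0 < ‖ps.2‖ := hρ.trans hq2
    have h0' : ps.2 ≠ 0 := norm_pos_iff.mp h0
    refine ⟨R + 1, (ρ + ‖ps.2‖) / 2, ((ρ + ‖ps.2‖) / 2) / ‖ps.2‖,
      fun p => (ps.2)⁻¹ * p.2, by linarith, by linarith, by linarith, by positivity, ?_,
      ⟨(ps.2)⁻¹, Or.inr fun p => rfl⟩, inv_mul_cancel₀ h0', ?_⟩
    · rw [div_lt_one h0]; linarith
    · intro p hp
      have hp1 : ‖p.2‖ ≤ (ρ + ‖ps.2‖) / 2 := by simpa using hp.2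
      rw [norm_mul, norm_inv, inv_mul_eq_div]
      gcongr

theorem sep {Θ Θ' : V2 → V2} (hΘ : LAut Θ Θ') (R ρ : ℝ) (hR : 0 < R) (hρ : 0 < ρ) (hρ1 : ρ < 1)
    (ps : V2) (hs : ‖ps.2‖ < 1) (hout : ¬(‖ps.1‖ ≤ R ∧ ‖ps.2‖ ≤ ρ)) :
    ∃ R' ρ' θ : ℝ, ∃ L ∈ LPoly, R < R' ∧ ρ < ρ' ∧ ρ' < 1 ∧ 0 < θ ∧ θ < 1 ∧ L (xk Θ' ps) = 1 ∧
      ∀ p ∈ PD R' ρ', ‖L (xk Θ' p)‖ ≤ θ := by
  obtain ⟨R', ρ', θ₀, h, c1, c2, c3, c4, c5, ⟨c, hc⟩, h1, hb⟩ :=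
    sep_aux R ρ hR hρ hρ1 ps hs hout
  have hsrc : ∀ p ∈ PD R' ρ' ∪ {ps}, ‖p.2‖ < 1 := by
    rintro p (hp | hp)
    · exact lt_of_le_of_lt (by simpa using hp.2) c3
    · rw [mem_singleton_iff] at hp; rw [hp]; exact hs
  have hSc : IsCompact (PD R' ρ' ∪ {ps}) :=
    ((isCompact_closedBall _ _).prod (isCompact_closedBall _ _)).union isCompact_singleton
  set K : Set V2 := xk Θ' '' (PD R' ρ' ∪ {ps}) with hK
  have hKc : IsCompact K := hSc.image_of_continuousOn ((xk_diff hΘ).continuousOn.mono hsrc)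
  have hKX : K ⊆ XS := by
    rintro _ ⟨p, hp, rfl⟩
    exact xk_X hΘ (hsrc p hp)
  have hKs : ∀ x ∈ K, (Θ x).2 ∈ Complex.slitPlane := by
    rintro _ ⟨p, hp, rfl⟩
    exact xk_slit hΘ (hsrc p hp)
  obtain ⟨l1, l2⟩ := coord_lap hΘ K hKc hKX hKs
  have hl : LAp K (fun x : V2 => x) (fun x => h (cd (Θ x))) := by
    rcases hc with hc | hc
    · exact lap_congr (lap_smul c l1) (fun x _ => hc _)
    · exact lap_congr (lap_smul c l2) (fun x _ => hc _)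
  set ε : ℝ := (1 - θ₀) / 4 with hε
  have hε0 : 0 < ε := by rw [hε]; linarith
  obtain ⟨L₀, hL₀, hL⟩ := hl ε hε0
  have hL' : ∀ p ∈ PD R' ρ' ∪ {ps}, ‖h p - L₀ (xk Θ' p)‖ < ε := by
    intro p hp
    have := hL (xk Θ' p) (mem_image_of_mem _ hp)
    beta_reduce at this
    rw [cd_xk hΘ (hsrc p hp)] at this
    exact this
  have hps := hL' ps (Or.inr rfl)
  rw [h1] at hps
  have hlow : 1 - ε < ‖L₀ (xk Θ' ps)‖ := by
    have h2 := norm_sub_norm_le (1:ℂ) (L₀ (xk Θ' ps))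
    rw [norm_one] at h2
    linarith
  have hpos : 0 < 1 - ε := by rw [hε]; linarith
  have hne : L₀ (xk Θ' ps) ≠ 0 := norm_pos_iff.mp (hpos.trans hlow)
  refine ⟨R', ρ', (θ₀ + ε) / (1 - ε), (L₀ (xk Θ' ps))⁻¹ • L₀, LPoly.smul_mem _ hL₀, c1, c2, c3,
    by positivity, ?_, ?_, ?_⟩
  · rw [div_lt_one hpos, hε]; linarith
  · simp only [Pi.smul_apply, smul_eq_mul]
    exact inv_mul_cancel₀ hne
  · intro p hp
    have h3 := hL' p (Or.inl hp)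
    have h4 := hb p hp
    have h5 : ‖L₀ (xk Θ' p)‖ ≤ θ₀ + ε := by
      have h6 := norm_sub_norm_le (L₀ (xk Θ' p)) (h p)
      rw [norm_sub_rev] at h6
      linarith
    simp only [Pi.smul_apply, smul_eq_mul]
    rw [norm_mul, norm_inv, inv_mul_eq_div]
    have h7 : 0 ≤ θ₀ + ε := by positivity
    exact div_le_div₀ h7 h5 hpos hlow.le

end FBH
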