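import Pool.Agent.FBH.Defs
import Pool.Agent.FBH.LPComp
import Pool.Agent.FBH.LPBasic
import Pool.Agent.FBH.LPMul
import Pool.Agent.FBH.Poly1

/-!
GLap. Let `g x = (zt x + Λ wt x, -(wt x)^N)` with `|zt| ≤ M`, `r ≤ |wt| ≤ Rw` on `S` and `5 N M ≤ ‖Λ‖ r`. Then `zt`, `wt`, `1/wt`
are Laurent-approximable along `g` on `S`.
Proof. Write `b = zt + Λ wt`, `ζ = -wt^N`. `δ = zt/(Λ wt)` has `|δ| ≤ M/(‖Λ‖ r) ≤ 1/(5N)`. `Υ = b^N/(-Λ^N ζ)` is a Laurent
polynomial in `(b, ζ)` (`b^N ζ^(-1)` times a constant) and `Υ = (b/(Λ wt))^N = (1+δ)^N`, so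
`|Υ - 1| ≤ (1 + 1/(5N))^N - 1 ≤ e^(1/5) - 1 ≤ 1/2`. The function `F(Υ) = exp (-(log Υ)/N)` is holomorphic on `ball 1 1`, so a
uniform limit of polynomials on `closedBall 1 (1/2)` (poly1), and `F(Υ) = 1/(1+δ)`: indeed `log ((1+δ)^N) = N log (1+δ)`
because `|Im (N log (1+δ))| ≤ N · 2 |δ| ≤ 2/5 < π`. Hence `wt = (b/Λ) F(Υ)` is LAp along `g` (lap_poly, lap_mul, everything is
bounded on `S`), `zt = b - Λ wt` too (lap_sub), and `1/wt = wt^(N-1)/wt^N = -wt^(N-1) ζ^(-1)` too (`ζ^(-1)` is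
lpoly_inv along `g`, bounded by `r^(-N)`).
-/

set_option autoImplicit false

open Metric Set Filter Topology

namespace FBH

theorem GLap_pow_bound (d : ℂ) (n : ℕ) : ‖(1 + d) ^ n - 1‖ ≤ (1 + ‖d‖) ^ n - 1 := by
  induction n with
  | zero => simp
  | succ n ih =>
    have e : (1 + d) ^ (n + 1) - 1 = ((1 + d) ^ n - 1) * (1 + d) + d := by ring
    have h1 : ‖(1 : ℂ) + d‖ ≤ 1 + ‖d‖ := (norm_add_le _ _).trans (by rw [norm_one])
    calc ‖(1 + d) ^ (n + 1) - 1‖ = ‖((1 + d) ^ n - 1) * (1 + d) + d‖ := by rw [e]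
      _ ≤ ‖((1 + d) ^ n - 1) * (1 + d)‖ + ‖d‖ := norm_add_le _ _
      _ = ‖(1 + d) ^ n - 1‖ * ‖1 + d‖ + ‖d‖ := by rw [norm_mul]
      _ ≤ ((1 + ‖d‖) ^ n - 1) * (1 + ‖d‖) + ‖d‖ := by
          gcongr
          exact (norm_nonneg _).trans ih
      _ = (1 + ‖d‖) ^ (n + 1) - 1 := by ring

theorem GLap_half (d : ℂ) (N : ℕ) (hN : 0 < N) (hd : ‖d‖ ≤ 1 / (5 * N)) : ‖(1 + d) ^ N - 1‖ ≤ 1 / 2 := by
  have hN' : (0:ℝ) < N := by exact_mod_cast hN
  refine (GLap_pow_bound d N).trans ?_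
  have h1 : (1 + ‖d‖) ^ N ≤ Real.exp (1 / 5) := by
    calc (1 + ‖d‖) ^ N ≤ (Real.exp ‖d‖) ^ N := by
          gcongr
          linarith [Real.add_one_le_exp ‖d‖]
      _ = Real.exp (N * ‖d‖) := by rw [← Real.exp_nat_mul]
      _ ≤ Real.exp (1 / 5) := by
          apply Real.exp_le_exp.2
          calc (N:ℝ) * ‖d‖ ≤ N * (1 / (5 * N)) := by gcongr
            _ = 1 / 5 := by field_simp
  have h2 : Real.exp (1 / 5) ≤ 3 / 2 := by
    have h3 := Real.exp_bound' (x := 1 / 5) (by norm_num) (by norm_num) (n := 2) (by norm_num)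
    refine h3.trans ?_
    norm_num [Finset.sum_range_succ, Nat.factorial]
  linarith

theorem GLap_F (d : ℂ) (N : ℕ) (hN : 0 < N) (hd : ‖d‖ ≤ 1 / (5 * N)) :
    Complex.exp (-(Complex.log ((1 + d) ^ N)) / N) = (1 + d)⁻¹ := by
  have hN' : (0:ℝ) < N := by exact_mod_cast hN
  have hN1 : (1:ℝ) ≤ N := by exact_mod_cast hN
  have hNc : (N:ℂ) ≠ 0 := by exact_mod_cast hN.ne'
  have hd2 : ‖d‖ ≤ 1 / 2 := by
    refine hd.trans ?_
    rw [div_le_div_iff₀ (by positivity) (by norm_num)]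
    linarith
  have h1 : (1 + d) ≠ 0 := by
    intro h
    have h2 : d = -1 := by linear_combination h
    rw [h2, norm_neg, norm_one] at hd2
    norm_num at hd2
  have h3 := Complex.norm_log_one_add_half_le_self hd2
  have h4 : ‖(N:ℂ) * Complex.log (1 + d)‖ ≤ 3 / 10 := by
    rw [norm_mul, Complex.norm_natCast]
    calc (N:ℝ) * ‖Complex.log (1 + d)‖ ≤ N * (3 / 2 * (1 / (5 * N))) := by
          gcongr
          refine h3.trans ?_
          gcongr
      _ = 3 / 10 := by field_simp; norm_num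
  have h5 : |((N:ℂ) * Complex.log (1 + d)).im| ≤ 3 / 10 := (Complex.abs_im_le_norm _).trans h4
  have h6 := abs_le.1 h5
  have hpi := Real.pi_gt_three
  have e : (1 + d) ^ N = Complex.exp ((N:ℂ) * Complex.log (1 + d)) := by
    rw [Complex.exp_nat_mul, Complex.exp_log h1]
  rw [e, Complex.log_exp (by linarith [h6.1]) (by linarith [h6.2])]
  have e2 : -((N:ℂ) * Complex.log (1 + d)) / N = -Complex.log (1 + d) := by field_simp
  rw [e2, Complex.exp_neg, Complex.exp_log h1]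

theorem g_lap {α : Type*} (S : Set α) (zt wt : α → ℂ) (N : ℕ) (hN : 0 < N) (Λ : ℂ) (M r Rw : ℝ)
    (hM : 0 < M) (hr : 0 < r) (hz : ∀ x ∈ S, ‖zt x‖ ≤ M) (hw : ∀ x ∈ S, r ≤ ‖wt x‖)
    (hw2 : ∀ x ∈ S, ‖wt x‖ ≤ Rw) (hΛ : 5 * (N:ℝ) * M ≤ ‖Λ‖ * r) :
    LAp S (fun x => ((zt x + Λ * wt x, -(wt x) ^ N) : V2)) zt ∧
      LAp S (fun x => ((zt x + Λ * wt x, -(wt x) ^ N) : V2)) wt ∧
      LAp S (fun x => ((zt x + Λ * wt x, -(wt x) ^ N) : V2)) (fun x => (wt x)⁻¹) := by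
  set g : α → V2 := fun x => ((zt x + Λ * wt x, -(wt x) ^ N) : V2) with hgdef
  have hN' : (0:ℝ) < N := by exact_mod_cast hN
  have hΛ0 : 0 < ‖Λ‖ := by
    by_contra h
    have h0 : ‖Λ‖ = 0 := le_antisymm (not_lt.1 h) (norm_nonneg _)
    rw [h0, zero_mul] at hΛ
    have : 0 < 5 * (N:ℝ) * M := by positivity
    linarith
  have hΛn : Λ ≠ 0 := norm_pos_iff.1 hΛ0
  have hwn : ∀ x ∈ S, wt x ≠ 0 := fun x hx => norm_pos_iff.1 (hr.trans_le (hw x hx))
  have hg : ∀ x ∈ S, (g x).2 ≠ 0 := fun x hx => neg_ne_zero.2 (pow_ne_zero _ (hwn x hx))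
  have hg1 : ∀ x, (g x).1 = zt x + Λ * wt x := fun x => rfl
  have hg2 : ∀ x, (g x).2 = -(wt x) ^ N := fun x => rfl
  -- delta
  have hδ : ∀ x ∈ S, ‖zt x / (Λ * wt x)‖ ≤ 1 / (5 * N) := by
    intro x hx
    rw [norm_div, norm_mul]
    have h1 : ‖Λ‖ * r ≤ ‖Λ‖ * ‖wt x‖ := by gcongr; exact hw x hx
    rw [div_le_div_iff₀ (mul_pos hΛ0 (hr.trans_le (hw x hx))) (by positivity)]
    have h2 := hz x hx
    nlinarith
  have hb1 : ∀ x ∈ S, (g x).1 = Λ * wt x * (1 + zt x / (Λ * wt x)) := by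
    intro x hx
    have := hwn x hx
    rw [hg1]
    field_simp
    ring
  have h1d : ∀ x ∈ S, ‖(1 + zt x / (Λ * wt x))⁻¹‖ ≤ 2 := by
    intro x hx
    have h1 : ‖zt x / (Λ * wt x)‖ ≤ 1 / 2 := by
      refine (hδ x hx).trans ?_
      rw [div_le_div_iff₀ (by positivity) (by norm_num)]
      have : (1:ℝ) ≤ N := by exact_mod_cast hN
      linarith
    have h2 : 1 - 1 / 2 ≤ ‖1 + zt x / (Λ * wt x)‖ := by
      have h3 := norm_sub_norm_le (1:ℂ) (-(zt x / (Λ * wt x)))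
      rw [norm_one, norm_neg, sub_neg_eq_add] at h3
      linarith
    rw [norm_inv]
    have h4 : (0:ℝ) < ‖1 + zt x / (Λ * wt x)‖ := by linarith
    rw [inv_le_comm₀ h4 (by norm_num)]
    linarith
  have h1n : ∀ x ∈ S, 1 + zt x / (Λ * wt x) ≠ 0 := by
    intro x hx h
    have h1 : zt x / (Λ * wt x) = -1 := by linear_combination h
    have h2 := hδ x hx
    rw [h1, norm_neg, norm_one, le_div_iff₀ (by positivity)] at h2
    have : (1:ℝ) ≤ N := by exact_mod_cast hN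
    linarith
  -- basic approximable functions
  have a1 : LAp S g (fun x => (g x).1) := lap_of_lpoly S g lpoly_fst
  have a3 : LAp S g (fun x => ((g x).2)⁻¹) := lap_of_lpoly S g lpoly_inv
  have b1 : ∀ x ∈ S, ‖(g x).1‖ ≤ M + ‖Λ‖ * |Rw| := by
    intro x hx
    rw [hg1]
    refine (norm_add_le _ _).trans ?_
    rw [norm_mul]
    have := hz x hx
    have h2 := (hw2 x hx).trans (le_abs_self Rw)
    gcongr
  have b3 : ∀ x ∈ S, ‖((g x).2)⁻¹‖ ≤ (r ^ N)⁻¹ := by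
    intro x hx
    rw [hg2, norm_inv, norm_neg, norm_pow]
    have := hw x hx
    gcongr
  set B : ℝ := (M + ‖Λ‖ * |Rw|) + (M + ‖Λ‖ * |Rw|) ^ N + (r ^ N)⁻¹ + 2 + |Rw| ^ (N - 1) with hB
  have hp1 : 0 ≤ M + ‖Λ‖ * |Rw| := by positivity
  have hp2 : 0 ≤ (M + ‖Λ‖ * |Rw|) ^ N := by positivity
  have hp3 : 0 ≤ (r ^ N)⁻¹ := by positivity
  have hp4 : 0 ≤ |Rw| ^ (N - 1) := by positivity
  have a4 : LAp S g (fun x => (g x).1 ^ N) := lap_pow hg _ b1 a1 N
  have a5 : LAp S g (fun x => (g x).1 ^ N * ((g x).2)⁻¹) := by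
    refine lap_mul hg B ?_ ?_ a4 a3
    · intro x hx
      rw [norm_pow]
      calc ‖(g x).1‖ ^ N ≤ (M + ‖Λ‖ * |Rw|) ^ N := by gcongr; exact b1 x hx
        _ ≤ B := by rw [hB]; linarith
    · intro x hx
      exact (b3 x hx).trans (by rw [hB]; linarith)
  have a6 : LAp S g (fun x => (-(Λ ^ N))⁻¹ * ((g x).1 ^ N * ((g x).2)⁻¹)) := lap_smul _ a5
  have hU : ∀ x ∈ S, (-(Λ ^ N))⁻¹ * ((g x).1 ^ N * ((g x).2)⁻¹) = (1 + zt x / (Λ * wt x)) ^ N := by
    intro x hx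
    have h1 := hwn x hx
    have h2 : Λ ^ N ≠ 0 := pow_ne_zero _ hΛn
    have h3 : wt x ^ N ≠ 0 := pow_ne_zero _ h1
    rw [hb1 x hx, hg2, mul_pow, mul_pow]
    generalize (1 + zt x / (Λ * wt x)) ^ N = Y
    field_simp
  have a7 : LAp S g (fun x => Complex.exp (-(Complex.log ((-(Λ ^ N))⁻¹ * ((g x).1 ^ N * ((g x).2)⁻¹))) / N)) := by
    refine lap_poly hg (3 / 2) ?_ a6 (closedBall (1:ℂ) (1 / 2)) ?_
      (fun u => Complex.exp (-(Complex.log u) / N)) ?_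
    · intro x hx
      rw [hU x hx]
      have h1 := GLap_half _ N hN (hδ x hx)
      have h2 := norm_sub_norm_le ((1 + zt x / (Λ * wt x)) ^ N) 1
      rw [norm_one] at h2
      linarith
    · intro x hx
      rw [hU x hx, mem_closedBall, dist_eq_norm]
      exact GLap_half _ N hN (hδ x hx)
    · refine poly1 _ 1 (1 / 2) 1 (by norm_num) ?_
      intro u hu
      have h1 : u ∈ Complex.slitPlane := by
        left
        rw [mem_ball, dist_eq_norm] at hu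
        have h2 := Complex.abs_re_le_norm (u - 1)
        have h3 := (abs_lt.1 (h2.trans_lt hu)).1
        simp only [Complex.sub_re, Complex.one_re] at h3
        linarith
      exact ((((Complex.differentiableAt_log h1).neg.div_const _).cexp)).differentiableWithinAt
  have a8 : LAp S g (fun x => (1 + zt x / (Λ * wt x))⁻¹) := by
    refine lap_congr a7 ?_
    intro x hx
    rw [hU x hx, GLap_F _ N hN (hδ x hx)]
  have a9 : LAp S g (fun x => (g x).1 * (1 + zt x / (Λ * wt x))⁻¹) := by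
    refine lap_mul hg B ?_ ?_ a1 a8
    · intro x hx
      exact (b1 x hx).trans (by rw [hB]; linarith)
    · intro x hx
      exact (h1d x hx).trans (by rw [hB]; linarith)
  have aw : LAp S g wt := by
    refine lap_congr (lap_smul Λ⁻¹ a9) ?_
    intro x hx
    rw [hb1 x hx]
    have h1 := h1n x hx
    generalize (1 + zt x / (Λ * wt x)) = Y at h1
    field_simp
  refine ⟨?_, aw, ?_⟩
  · refine lap_congr (lap_sub a1 (lap_smul Λ aw)) ?_
    intro x hx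
    rw [hg1]
    ring
  · have c1 : LAp S g (fun x => wt x ^ (N - 1)) := by
      refine lap_pow hg |Rw| ?_ aw (N - 1)
      intro x hx
      exact (hw2 x hx).trans (le_abs_self Rw)
    have c2 : LAp S g (fun x => wt x ^ (N - 1) * ((g x).2)⁻¹) := by
      refine lap_mul hg B ?_ ?_ c1 a3
      · intro x hx
        rw [norm_pow]
        calc ‖wt x‖ ^ (N - 1) ≤ |Rw| ^ (N - 1) := by
              gcongr
              exact (hw2 x hx).trans (le_abs_self Rw)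
          _ ≤ B := by rw [hB]; linarith
      · intro x hx
        exact (b3 x hx).trans (by rw [hB]; linarith)
    refine lap_congr (lap_smul (-1) c2) ?_
    intro x hx
    have h1 := hwn x hx
    rw [hg2]
    obtain ⟨n, rfl⟩ : ∃ n, N = n + 1 := ⟨N - 1, by omega⟩
    rw [Nat.add_sub_cancel, pow_succ]
    have h3 : wt x ^ n ≠ 0 := pow_ne_zero _ h1
    field_simp

end FBH
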