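import Pool.Agent.FBH.Defs
import Pool.Agent.FBH.ScSmooth
import Pool.Agent.FBH.NiSurj

/-!
NiInv. Holomorphic inverse of a map close to the identity.
Proof. `π` is injective on `O = OD (R+3d/4) (ρ+3d/4)` by ni_lip (`‖π x - π y‖ ≥ ‖x-y‖/2`). Define `σ y` for
`y ∈ OD (R+d/2) (ρ+d/2)` as the `p ∈ O` of ni_surj (`choose`), arbitrary otherwise. For `p ∈ PD R ρ`,
`π p ∈ OD (R+d/2) (ρ+d/2)` (`δ ≤ d/8`), so `σ (π p) = p` by injectivity. `σ` is holomorphic: at `p₀ = σ y₀` the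
strict derivative of `π` is `id + (derivative of e)`, with the second term of norm `≤ 1/2` (Lipschitz), hence invertible; the local
inverse of the inverse function theorem agrees with `σ` near `y₀` because of the injectivity of `π` on `O` (`O` open, the local inverse is
continuous with value `p₀ ∈ O` at `y₀`).
-/

set_option autoImplicit false

open Metric Set Filter Topology

namespace FBH

private theorem niInv_mem (R ρ : ℝ) (x : V2) : x ∈ OD R ρ ↔ ‖x.1‖ < R ∧ ‖x.2‖ < ρ := by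
  simp [OD, mem_prod]

private theorem niInv_shift (R ρ a b : ℝ) (x y : V2) (hx : x ∈ OD (R + a) (ρ + a))
    (hxy : ‖y - x‖ ≤ b) : y ∈ OD (R + (a + b)) (ρ + (a + b)) := by
  rw [niInv_mem] at hx ⊢
  have h1 : ‖(y - x).1‖ ≤ b := le_trans (norm_fst_le _) hxy
  have h2 : ‖(y - x).2‖ ≤ b := le_trans (norm_snd_le _) hxy
  have e1 : y.1 = x.1 + (y - x).1 := by simp
  have e2 : y.2 = x.2 + (y - x).2 := by simp
  constructor
  · have := norm_add_le x.1 (y - x).1
    rw [← e1] at this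
    linarith [hx.1]
  · have := norm_add_le x.2 (y - x).2
    rw [← e2] at this
    linarith [hx.2]

theorem ni_inv (π : V2 → V2) (R ρ d δ : ℝ) (hR : 0 < R) (hρ : 0 < ρ) (hd : 0 < d) (hδ : 8 * δ ≤ d)
    (hπ : DifferentiableOn ℂ π (OD (R + d) (ρ + d)))
    (hc : ∀ p ∈ OD (R + d) (ρ + d), ‖π p - p‖ ≤ δ) :
    ∃ σ : V2 → V2, DifferentiableOn ℂ σ (OD (R + d / 2) (ρ + d / 2)) ∧
      (∀ y ∈ OD (R + d / 2) (ρ + d / 2), σ y ∈ OD (R + d) (ρ + d)) ∧ ∀ p ∈ PD R ρ, σ (π p) = p := by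
  classical
  have hlip := ni_lip π R ρ d δ hR hρ hd hδ hπ hc
  have hsurj := ni_surj π R ρ d δ hR hρ hd hδ hπ hc
  have hOO : OD (R + 3 * d / 4) (ρ + 3 * d / 4) ⊆ OD (R + d) (ρ + d) := by
    intro x hx
    rw [niInv_mem] at hx ⊢
    constructor <;> linarith [hx.1, hx.2]
  have hO : IsOpen (OD (R + 3 * d / 4) (ρ + 3 * d / 4)) := isOpen_ball.prod isOpen_ball
  have hOh : IsOpen (OD (R + d / 2) (ρ + d / 2)) := isOpen_ball.prod isOpen_ball
  have hOd : IsOpen (OD (R + d) (ρ + d)) := isOpen_ball.prod isOpen_ball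
  have hbd : ∀ x ∈ OD (R + 3 * d / 4) (ρ + 3 * d / 4), ∀ y ∈ OD (R + 3 * d / 4) (ρ + 3 * d / 4),
      ‖x - y‖ ≤ 2 * ‖π x - π y‖ := by
    intro x hx y hy
    have h := hlip x hx y hy
    have e : x - y = (π x - π y) - ((π x - x) - (π y - y)) := by abel
    have h2 : ‖x - y‖ ≤ ‖π x - π y‖ + ‖(π x - x) - (π y - y)‖ := by
      conv_lhs => rw [e]
      exact norm_sub_le _ _
    linarith
  have hinj : ∀ x ∈ OD (R + 3 * d / 4) (ρ + 3 * d / 4), ∀ y ∈ OD (R + 3 * d / 4) (ρ + 3 * d / 4),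
      π x = π y → x = y := by
    intro x hx y hy hxy
    have h := hbd x hx y hy
    rw [hxy, sub_self, norm_zero, mul_zero] at h
    exact sub_eq_zero.1 (norm_le_zero_iff.1 h)
  choose! σ hσ1 hσ2 hσ3 using hsurj
  refine ⟨σ, ?_, fun y hy => hOO (hσ1 y hy), ?_⟩
  · intro y₀ hy₀
    apply DifferentiableAt.differentiableWithinAt
    have hp := hσ1 y₀ hy₀
    have hπd : DifferentiableAt ℂ π (σ y₀) := hπ.differentiableAt (hOd.mem_nhds (hOO hp))
    set L : V2 →L[ℂ] V2 := fderiv ℂ π (σ y₀) with hL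
    have hed : HasFDerivAt (fun p => π p - p) (L - ContinuousLinearMap.id ℂ V2) (σ y₀) :=
      hπd.hasFDerivAt.sub (hasFDerivAt_id _)
    have hnorm : ‖L - ContinuousLinearMap.id ℂ V2‖ ≤ 1 / 2 := by
      apply hed.le_of_lip' (by norm_num)
      filter_upwards [hO.mem_nhds hp] with x hx
      exact hlip x hx (σ y₀) hp
    have hLinj : Function.Injective L := by
      rw [injective_iff_map_eq_zero]
      intro v hv
      have h1 : (L - ContinuousLinearMap.id ℂ V2) v = -v := by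
        simp [hv]
      have h2 := (L - ContinuousLinearMap.id ℂ V2).le_opNorm v
      rw [h1, norm_neg] at h2
      have h3 : ‖L - ContinuousLinearMap.id ℂ V2‖ * ‖v‖ ≤ 1 / 2 * ‖v‖ :=
        mul_le_mul_of_nonneg_right hnorm (norm_nonneg _)
      have h4 : ‖v‖ ≤ 0 := by linarith
      exact norm_le_zero_iff.1 h4
    let L' : V2 ≃ₗ[ℂ] V2 := LinearEquiv.ofInjectiveEndo (L : V2 →ₗ[ℂ] V2) hLinj
    let L'' : V2 ≃L[ℂ] V2 := L'.toContinuousLinearEquiv
    have hLL : (L'' : V2 →L[ℂ] V2) = L := by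
      apply ContinuousLinearMap.coe_injective
      rfl
    have hcont : ContinuousAt σ y₀ := by
      rw [Metric.continuousAt_iff]
      intro ε hε
      obtain ⟨r, hr, hrs⟩ := Metric.isOpen_iff.1 hOh y₀ hy₀
      refine ⟨min r (ε / 2), lt_min hr (by linarith), ?_⟩
      intro y hy
      have hy1 : y ∈ OD (R + d / 2) (ρ + d / 2) := hrs (lt_of_lt_of_le hy (min_le_left _ _))
      have h := hbd (σ y) (hσ1 y hy1) (σ y₀) hp
      rw [hσ2 y hy1, hσ2 y₀ hy₀] at h
      rw [dist_eq_norm]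
      have h5 : ‖y - y₀‖ < ε / 2 := by
        rw [← dist_eq_norm]; exact lt_of_lt_of_le hy (min_le_right _ _)
      linarith
    have hf : HasFDerivAt π (L'' : V2 →L[ℂ] V2) (σ y₀) := by
      rw [hLL]; exact hπd.hasFDerivAt
    have hfg : ∀ᶠ y in 𝓝 y₀, π (σ y) = y := by
      filter_upwards [hOh.mem_nhds hy₀] with y hy
      exact hσ2 y hy
    exact (HasFDerivAt.of_local_left_inverse hcont hf hfg).differentiableAt
  · intro p hp
    have hp1 : p ∈ OD (R + d / 4) (ρ + d / 4) := by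
      rw [niInv_mem]
      simp only [PD, mem_prod, mem_closedBall_zero_iff] at hp
      constructor <;> linarith [hp.1, hp.2]
    have hp2 : p ∈ OD (R + d) (ρ + d) := by
      rw [niInv_mem] at hp1 ⊢
      constructor <;> linarith [hp1.1, hp1.2]
    have hp3 : p ∈ OD (R + 3 * d / 4) (ρ + 3 * d / 4) := by
      rw [niInv_mem] at hp1 ⊢
      constructor <;> linarith [hp1.1, hp1.2]
    have h := hc p hp2
    have hq : π p ∈ OD (R + d / 2) (ρ + d / 2) := by
      have h2 := niInv_shift R ρ (d / 4) (d / 4) p (π p) hp1 (by linarith)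
      have e : d / 4 + d / 4 = d / 2 := by ring
      rwa [e] at h2
    exact hinj _ (hσ1 _ hq) _ hp3 (hσ2 _ hq)

end FBH
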