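import Pool.Agent.FBH.Defs
import Pool.Agent.FBH.LPComp
import Pool.Agent.FBH.Poly2
import Pool.Agent.FBH.NiInv

/-!
Runge. If the two components of a map `π` close to the identity are Laurent-approximable along `g` on `PD R ρ`, then
so is every holomorphic function on `OD (R+d) (ρ+d)`.
Proof. With `σ` from ni_inv, `h ∘ σ` is holomorphic on `OD (R+d/2) (ρ+d/2)`, so by poly2 for every `ε` there is
`B ∈ BPoly` with `‖h (σ y) - B y‖ < ε` on `PD (R+d/4) (ρ+d/4)`, which contains `π p` for `p ∈ PD R ρ` (`δ ≤ d/8`). So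
`‖h p - B (π p)‖ < ε`, and `p ↦ B (π p)` is LAp by lap_bpoly (`π` is bounded on `PD R ρ`). Use lap_limit.
-/

set_option autoImplicit false

open Metric Set Filter Topology

namespace FBH

theorem runge (g π : V2 → V2) (R ρ d δ : ℝ) (hR : 0 < R) (hρ : 0 < ρ) (hd : 0 < d) (hδ : 8 * δ ≤ d)
    (hπ : DifferentiableOn ℂ π (OD (R + d) (ρ + d)))
    (hc : ∀ p ∈ OD (R + d) (ρ + d), ‖π p - p‖ ≤ δ) (hg : ∀ p ∈ PD R ρ, (g p).2 ≠ 0)
    (h1 : LAp (PD R ρ) g (fun p => (π p).1)) (h2 : LAp (PD R ρ) g (fun p => (π p).2)) :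
    ∀ h : V2 → ℂ, DifferentiableOn ℂ h (OD (R + d) (ρ + d)) → LAp (PD R ρ) g h := by
  intro h hh
  have hδ' : δ ≤ d / 8 := by linarith
  have hsub : ∀ p ∈ PD R ρ, p ∈ OD (R + d) (ρ + d) := by
    intro p hp
    simp only [PD, OD, Set.mem_prod, mem_closedBall, mem_ball] at hp ⊢
    exact ⟨by linarith [hp.1], by linarith [hp.2]⟩
  have hπ1 : ∀ p ∈ PD R ρ, ‖(π p).1‖ ≤ R + d / 8 ∧ ‖(π p).2‖ ≤ ρ + d / 8 := by
    intro p hp
    have h0 := hc p (hsub p hp)
    have h1 : ‖(π p).1 - p.1‖ ≤ ‖π p - p‖ := by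
      have := norm_fst_le (π p - p)
      simpa using this
    have h2 : ‖(π p).2 - p.2‖ ≤ ‖π p - p‖ := by
      have := norm_snd_le (π p - p)
      simpa using this
    simp only [PD, Set.mem_prod, mem_closedBall, dist_zero_right] at hp
    constructor
    · calc ‖(π p).1‖ = ‖p.1 + ((π p).1 - p.1)‖ := by congr 1; ring
        _ ≤ ‖p.1‖ + ‖(π p).1 - p.1‖ := norm_add_le _ _
        _ ≤ R + d / 8 := by linarith [hp.1]
    · calc ‖(π p).2‖ = ‖p.2 + ((π p).2 - p.2)‖ := by congr 1; ring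
        _ ≤ ‖p.2‖ + ‖(π p).2 - p.2‖ := norm_add_le _ _
        _ ≤ ρ + d / 8 := by linarith [hp.2]
  obtain ⟨σ, hσ1, hσ2, hσ3⟩ := ni_inv π R ρ d δ hR hρ hd hδ hπ hc
  have hcomp : DifferentiableOn ℂ (fun y => h (σ y)) (OD (R + d / 2) (ρ + d / 2)) :=
    hh.comp hσ1 (fun y hy => hσ2 y hy)
  apply lap_limit
  intro ε hε
  obtain ⟨B, hB, hBε⟩ := poly2 (fun y => h (σ y)) (R + d / 8) (ρ + d / 8) (R + d / 2) (ρ + d / 2)
    (by linarith) (by linarith) (by linarith) (by linarith) hcomp ε hε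
  refine ⟨fun p => B ((π p).1, (π p).2), ?_, ?_⟩
  · exact lap_bpoly hg (max (R + d / 8) (ρ + d / 8))
      (fun p hp => le_trans (hπ1 p hp).1 (le_max_left _ _))
      (fun p hp => le_trans (hπ1 p hp).2 (le_max_right _ _)) h1 h2 hB
  · intro p hp
    have h3 := hBε (π p) (by
      simp only [PD, Set.mem_prod, mem_closedBall, dist_zero_right]
      exact hπ1 p hp)
    simp only [hσ3 p hp] at h3
    simpa using h3.le

end FBH
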