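import Pool.Agent.FBH.Defs
import Pool.Agent.FBH.LPMul
import Pool.Agent.FBH.LPBasic
import Pool.Agent.FBH.LPComp
import Pool.Agent.FBH.XkBasic
import Pool.Agent.FBH.CoordLap
import Pool.Agent.FBH.Root
import Pool.Agent.FBH.Nu
import Pool.Agent.FBH.GLap
import Pool.Agent.FBH.LamNe
import Pool.Agent.FBH.Runge

/-!
T2b. The Runge property of `gm G Λ ∘ xk Θ'`, `G = GG P m l`, from the closeness of `nu` to the identity.
Proof. Put `x p = xk Θ' p`, `N = m l + 1`, `ν p = nu L l N Λ (x p)`, `g p = gm G Λ (x p)`. On `S = PD R₂ ρ₂`,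
`g p = ((ν p).1 + Λ (ν p).2, -((ν p).2)^N)` by nu_sum, nu_pow (`‖L^l‖ < 1`), gg_eq (`x p ∈ X`, xk_X). By g_lap the three functions
`(ν p).1, (ν p).2, ((ν p).2)⁻¹` are LAp along `g` on `S`. Let `Q = PD (R₂+2d) (ρ₂+2d)`, `Y = x '' Q` (compact), `K = {y | ∃ x ∈ Y, ‖y - x‖ ≤ δπ}`, compact
(`K = cthickening δπ Y`; or image of the compact set `Y ×ˢ closedBall 0 δπ` under addition), contained in `XS`, with `(Θ y).2` in the slit plane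
(hypothesis `hπ`); `ν p ∈ K` for `p ∈ Q`. By coord_lap and lap_comp the components of `π p = cd (Θ (ν p))` are LAp along `g` on `S`.
`‖π p - p‖ ≤ d/8` on `Q`, in particular on `OD (R₂+d) (ρ₂+d)`, and `π` is differentiable there: `xk Θ'` (xk_diff), `nu` at `x p`
(nu_diff on the open set `{y ∈ XS | ‖L y ^ l‖ < 1}`, L differentiable by lpoly_diff), `Θ` on `XS`, `cd` where the second coordinate is in the slit plane
(kai_diff). `g p ∈ X` on `S` as `(ν p).2 ≠ 0`. Apply runge with `(R₂, ρ₂, d, d/8)`.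
-/

set_option autoImplicit false

open Metric Set Filter Topology

namespace FBH

private theorem t2b_congr {α : Type*} {S : Set α} {g g' : α → V2} {h : α → ℂ}
    (hh : LAp S g h) (he : ∀ x ∈ S, g' x = g x) : LAp S g' h := by
  intro ε hε
  obtain ⟨L, hL, hb⟩ := hh ε hε
  refine ⟨L, hL, fun x hx => ?_⟩
  rw [he x hx]
  exact hb x hx

private theorem t2b_pd_mono {R ρ R' ρ' : ℝ} (h1 : R ≤ R') (h2 : ρ ≤ ρ') : PD R ρ ⊆ PD R' ρ' :=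
  Set.prod_mono (closedBall_subset_closedBall h1) (closedBall_subset_closedBall h2)

private theorem t2b_od_pd {R ρ R' ρ' : ℝ} (h1 : R ≤ R') (h2 : ρ ≤ ρ') : OD R ρ ⊆ PD R' ρ' :=
  Set.prod_mono (ball_subset_closedBall.trans (closedBall_subset_closedBall h1))
    (ball_subset_closedBall.trans (closedBall_subset_closedBall h2))

theorem T2b {Θ Θ' : V2 → V2} (hΘ : LAut Θ Θ') (R₂ ρ₂ d : ℝ) (hR₂ : 0 < R₂) (hρ₂ : 0 < ρ₂)
    (hd : 0 < d) (hd1 : ρ₂ + 2 * d < 1) (L P : V2 → ℂ) (m l : ℕ) (hL : L ∈ LPoly)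
    (hLP : ∀ x : V2, x.2 ≠ 0 → L x = P x / x.2 ^ m) (Λ : ℂ)
    (hLl : ∀ p ∈ PD (R₂ + 2 * d) (ρ₂ + 2 * d), ‖L (xk Θ' p) ^ l‖ < 1) (δπ : ℝ) (hδπ : 0 < δπ)
    (hπ : ∀ p ∈ PD (R₂ + 2 * d) (ρ₂ + 2 * d), ∀ y : V2, ‖y - xk Θ' p‖ ≤ δπ →
      y.2 ≠ 0 ∧ (Θ y).2 ∈ Complex.slitPlane ∧ ‖cd (Θ y) - p‖ ≤ d / 8)
    (hν : ∀ p ∈ PD (R₂ + 2 * d) (ρ₂ + 2 * d),
      ‖nu L l (m * l + 1) Λ (xk Θ' p) - xk Θ' p‖ ≤ δπ) (M r Rw : ℝ) (hM : 0 < M) (hr : 0 < r)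
    (h1 : ∀ p ∈ PD R₂ ρ₂, ‖(nu L l (m * l + 1) Λ (xk Θ' p)).1‖ ≤ M)
    (h2 : ∀ p ∈ PD R₂ ρ₂, r ≤ ‖(nu L l (m * l + 1) Λ (xk Θ' p)).2‖)
    (h3 : ∀ p ∈ PD R₂ ρ₂, ‖(nu L l (m * l + 1) Λ (xk Θ' p)).2‖ ≤ Rw)
    (hΛ : 5 * ((m * l + 1 : ℕ) : ℝ) * M ≤ ‖Λ‖ * r) :
    ∀ h : V2 → ℂ, DifferentiableOn ℂ h (OD (R₂ + d) (ρ₂ + d)) →
      LAp (PD R₂ ρ₂) (fun p => gm (GG P m l) Λ (xk Θ' p)) h := by
  have hN : 0 < m * l + 1 := Nat.succ_pos _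
  set Q : Set V2 := PD (R₂ + 2 * d) (ρ₂ + 2 * d) with hQ
  set S : Set V2 := PD R₂ ρ₂ with hS
  have hSQ : S ⊆ Q := t2b_pd_mono (by linarith) (by linarith)
  have hOQ : OD (R₂ + d) (ρ₂ + d) ⊆ Q := t2b_od_pd (by linarith) (by linarith)
  have hQ1 : ∀ p ∈ Q, ‖p.2‖ < 1 := by
    intro p hp
    have h4 : ‖p.2‖ ≤ ρ₂ + 2 * d := by
      have := hp.2
      rwa [mem_closedBall, dist_zero_right] at this
    linarith
  have hQX : ∀ p ∈ Q, (xk Θ' p).2 ≠ 0 := fun p hp => xk_X hΘ (hQ1 p hp)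
  have hπν := fun p hp => hπ p hp _ (hν p hp)
  -- differentiability of the map nu ∘ x
  have hxd : DifferentiableOn ℂ (xk Θ') Q := (xk_diff hΘ).mono hQ1
  have hνd : DifferentiableOn ℂ (fun p => nu L l (m * l + 1) Λ (xk Θ' p)) Q := by
    have h5 : DifferentiableOn ℂ (nu L l (m * l + 1) Λ) {y : V2 | y ∈ XS ∧ ‖L y ^ l‖ < 1} :=
      nu_diff L l (m * l + 1) Λ _ ((lpoly_diff hL).mono fun y hy => hy.1) fun y hy => hy.2
    exact h5.comp hxd fun p hp => ⟨hQX p hp, hLl p hp⟩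
  have hΘν : DifferentiableOn ℂ (fun p => Θ (nu L l (m * l + 1) Λ (xk Θ' p))) Q :=
    hΘ.diff.comp hνd fun p hp => (hπν p hp).1
  have hπd : DifferentiableOn ℂ (fun p => cd (Θ (nu L l (m * l + 1) Λ (xk Θ' p)))) Q := by
    have h6 : DifferentiableOn ℂ (fun p => (Θ (nu L l (m * l + 1) Λ (xk Θ' p))).1) Q := hΘν.fst
    have h7 : DifferentiableOn ℂ (fun p => (Θ (nu L l (m * l + 1) Λ (xk Θ' p))).2) Q := hΘν.snd
    have h8 : DifferentiableOn ℂ (fun p => kai (Θ (nu L l (m * l + 1) Λ (xk Θ' p))).2) Q :=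
      kai_diff.comp h7 fun p hp => (hπν p hp).2.1
    exact h6.prodMk h8
  -- the map g
  have hg : ∀ p ∈ S, gm (GG P m l) Λ (xk Θ' p) =
      ((nu L l (m * l + 1) Λ (xk Θ' p)).1 + Λ * (nu L l (m * l + 1) Λ (xk Θ' p)).2,
        -((nu L l (m * l + 1) Λ (xk Θ' p)).2) ^ (m * l + 1)) := by
    intro p hp
    have h9 := nu_pow L l (m * l + 1) hN Λ (xk Θ' p) (hLl p (hSQ hp))
    have h10 := gg_eq P L m l (xk Θ' p) (hQX p (hSQ hp)) (hLP _ (hQX p (hSQ hp)))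
    unfold gm
    rw [nu_sum, h9, h10]
  obtain ⟨k1, k2, k3⟩ := g_lap S (fun p => (nu L l (m * l + 1) Λ (xk Θ' p)).1)
    (fun p => (nu L l (m * l + 1) Λ (xk Θ' p)).2) (m * l + 1) hN Λ M r Rw hM hr h1 h2 h3 hΛ
  -- the compact set
  set K : Set V2 := (fun p => nu L l (m * l + 1) Λ (xk Θ' p)) '' Q with hK
  have hQc : IsCompact Q := (isCompact_closedBall _ _).prod (isCompact_closedBall _ _)
  have hKc : IsCompact K := hQc.image_of_continuousOn hνd.continuousOn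
  have hKX : K ⊆ XS := by
    rintro _ ⟨p, hp, rfl⟩
    exact (hπν p hp).1
  have hKs : ∀ x ∈ K, (Θ x).2 ∈ Complex.slitPlane := by
    rintro _ ⟨p, hp, rfl⟩
    exact (hπν p hp).2.1
  obtain ⟨c1, c2⟩ := coord_lap hΘ K hKc hKX hKs
  have hgne : ∀ p ∈ S, (((nu L l (m * l + 1) Λ (xk Θ' p)).1 +
      Λ * (nu L l (m * l + 1) Λ (xk Θ' p)).2,
        -((nu L l (m * l + 1) Λ (xk Θ' p)).2) ^ (m * l + 1)) : V2).2 ≠ 0 := by
    intro p hp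
    have h11 := (hπν p (hSQ hp)).1
    exact neg_ne_zero.mpr (pow_ne_zero _ h11)
  have hνK : ∀ p ∈ S, nu L l (m * l + 1) Λ (xk Θ' p) ∈ K := fun p hp => ⟨p, hSQ hp, rfl⟩
  have e1 := lap_comp (S := S) (ν := fun p => nu L l (m * l + 1) Λ (xk Θ' p)) hgne K hKc hKX hνK
    k1 k2 k3 _ c1
  have e2 := lap_comp (S := S) (ν := fun p => nu L l (m * l + 1) Λ (xk Θ' p)) hgne K hKc hKX hνK
    k1 k2 k3 _ c2
  refine runge (fun p => gm (GG P m l) Λ (xk Θ' p))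
    (fun p => cd (Θ (nu L l (m * l + 1) Λ (xk Θ' p)))) R₂ ρ₂ d (d / 8) hR₂ hρ₂ hd (by linarith)
    (hπd.mono hOQ) (fun p hp => (hπν p (hOQ hp)).2.2) ?_ (t2b_congr e1 hg) (t2b_congr e2 hg)
  intro p hp
  have h12 := hgne p hp
  rw [← hg p hp] at h12
  exact h12

end FBH
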