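import Pool.Agent.FBH.Defs
import Pool.Agent.FBH.LPMul
import Pool.Agent.FBH.XkBasic
import Pool.Agent.FBH.Sep
import Pool.Agent.FBH.Nu
import Pool.Agent.FBH.PiClose
import Pool.Agent.FBH.LamNe
import Pool.Agent.FBH.T2b

/-!
T2. The two-dimensional construction of the polynomial-type function `G` and the number `Λ`.
Proof. Take `R', ρ', θ, L` from sep and `L = P/w^m` from lpoly_form (`m ≥ 1`). Let
`d = min (R'-R) (ρ'-ρ) / 4`, `R₂ = R+d`, `ρ₂ = ρ+d`, `R₃ = R₂+d`, `ρ₃ = ρ₂+d`; `Q = PD (R₂+2d) (ρ₂+2d) ⊆ PD R' ρ'`,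
`Y = xk Θ' '' Q`, compact, in `X` (`ρ' < 1`). Constants: `|z| ≤ M₀`, `r₀ ≤ |w| ≤ Rw` on `Y` (`r₀ > 0`, `M₀ ≥ 0`); `M = M₀+1`, `r = r₀/2`,
`K₀ = max 1 (5M/r)`. `δπ` from pi_close on `Q` for `ε = d/8`; `εν = min (min δπ 1) (r₀/2)`. Let `l ≥ 1` be larger than the bounds `l₀` of
nu_close (for `Y`, `εν`, `K₀`) and of lam_ne; `N = m l + 1`, `Λ = K₀ N` (real, cast), `G = GG P m l`.
`G` is differentiable; `G (z,0) = 0` (`N ≥ 1`); `G (xk Θ' ps) = 0` since `L = 1` there (gg_eq); `G (xk Θ' p) ≠ 0` on `Q` since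
`‖L^l‖ ≤ θ^l < 1` and `w ≠ 0`; the derivative in direction `(-Λ,1)` is nonzero on `Y` (lam_ne). `‖nu x - x‖ ≤ εν` on `Y`, so `‖(nu x).1‖ ≤ M`,
`r ≤ ‖(nu x).2‖ ≤ Rw + 1`, and `5 N M ≤ Λ r` since `K₀ ≥ 5M/r`. The last claim is T2b.
-/

set_option autoImplicit false

open Metric Set Filter Topology

namespace FBH

private theorem t2_pd_mono {R ρ R' ρ' : ℝ} (h1 : R ≤ R') (h2 : ρ ≤ ρ') : PD R ρ ⊆ PD R' ρ' :=
  Set.prod_mono (closedBall_subset_closedBall h1) (closedBall_subset_closedBall h2)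

private theorem t2_od_pd {R ρ R' ρ' : ℝ} (h1 : R ≤ R') (h2 : ρ ≤ ρ') : OD R ρ ⊆ PD R' ρ' :=
  Set.prod_mono (ball_subset_closedBall.trans (closedBall_subset_closedBall h1))
    (ball_subset_closedBall.trans (closedBall_subset_closedBall h2))

private theorem t2_bounds {Y : Set V2} (hY : IsCompact Y) (hX : Y ⊆ XS) :
    ∃ M₀ r₀ Rw : ℝ, 0 ≤ M₀ ∧ 0 < r₀ ∧ (∀ y ∈ Y, ‖y.1‖ ≤ M₀) ∧ (∀ y ∈ Y, r₀ ≤ ‖y.2‖) ∧
      ∀ y ∈ Y, ‖y.2‖ ≤ Rw := by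
  obtain ⟨a, ha⟩ := hY.exists_bound_of_continuousOn (f := fun y : V2 => y.1)
    continuous_fst.continuousOn
  obtain ⟨b, hb⟩ := hY.exists_bound_of_continuousOn (f := fun y : V2 => y.2)
    continuous_snd.continuousOn
  obtain ⟨c, hc⟩ := hY.exists_bound_of_continuousOn (f := fun y : V2 => (y.2)⁻¹)
    (continuous_snd.continuousOn.inv₀ fun y hy => hX hy)
  refine ⟨max a 0, (max c 1)⁻¹, b, le_max_right _ _, ?_, ?_, ?_, hb⟩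
  · have : (0:ℝ) < max c 1 := lt_of_lt_of_le one_pos (le_max_right _ _)
    positivity
  · intro y hy
    exact (ha y hy).trans (le_max_left _ _)
  · intro y hy
    have h1 : ‖(y.2)⁻¹‖ ≤ max c 1 := (hc y hy).trans (le_max_left _ _)
    have h2 : 0 < ‖y.2‖ := norm_pos_iff.mpr (hX hy)
    rw [norm_inv] at h1
    exact inv_le_of_inv_le₀ h2 h1

theorem T2 {Θ Θ' : V2 → V2} (hΘ : LAut Θ Θ') (R ρ : ℝ) (hR : 0 < R) (hρ : 0 < ρ) (hρ1 : ρ < 1)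
    (ps : V2) (hs : ‖ps.2‖ < 1) (hout : ¬(‖ps.1‖ ≤ R ∧ ‖ps.2‖ ≤ ρ)) :
    ∃ (G : V2 → ℂ) (Λ : ℂ) (R₂ ρ₂ R₃ ρ₃ : ℝ), R < R₂ ∧ R₂ < R₃ ∧ ρ < ρ₂ ∧ ρ₂ < ρ₃ ∧ ρ₃ < 1 ∧
      Differentiable ℂ G ∧ (∀ z : ℂ, G (z, 0) = 0) ∧ G (xk Θ' ps) = 0 ∧
      (∀ p ∈ OD R₃ ρ₃, G (xk Θ' p) ≠ 0) ∧
      (∀ p ∈ OD R₃ ρ₃, fderiv ℂ G (xk Θ' p) (-Λ, 1) ≠ 0) ∧
      ∀ h : V2 → ℂ, DifferentiableOn ℂ h (OD R₃ ρ₃) →
        LAp (PD R₂ ρ₂) (fun p => gm G Λ (xk Θ' p)) h := by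
  obtain ⟨R', ρ', θ, L, hL, hRR, hρρ, hρ'1, hθ0, hθ1, hLps, hLθ⟩ := sep hΘ R ρ hR hρ hρ1 ps hs hout
  obtain ⟨m, P, hm, hP, hLP⟩ := lpoly_form hL
  obtain ⟨d, hd, hdR, hdρ⟩ : ∃ d : ℝ, 0 < d ∧ R + 4 * d ≤ R' ∧ ρ + 4 * d ≤ ρ' := by
    refine ⟨min (R' - R) (ρ' - ρ) / 4, ?_, ?_, ?_⟩
    · have : 0 < min (R' - R) (ρ' - ρ) := lt_min (by linarith) (by linarith)
      linarith
    · have := min_le_left (R' - R) (ρ' - ρ)
      linarith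
    · have := min_le_right (R' - R) (ρ' - ρ)
      linarith
  set Q : Set V2 := PD (R + d + 2 * d) (ρ + d + 2 * d) with hQ
  have hQ' : Q ⊆ PD R' ρ' := t2_pd_mono (by linarith) (by linarith)
  have hQ1 : ∀ p ∈ Q, ‖p.2‖ < 1 := by
    intro p hp
    have h4 : ‖p.2‖ ≤ ρ + d + 2 * d := by
      have := hp.2
      rwa [mem_closedBall, dist_zero_right] at this
    linarith
  have hOQ : OD (R + d + d) (ρ + d + d) ⊆ Q := t2_od_pd (by linarith) (by linarith)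
  have hSQ : PD (R + d) (ρ + d) ⊆ Q := t2_pd_mono (by linarith) (by linarith)
  set Y : Set V2 := xk Θ' '' Q with hYd
  have hQc : IsCompact Q := (isCompact_closedBall _ _).prod (isCompact_closedBall _ _)
  have hY : IsCompact Y := hQc.image_of_continuousOn ((xk_diff hΘ).mono hQ1).continuousOn
  have hYX : Y ⊆ XS := by
    rintro _ ⟨p, hp, rfl⟩
    exact xk_X hΘ (hQ1 p hp)
  have hYθ : ∀ x ∈ Y, ‖L x‖ ≤ θ := by
    rintro _ ⟨p, hp, rfl⟩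
    exact hLθ p (hQ' hp)
  obtain ⟨M₀, r₀, Rw, hM₀, hr₀, b1, b2, b3⟩ := t2_bounds hY hYX
  obtain ⟨K₀, hK₀, hK1⟩ : ∃ K₀ : ℝ, 1 ≤ K₀ ∧ 5 * (M₀ + 1) ≤ K₀ * (r₀ / 2) := by
    refine ⟨max 1 (5 * (M₀ + 1) / (r₀ / 2)), le_max_left _ _, ?_⟩
    have h5 : 5 * (M₀ + 1) / (r₀ / 2) ≤ max 1 (5 * (M₀ + 1) / (r₀ / 2)) := le_max_right _ _
    rwa [div_le_iff₀ (by positivity)] at h5
  obtain ⟨δπ, hδπ, hπ⟩ := pi_close hΘ (R + d + 2 * d) (ρ + d + 2 * d) (by linarith) (d / 8)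
    (by positivity)
  obtain ⟨εν, hεν, e1, e2, e3⟩ : ∃ εν : ℝ, 0 < εν ∧ εν ≤ δπ ∧ εν ≤ 1 ∧ εν ≤ r₀ / 2 := by
    refine ⟨min (min δπ 1) (r₀ / 2), ?_, ?_, ?_, min_le_right _ _⟩
    · exact lt_min (lt_min hδπ one_pos) (by positivity)
    · exact (min_le_left _ _).trans (min_le_left _ _)
    · exact (min_le_left _ _).trans (min_le_right _ _)
  obtain ⟨l₁, hl₁⟩ := nu_close Y hY L θ hθ0 hθ1 hYθ K₀ (by linarith) εν hεν
  obtain ⟨l₂, hl₂⟩ := lam_ne Y hY hYX L P m hL hLP θ hθ0 hθ1 hYθ K₀ hK₀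
  obtain ⟨l, g1, g2, g3⟩ : ∃ l : ℕ, l₁ ≤ l ∧ l₂ ≤ l ∧ 1 ≤ l :=
    ⟨max (max l₁ l₂) 1, (le_max_left _ _).trans (le_max_left _ _),
      (le_max_right _ _).trans (le_max_left _ _), le_max_right _ _⟩
  have hLl : ∀ x ∈ Y, ‖L x ^ l‖ < 1 := by
    intro x hx
    rw [norm_pow]
    exact pow_lt_one₀ (norm_nonneg _) (lt_of_le_of_lt (hYθ x hx) hθ1) (by omega)
  have hν : ∀ x ∈ Y, ‖nu L l (m * l + 1) (((K₀ * ((m * l + 1 : ℕ) : ℝ)) : ℝ) : ℂ) x - x‖ ≤ εν :=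
    hl₁ l g1 (m * l + 1) (Nat.succ_pos _)
  have hYp : ∀ p ∈ Q, xk Θ' p ∈ Y := fun p hp => ⟨p, hp, rfl⟩
  refine ⟨GG P m l, (((K₀ * ((m * l + 1 : ℕ) : ℝ)) : ℝ) : ℂ), R + d, ρ + d, R + d + d, ρ + d + d,
    by linarith, by linarith, by linarith, by linarith, by linarith, ?_, ?_, ?_, ?_, ?_, ?_⟩
  · unfold GG
    exact (differentiable_snd.pow _).sub (differentiable_snd.mul (hP.pow _))
  · intro z
    simp [GG]
  · have h6 := xk_X hΘ hs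
    rw [gg_eq P L m l _ h6 (hLP _ h6), hLps, one_pow, sub_self, mul_zero]
  · intro p hp
    have h6 := hYX (hYp p (hOQ hp))
    rw [gg_eq P L m l _ h6 (hLP _ h6)]
    refine mul_ne_zero (pow_ne_zero _ h6) ?_
    intro h7
    have h8 : L (xk Θ' p) ^ l = 1 := (sub_eq_zero.mp h7).symm
    have h9 := hLl _ (hYp p (hOQ hp))
    rw [h8, norm_one] at h9
    exact lt_irrefl _ h9
  · intro p hp
    exact hl₂ l g2 _ (hYp p (hOQ hp))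
  · refine T2b hΘ (R + d) (ρ + d) d (by linarith) (by linarith) hd (by linarith) L P m l hL hLP _
      (fun p hp => hLl _ (hYp p hp)) δπ hδπ hπ (fun p hp => (hν _ (hYp p hp)).trans e1)
      (M₀ + 1) (r₀ / 2) (Rw + 1) (by linarith) (by linarith) ?_ ?_ ?_ ?_
    · intro p hp
      have h10 := hν _ (hYp p (hSQ hp))
      have h11 := b1 _ (hYp p (hSQ hp))
      have h12 := (norm_fst_le (nu L l (m * l + 1) (((K₀ * ((m * l + 1 : ℕ) : ℝ)) : ℝ) : ℂ)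
        (xk Θ' p) - xk Θ' p)).trans h10
      rw [Prod.fst_sub] at h12
      have h13 := norm_le_norm_add_norm_sub' (nu L l (m * l + 1)
        (((K₀ * ((m * l + 1 : ℕ) : ℝ)) : ℝ) : ℂ) (xk Θ' p)).1 (xk Θ' p).1
      linarith
    · intro p hp
      have h10 := hν _ (hYp p (hSQ hp))
      have h11 := b2 _ (hYp p (hSQ hp))
      have h12 := (norm_snd_le (nu L l (m * l + 1) (((K₀ * ((m * l + 1 : ℕ) : ℝ)) : ℝ) : ℂ)
        (xk Θ' p) - xk Θ' p)).trans h10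
      rw [Prod.snd_sub] at h12
      have h13 := norm_le_norm_add_norm_sub (nu L l (m * l + 1)
        (((K₀ * ((m * l + 1 : ℕ) : ℝ)) : ℝ) : ℂ) (xk Θ' p)).2 (xk Θ' p).2
      linarith
    · intro p hp
      have h10 := hν _ (hYp p (hSQ hp))
      have h11 := b3 _ (hYp p (hSQ hp))
      have h12 := (norm_snd_le (nu L l (m * l + 1) (((K₀ * ((m * l + 1 : ℕ) : ℝ)) : ℝ) : ℂ)
        (xk Θ' p) - xk Θ' p)).trans h10
      rw [Prod.snd_sub] at h12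
      have h13 := norm_le_norm_add_norm_sub' (nu L l (m * l + 1)
        (((K₀ * ((m * l + 1 : ℕ) : ℝ)) : ℝ) : ℂ) (xk Θ' p)).2 (xk Θ' p).2
      linarith
    · have h14 : (0:ℝ) ≤ ((m * l + 1 : ℕ) : ℝ) := Nat.cast_nonneg _
      have h15 : 0 ≤ K₀ * ((m * l + 1 : ℕ) : ℝ) := mul_nonneg (by linarith) h14
      rw [Complex.norm_real, Real.norm_eq_abs, abs_of_nonneg h15]
      calc 5 * ((m * l + 1 : ℕ) : ℝ) * (M₀ + 1) = ((m * l + 1 : ℕ) : ℝ) * (5 * (M₀ + 1)) := by ring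
        _ ≤ ((m * l + 1 : ℕ) : ℝ) * (K₀ * (r₀ / 2)) := mul_le_mul_of_nonneg_left hK1 h14
        _ = K₀ * ((m * l + 1 : ℕ) : ℝ) * (r₀ / 2) := by ring

end FBH
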