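import Pool.Agent.FBH.Defs
import Pool.Agent.FBH.T2
import Pool.Agent.FBH.GImm
import Pool.Agent.FBH.S2
import Pool.Agent.FBH.Hest
import Pool.Agent.FBH.LogEx
import Pool.Agent.FBH.Poly2
import Pool.Agent.FBH.XkBasic
import Pool.Agent.FBH.ScSmooth
import Pool.Agent.FBH.StepAlg

/-!
Step. The main step of the construction.
Proof. Let `x⋆ = xk S.Θ' ps`, `κ = as / x⋆.2` (`x⋆.2 ≠ 0`). Take `G, Λ, R₂ < R₃, ρ₂ < ρ₃ < 1` from T2 (for `S.laut, R, ρ, ps`). `xk = xk S.Θ'`,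
`Y = xk '' PD R ρ` compact, `lam p = fderiv ℂ G (xk p) (-Λ,1)`, holomorphic (sc_fderiv_diff) and nonvanishing on `OD R₃ ρ₃`.
`S.Φ'` is uniformly continuous near the compact set `closedBall 0 R × Y`: choose `ε' > 0` such that for `‖a‖ ≤ R`, `y ∈ Y` and `z : V3` with
`‖z - (a,y)‖ ≤ ε'`: `‖S.Φ' z - S.Φ' (a,y)‖ ≤ ε`. Take `η, δ` from hest (`K = Y`, `G`, `Λ`, `κ`, `R`, `ε'`).
By log_ex there is `ℓ` holomorphic on `OD R₂ ρ₂` with `exp ℓ = lam`; by poly2 there are `B₁, B₂ ∈ BPoly` with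
`‖B₁ p - (xk p).2‖ ≤ δ` and `‖exp (-B₂ p) - (lam p)⁻¹‖ ≤ δ` on `PD R ρ` (`B₂` close to `ℓ`, `exp (-·)` uniformly continuous on bounded sets).
Take `τ, Θ, Θ'` from S2 with `g p = gm G Λ (xk p)`, `δ`, and `τ₀ / S.σ` (hypotheses: g_diff, g_imm, `-G (xk p) ≠ 0`). Let
`S' = newStage S G Λ κ η τ B₁ B₂ Θ Θ'`: OK by newStage_ok (bpoly_diff), `S'.σ = τ S.σ < τ₀`, last coordinate zero by newStage_bz
(`as = κ x⋆.2`). Error: for `(a,p) = S.A x`, `‖a‖ ≤ R`, `p ∈ PD R ρ`, put `(b,ζ) = xk Θ' (τ p)`, within `δ` of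
`g p = ((xk p).1 + Λ (xk p).2, -G (xk p))`, `w₁ = B₁ p`, `μ = exp (-B₂ p)`, `c = w₁ + η (a - κ w₁) μ`. Then
`S'.F x = S.Φ' (tT' (c,(b,ζ)))` (newStage_F), `tT' (c,(b,ζ)) = ((ζ + G (b - Λ c, c))/η + κ c, (b - Λ c, c))`, and hest says it is within
`ε'` of `(a, xk p)`; so `‖S'.F x - S.F x‖ ≤ ε`.
-/

set_option autoImplicit false

open Metric Set Filter Topology

namespace FBH

/-- Uniform continuity of a continuous map near a compact set. -/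
private theorem step_unif {X Y : Type*} [NormedAddCommGroup X] [NormedAddCommGroup Y]
    (f : X → Y) (hf : Continuous f) (T : Set X) (hT : IsCompact T) (ε : ℝ) (hε : 0 < ε) :
    ∃ ε' : ℝ, 0 < ε' ∧ ∀ y ∈ T, ∀ z : X, ‖z - y‖ ≤ ε' → ‖f z - f y‖ ≤ ε := by
  have h := hT.uniformContinuousAt_of_continuousAt f (fun a _ => hf.continuousAt)
    (dist_mem_uniformity hε)
  obtain ⟨δ, hδ, hsub⟩ := mem_uniformity_dist.1 h
  refine ⟨δ / 2, by positivity, ?_⟩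
  intro y hy z hz
  have h1 : dist y z < δ := by
    rw [dist_comm, dist_eq_norm]
    linarith
  have h2 := hsub h1 hy
  have h3 : dist (f y) (f z) < ε := h2
  rw [dist_comm, dist_eq_norm] at h3
  exact h3.le

theorem step (S : Stage) (hS : S.OK) (R ρ : ℝ) (hR : 0 < R) (hρ : 0 < ρ) (hρ1 : ρ < 1) (ε : ℝ)
    (hε : 0 < ε) (τ₀ : ℝ) (hτ₀ : 0 < τ₀) (as : ℂ) (ps : V2) (hps : ‖ps.2‖ < 1)
    (hout : ¬(‖ps.1‖ ≤ R ∧ ‖ps.2‖ ≤ ρ)) :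
    ∃ S' : Stage, S'.OK ∧ Wild S'.Θ ∧ S'.σ < τ₀ ∧ (S'.Φ (S.Φ' (as, xk S.Θ' ps))).2.2 = 0 ∧
      ∀ x : V3, ‖(S.A x).1‖ ≤ R → (S.A x).2 ∈ PD R ρ → ‖S'.F x - S.F x‖ ≤ ε := by
  obtain ⟨G, Λ, R₂, ρ₂, R₃, ρ₃, hR2, hR3, hρ2, hρ3, hρ31, hG, hG0, hGs, hGne, hlam, hLAp⟩ :=
    T2 hS.laut R ρ hR hρ hρ1 ps hps hout
  have hxs : (xk S.Θ' ps).2 ≠ 0 := xk_X hS.laut hps
  set κ : ℂ := as / (xk S.Θ' ps).2 with hκ
  have hODsub : OD R₃ ρ₃ ⊆ {p : V2 | ‖p.2‖ < 1} := by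
    rintro p ⟨_, h2⟩
    rw [mem_ball_zero_iff] at h2
    exact h2.trans hρ31
  have hOD23 : OD R₂ ρ₂ ⊆ OD R₃ ρ₃ := by
    rintro p ⟨h1, h2⟩
    exact ⟨ball_subset_ball hR3.le h1, ball_subset_ball hρ3.le h2⟩
  have hPD2 : PD R ρ ⊆ OD R₂ ρ₂ := by
    rintro p ⟨h1, h2⟩
    exact ⟨closedBall_subset_ball hR2 h1, closedBall_subset_ball hρ2 h2⟩
  have hPD3 : PD R ρ ⊆ OD R₃ ρ₃ := hPD2.trans hOD23
  have hPDc : IsCompact (PD R ρ) := (isCompact_closedBall _ _).prod (isCompact_closedBall _ _)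
  have hxkd : DifferentiableOn ℂ (xk S.Θ') (OD R₃ ρ₃) := (xk_diff hS.laut).mono hODsub
  set Y : Set V2 := xk S.Θ' '' PD R ρ with hY
  have hYc : IsCompact Y := hPDc.image_of_continuousOn (hxkd.continuousOn.mono hPD3)
  have hODo : IsOpen (OD R₃ ρ₃) := isOpen_ball.prod isOpen_ball
  obtain ⟨ε', hε', hΦ⟩ := step_unif S.Φ' hS.dΦ'.continuous (closedBall (0:ℂ) R ×ˢ Y)
    ((isCompact_closedBall _ _).prod hYc) ε hε
  obtain ⟨η, hη, δ, hδ, hest⟩ := hest Y hYc G hG Λ κ R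
    (by rintro y ⟨p, hp, rfl⟩; exact hlam p (hPD3 hp)) ε' hε'
  -- the derivative function
  have hlamd : DifferentiableOn ℂ (fun p => fderiv ℂ G (xk S.Θ' p) (-Λ, 1)) (OD R₃ ρ₃) := by
    have h := sc_fderiv_diff G univ isOpen_univ hG.differentiableOn
    rw [differentiableOn_univ] at h
    have h2 : DifferentiableOn ℂ (fun p => fderiv ℂ G (xk S.Θ' p)) (OD R₃ ρ₃) :=
      h.comp_differentiableOn hxkd
    exact h2.clm_apply (differentiableOn_const _)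
  obtain ⟨ℓ, hℓd, hℓ⟩ := log_ex (fun p => fderiv ℂ G (xk S.Θ' p) (-Λ, 1)) R₂ ρ₂ R₃ ρ₃
    (hR.trans hR2) (hρ.trans hρ2) hR3 hρ3 hlamd hlam
  have hℓc : IsCompact (ℓ '' PD R ρ) := hPDc.image_of_continuousOn (hℓd.continuousOn.mono hPD2)
  obtain ⟨ε₃, hε₃, hexp⟩ := step_unif (fun z : ℂ => Complex.exp (-z)) (by fun_prop) (ℓ '' PD R ρ)
    hℓc δ hδ
  have hxk2 : DifferentiableOn ℂ (fun p => (xk S.Θ' p).2) (OD R₂ ρ₂) :=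
    differentiable_snd.comp_differentiableOn (hxkd.mono hOD23)
  obtain ⟨B₁, hB₁, hB₁'⟩ := poly2 (fun p => (xk S.Θ' p).2) R ρ R₂ ρ₂ hR hρ hR2 hρ2 hxk2 δ hδ
  obtain ⟨B₂, hB₂, hB₂'⟩ := poly2 ℓ R ρ R₂ ρ₂ hR hρ hR2 hρ2 hℓd ε₃ hε₃
  obtain ⟨τ, hτ, hττ, Θ, Θ', hLA, hW, hclose⟩ := S2 (fun p => gm G Λ (xk S.Θ' p)) R ρ R₂ ρ₂ R₃ ρ₃
    hR hρ hR2 hρ2 hR3 hρ3 ((g_diff hS.laut G hG Λ).mono hODsub)
    (fun p hp => by
      have h := hGne p hp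
      simpa [gm] using h)
    (fun p hp => g_imm hS.laut G hG Λ (hODsub hp) (hlam p hp)) hLAp δ hδ (τ₀ / S.σ)
    (div_pos hτ₀ hS.σpos)
  refine ⟨newStage S G Λ κ η τ B₁ B₂ Θ Θ', newStage_ok S hS G hG hG0 Λ κ η τ hη hτ B₁ B₂
    (bpoly_diff hB₁) (bpoly_diff hB₂) Θ Θ' hLA, hW, ?_, ?_, ?_⟩
  · change τ * S.σ < τ₀
    exact (lt_div_iff₀ hS.σpos).1 hττ
  · exact newStage_bz S hS G Λ κ η τ B₁ B₂ Θ Θ' as (xk S.Θ' ps)
      (by rw [hκ, div_mul_cancel₀ _ hxs]) hGs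
  · intro x ha hp
    rw [newStage_F]
    change ‖_ - S.Φ' ((S.A x).1, xk S.Θ' (S.A x).2)‖ ≤ ε
    set a := (S.A x).1 with haa
    set p := (S.A x).2 with hpp
    have hcl := hclose p hp
    have hcl1 : ‖(xk Θ' ((τ:ℂ) • p)).1 - ((xk S.Θ' p).1 + Λ * (xk S.Θ' p).2)‖ ≤ δ := by
      have h := (norm_fst_le (xk Θ' ((τ:ℂ) • p) - gm G Λ (xk S.Θ' p))).trans hcl
      exact h
    have hcl2 : ‖(xk Θ' ((τ:ℂ) • p)).2 + G (xk S.Θ' p)‖ ≤ δ := by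
      have h := (norm_snd_le (xk Θ' ((τ:ℂ) • p) - gm G Λ (xk S.Θ' p))).trans hcl
      have h2 : (xk Θ' ((τ:ℂ) • p) - gm G Λ (xk S.Θ' p)).2 =
          (xk Θ' ((τ:ℂ) • p)).2 + G (xk S.Θ' p) := by
        simp [gm]
      rw [h2] at h
      exact h
    have hw : ‖B₁ p - (xk S.Θ' p).2‖ ≤ δ := by
      rw [norm_sub_rev]
      exact (hB₁' p hp).le
    have hμ : ‖Complex.exp (-B₂ p) - (fderiv ℂ G (xk S.Θ' p) (-Λ, 1))⁻¹‖ ≤ δ := by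
      have h := hexp (ℓ p) (mem_image_of_mem _ hp) (B₂ p)
        (by rw [norm_sub_rev]; exact (hB₂' p hp).le)
      have h2 : Complex.exp (-ℓ p) = (fderiv ℂ G (xk S.Θ' p) (-Λ, 1))⁻¹ := by
        rw [Complex.exp_neg, hℓ p (hPD2 hp)]
      rw [← h2]
      exact h
    obtain ⟨h1, h2, h3⟩ := hest (xk S.Θ' p) (mem_image_of_mem _ hp) a (xk Θ' ((τ:ℂ) • p)).1
      (xk Θ' ((τ:ℂ) • p)).2 (B₁ p) (Complex.exp (-B₂ p)) _ ha hcl1 hcl2 hw hμ rfl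
    apply hΦ (a, xk S.Θ' p) ⟨by simpa using ha, mem_image_of_mem _ hp⟩
    rw [tT']
    simp only [Prod.norm_def, Prod.fst_sub, Prod.snd_sub]
    exact max_le h1 (max_le h2 h3)

end FBH
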