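import Pool.Agent.FBH.Defs

/-!
TolCov. Open perturbations of an injective map cover slightly smaller compact images.
Proof. Choose `d > 0` with `closedBall x d ⊆ C` for all `x ∈ C'` (compactness). The set
`Z = {(x,x') | x ∈ C', x' ∈ C, ‖x' - x‖ = d}` is compact and `‖f x' - f x‖ > 0` on it (injectivity), so it is
`≥ μ > 0` on `Z`. Let `t = μ/4`. Let `G` be as in the statement, `x ∈ C'`, `y = f x`. The continuous function
`x' ↦ ‖G x' - y‖` attains its minimum on `closedBall x d` at some `x_m`. On the sphere it is `≥ μ - t > t`, while at `x`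
it is `≤ t`; so `x_m ∈ ball x d`. If `G x_m ≠ y`, openness of `G` gives a point `x'' ∈ ball x d` with
`G x'' = G x_m + θ (y - G x_m)`, `θ > 0` small, closer to `y`. Contradiction. So `y = G x_m`.
`tol_zero`: `‖f x‖` has a positive minimum on `C` (`t` = half of it).
-/

set_option autoImplicit false

open Metric Set Filter Topology

namespace FBH

theorem tol_cov {E F : Type*} [NormedAddCommGroup E] [NormedSpace ℂ E] [FiniteDimensional ℂ E]
    [NormedAddCommGroup F] [NormedSpace ℂ F] (f : E → F) (C C' : Set E) (hC : IsCompact C)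
    (hC' : IsCompact C') (hsub : C' ⊆ interior C) (hf : ContinuousOn f C) (hinj : InjOn f C) :
    ∃ t : ℝ, 0 < t ∧ ∀ G : E → F, Continuous G → IsOpenMap G → (∀ x ∈ C, ‖G x - f x‖ ≤ t) →
      f '' C' ⊆ G '' C := by
  have : ProperSpace E := FiniteDimensional.proper_rclike ℂ E
  let : NormedSpace ℝ F := NormedSpace.restrictScalars ℝ ℂ F
  obtain ⟨d, hd, hdC⟩ : ∃ d : ℝ, 0 < d ∧ ∀ x ∈ C', closedBall x d ⊆ C := by
    obtain ⟨d, hd, h⟩ := hC'.exists_cthickening_subset_open isOpen_interior hsub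
    refine ⟨d, hd, fun x hx => ?_⟩
    exact (closedBall_subset_cthickening hx d).trans (h.trans interior_subset)
  -- the compact set
  set Z : Set (E × E) := (C' ×ˢ C) ∩ {p | ‖p.2 - p.1‖ = d} with hZ
  have hZc : IsCompact Z := by
    refine (hC'.prod hC).inter_right ?_
    exact isClosed_eq (by fun_prop) continuous_const
  have hC'C : C' ⊆ C := hsub.trans interior_subset
  have hcont : ContinuousOn (fun p : E × E => ‖f p.2 - f p.1‖) Z := by
    apply ContinuousOn.norm
    apply ContinuousOn.sub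
    · exact hf.comp continuous_snd.continuousOn (fun p hp => hp.1.2)
    · exact hf.comp continuous_fst.continuousOn (fun p hp => hC'C hp.1.1)
  obtain ⟨μ, hμ, hμZ⟩ : ∃ μ : ℝ, 0 < μ ∧ ∀ p ∈ Z, μ ≤ ‖f p.2 - f p.1‖ := by
    rcases Z.eq_empty_or_nonempty with h | h
    · exact ⟨1, one_pos, fun p hp => by rw [h] at hp; exact hp.elim⟩
    · obtain ⟨p, hp, hmin⟩ := hZc.exists_isMinOn h hcont
      refine ⟨‖f p.2 - f p.1‖, ?_, fun q hq => hmin hq⟩
      rw [norm_pos_iff, sub_ne_zero]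
      intro heq
      have := hinj hp.1.2 (hC'C hp.1.1) heq
      have h2 : ‖p.2 - p.1‖ = d := hp.2
      rw [this, sub_self, norm_zero] at h2
      linarith
  refine ⟨μ / 4, by positivity, ?_⟩
  rintro G hG hGo hclose _ ⟨x, hx, rfl⟩
  -- minimum
  have hcb : IsCompact (closedBall x d) := isCompact_closedBall x d
  obtain ⟨xm, hxm, hmin⟩ := hcb.exists_isMinOn ⟨x, mem_closedBall_self hd.le⟩
    (f := fun x' => ‖G x' - f x‖) (by fun_prop)
  have hx1 : ‖G x - f x‖ ≤ μ / 4 := hclose x (hC'C hx)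
  have hm1 : ‖G xm - f x‖ ≤ μ / 4 := (hmin (mem_closedBall_self hd.le)).trans hx1
  have hxmC : xm ∈ C := hdC x hx hxm
  have hlt : xm ∈ ball x d := by
    rw [mem_ball, lt_iff_le_and_ne]
    refine ⟨hxm, fun hne => ?_⟩
    have hp : ((x, xm) : E × E) ∈ Z := by
      refine ⟨⟨hx, hxmC⟩, ?_⟩
      show ‖xm - x‖ = d
      rw [← dist_eq_norm]
      exact hne
    have h1 : μ ≤ ‖f xm - f x‖ := hμZ _ hp
    have h2 : ‖f xm - f x‖ ≤ ‖G xm - f xm‖ + ‖G xm - f x‖ := by
      calc ‖f xm - f x‖ = ‖(G xm - f x) - (G xm - f xm)‖ := by congr 1; abel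
        _ ≤ ‖G xm - f x‖ + ‖G xm - f xm‖ := norm_sub_le _ _
        _ = _ := by ring
    have h3 := hclose xm hxmC
    linarith
  refine ⟨xm, hxmC, ?_⟩
  by_contra hne
  -- openness
  have hop : IsOpen (G '' ball x d) := hGo _ isOpen_ball
  have hmem : G '' ball x d ∈ 𝓝 (G xm) := hop.mem_nhds ⟨xm, hlt, rfl⟩
  have htend : Tendsto (fun θ : ℝ => G xm + θ • (f x - G xm)) (𝓝 0) (𝓝 (G xm)) := by
    have : Continuous (fun θ : ℝ => G xm + θ • (f x - G xm)) := by fun_prop
    have h := this.tendsto 0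
    simpa using h
  have hev := htend.eventually hmem
  rw [Metric.eventually_nhds_iff] at hev
  obtain ⟨ε, hε, hev⟩ := hev
  set θ : ℝ := min (ε / 2) (1 / 2) with hθ
  have hθ0 : 0 < θ := lt_min (by positivity) (by norm_num)
  have hθ1 : θ ≤ 1 / 2 := min_le_right _ _
  have hθε : θ < ε := lt_of_le_of_lt (min_le_left _ _) (by linarith)
  obtain ⟨x2, hx2, hx2e⟩ := hev (y := θ) (by simpa [abs_of_pos hθ0] using hθε)
  have h5 : ‖G xm - f x‖ ≤ ‖G x2 - f x‖ := hmin (ball_subset_closedBall hx2)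
  have h6 : G x2 - f x = (1 - θ) • (G xm - f x) := by
    rw [hx2e, sub_smul, one_smul, smul_sub, smul_sub]
    abel
  rw [h6, norm_smul, Real.norm_of_nonneg (by linarith)] at h5
  have h7 : 0 < ‖G xm - f x‖ := norm_pos_iff.2 (sub_ne_zero.2 hne)
  nlinarith

theorem tol_zero {E F : Type*} [NormedAddCommGroup E] [NormedAddCommGroup F] (f : E → F) (C : Set E)
    (hC : IsCompact C) (hf : ContinuousOn f C) (h0 : ∀ x ∈ C, f x ≠ 0) :
    ∃ t : ℝ, 0 < t ∧ ∀ G : E → F, (∀ x ∈ C, ‖G x - f x‖ ≤ t) → ∀ x ∈ C, G x ≠ 0 := by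
  rcases C.eq_empty_or_nonempty with h | h
  · subst h
    exact ⟨1, one_pos, fun G _ x hx => hx.elim⟩
  · obtain ⟨p, hp, hmin⟩ := hC.exists_isMinOn h hf.norm
    have hpos : 0 < ‖f p‖ := norm_pos_iff.2 (h0 p hp)
    refine ⟨‖f p‖ / 2, by positivity, ?_⟩
    intro G hG x hx hx0
    have h1 := hG x hx
    rw [hx0, zero_sub, norm_neg] at h1
    have h2 : ‖f p‖ ≤ ‖f x‖ := hmin hx
    linarith

end FBH
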