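import Pool.Agent.FBH.Defs
import Pool.Agent.FBH.ScBound
import Pool.Agent.FBH.Bilip

/-!
TolInj. Small perturbations of an injective immersion are injective immersions on a smaller ball.
Proof. `closedBall 0 r` is compact inside the open set `interior C`, so some `d > 0` has
`ball x d ⊆ interior C` for all `x ∈ closedBall 0 r`. Let `μ` be from bilip on `K = closedBall 0 r`. Put
`t = μ d / 4`. For `F` as in the statement, `F - f` is holomorphic on `interior C`, bounded by `t` there, so by sc_lip it
is Lipschitz with constant `t/d ≤ μ/4` on the convex set `closedBall 0 r`. Hence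
`‖F x - F y‖ ≥ (μ/2) ‖x - y‖` on `closedBall 0 r`: injective; and for `x ∈ ball 0 r`,
`‖fderiv ℂ F x v‖ ≥ (μ/2) ‖v‖` (limit of difference quotients), so the derivative is injective. (If `r < 0` the claims are
empty.)
-/

set_option autoImplicit false

open Metric Set Filter Topology

namespace FBH

theorem tol_inj {E F : Type*} [NormedAddCommGroup E] [NormedSpace ℂ E] [FiniteDimensional ℂ E]
    [NormedAddCommGroup F] [NormedSpace ℂ F] [CompleteSpace F] (f : E → F) (O C : Set E) (r : ℝ)
    (hO : IsOpen O) (hf : DifferentiableOn ℂ f O) (hinj : InjOn f O)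
    (himm : ∀ x ∈ O, Function.Injective (fderiv ℂ f x)) (hC : IsCompact C) (hCO : C ⊆ O)
    (hr : closedBall (0:E) r ⊆ interior C) :
    ∃ t : ℝ, 0 < t ∧ ∀ G : E → F, Differentiable ℂ G → (∀ x ∈ C, ‖G x - f x‖ ≤ t) →
      InjOn G (closedBall 0 r) ∧ ∀ x ∈ ball (0:E) r, Function.Injective (fderiv ℂ G x) := by
  rcases lt_or_ge r 0 with hr0 | hr0
  · refine ⟨1, one_pos, fun G _ _ => ⟨?_, ?_⟩⟩
    · rw [closedBall_eq_empty.2 hr0]
      exact injOn_empty _
    · intro x hx
      rw [ball_eq_empty.2 hr0.le] at hx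
      exact absurd hx (Set.notMem_empty x)
  haveI : ProperSpace E := FiniteDimensional.proper ℂ E
  have hK : IsCompact (closedBall (0:E) r) := isCompact_closedBall _ _
  obtain ⟨d, hd, hdC⟩ := hK.exists_thickening_subset_open isOpen_interior hr
  have hKO : closedBall (0:E) r ⊆ O := hr.trans (interior_subset.trans hCO)
  obtain ⟨μ, hμ, hb⟩ := bilip f O (closedBall 0 r) hO hf hinj hK hKO (fun x hx => himm x (hKO hx))
  refine ⟨μ * d / 4, by positivity, ?_⟩
  intro G hG hGf
  have hlip := sc_lip (fun x => G x - f x) (interior C) (closedBall (0:E) r) isOpen_interior d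
    (μ * d / 4) hd (convex_closedBall _ _) (fun x hx y hy => hdC (by
      rw [mem_thickening_iff]
      exact ⟨x, hx, hy⟩))
    (hG.differentiableOn.sub (hf.mono (interior_subset.trans hCO)))
    (fun x hx => hGf x (interior_subset hx))
  have hlow : ∀ x ∈ closedBall (0:E) r, ∀ y ∈ closedBall (0:E) r, 3 / 4 * μ * ‖x - y‖ ≤ ‖G x - G y‖ := by
    intro x hx y hy
    have h1 := hlip x hx y hy
    have h2 := hb x hx y hy
    have e1 : μ * d / 4 / d = μ / 4 := by field_simp
    rw [e1] at h1
    have e2 : f x - f y = (G x - G y) - ((G x - f x) - (G y - f y)) := by abel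
    have h3 : ‖f x - f y‖ ≤ ‖G x - G y‖ + ‖(G x - f x) - (G y - f y)‖ := by
      rw [e2]
      exact norm_sub_le _ _
    linarith
  refine ⟨?_, ?_⟩
  · intro x hx y hy hxy
    have h1 := hlow x hx y hy
    rw [hxy, sub_self, norm_zero] at h1
    have h2 : ‖x - y‖ ≤ 0 := by
      by_contra hcon
      push Not at hcon
      have : 0 < 3 / 4 * μ * ‖x - y‖ := by positivity
      linarith
    exact sub_eq_zero.1 (norm_le_zero_iff.1 h2)
  · intro x hx
    rw [injective_iff_map_eq_zero]
    intro v hv
    by_contra hv0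
    have hvn : 0 < ‖v‖ := norm_pos_iff.2 hv0
    have hGd : HasFDerivAt G (fderiv ℂ G x) x := (hG x).hasFDerivAt
    have h1 := hGd.isLittleO.def (c := μ / 2) (by positivity)
    have h2 : ∀ᶠ x' in 𝓝 x, x' ∈ ball (0:E) r := isOpen_ball.mem_nhds hx
    have h3 : Tendsto (fun s : ℝ => x + (s:ℂ) • v) (𝓝[>] 0) (𝓝 x) := by
      have h4 : Continuous (fun s : ℝ => x + (s:ℂ) • v) := by
        exact continuous_const.add (Complex.continuous_ofReal.smul continuous_const)
      have h5 := h4.tendsto 0
      simp only [Complex.ofReal_zero, zero_smul, add_zero] at h5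
      exact h5.mono_left nhdsWithin_le_nhds
    have h6 := (h3.eventually (h1.and h2)).and (self_mem_nhdsWithin : Ioi (0:ℝ) ∈ 𝓝[>] 0)
    obtain ⟨s, ⟨hs1, hs2⟩, hs3⟩ := h6.exists
    have hs : (0:ℝ) < s := hs3
    have e1 : x + (s:ℂ) • v - x = (s:ℂ) • v := by abel
    have e2 : ‖(s:ℂ) • v‖ = s * ‖v‖ := by
      rw [norm_smul, Complex.norm_real, Real.norm_of_nonneg hs.le]
    rw [e1, map_smul, hv, smul_zero, sub_zero, e2] at hs1
    have h7 := hlow _ (ball_subset_closedBall hs2) _ (ball_subset_closedBall hx)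
    rw [e1, e2] at h7
    have h8 : 0 < μ * (s * ‖v‖) := by positivity
    nlinarith

end FBH
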