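import Pool.Agent.FBH.Defs
import Pool.Agent.FBH.StageF
import Pool.Agent.FBH.Fat
import Pool.Agent.FBH.TolInj
import Pool.Agent.FBH.TolCov
import Pool.Agent.FBH.Step
import Pool.Agent.FBH.RelA
import Pool.Agent.FBH.RelB

/-!
RelEx. The inductive step.
Proof. Let `Dom = {x | ‖(S.A x).2.2‖ < 1}`. Let `m` be from fatness with `n = k`
if `k > 0` (`m = 0` otherwise), `R, ρ'` from relA_choose, `C = CS S R ρ'` (relA_compact, relA_dom), `closedBall 0 r ⊆ interior C` by relA_int.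
Choose `r' ≥ r+1` with `C ⊆ ball 0 r'` (`C` bounded). Tolerances: `t₁` from tol_inj (`O = Dom`, stageF_diff, stageF_open, stageF_inj, stageF_imm), `t₂` from tol_zero
(stageF_ne), `t₃` from tol_cov with `C' = CS`-like set `{x | ‖(S.A x).1‖ ≤ m ∧ (S.A x).2 ∈ PD m (1-1/(m+1))} = CS S m (1-1/(m+1))` (compact, inside `interior C` by relA_int), and
`t₄` from tol_cov with `C'' = {x ∈ C | S.F x ∈ closedBall c ρ}` if `closedBall c ρ ⊆ S.F '' interior C` (then `C''` is compact, and contained in `interior C`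
by injectivity of `S.F` on `Dom`), `t₄ = 1` otherwise. Put `e' = min (e/2) (min t_i / 2)`.
If `closedBall c ρ ⊆ S.F '' interior C` take `a = 0`, `p = (R+1, 0)`; otherwise take `a, p` from relB. `b = S.Φ' (a, xk S.Θ' p)`.
Apply step with `(R, ρ', e', τ₀ = 1/r', a, p)`; it gives `S'`. Verify the fields of `Rel`: `dom'`: `S'.σ < 1/r'`; `close`: membership in `CS`; `tolInj` from `t₁, t₂`;
`tolFat`: by tol_cov `S.F '' C' ⊆ G '' C ⊆ range G`, and every
`S.Φ' (a, xk S.Θ' (q,s))` with `‖a‖,‖q‖ ≤ m`, `‖s‖ ≤ 1-1/(m+1)` is `S.F (S.A' (a,(q,s)))` (relA_F, relA_mem), so `E` avoids them and fatness applies;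
`tolB`: in the first case `closedBall c ρ ⊆ S.F '' C'' ⊆ G '' C`; in the second case `b ∈ closedBall c (2ρ)`.
-/

set_option autoImplicit false

open Metric Set Filter Topology

namespace FBH

theorem rel_ex (k : ℕ) (c : V3) (ρ : ℝ) (hρ : 0 < ρ) (S : Stage) (r e : ℝ) (hS : S.OK) (hr : 0 < r)
    (hσ : S.σ * r < 1) (he : 0 < e) (hW : 0 < k → Wild S.Θ) :
    ∃ (C : Set V3) (b : V3) (S' : Stage) (r' e' : ℝ), Rel k c ρ S r e C b S' r' e' := by
  have hfat : ∃ m : ℕ, 0 < k → ∀ E : Set V3, CP E →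
      (∀ a q s : ℂ, ‖a‖ ≤ m → ‖q‖ ≤ m → ‖s‖ ≤ 1 - 1 / ((m:ℝ) + 1) → S.Φ' (a, xk S.Θ' (q, s)) ∉ E) →
      (E ∩ closedBall (0:V3) k).Nonempty →
      ∀ h ∈ closedBall (0:V3) k, (S.Φ h).2.2 = 0 → ∃ e ∈ E, dist h e < 1 / (k:ℝ) := by
    rcases Nat.eq_zero_or_pos k with h | h
    · exact ⟨0, fun h' => absurd h' (by omega)⟩
    · obtain ⟨m, hm⟩ := fatness S.Θ S.Θ' hS.laut (hW h) S.Φ S.Φ' hS.dΦ hS.dΦ' hS.lΦ hS.rΦ k h
      exact ⟨m, fun _ => hm⟩
  obtain ⟨m, hm⟩ := hfat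
  obtain ⟨R, ρ', hR, hρ', hρ1, hmR, hmρ, hΦR, hAR⟩ := relA_choose hS r hr hσ m c ρ
  obtain ⟨C, hCdef⟩ : ∃ C, C = CS S R ρ' := ⟨_, rfl⟩
  have hCc : IsCompact C := by rw [hCdef]; exact relA_compact hS R ρ'
  have hCdom : ∀ x ∈ C, ‖(S.A x).2.2‖ < 1 := by rw [hCdef]; exact relA_dom R ρ' hρ1
  have hCO : C ⊆ {x : V3 | ‖(S.A x).2.2‖ < 1} := hCdom
  have hball : closedBall (0:V3) r ⊆ interior C := by
    rw [hCdef]
    exact fun x hx => relA_int hS R ρ' (hAR x hx)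
  have hcont : ContinuousOn S.F C := (stageF_diff hS).continuousOn.mono hCO
  obtain ⟨t₁, ht₁, H₁⟩ := tol_inj S.F {x | ‖(S.A x).2.2‖ < 1} C r (stageF_open hS) (stageF_diff hS)
    (stageF_inj hS) (stageF_imm hS) hCc hCO hball
  obtain ⟨t₂, ht₂, H₂⟩ := tol_zero S.F C hCc hcont (fun x hx => stageF_ne hS x (hCdom x hx))
  obtain ⟨C', hC'def⟩ : ∃ C', C' = CS S (m:ℝ) (1 - 1 / ((m:ℝ) + 1)) := ⟨_, rfl⟩
  have hC'c : IsCompact C' := by rw [hC'def]; exact relA_compact hS _ _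
  have hC'i : C' ⊆ interior C := by
    rw [hC'def, hCdef]
    intro x hx
    refine relA_int hS R ρ' ?_
    have h1 := hx.1
    have h2 := hx.2
    simp only [PD, OD, mem_prod, mem_closedBall, mem_ball, dist_zero_right, Set.mem_ofPred_eq] at h1 h2 ⊢
    exact ⟨lt_of_le_of_lt h1 hmR, lt_of_le_of_lt h2.1 hmR, lt_of_le_of_lt h2.2 hmρ⟩
  obtain ⟨t₃, ht₃, H₃⟩ := tol_cov S.F C C' hCc hC'c hC'i hcont ((stageF_inj hS).mono hCO)
  -- the choice of the point and the fourth tolerance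
  have hchoice : ∃ t₄ : ℝ, 0 < t₄ ∧ ∃ (a : ℂ) (p : V2), ‖p.2‖ < 1 ∧ ¬(‖p.1‖ ≤ R ∧ ‖p.2‖ ≤ ρ') ∧
      ∀ G : V3 → V3, Continuous G → IsOpenMap G → (∀ x ∈ C, ‖G x - S.F x‖ ≤ t₄) →
        closedBall c ρ ⊆ range G ∨ S.Φ' (a, xk S.Θ' p) ∈ closedBall c (2 * ρ) := by
    rcases relB hS R ρ' hR hρ' hρ1 c ρ hρ hΦR with h | ⟨a, p, hp, hout, hb⟩
    · rw [← hCdef] at h
      obtain ⟨C'', hC''def⟩ : ∃ C'' : Set V3, C'' = C ∩ S.F ⁻¹' (closedBall c ρ) := ⟨_, rfl⟩
      have hC''c : IsCompact C'' := by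
        rw [hC''def]
        exact hCc.of_isClosed_subset (hcont.preimage_isClosed_of_isClosed hCc.isClosed isClosed_closedBall)
          inter_subset_left
      have hC''i : C'' ⊆ interior C := by
        rw [hC''def]
        rintro x ⟨hxC, hxF⟩
        obtain ⟨x', hx', hxx⟩ := h hxF
        have : x' = x := stageF_inj hS (hCO (interior_subset hx')) (hCO hxC) hxx
        rwa [← this]
      obtain ⟨t₄, ht₄, H₄⟩ := tol_cov S.F C C'' hCc hC''c hC''i hcont ((stageF_inj hS).mono hCO)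
      refine ⟨t₄, ht₄, 0, (((R + 1 : ℝ) : ℂ), 0), by simp, ?_, ?_⟩
      · rintro ⟨h1, -⟩
        have h2 : ‖((R + 1 : ℝ) : ℂ)‖ = R + 1 := by
          rw [Complex.norm_real, Real.norm_of_nonneg (by linarith)]
        have h3 : ‖((R + 1 : ℝ) : ℂ)‖ ≤ R := h1
        linarith
      · intro G hG hGo hGC
        left
        intro y hy
        obtain ⟨x, hx, hxy⟩ := h hy
        have hx2 : x ∈ C'' := by
          rw [hC''def]
          refine ⟨interior_subset hx, ?_⟩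
          show S.F x ∈ closedBall c ρ
          rw [hxy]; exact hy
        obtain ⟨x', hx', hx'y⟩ := H₄ G hG hGo hGC ⟨x, hx2, hxy⟩
        exact ⟨x', hx'y⟩
    · exact ⟨1, one_pos, a, p, hp, hout, fun G _ _ _ => Or.inr hb⟩
  obtain ⟨t₄, ht₄, a, p, hp, hout, H₄⟩ := hchoice
  obtain ⟨e', he'def⟩ : ∃ e', e' = min (e / 2) (min (min (t₁ / 2) (t₂ / 2)) (min (t₃ / 2) (t₄ / 2))) :=
    ⟨_, rfl⟩
  have he' : 0 < e' := by
    rw [he'def]
    exact lt_min (by linarith) (lt_min (lt_min (by linarith) (by linarith))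
      (lt_min (by linarith) (by linarith)))
  have he1 : e' ≤ e / 2 := by rw [he'def]; exact min_le_left _ _
  have he2 : 2 * e' ≤ t₁ := by
    have : e' ≤ t₁ / 2 := by
      rw [he'def]; exact (min_le_right _ _).trans ((min_le_left _ _).trans (min_le_left _ _))
    linarith
  have he3 : 2 * e' ≤ t₂ := by
    have : e' ≤ t₂ / 2 := by
      rw [he'def]; exact (min_le_right _ _).trans ((min_le_left _ _).trans (min_le_right _ _))
    linarith
  have he4 : 2 * e' ≤ t₃ := by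
    have : e' ≤ t₃ / 2 := by
      rw [he'def]; exact (min_le_right _ _).trans ((min_le_right _ _).trans (min_le_left _ _))
    linarith
  have he5 : 2 * e' ≤ t₄ := by
    have : e' ≤ t₄ / 2 := by
      rw [he'def]; exact (min_le_right _ _).trans ((min_le_right _ _).trans (min_le_right _ _))
    linarith
  obtain ⟨r₁, hr₁⟩ : ∃ r₁ : ℝ, C ⊆ ball (0:V3) r₁ := hCc.isBounded.subset_ball 0
  obtain ⟨r', hr'def⟩ : ∃ r', r' = max r₁ (r + 1) := ⟨_, rfl⟩
  have hr'1 : r + 1 ≤ r' := by rw [hr'def]; exact le_max_right _ _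
  have hr'0 : 0 < r' := by linarith
  have hCr' : C ⊆ ball (0:V3) r' := hr₁.trans (ball_subset_ball (by rw [hr'def]; exact le_max_left _ _))
  obtain ⟨S', hS'ok, hS'w, hS'σ, hS'b, hS'F⟩ := step S hS R ρ' hR hρ' hρ1 e' he' (1 / r')
    (by positivity) a p hp hout
  refine ⟨C, S.Φ' (a, xk S.Θ' p), S', r', e', ?_⟩
  refine
    { compactC := hCc
      dom := hCdom
      ballC := hball
      epos := he'
      ehalf := he1
      Cball := hCr'
      rr := hr'1
      ok' := hS'ok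
      wild' := hS'w
      dom' := ?_
      close := ?_
      tolInj := ?_
      tolFat := ?_
      tolB := ?_
      bz := hS'b }
  · rw [lt_div_iff₀ hr'0] at hS'σ
    exact hS'σ
  · intro x hx
    rw [hCdef] at hx
    exact hS'F x hx.1 hx.2
  · intro G hG hGC
    obtain ⟨h1, h2⟩ := H₁ G hG (fun x hx => (hGC x hx).trans he2)
    exact ⟨h1, h2, H₂ G (fun x hx => (hGC x hx).trans he3)⟩
  · intro hk G hG hGo hGC E hE hdisj hne h hh hh0
    refine hm hk E hE ?_ hne h hh hh0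
    intro a' q' s' ha' hq' hs' hmem
    have h1 : S.A' (a', (q', s')) ∈ C' := by
      rw [hC'def]
      exact (relA_mem hS _ _ a' (q', s')).2 ⟨ha', hq', hs'⟩
    obtain ⟨x, hx, hxe⟩ := H₃ G hG hGo (fun x hx => (hGC x hx).trans he4) ⟨_, h1, rfl⟩
    rw [relA_F hS] at hxe
    exact (Set.disjoint_left.1 hdisj) hmem ⟨x, hxe⟩
  · intro G hG hGo hGC
    exact H₄ G hG hGo (fun x hx => (hGC x hx).trans he5)

end FBH
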