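import Pool.Agent.FBH.Defs
import Pool.Agent.FBH.RelEx
import Pool.Agent.FBH.LAComp

/-!
SeqEx. Iterating rel_ex from the initial stage `Φ = Φ' = A = A' = id`, `Θ = Θ' = id`, `σ = 1`, `r = 1/2`, `e = 1` (dependent choice).
-/

set_option autoImplicit false

open Metric Set Filter Topology

namespace FBH

private def seqInv (k : ℕ) (s : Stage × ℝ × ℝ) : Prop :=
  s.1.OK ∧ 0 < s.2.1 ∧ s.1.σ * s.2.1 < 1 ∧ 0 < s.2.2 ∧ (0 < k → Wild s.1.Θ)

private noncomputable def seqS0 : Stage where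
  Φ := fun x => x
  Φ' := fun x => x
  A := fun x => x
  A' := fun x => x
  Θ := fun x => x
  Θ' := fun x => x
  σ := 1

private theorem seqS0_ok : seqS0.OK where
  dΦ := differentiable_id
  dΦ' := differentiable_id
  lΦ := fun _ => rfl
  rΦ := fun _ => rfl
  dA := differentiable_id
  dA' := differentiable_id
  lA := fun _ => rfl
  rA := fun _ => rfl
  laut := laut_id
  σpos := one_pos
  A2 := fun x => by simp [seqS0]
  zero := rfl

private theorem seq_next (c : ℕ → V3) (ρ : ℕ → ℝ) (hρ : ∀ k, 0 < ρ k) (k : ℕ)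
    (s : {s : Stage × ℝ × ℝ // seqInv k s}) :
    ∃ s' : {s : Stage × ℝ × ℝ // seqInv (k + 1) s}, ∃ (C : Set V3) (b : V3),
      Rel k (c k) (ρ k) s.1.1 s.1.2.1 s.1.2.2 C b s'.1.1 s'.1.2.1 s'.1.2.2 := by
  obtain ⟨⟨S, r, e⟩, h1, h2, h3, h4, h5⟩ := s
  obtain ⟨C, b, S', r', e', h⟩ := rel_ex k (c k) (ρ k) (hρ k) S r e h1 h2 h3 h4 h5
  have hr' : 0 < r' := by
    have := h.rr
    have h2' : 0 < r := h2
    linarith
  exact ⟨⟨(S', r', e'), h.ok', hr', h.dom', h.epos, fun _ => h.wild'⟩, C, b, h⟩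

theorem seq_ex (c : ℕ → V3) (ρ : ℕ → ℝ) (hρ : ∀ k, 0 < ρ k) :
    ∃ (S : ℕ → Stage) (r e : ℕ → ℝ) (C : ℕ → Set V3) (b : ℕ → V3), (∀ k, (S k).OK) ∧ 0 < r 0 ∧
      ∀ k, Rel k (c k) (ρ k) (S k) (r k) (e k) (C k) (b k) (S (k + 1)) (r (k + 1)) (e (k + 1)) := by
  choose nxt C b hC using seq_next c ρ hρ
  have h0 : seqInv 0 (seqS0, (1 / 2 : ℝ), (1 : ℝ)) := by
    refine ⟨seqS0_ok, by norm_num, ?_, by norm_num, fun h => absurd h (by omega)⟩
    show (1:ℝ) * (1 / 2) < 1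
    norm_num
  obtain ⟨f, hf0, hf⟩ : ∃ f : (k : ℕ) → {s : Stage × ℝ × ℝ // seqInv k s},
      f 0 = ⟨_, h0⟩ ∧ ∀ k, f (k + 1) = nxt k (f k) :=
    ⟨fun k => Nat.rec (motive := fun k => {s : Stage × ℝ × ℝ // seqInv k s}) ⟨_, h0⟩
      (fun k s => nxt k s) k, rfl, fun _ => rfl⟩
  refine ⟨fun k => (f k).1.1, fun k => (f k).1.2.1, fun k => (f k).1.2.2, fun k => C k (f k),
    fun k => b k (f k), fun k => (f k).2.1, (f 0).2.2.1, fun k => ?_⟩
  have := hC k (f k)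
  rw [← hf k] at this
  exact this

end FBH
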