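import Pool.Agent.FBH.Defs
import Pool.Agent.FBH.SeqEx
import Pool.Agent.FBH.ScLimit
import Pool.Agent.FBH.ScInv
import Pool.Agent.FBH.StageF

/-!
LimEx. The limit map. From the sequence of seq_ex the maps `(S k).F` converge, uniformly on every ball, to an entire map `F` with
`‖F x - (S k).F x‖ ≤ 2 e_{k+1}` on `C k`.
Proof. `C k ⊆ ball 0 (r (k+1)) ⊆ C (k+1)`, `r k → ∞`. For `x ∈ C k` and `j ≥ k`: `‖(S (j+1)).F x - (S j).F x‖ ≤ e (j+1) ≤ e (k+1) / 2^(j-k)`. So
the sequence is uniformly Cauchy on `C k` with total error `≤ 2 e (k+1)`. Differentiable: every `x` has a ball inside `C k` for some `k`, where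
all `(S j).F`, `j ≥ k`, are differentiable (stageF_diff and `C j ⊆ Dom`); use sc_limit. By `tolInj` for all `k`: `F` injective, injective derivative, nonzero.
By sc_inv: open map.
-/

set_option autoImplicit false

open Metric Set Filter Topology

namespace FBH

theorem lim_ex (c : ℕ → V3) (ρ : ℕ → ℝ) (S : ℕ → Stage) (r e : ℕ → ℝ) (C : ℕ → Set V3) (b : ℕ → V3)
    (hOK : ∀ k, (S k).OK) (hr : 0 < r 0)
    (h : ∀ k, Rel k (c k) (ρ k) (S k) (r k) (e k) (C k) (b k) (S (k + 1)) (r (k + 1)) (e (k + 1))) :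
    ∃ F : V3 → V3, Differentiable ℂ F ∧ Function.Injective F ∧
      (∀ x, Function.Injective (fderiv ℂ F x)) ∧ (0:V3) ∉ range F ∧ IsOpenMap F ∧
      ∀ k, ∀ x ∈ C k, ‖F x - (S k).F x‖ ≤ 2 * e (k + 1) := by
  have hCsub : ∀ k, C k ⊆ C (k + 1) := by
    intro k x hx
    exact interior_subset ((h (k + 1)).ballC (ball_subset_closedBall ((h k).Cball hx)))
  have hCmono : ∀ k j, k ≤ j → C k ⊆ C j := by
    intro k j hkj
    induction j, hkj using Nat.le_induction with
    | base => exact subset_rfl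
    | succ j _ ih => exact ih.trans (hCsub j)
  have hrk : ∀ k : ℕ, (k : ℝ) < r k := by
    intro k
    induction k with
    | zero => simpa using hr
    | succ k ih =>
      have := (h k).rr
      push_cast
      linarith
  have hepos : ∀ k, 0 < e (k + 1) := fun k => (h k).epos
  have hegeo : ∀ k i : ℕ, e (k + i + 1) ≤ e (k + 1) * (1 / 2) ^ i := by
    intro k i
    induction i with
    | zero => simp
    | succ i ih =>
      have h1 := (h (k + i + 1)).ehalf
      have e1 : k + (i + 1) + 1 = k + i + 1 + 1 := by ring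
      rw [e1, pow_succ]
      linarith
  have hstep : ∀ k, ∀ x ∈ C k, ∀ i : ℕ,
      dist ((S (k + i)).F x) ((S (k + i + 1)).F x) ≤ e (k + 1) * (1 / 2) ^ i := by
    intro k x hx i
    have h1 := (h (k + i)).close x (hCmono k (k + i) (by omega) hx)
    rw [dist_comm, dist_eq_norm]
    exact h1.trans (hegeo k i)
  -- the finite estimate
  have hpart : ∀ k, ∀ x ∈ C k, ∀ n : ℕ,
      dist ((S k).F x) ((S (k + n)).F x) ≤ 2 * e (k + 1) * (1 - (1 / 2) ^ n) := by
    intro k x hx n
    induction n with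
    | zero => simp
    | succ n ih =>
      have h1 := dist_triangle ((S k).F x) ((S (k + n)).F x) ((S (k + (n + 1))).F x)
      have h2 := hstep k x hx n
      have e1 : k + (n + 1) = k + n + 1 := by ring
      rw [e1] at h1 ⊢
      rw [pow_succ]
      nlinarith
  have hpart2 : ∀ k, ∀ x ∈ C k, ∀ n : ℕ, dist ((S k).F x) ((S (k + n)).F x) ≤ 2 * e (k + 1) := by
    intro k x hx n
    refine (hpart k x hx n).trans ?_
    have h1 : (0:ℝ) < (1 / 2) ^ n := by positivity
    nlinarith [hepos k]
  have he0 : Tendsto (fun k => e (k + 1)) atTop (𝓝 0) := by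
    have h1 : ∀ k, e (k + 1) ≤ e 1 * (1 / 2) ^ k := by
      intro k
      have := hegeo 0 k
      simpa using this
    refine squeeze_zero (fun k => (hepos k).le) h1 ?_
    have h2 : Tendsto (fun k : ℕ => ((1:ℝ) / 2) ^ k) atTop (𝓝 0) :=
      tendsto_pow_atTop_nhds_zero_of_lt_one (by norm_num) (by norm_num)
    simpa using h2.const_mul (e 1)
  have hmem : ∀ x : V3, ∃ k, ball x 1 ⊆ C k := by
    intro x
    obtain ⟨k, hk⟩ := exists_nat_ge (‖x‖ + 1)
    refine ⟨k, ?_⟩
    intro y hy
    apply interior_subset ((h k).ballC _)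
    rw [mem_closedBall_zero_iff]
    rw [mem_ball, dist_eq_norm] at hy
    have h1 : ‖y‖ ≤ ‖y - x‖ + ‖x‖ := by
      have := norm_add_le (y - x) x
      simpa using this
    have h2 := hrk k
    linarith
  have hcau : ∀ x : V3, ∃ y, Tendsto (fun j => (S j).F x) atTop (𝓝 y) := by
    intro x
    apply cauchySeq_tendsto_of_complete
    obtain ⟨k, hk⟩ := hmem x
    have hx : x ∈ C k := hk (mem_ball_self one_pos)
    rw [Metric.cauchySeq_iff']
    intro ε hε
    have h1 : ∀ᶠ j in atTop, 2 * e (j + 1) < ε := by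
      have h2 : Tendsto (fun j => 2 * e (j + 1)) atTop (𝓝 (2 * 0)) := he0.const_mul 2
      rw [mul_zero] at h2
      exact h2.eventually_lt_const hε
    obtain ⟨N, hN1, hN2⟩ := (h1.and (eventually_ge_atTop k)).exists
    refine ⟨N, ?_⟩
    intro n hn
    obtain ⟨i, rfl⟩ := Nat.exists_eq_add_of_le hn
    rw [dist_comm]
    exact lt_of_le_of_lt (hpart2 N x (hCmono k N hN2 hx) i) hN1
  choose F hF using hcau
  have hFk : ∀ k, ∀ x ∈ C k, ‖F x - (S k).F x‖ ≤ 2 * e (k + 1) := by
    intro k x hx
    rw [← dist_eq_norm, dist_comm]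
    have h1 : Tendsto (fun n => dist ((S k).F x) ((S (k + n)).F x)) atTop
        (𝓝 (dist ((S k).F x) (F x))) := by
      apply Tendsto.dist tendsto_const_nhds
      have h2 : Tendsto (fun n : ℕ => k + n) atTop atTop :=
        tendsto_atTop_mono (fun n => Nat.le_add_left n k) tendsto_id
      exact (hF x).comp h2
    exact le_of_tendsto' h1 (fun n => hpart2 k x hx n)
  have hdiff : Differentiable ℂ F := by
    intro x
    obtain ⟨k, hk⟩ := hmem x
    apply sc_limit (fun n => (S n).F) F x 1 one_pos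
    · filter_upwards [eventually_ge_atTop k] with j hj
      refine (stageF_diff (hOK j)).mono ?_
      intro y hy
      exact (h j).dom y (hCmono k j hj (hk hy))
    · rw [Metric.tendstoUniformlyOn_iff]
      intro ε hε
      have h1 : ∀ᶠ j in atTop, 2 * e (j + 1) < ε := by
        have h2 : Tendsto (fun j => 2 * e (j + 1)) atTop (𝓝 (2 * 0)) := he0.const_mul 2
        rw [mul_zero] at h2
        exact h2.eventually_lt_const hε
      filter_upwards [h1, eventually_ge_atTop k] with j hj hkj y hy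
      rw [dist_eq_norm]
      exact lt_of_le_of_lt (hFk j y (hCmono k j hkj (hk hy))) hj
  have htol := fun k => (h k).tolInj F hdiff (hFk k)
  have hinj : Function.Injective F := by
    intro x y hxy
    obtain ⟨k, hk⟩ := exists_nat_ge (max ‖x‖ ‖y‖)
    have h2 := hrk k
    have hx : x ∈ closedBall (0:V3) (r k) := by
      rw [mem_closedBall_zero_iff]
      linarith [le_max_left ‖x‖ ‖y‖]
    have hy : y ∈ closedBall (0:V3) (r k) := by
      rw [mem_closedBall_zero_iff]
      linarith [le_max_right ‖x‖ ‖y‖]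
    exact (htol k).1 hx hy hxy
  have himm : ∀ x, Function.Injective (fderiv ℂ F x) := by
    intro x
    obtain ⟨k, hk⟩ := exists_nat_ge ‖x‖
    have h2 := hrk k
    apply (htol k).2.1 x
    rw [mem_ball_zero_iff]
    linarith
  refine ⟨F, hdiff, hinj, himm, ?_, (sc_inv F hdiff hinj himm).1, hFk⟩
  rintro ⟨x, hx⟩
  obtain ⟨k, hk⟩ := hmem x
  exact (htol k).2.2 x (hk (mem_ball_self one_pos)) hx

end FBH
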