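import Pool.Agent.FBH.Defs
import Pool.Agent.FBH.SeqEx
import Pool.Agent.FBH.BallEnum
import Pool.Agent.FBH.LimEx

/-!
Main. The main theorem in the model space `V3`.
Proof. Take balls from ball_enum, the sequence from seq_ex, `F` from lim_ex. Let `E` have the continuity principle, `E` nonempty, disjoint from
`range F`, and let `x ∉ range F`. Suppose `x ∉ E`. `E` closed: `ball x δ ∩ E = ∅` for some `δ > 0`, `δ ≤ 1`. Choose `k` large: `E ∩ closedBall 0 (k+1) ≠ ∅`,
`‖x‖ + 1 ≤ k+1`, `1/(k+1) < δ/2`, `x ∈ closedBall (c k) (ρ k)`, `closedBall (c k) (2 ρ k) ⊆ ball x (δ/2)`. By `tolB` (stage `k`): either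
`closedBall (c k) (ρ k) ⊆ range F`, impossible as `x ∉ range F`, or `b k ∈ ball x (δ/2)`. By `bz`, `((S (k+1)).Φ (b k)).2.2 = 0`, and `tolFat` at
stage `k+1` gives `e ∈ E` with `dist (b k) e < 1/(k+1) < δ/2`. So `dist x e < δ`. Contradiction.
-/

set_option autoImplicit false

open Metric Set Filter Topology

namespace FBH

theorem fb_main : ∃ F : V3 → V3, Differentiable ℂ F ∧ Function.Injective F ∧
    (∀ x, Function.Injective (fderiv ℂ F x)) ∧ range F ≠ univ ∧
    ∀ E : Set V3, CP E → E.Nonempty → Disjoint E (range F) → ∀ x, x ∉ range F → x ∈ E := by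
  obtain ⟨c, ρ, hρ, hb⟩ := ball_enum
  obtain ⟨S, r, e, C, b, hOK, hr, hRel⟩ := seq_ex c ρ hρ
  obtain ⟨F, hF1, hF2, hF3, hF4, hF5, hF6⟩ := lim_ex c ρ S r e C b hOK hr hRel
  refine ⟨F, hF1, hF2, hF3, fun h => hF4 (by rw [h]; trivial), ?_⟩
  intro E hE hne hdis x hx
  by_contra hxE
  have hop : IsOpen Eᶜ := hE.1.isOpen_compl
  obtain ⟨δ, hδ, hball⟩ := Metric.isOpen_iff.1 hop x hxE
  obtain ⟨z, hz⟩ := hne
  obtain ⟨k1, hk1⟩ := exists_nat_gt ‖z‖
  obtain ⟨k2, hk2⟩ := exists_nat_gt (‖x‖ + 1)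
  obtain ⟨k3, hk3⟩ := exists_nat_one_div_lt (show (0:ℝ) < δ / 2 by positivity)
  obtain ⟨k, hk, hxc, hsub⟩ := hb x (min (δ / 2) 1) (by positivity) (k1 + k2 + k3)
  have hkR : ((k1 + k2 + k3 : ℕ) : ℝ) ≤ (k : ℝ) := by exact_mod_cast hk
  push_cast at hkR
  have p1 : (0:ℝ) ≤ k1 := by positivity
  have p2 : (0:ℝ) ≤ k2 := by positivity
  have p3 : (0:ℝ) ≤ k3 := by positivity
  rcases (hRel k).tolB F hF1.continuous hF5 (hF6 k) with h1 | h1
  · exact hx (h1 hxc)
  · have h2 : b k ∈ ball x (min (δ / 2) 1) := hsub h1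
    rw [mem_ball] at h2
    have h3 : dist (b k) x < δ / 2 := lt_of_lt_of_le h2 (min_le_left _ _)
    have h4 : dist (b k) x < 1 := lt_of_lt_of_le h2 (min_le_right _ _)
    have h5 : b k ∈ closedBall (0:V3) ((k + 1 : ℕ) : ℝ) := by
      rw [mem_closedBall, dist_zero_right]
      have h6 : ‖b k‖ ≤ ‖b k - x‖ + ‖x‖ := by
        have := norm_add_le (b k - x) x
        rwa [sub_add_cancel] at this
      rw [← dist_eq_norm] at h6
      push_cast
      linarith
    have h7 : (E ∩ closedBall (0:V3) ((k + 1 : ℕ) : ℝ)).Nonempty := by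
      refine ⟨z, hz, ?_⟩
      rw [mem_closedBall, dist_zero_right]
      push_cast
      linarith
    obtain ⟨w, hw, hw2⟩ := (hRel (k + 1)).tolFat (Nat.succ_pos k) F hF1.continuous hF5 (hF6 (k + 1)) E hE
      hdis h7 (b k) h5 (hRel k).bz
    have h8 : (1:ℝ) / ((k + 1 : ℕ) : ℝ) ≤ 1 / ((k3 : ℝ) + 1) := by
      push_cast
      apply one_div_le_one_div_of_le
      · positivity
      · linarith
    have h9 : dist w x < δ := by
      have := dist_triangle w (b k) x
      rw [dist_comm w (b k)] at this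
      linarith
    exact hball (mem_ball.2 h9) hw

end FBH
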