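import Pool.Agent.FBH.Defs
import Pool.Agent.FBH.HullCP
import Pool.Agent.FBH.CPPre
import Pool.Agent.FBH.ScInv
import Pool.Agent.FBH.Main

/-!
Frozen. The frozen statement (negation): transfer to `Fin 3 → ℂ` by a linear isomorphism.
Proof. Let `L : V3 ≃L[ℂ] (Fin 3 → ℂ)` be `(a,(z,w)) ↦ ![a,z,w]`. `Ω = L '' range F`, `F₃ = L ∘ F ∘ L⁻¹`, `G₃ = L ∘ G ∘ L⁻¹` with `G` from sc_inv.
If `Ω'` were as in the statement, `E = (Ω')ᶜ` has CP by cp_of_hull, `E₃ = L ⁻¹' E` has CP by cp_preimage, is nonempty and disjoint from `range F`. For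
`y ∈ Ω' \ Ω` (exists since `Ω ⊂ Ω'`), `L⁻¹ y ∉ range F`, so `L⁻¹ y ∈ E₃`, i.e. `y ∉ Ω'`. Contradiction.
-/

set_option autoImplicit false

open Metric Set Filter Topology

namespace FBH

/-- the coordinates -/
noncomputable def Frozen_to (p : V3) : Fin 3 → ℂ := ![p.1, p.2.1, p.2.2]

/-- the inverse coordinates -/
noncomputable def Frozen_of (q : Fin 3 → ℂ) : V3 := (q 0, (q 1, q 2))

theorem Frozen_of_to (p : V3) : Frozen_of (Frozen_to p) = p := by
  simp [Frozen_of, Frozen_to]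

theorem Frozen_to_of (q : Fin 3 → ℂ) : Frozen_to (Frozen_of q) = q := by
  funext i
  fin_cases i <;> simp [Frozen_of, Frozen_to]

theorem Frozen_dto : Differentiable ℂ Frozen_to := by
  rw [differentiable_pi]
  intro i
  fin_cases i
  · exact (differentiable_fst : Differentiable ℂ (fun p : V3 => p.1))
  · exact ((differentiable_fst : Differentiable ℂ (fun p : V2 => p.1)).comp
      (differentiable_snd : Differentiable ℂ (fun p : V3 => p.2)))
  · exact ((differentiable_snd : Differentiable ℂ (fun p : V2 => p.2)).comp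
      (differentiable_snd : Differentiable ℂ (fun p : V3 => p.2)))

theorem Frozen_dof : Differentiable ℂ Frozen_of := by
  unfold Frozen_of
  exact (differentiable_apply 0).prodMk ((differentiable_apply 1).prodMk (differentiable_apply 2))

theorem frozen_thm :
    ¬ (∀ (n : ℕ), 2 ≤ n → ∀ Ω : Set (Fin n → ℂ),
      IsOpen Ω →
      (∃ F G : (Fin n → ℂ) → (Fin n → ℂ),
          Differentiable ℂ F ∧ DifferentiableOn ℂ G Ω ∧ Set.range F = Ω ∧
            ∀ z, G (F z) = z) →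
      Ω ≠ Set.univ →
      ∃ Ω' : Set (Fin n → ℂ), IsOpen Ω' ∧ IsConnected Ω' ∧ Ω ⊂ Ω' ∧ Ω' ≠ Set.univ ∧
        ∀ K : Set (Fin n → ℂ), IsCompact K → K ⊆ Ω' →
          IsCompact {z | z ∈ Ω' ∧ ∀ f : (Fin n → ℂ) → ℂ, DifferentiableOn ℂ f Ω' →
            ∀ c : ℝ, (∀ w ∈ K, ‖f w‖ ≤ c) → ‖f z‖ ≤ c}) := by
  intro H
  obtain ⟨F, hFd, hFi, hFm, hFn, hFE⟩ := fb_main
  obtain ⟨hFo, G, hG, hGF⟩ := sc_inv F hFd hFi hFm
  have hmem : ∀ y : Fin 3 → ℂ, y ∈ Frozen_of ⁻¹' (range F) ↔ Frozen_of y ∈ range F := fun y => Iff.rfl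
  obtain ⟨D, hDo, -, hΩD, hDn, hull⟩ := H 3 (by norm_num) (Frozen_of ⁻¹' (range F))
    (hFo.isOpen_range.preimage Frozen_dof.continuous)
    ⟨fun z => Frozen_to (F (Frozen_of z)), fun z => Frozen_to (G (Frozen_of z)),
      Frozen_dto.comp (hFd.comp Frozen_dof),
      Frozen_dto.comp_differentiableOn (hG.comp Frozen_dof.differentiableOn (fun z hz => hz)), by
        ext y
        rw [hmem]
        constructor
        · rintro ⟨z, rfl⟩
          exact ⟨Frozen_of z, (Frozen_of_to _).symm⟩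
        · rintro ⟨x, hx⟩
          refine ⟨Frozen_to x, ?_⟩
          show Frozen_to (F (Frozen_of (Frozen_to x))) = y
          rw [Frozen_of_to, hx, Frozen_to_of], by
        intro z
        show Frozen_to (G (Frozen_of (Frozen_to (F (Frozen_of z))))) = z
        rw [Frozen_of_to, hGF, Frozen_to_of]⟩ (by
        intro h
        apply hFn
        rw [eq_univ_iff_forall] at h ⊢
        intro x
        have := h (Frozen_to x)
        rwa [hmem, Frozen_of_to] at this)
  have hCP : CP (Frozen_to ⁻¹' Dᶜ) := cp_preimage Frozen_to Frozen_dto (cp_of_hull D hDo hull)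
  have hne : (Frozen_to ⁻¹' Dᶜ).Nonempty := by
    obtain ⟨y, hy⟩ := (ne_univ_iff_exists_notMem D).1 hDn
    refine ⟨Frozen_of y, ?_⟩
    show Frozen_to (Frozen_of y) ∈ Dᶜ
    rw [Frozen_to_of]
    exact hy
  have hdis : Disjoint (Frozen_to ⁻¹' Dᶜ) (range F) := by
    rw [Set.disjoint_left]
    intro x hx hxF
    apply hx
    apply hΩD.1
    rw [hmem, Frozen_of_to]
    exact hxF
  obtain ⟨y, hyD, hyΩ⟩ := exists_of_ssubset hΩD
  have h1 := hFE _ hCP hne hdis (Frozen_of y) (fun h => hyΩ h)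
  have h2 : Frozen_to (Frozen_of y) ∈ Dᶜ := h1
  rw [Frozen_to_of] at h2
  exact h2 hyD

end FBH
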